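import Pool.Agent.W602.GT.MordDefs
import Pool.Agent.W602.GT.SpDefs

/-!
Points of projective varieties which are given by their generic points.
-/

set_option autoImplicit false

namespace Pool.Agent.N133.Pt

open MvPolynomial Pool.Agent.W602.GT

variable {k : Type} [Field k] [IsAlgClosed k] {L : Type} [Field L] [Algebra k L] {M : ℕ}

/-- the affine cone over the variety -/
noncomputable def cone (y : Fin (M + 1) → L) : MvPolynomial (Fin (M + 1)) k →ₐ[k] Polynomial L :=
  aeval fun i => Polynomial.C (y i) * Polynomial.X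

theorem cone_form (y : Fin (M + 1) → L) {G : MvPolynomial (Fin (M + 1)) k} {d : ℕ}
    (hG : G.IsHomogeneous d) : cone y G = Polynomial.C (val y G) * Polynomial.X ^ d := by
  unfold cone val
  rw [aeval_def, aeval_def, eval₂_eq', eval₂_eq', map_sum, Finset.sum_mul]
  refine Finset.sum_congr rfl fun α hα => ?_
  have h1 : ∑ i, α i = d := by
    have := hG (mem_support_iff.1 hα)
    rw [← this, Finsupp.weight_apply, Finsupp.sum_fintype _ _ (by simp)]
    simp
  rw [← h1, ← Finset.prod_pow_eq_pow_sum, map_mul, map_prod, mul_assoc, ← Finset.prod_mul_distrib]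
  congr 1
  exact Finset.prod_congr rfl fun i _ => by rw [mul_pow, map_pow]

/-- there are points where a given form, nonzero at the generic point, does not vanish -/
theorem exists_varPt {y : Fin (M + 1) → L} (hy : y ≠ 0) {R : MvPolynomial (Fin (M + 1)) k}
    (hR : IsForm R) (hRy : val y R ≠ 0) : ∃ p ∈ VarPts k y, val p R ≠ 0 := by
  obtain ⟨i0, hi0⟩ : ∃ i0, y i0 ≠ 0 := Function.ne_iff.1 hy
  obtain ⟨d, hd⟩ := hR
  set P : Ideal (MvPolynomial (Fin (M + 1)) k) := RingHom.ker (cone (k := k) y) with hP
  have hprime : P.IsPrime := RingHom.ker_isPrime _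
  have hg : R * X i0 ∉ P := by
    intro h
    have h1 : cone y (R * X i0) = 0 := h
    rw [map_mul, cone_form y hd, cone_form y (isHomogeneous_X k i0)] at h1
    have h2 : Polynomial.C (val y R) * Polynomial.X ^ d ≠ (0 : Polynomial L) :=
      mul_ne_zero (by simpa using hRy) (pow_ne_zero _ Polynomial.X_ne_zero)
    have h3 : Polynomial.C (val (k := k) y (X i0)) * Polynomial.X ^ 1 ≠ (0 : Polynomial L) := by
      refine mul_ne_zero ?_ (pow_ne_zero _ Polynomial.X_ne_zero)
      unfold val
      rw [aeval_X]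
      simpa using hi0
    exact mul_ne_zero h2 h3 h1
  obtain ⟨p, hp1, hp2⟩ : ∃ x : Fin (M + 1) → k, (∀ H ∈ P, eval x H = 0) ∧
      eval x (R * X i0) ≠ 0 := by
    by_contra hcon
    push Not at hcon
    apply hg
    rw [← hprime.radical, ← vanishingIdeal_zeroLocus_eq_radical (K := k)]
    intro x hx
    exact hcon x (fun H hH => hx H hH)
  rw [map_mul, eval_X] at hp2
  refine ⟨p, ⟨?_, ?_⟩, ?_⟩
  · rintro rfl
    exact hp2 (by simp)
  · rintro G ⟨e, he⟩ hGy
    unfold val
    rw [aeval_eq_eval]
    refine hp1 G ?_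
    have h1 : cone y G = 0 := by rw [cone_form y he, hGy, map_zero, zero_mul]
    exact h1
  · unfold val
    rw [aeval_eq_eval]
    exact left_ne_zero_of_mul hp2

end Pool.Agent.N133.Pt
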