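import Pool.Agent.N133.KB

/-!
Birational invariance of pseudo-Brody hyperbolicity.
-/

set_option autoImplicit false

namespace Pool.Agent.N133.KB

open MvPolynomial Filter Topology Set Pool.Agent.N133.WZ
open Pool.Agent.Y824.FG (clear homog Sp Sp.ratio common)
open Pool.Agent.W602.GT (val IsForm coords)
open Pool.Agent.Y221.BD (PseudoBrody EntireCurve)

theorem affine_gen {L : Type} [Field L] [Algebra ℂ L] {N : ℕ} {y : Fin (N + 1) → L}
    (hgen : coords ℂ y = ⊤) {i0 : Fin (N + 1)} (hi0 : y i0 ≠ 0) :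
    IntermediateField.adjoin ℂ (Set.range fun i => y i / y i0) = ⊤ := by
  rw [eq_top_iff, ← hgen]
  unfold coords
  rw [IntermediateField.adjoin_le_iff]
  rintro z ⟨i, j, hj, rfl⟩
  have e : y i / y j = (fun i => y i / y i0) i / (fun i => y i / y i0) j := by
    simp only
    field_simp
  rw [e]
  exact div_mem (IntermediateField.subset_adjoin _ _ ⟨i, rfl⟩)
    (IntermediateField.subset_adjoin _ _ ⟨j, rfl⟩)

/-- **Birational invariance** of pseudo-Brody hyperbolicity. -/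
theorem brody_bir {L : Type} [Field L] [Algebra ℂ L] {M : ℕ} {x : Fin (M + 1) → L} (hx : x ≠ 0)
    (hgenx : coords ℂ x = ⊤) (hB : PseudoBrody x) {N : ℕ} {y : Fin (N + 1) → L} (hy : y ≠ 0)
    (hgen : coords ℂ y = ⊤) : PseudoBrody y := by
  classical
  obtain ⟨B0, ⟨D, hB0⟩, hB0ne, hcurve⟩ := hB
  obtain ⟨i0, hi0⟩ : ∃ i0, y i0 ≠ 0 := Function.ne_iff.1 hy
  obtain ⟨l0, hl0⟩ : ∃ l0, x l0 ≠ 0 := Function.ne_iff.1 hx
  -- the affine coordinates
  set y' : Fin (N + 1) → L := fun i => y i / y i0 with hy'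
  have hy'gen : IntermediateField.adjoin ℂ (Set.range y') = ⊤ := affine_gen hgen hi0
  set x' : Fin (M + 1) → L := fun i => x i / x l0 with hx'
  have hx'gen : IntermediateField.adjoin ℂ (Set.range x') = ⊤ := affine_gen hgenx hl0
  have hxt : ∀ (B : MvPolynomial (Fin (M + 1)) ℂ) (D : ℕ), B.IsHomogeneous D →
      aeval x B = x l0 ^ D * aeval x' B := by
    intro B D hB
    have h1 := Pool.Agent.W602.GT.val_smul hB (x l0) x'
    unfold val at h1
    rw [← h1]
    congr 1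
    congr 1
    funext i
    simp only [hx']
    field_simp
  obtain ⟨Q, R, hQ, hR⟩ := common y' hy'gen x'
  obtain ⟨Q2, R2, hQ2, hR2⟩ := common x' hx'gen y'
  have hxR : (fun a => aeval y' (R a) / aeval y' Q) = x' := funext fun a => (hR a).symm
  obtain ⟨K0, B0', hB0'⟩ := clear Q R B0
  obtain ⟨K2, Q2', hQ2'⟩ := clear Q R Q2
  obtain ⟨KH, H, hHh, hH⟩ := homog i0 (Q * B0' * Q2')
  refine ⟨MvPolynomial.X i0 * H, ⟨1 + KH, (isHomogeneous_X _ _).mul hHh⟩, ?_, ?_⟩
  · unfold val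
    rw [map_mul, aeval_X, hH L y hi0]
    refine mul_ne_zero hi0 (mul_ne_zero (pow_ne_zero _ hi0) ?_)
    change aeval y' (Q * B0' * Q2') ≠ 0
    rw [map_mul, map_mul, hB0' L y' hQ, hQ2' L y' hQ, hxR]
    refine mul_ne_zero (mul_ne_zero hQ (mul_ne_zero (pow_ne_zero _ hQ) ?_))
      (mul_ne_zero (pow_ne_zero _ hQ) hQ2)
    intro h
    apply hB0ne
    unfold val
    rw [hxt B0 D hB0, h, mul_zero]
  intro f hf
  by_contra hcon
  push Not at hcon
  obtain ⟨τ0, hτ0⟩ := hcon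
  set A : ℂ → ℂ := fun τ => eval (fun i => f i τ) (MvPolynomial.X i0 * H) with hAdef
  have hA : Differentiable ℂ A := diff_eval hf.hol _
  have hA0 : A τ0 ≠ 0 := hτ0
  -- the good points
  let f' : ℂ → Fin (N + 1) → ℂ := fun τ i => f i τ / f i0 τ
  have hfi0 : ∀ τ, A τ ≠ 0 → f i0 τ ≠ 0 := by
    intro τ hτ
    have h1 : A τ = f i0 τ * eval (fun i => f i τ) H := by simp [hAdef]
    rw [h1] at hτ
    exact left_ne_zero_of_mul hτ
  have hprod : ∀ τ, A τ ≠ 0 → aeval (f' τ) (Q * B0' * Q2') ≠ 0 := by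
    intro τ hτ
    have h1 : A τ = f i0 τ * eval (fun i => f i τ) H := by simp [hAdef]
    rw [h1] at hτ
    have h2 := right_ne_zero_of_mul hτ
    have h3 := hH ℂ (fun i => f i τ) (left_ne_zero_of_mul hτ)
    rw [aeval_id] at h3
    rw [h3] at h2
    exact right_ne_zero_of_mul h2
  have hQf : ∀ τ, A τ ≠ 0 → aeval (f' τ) Q ≠ 0 := by
    intro τ hτ
    have h1 := hprod τ hτ
    rw [map_mul, map_mul] at h1
    exact left_ne_zero_of_mul (left_ne_zero_of_mul h1)
  let z : ℂ → Fin (M + 1) → ℂ := fun τ a => aeval (f' τ) (R a) / aeval (f' τ) Q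
  have hBz : ∀ τ, A τ ≠ 0 → aeval (z τ) B0 ≠ 0 := by
    intro τ hτ
    have h1 := hprod τ hτ
    rw [map_mul, map_mul] at h1
    have h2 := right_ne_zero_of_mul (left_ne_zero_of_mul h1)
    rw [hB0' ℂ (f' τ) (hQf τ hτ)] at h2
    exact right_ne_zero_of_mul h2
  have hQz : ∀ τ, A τ ≠ 0 → aeval (z τ) Q2 ≠ 0 := by
    intro τ hτ
    have h1 := hprod τ hτ
    rw [map_mul, map_mul] at h1
    have h2 := right_ne_zero_of_mul h1
    rw [hQ2' ℂ (f' τ) (hQf τ hτ)] at h2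
    exact right_ne_zero_of_mul h2
  have hsp : ∀ τ, A τ ≠ 0 → Sp y' (f' τ) := by
    intro τ hτ P hP
    obtain ⟨K, P', g, hP'⟩ := homog i0 P
    have h1 : val y P' = 0 := by
      unfold val
      rw [hP' L y hi0]
      change y i0 ^ K * aeval y' P = 0
      rw [hP, mul_zero]
    have h2 := hf.mem P' ⟨K, g⟩ h1 τ
    have h3 := hP' ℂ (fun i => f i τ) (hfi0 τ hτ)
    rw [aeval_id, h2] at h3
    exact (mul_eq_zero.1 h3.symm).resolve_left (pow_ne_zero _ (hfi0 τ hτ))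
  have hspz : ∀ τ, A τ ≠ 0 → Sp x' (z τ) := by
    intro τ hτ
    have h2 := (hsp τ hτ).ratio Q R hQ (hQf τ hτ)
    rw [hxR] at h2
    exact h2
  -- the direct map
  have hdir : ∀ τ, A τ ≠ 0 → ∀ i, aeval (z τ) Q2 * f' τ i = aeval (z τ) (R2 i) := by
    intro τ hτ i
    obtain ⟨K3, R3, hR3⟩ := clear Q R (R2 i)
    have h2 : aeval y' (Q ^ K3 * Q2' * MvPolynomial.X i - Q ^ K2 * R3) = 0 := by
      rw [map_sub, map_mul, map_mul, map_mul, map_pow, map_pow, aeval_X, hQ2' L y' hQ,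
        hR3 L y' hQ, hxR, hR2 i]
      field_simp
      ring
    have h3 := hsp τ hτ _ h2
    rw [map_sub, map_mul, map_mul, map_mul, map_pow, map_pow, aeval_X, hQ2' ℂ (f' τ) (hQf τ hτ),
      hR3 ℂ (f' τ) (hQf τ hτ)] at h3
    have h4 : aeval (f' τ) Q ^ (K3 + K2) * (aeval (z τ) Q2 * f' τ i - aeval (z τ) (R2 i)) = 0 := by
      rw [← h3]
      ring
    exact sub_eq_zero.1 ((mul_eq_zero.1 h4).resolve_left (pow_ne_zero _ (hQf τ hτ)))
  have hz0 : ∀ τ, A τ ≠ 0 → z τ l0 = 1 := by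
    intro τ hτ
    have h2 : aeval x' (MvPolynomial.X l0 - 1 : MvPolynomial (Fin (M + 1)) ℂ) = 0 := by
      rw [map_sub, aeval_X, map_one]
      simp only [hx']
      rw [div_self hl0, sub_self]
    have h3 := hspz τ hτ _ h2
    rw [map_sub, aeval_X, map_one] at h3
    exact sub_eq_zero.1 h3
  -- homogenization
  choose KR Rh _ hRh using fun a => homog i0 (R a)
  obtain ⟨KQ, Qh, -, hQh⟩ := homog i0 Q
  have hRe : ∀ τ, A τ ≠ 0 → ∀ a, eval (fun i => f i τ) (Rh a) =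
      f i0 τ ^ KR a * aeval (f' τ) (R a) := by
    intro τ hτ a
    have := hRh a ℂ (fun i => f i τ) (hfi0 τ hτ)
    rwa [aeval_id] at this
  set KS : ℕ := ∑ i : Fin (M + 1), KR i with hKS
  have hKle : ∀ i : Fin (M + 1), KR i ≤ KS := fun i =>
    Finset.single_le_sum (f := fun i : Fin (M + 1) => KR i) (fun _ _ => Nat.zero_le _)
      (Finset.mem_univ i)
  let u : Fin (M + 1) → ℂ → ℂ := fun i τ =>
    f i0 τ ^ (KQ + (KS - KR i)) * eval (fun k => f k τ) (Rh i)
  have hu : ∀ i, Differentiable ℂ (u i) := fun i =>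
    ((hf.hol i0).pow _).mul (diff_eval hf.hol _)
  let lam : ℂ → ℂ := fun τ => f i0 τ ^ (KQ + KS) * aeval (f' τ) Q
  have hlam : ∀ τ, A τ ≠ 0 → lam τ ≠ 0 := fun τ hτ =>
    mul_ne_zero (pow_ne_zero _ (hfi0 τ hτ)) (hQf τ hτ)
  have hul : ∀ τ, A τ ≠ 0 → ∀ i, u i τ = lam τ * z τ i := by
    intro τ hτ i
    change f i0 τ ^ (KQ + (KS - KR i)) * eval (fun k => f k τ) (Rh i) =
      f i0 τ ^ (KQ + KS) * aeval (f' τ) Q * (aeval (f' τ) (R i) / aeval (f' τ) Q)
    rw [hRe τ hτ, ← mul_assoc, ← pow_add]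
    have h1 : KQ + (KS - KR i) + KR i = KQ + KS := by
      have := hKle i
      omega
    rw [h1]
    have h2 := hQf τ hτ
    field_simp
  have hu00 : u l0 τ0 ≠ 0 := by
    rw [hul τ0 hA0 l0, hz0 τ0 hA0, mul_one]
    exact hlam τ0 hA0
  obtain ⟨g, u', hg, hu', hfac, hncz⟩ := reduce u hu hu00
  have hu'0 : ∀ τ, A τ ≠ 0 → u' l0 τ ≠ 0 := by
    intro τ hτ h0
    have h1 := hfac l0 τ
    rw [h0, mul_zero, hul τ hτ l0, hz0 τ hτ, mul_one] at h1
    exact hlam τ hτ h1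
  have hu'z : ∀ τ, A τ ≠ 0 → ∀ i, u' i τ = u' l0 τ * z τ i := by
    intro τ hτ i
    have h1 := hfac l0 τ
    have h2 := hfac i τ
    rw [hul τ hτ, hz0 τ hτ, mul_one] at h1
    rw [hul τ hτ, h1] at h2
    have hg0 : g τ ≠ 0 := by
      intro h0
      rw [h0, zero_mul] at h1
      exact hlam τ hτ h1
    have h3 : g τ * (u' i τ - u' l0 τ * z τ i) = 0 := by
      linear_combination -h2
    exact sub_eq_zero.1 ((mul_eq_zero.1 h3).resolve_left hg0)
  have hval : ∀ τ, A τ ≠ 0 → ∀ (B : MvPolynomial (Fin (M + 1)) ℂ) (D : ℕ), B.IsHomogeneous D →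
      eval (fun i => u' i τ) B = u' l0 τ ^ D * aeval (z τ) B := by
    intro τ hτ B D hB
    have h1 := Pool.Agent.W602.GT.val_smul hB (u' l0 τ) (z τ)
    unfold val at h1
    rw [← h1, aeval_id]
    congr 2
    funext i
    exact hu'z τ hτ i
  have hent : u' l0 τ0 ≠ 0 ∧ EntireCurve x u' := by
    refine ⟨hu'0 τ0 hA0, hu', hncz, ?_, ?_⟩
    · rintro B ⟨D, hB⟩ hB0 τ
      refine eq_of_ne hA hA0 (diff_eval hu' B).continuous continuous_const (fun τ hτ => ?_) τ
      rw [hval τ hτ B D hB]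
      unfold val at hB0
      rw [hxt B D hB] at hB0
      rw [hspz τ hτ B ((mul_eq_zero.1 hB0).resolve_left (pow_ne_zero _ hl0)), mul_zero]
    · by_contra hconst
      push Not at hconst
      have hzc : ∀ τ τ', A τ ≠ 0 → A τ' ≠ 0 → z τ = z τ' := by
        intro τ τ' hτ hτ'
        funext i
        have h1 := hconst i l0 τ τ'
        rw [hu'z τ hτ i, hu'z τ' hτ' i] at h1
        have h2 : u' l0 τ * u' l0 τ' * (z τ i - z τ' i) = 0 := by linear_combination h1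
        exact sub_eq_zero.1 ((mul_eq_zero.1 h2).resolve_left
          (mul_ne_zero (hu'0 τ hτ) (hu'0 τ' hτ')))
      have hfc : ∀ τ τ', A τ ≠ 0 → A τ' ≠ 0 → ∀ i, f i τ * f i0 τ' = f i τ' * f i0 τ := by
        intro τ τ' hτ hτ' i
        have h1 := hdir τ hτ i
        have h2 := hdir τ' hτ' i
        rw [hzc τ τ' hτ hτ'] at h1
        have h3 : f' τ i = f' τ' i := by
          rw [← h2] at h1
          exact mul_left_cancel₀ (hQz τ' hτ') h1
        have h4 := hfi0 τ hτ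
        have h5 := hfi0 τ' hτ'
        change f i τ / f i0 τ = f i τ' / f i0 τ' at h3
        rw [div_eq_div_iff h4 h5] at h3
        exact h3
      obtain ⟨i, j, a, b, hab⟩ := hf.nonconst
      apply hab
      have hgood : ∀ τ τ', A τ ≠ 0 → A τ' ≠ 0 → f i τ * f j τ' = f j τ * f i τ' := by
        intro τ τ' hτ hτ'
        have h1 := hfc τ τ' hτ hτ' i
        have h2 := hfc τ τ' hτ hτ' j
        have h4 := hfi0 τ hτ
        have h5 := hfi0 τ' hτ'
        have h6 : f i0 τ * f i0 τ' * (f i τ * f j τ' - f j τ * f i τ') = 0 := by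
          linear_combination (f j τ' * f i0 τ) * h1 - (f i τ' * f i0 τ) * h2
        exact sub_eq_zero.1 ((mul_eq_zero.1 h6).resolve_left (mul_ne_zero h4 h5))
      have c1 := (hf.hol i).continuous
      have c2 := (hf.hol j).continuous
      have h1 : ∀ τ, A τ ≠ 0 → ∀ τ', f i τ * f j τ' = f j τ * f i τ' := fun τ hτ τ' =>
        eq_of_ne hA hA0 (c2.const_mul (f i τ)) (c1.const_mul (f j τ))
          (fun τ' hτ' => hgood τ τ' hτ hτ') τ'
      exact eq_of_ne hA hA0 (f := fun τ => f i τ * f j b) (g := fun τ => f j τ * f i b)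
        (c1.mul_const _) (c2.mul_const _) (fun τ hτ => h1 τ hτ b) a
  have h1 := hcurve _ hent.2 τ0
  rw [hval τ0 hA0 B0 D hB0] at h1
  exact mul_ne_zero (pow_ne_zero _ hent.1) (hBz τ0 hA0) h1

end Pool.Agent.N133.KB
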