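import Pool.Agent.W300.PG.TRGE
import Pool.Agent.R885.Top
import Pool.Agent.W619.TW.CP
import Pool.Agent.W619.Y.Eqv
import Pool.Agent.W602.GT.PsefDefs

/-!
Kodaira's lemma for the canonical class of a function field, and its consequences: the conjecture of
Campana and Peternell, and the bigness of the divisors `L` with `m L - K` pseudo-effective, if the
canonical class is big.
-/

set_option autoImplicit false
set_option linter.overlappingInstances false

open FF Pool.Agent.W602.GT Pool.Agent.W603.LV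

namespace Pool.Agent.N133.Big

section

variable {k K : Type} [Field k] [Field K] [Algebra k K]

/-- the poles of polynomials in `f` are bounded by those of the `f i` -/
theorem ge_adjoin {w : ℕ} {f : Fin w → K} {x : K}
    (hx : x ∈ Algebra.adjoin k (Set.range f)) :
    ∃ E : ℕ, ∀ (P : Place k K) (μ : ℤ), μ ≤ 0 → (∀ i, Ge P μ (f i)) → Ge P (E * μ) x := by
  induction hx using Algebra.adjoin_induction with
  | mem x hx =>
    obtain ⟨i, rfl⟩ := hx
    exact ⟨1, fun P μ _ h => by simpa using h i⟩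
  | algebraMap r => exact ⟨0, fun P μ _ _ => by simpa using Ge.const (P := P) r⟩
  | add x y _ _ hx hy =>
    obtain ⟨E1, h1⟩ := hx
    obtain ⟨E2, h2⟩ := hy
    refine ⟨E1 + E2, fun P μ hμ h => ((h1 P μ hμ h).mono ?_).add ((h2 P μ hμ h).mono ?_)⟩
    · push_cast
      nlinarith [mul_nonneg (Int.natCast_nonneg E2) (neg_nonneg.2 hμ)]
    · push_cast
      nlinarith [mul_nonneg (Int.natCast_nonneg E1) (neg_nonneg.2 hμ)]
  | mul x y _ _ hx hy =>
    obtain ⟨E1, h1⟩ := hx
    obtain ⟨E2, h2⟩ := hy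
    refine ⟨E1 + E2, fun P μ hμ h => ?_⟩
    have h3 := (h1 P μ hμ h).mul (h2 P μ hμ h)
    rwa [← add_mul, ← Nat.cast_add] at h3

theorem ge_integral {w : ℕ} {f : Fin w → K} {x : K}
    (hx : IsIntegral (Algebra.adjoin k (Set.range f)) x) :
    ∃ E : ℕ, ∀ (P : Place k K) (μ : ℤ), μ ≤ 0 → (∀ i, Ge P μ (f i)) → Ge P (E * μ) x := by
  obtain ⟨p, hp, hpx⟩ := hx
  choose E hE using fun i : ℕ => ge_adjoin (k := k) (f := f) (x := (p.coeff i : K)) (p.coeff i).2
  refine ⟨∑ i ∈ Finset.range p.natDegree, E i, fun P μ hμ h => ?_⟩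
  set T : ℕ := ∑ i ∈ Finset.range p.natDegree, E i with hT
  by_contra hcon
  unfold Ge at hcon
  push Not at hcon
  obtain ⟨hx0, hlt⟩ := hcon
  have hTμ : (T : ℤ) * μ ≤ 0 := mul_nonpos_of_nonneg_of_nonpos (Int.natCast_nonneg _) hμ
  have hneg : P.ord x < 0 := lt_of_lt_of_le hlt hTμ
  rw [Polynomial.eval₂_eq_sum_range, Finset.sum_range_succ, hp.coeff_natDegree, map_one,
    one_mul] at hpx
  have h1 : Ge P (p.natDegree * P.ord x + 1) (∑ i ∈ Finset.range p.natDegree,
      algebraMap (Algebra.adjoin k (Set.range f)) K (p.coeff i) * x ^ i) := by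
    refine Ge.sum _ _ fun i hi => ?_
    have h2 : Ge P (T * μ) (algebraMap (Algebra.adjoin k (Set.range f)) K (p.coeff i)) := by
      refine (hE i P μ hμ h).mono ?_
      have h3 : E i ≤ T := Finset.single_le_sum (f := E) (fun _ _ => Nat.zero_le _) hi
      have h4 : (E i : ℤ) ≤ T := by exact_mod_cast h3
      nlinarith
    have h3 : Ge P (i * P.ord x) (x ^ i) := (show Ge P (P.ord x) x from Or.inr le_rfl).pow i
    refine (h2.mul h3).mono ?_
    have h4 : (i : ℤ) + 1 ≤ p.natDegree := by exact_mod_cast Finset.mem_range.1 hi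
    nlinarith
  have h2 : x ^ p.natDegree = -∑ i ∈ Finset.range p.natDegree,
      algebraMap (Algebra.adjoin k (Set.range f)) K (p.coeff i) * x ^ i := by
    linear_combination hpx
  have h3 := h1.neg
  rw [← h2] at h3
  rcases h3 with h3 | h3
  · exact pow_ne_zero _ hx0 h3
  · rw [P.ord_pow] at h3
    omega

/-- a frame: the pluricanonical forms are determined by one value -/
theorem exists_frame [CharZero k] {w : ℕ} (hw : Algebra.trdeg k K = w) :
    ∃ (E : Fin w → Derivation k K K) (Δ : (Fin w → Derivation k K K) → K),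
      ∀ (N : ℕ) (ω : (Fin w → Derivation k K K) → K), IsPluri N ω → ∀ D, ω D = Δ D ^ N * ω E := by
  obtain ⟨x, hx⟩ := Pool.Agent.W619.Y.exists_fin_basis (k := k) w hw
  obtain ⟨E, hE⟩ := exists_dual hx
  refine ⟨E, fun D => (Matrix.of fun i j => D i (x j)).det, fun N ω hω D => ?_⟩
  rw [← hω]
  congr 1
  funext i
  apply der_ext x hx
  intro l
  have h0 : ∀ s : Finset (Fin w), (∑ j ∈ s, (Matrix.of fun i j => D i (x j)) i j • E j) (x l) =
      ∑ j ∈ s, D i (x j) * E j (x l) := by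
    intro s
    induction s using Finset.induction_on with
    | empty => simp
    | insert b s hb ih =>
      rw [Finset.sum_insert hb, Finset.sum_insert hb, Derivation.add_apply, ih,
        Derivation.smul_apply, smul_eq_mul, Matrix.of_apply]
  rw [h0]
  have h1 : ∀ j, E j (x l) = (1 : Matrix (Fin w) (Fin w) K) j l := fun j => by
    rw [← hE, Matrix.of_apply]
  simp only [h1, Matrix.one_apply, mul_ite, mul_one, mul_zero, Finset.sum_ite_eq',
    Finset.mem_univ, if_true]

/-- **Kodaira's lemma.** If the canonical class is big then a multiple of it minus a given divisor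
(generated by the finite set `S`) is effective. -/
theorem kodaira [CharZero k] {w : ℕ} (hgt : GeneralType k K w) (S : Finset K) :
    ∃ M : ℕ, 1 ≤ M ∧ ∃ γ : (Fin w → Derivation k K K) → K, IsPluri M γ ∧ (∃ D, γ D ≠ 0) ∧
      ∀ P : Place k K, Divisorial w P → ∀ D : Fin w → Derivation k K K, (∀ i, DerReg P (D i)) →
        ∀ s ∈ S, P.Reg (γ D * s) := by
  classical
  obtain ⟨htr, N, hN, ω, hω, hreg, D0, hD0, hind⟩ := hgt
  obtain ⟨E, Δ, hΔ⟩ := exists_frame (K := K) htr
  set f : Fin w → K := fun i => ω i.succ D0 / ω 0 D0 with hf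
  have hratio : ∀ D i, ω i.succ D = f i * ω 0 D := by
    intro D i
    have h1 := hΔ N _ (hω i.succ)
    have h2 := hΔ N _ (hω 0)
    have h3 : Δ D0 ^ N ≠ 0 := fun h => hD0 (by rw [h2 D0, h, zero_mul])
    have h4 : ω 0 E ≠ 0 := fun h => hD0 (by rw [h2 D0, h, mul_zero])
    simp only [hf]
    rw [h1 D, h2 D, h1 D0, h2 D0]
    field_simp
  have hTB : IsTranscendenceBasis k f := by
    refine hind.isTranscendenceBasis_of_lift_trdeg_le_of_finite ?_
    rw [htr]
    simp
  have halg : Algebra.IsAlgebraic (Algebra.adjoin k (Set.range f)) K := hTB.isAlgebraic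
  obtain ⟨a, ha0, ha⟩ := Algebra.IsAlgebraic.exists_integral_multiples
    (R := Algebra.adjoin k (Set.range f)) S
  obtain ⟨T, hT⟩ : ∃ T : ℕ, ∀ s ∈ S, ∀ (P : Place k K) (μ : ℤ), μ ≤ 0 →
      (∀ i, Ge P μ (f i)) → Ge P (T * μ) ((a : K) * s) := by
    have h1 : ∀ s : S, ∃ E : ℕ, ∀ (P : Place k K) (μ : ℤ), μ ≤ 0 →
        (∀ i, Ge P μ (f i)) → Ge P (E * μ) ((a : K) * s) := by
      intro s
      have h2 := ha s s.2
      rw [Algebra.smul_def] at h2
      exact ge_integral h2
    choose E' hE' using h1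
    refine ⟨∑ s, E' s, fun s hs P μ hμ h => (hE' ⟨s, hs⟩ P μ hμ h).mono ?_⟩
    have h3 : E' ⟨s, hs⟩ ≤ ∑ s, E' s :=
      Finset.single_le_sum (f := E') (fun _ _ => Nat.zero_le _) (Finset.mem_univ _)
    have h4 : (E' ⟨s, hs⟩ : ℤ) ≤ ((∑ s, E' s : ℕ) : ℤ) := by exact_mod_cast h3
    nlinarith
  have ha0' : (a : K) ≠ 0 := fun h => ha0 (Subtype.ext h)
  refine ⟨N * (T + 1), Nat.mul_pos hN (Nat.succ_pos _), fun D => (a : K) * ω 0 D ^ (T + 1),
    ?_, ⟨D0, mul_ne_zero ha0' (pow_ne_zero _ hD0)⟩, ?_⟩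
  · intro A D
    simp only
    rw [hω 0 A D, mul_pow, ← pow_mul]
    ring
  · intro P hP D hD s hs
    simp only
    by_cases h0 : ω 0 D = 0
    · left
      rw [h0]
      simp
    have h1 : P.Reg (ω 0 D) := hreg P hP 0 D hD
    have h2 : 0 ≤ P.ord (ω 0 D) := h1.resolve_left h0
    have h3 : ∀ i, Ge P (-P.ord (ω 0 D)) (f i) := by
      intro i
      have h4 : P.Reg (ω i.succ D) := hreg P hP i.succ D hD
      rw [hratio D i, mul_comm] at h4
      have h5 := Ge.of_mul h0 (show Ge P 0 (ω 0 D * f i) from h4)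
      rwa [zero_sub] at h5
    have h4 := hT s hs P (-P.ord (ω 0 D)) (by omega) h3
    have h5 : Ge P ((T + 1 : ℕ) * P.ord (ω 0 D)) (ω 0 D ^ (T + 1)) :=
      (show Ge P (P.ord (ω 0 D)) (ω 0 D) from Or.inr le_rfl).pow (T + 1)
    have h6 := (h4.mul h5).mono (M := 0) (by push_cast; nlinarith)
    have h7 : (a : K) * ω 0 D ^ (T + 1) * s = (a : K) * s * ω 0 D ^ (T + 1) := by ring
    rw [h7]
    exact h6

end

end Pool.Agent.N133.Big
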