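import Pool.Agent.N111.FT.Homs
import Pool.Agent.R885.FinAc

/-! Field theory for the curve core: intermediate fields of finitely generated extensions, the fixed
part of a stable algebraically closed subfield, degrees of compositions. -/

set_option autoImplicit false
set_option linter.overlappingInstances false
set_option linter.unusedSectionVars false

open IntermediateField Module Pool.Agent.N111.FT

namespace Pool.Agent.N133.CC

section fg

variable {k K : Type} [Field k] [Field K] [Algebra k K]

/-- the transcendence degree of a finitely generated extension is finite -/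
theorem trdeg_lt [Algebra.EssFiniteType k K] : Algebra.trdeg k K < Cardinal.aleph0 := by
  obtain ⟨s, hs⟩ := IntermediateField.fg_top k K
  have h2 : Algebra.IsAlgebraic (Algebra.adjoin k (s : Set K)) K := by
    constructor
    intro w
    have h3 : w ∈ IntermediateField.adjoin k (s : Set K) := by
      rw [hs]
      trivial
    rw [IntermediateField.mem_adjoin_iff_div] at h3
    obtain ⟨a, ha, b, hb, rfl⟩ := h3
    have ha' : IsAlgebraic (Algebra.adjoin k (s : Set K)) a :=
      isAlgebraic_algebraMap (R := Algebra.adjoin k (s : Set K)) (A := K) ⟨a, ha⟩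
    have hb' : IsAlgebraic (Algebra.adjoin k (s : Set K)) b :=
      isAlgebraic_algebraMap (R := Algebra.adjoin k (s : Set K)) (A := K) ⟨b, hb⟩
    rw [div_eq_mul_inv]
    exact ha'.mul hb'.inv
  obtain ⟨B, hB, hBt⟩ := exists_isTranscendenceBasis_subset (R := k) (s : Set K)
  rw [← hBt.cardinalMk_eq_trdeg]
  exact Cardinal.lt_aleph0_iff_finite.2 (s.finite_toSet.subset hB)

/-- **Intermediate fields of finitely generated extensions are finitely generated.** -/
theorem ess_any [hess : Algebra.EssFiniteType k K] (E : IntermediateField k K) :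
    Algebra.EssFiniteType k E := by
  obtain ⟨ι, z, hz⟩ := exists_isTranscendenceBasis' k E
  let zK : ι → K := fun i => (z i : K)
  have hzK : AlgebraicIndependent k zK := hz.1.map' (f := E.val) E.val.injective
  have hfinι : Finite ι := by
    have h2 : Cardinal.mk ι ≤ Algebra.trdeg k K := hzK.cardinalMk_le_trdeg
    exact Cardinal.lt_aleph0_iff_finite.1 (h2.trans_lt trdeg_lt)
  let E1 : IntermediateField k K := IntermediateField.adjoin k (Set.range zK)
  have hessE1 : Algebra.EssFiniteType k E1 := by
    rw [IntermediateField.essFiniteType_iff]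
    exact IntermediateField.fg_adjoin_of_finite (Set.finite_range zK)
  have hess1 : Algebra.EssFiniteType E1 K := Algebra.EssFiniteType.of_comp k E1 K
  have hfin1 := Pool.Agent.R885.fin_algClosure E1 K
  have hEle : E1 ≤ E := by
    rw [IntermediateField.adjoin_le_iff]
    rintro _ ⟨i, rfl⟩
    exact (z i).2
  have hle : E ≤ aclo k (Set.range zK) := by
    intro x hx
    have h1 : (⟨x, hx⟩ : E) ∈ aclo k (Set.range z) := mem_aclo.2 (hz.isAlgebraic_field.isAlgebraic _)
    have h2 := (map_mem_aclo_iff E.val (Set.range z) ⟨x, hx⟩).2 h1
    rw [← Set.range_comp] at h2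
    exact h2
  let L' : IntermediateField E1 K := IntermediateField.extendScalars hEle
  have hle' : L' ≤ algebraicClosure E1 K := fun x hx => hle hx
  have hfin' : FiniteDimensional E1 L' :=
    FiniteDimensional.of_injective (IntermediateField.inclusion hle').toLinearMap
      (IntermediateField.inclusion hle').injective
  have h1 : Algebra.EssFiniteType E1 L' := inferInstance
  have h2 : Algebra.EssFiniteType k L' := Algebra.EssFiniteType.comp k E1 L'
  exact h2

end fg

section stable

variable {k L A : Type} [Field k] [Field L] [Field A] [Algebra k L] [Algebra k A] [Algebra L A]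
  [IsScalarTower k L A]

/-- the elements of a field which are stable under all automorphisms are algebraic over the
elements from the base -/
theorem alg_of_stable [Normal L A] {N : IntermediateField k A}
    (hstab : ∀ (σ : A ≃ₐ[L] A) (x : A), x ∈ N → σ x ∈ N) {x : A} (hx : x ∈ N) :
    IsAlgebraic (N.comap (IsScalarTower.toAlgHom k L A)) x := by
  classical
  have hint : IsIntegral L x := Normal.isIntegral inferInstance x
  have hsp : (Polynomial.map (algebraMap L A) (minpoly L x)).Splits := Normal.splits inferInstance x
  have hmon : (minpoly L x).Monic := minpoly.monic hint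
  -- the coefficients are in `N`
  have hl : (minpoly L x).map (algebraMap L A) ∈ Polynomial.lifts (algebraMap N A) := by
    rw [hsp.eq_prod_roots_of_monic (hmon.map _)]
    refine Subsemiring.multiset_prod_mem _ _ ?_
    intro q hq
    obtain ⟨a, ha, rfl⟩ := Multiset.mem_map.1 hq
    have h1 : Polynomial.aeval a (minpoly L x) = 0 := by
      rw [← Polynomial.aeval_map_algebraMap A a]
      rw [Polynomial.mem_roots'] at ha
      simpa [Polynomial.aeval_def] using ha.2
    obtain ⟨σ, hσ⟩ := (minpoly.exists_algEquiv_of_root' (K := L) (L := A) (x := a) (y := x)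
      (Algebra.IsAlgebraic.isAlgebraic x) h1)
    have h2 : a ∈ N := by
      rw [← hσ]
      exact hstab σ x hx
    refine ⟨Polynomial.X - Polynomial.C ⟨a, h2⟩, ?_⟩
    simp only [Polynomial.coe_mapRingHom, Polynomial.map_sub, Polynomial.map_X, Polynomial.map_C]
    rfl
  have hl2 : minpoly L x ∈ Polynomial.lifts
      (algebraMap (N.comap (IsScalarTower.toAlgHom k L A)) L) := by
    rw [Polynomial.lifts_iff_coeff_lifts] at hl ⊢
    intro i
    obtain ⟨c, hc⟩ := hl i
    rw [Polynomial.coeff_map] at hc
    refine ⟨⟨(minpoly L x).coeff i, ?_⟩, rfl⟩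
    change algebraMap L A ((minpoly L x).coeff i) ∈ N
    rw [← hc]
    exact c.2
  obtain ⟨Q, hQ, -, hQm⟩ := Polynomial.lifts_and_natDegree_eq_and_monic hl2 hmon
  have hI : IsIntegral (N.comap (IsScalarTower.toAlgHom k L A)) x := by
    refine ⟨Q, hQm, ?_⟩
    rw [← Polynomial.aeval_def, ← Polynomial.aeval_map_algebraMap L x, hQ]
    exact minpoly.aeval L x
  exact hI.isAlgebraic

end stable

end Pool.Agent.N133.CC

namespace Pool.Agent.N133.CC

section degree

/-- Compositions with the extension of a finitely generated field are finite. -/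
theorem fin_adjoin {k E A : Type} [Field k] [Field E] [Field A] [Algebra k E] [Algebra k A]
    [Algebra E A] [IsScalarTower k E A] (F : IntermediateField k A) [Algebra.EssFiniteType k F]
    (halg : ∀ z ∈ F, IsAlgebraic E z) : FiniteDimensional E (adjoin E (F : Set A)) := by
  classical
  obtain ⟨s, hs⟩ := IntermediateField.fg_top k F
  let T : Set A := Subtype.val '' (s : Set F)
  have hT : T.Finite := s.finite_toSet.image _
  have hF : F ≤ (adjoin E T).restrictScalars k := by
    have h1 : F = adjoin k T := by
      have h2 : (⊤ : IntermediateField k F).map F.val = F := by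
        rw [← AlgHom.fieldRange_eq_map]
        exact IntermediateField.fieldRange_val F
      rw [← hs, IntermediateField.adjoin_map] at h2
      exact h2.symm
    rw [h1, adjoin_le_iff]
    exact subset_adjoin E T
  have hle : adjoin E (F : Set A) ≤ adjoin E T := adjoin_le_iff.2 hF
  have hfin : FiniteDimensional E (adjoin E T) := by
    have : Finite T := hT
    refine IntermediateField.finiteDimensional_adjoin fun x hx => ?_
    obtain ⟨y, -, rfl⟩ := hx
    exact (halg y y.2).isIntegral
  exact FiniteDimensional.of_injective (IntermediateField.inclusion hle).toLinearMap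
    (IntermediateField.inclusion hle).injective

/-- primitive elements, in the big field -/
theorem exists_prim {E A : Type} [Field E] [Field A] [CharZero E] [Algebra E A] (S : Set A)
    [FiniteDimensional E (adjoin E S)] : ∃ θ : A, adjoin E S = E⟮θ⟯ := by
  obtain ⟨θ, hθ⟩ := Field.exists_primitive_element E (adjoin E S)
  refine ⟨θ, ?_⟩
  have h1 : (E⟮θ⟯).map (adjoin E S).val = adjoin E S := by
    rw [hθ, ← AlgHom.fieldRange_eq_map]
    exact IntermediateField.fieldRange_val _
  rw [IntermediateField.adjoin_map, Set.image_singleton] at h1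
  exact h1.symm

/-- **The degree does not grow under extensions of the base.** -/
theorem finrank_up {E M A : Type} [Field E] [Field M] [Field A] [CharZero E] [Algebra E M]
    [Algebra M A] [Algebra E A] [IsScalarTower E M A] (S : Set A)
    [FiniteDimensional E (adjoin E S)] :
    FiniteDimensional M (adjoin M S) ∧ finrank M (adjoin M S) ≤ finrank E (adjoin E S) := by
  obtain ⟨θ, hθ⟩ := exists_prim (E := E) S
  have hθI : IsIntegral E θ := by
    have h1 : θ ∈ adjoin E S := by
      rw [hθ]
      exact mem_adjoin_simple_self E θ
    have h2 : IsIntegral E (⟨θ, h1⟩ : adjoin E S) := Algebra.IsIntegral.isIntegral _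
    exact h2.map (adjoin E S).val
  have hθM : IsIntegral M θ := hθI.tower_top
  have hle : adjoin M S ≤ M⟮θ⟯ := by
    rw [adjoin_le_iff]
    intro x hx
    have h1 : x ∈ E⟮θ⟯ := by
      rw [← hθ]
      exact subset_adjoin E S hx
    have h2 : E⟮θ⟯ ≤ (M⟮θ⟯).restrictScalars E := by
      rw [adjoin_le_iff, Set.singleton_subset_iff]
      exact mem_adjoin_simple_self M θ
    exact h2 h1
  have hfin : FiniteDimensional M M⟮θ⟯ := adjoin.finiteDimensional hθM
  have hfin2 : FiniteDimensional M (adjoin M S) :=
    FiniteDimensional.of_injective (IntermediateField.inclusion hle).toLinearMap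
      (IntermediateField.inclusion hle).injective
  refine ⟨hfin2, ?_⟩
  have h1 : finrank M (adjoin M S) ≤ finrank M M⟮θ⟯ :=
    LinearMap.finrank_le_finrank_of_injective
      (f := (IntermediateField.inclusion hle).toLinearMap)
      (IntermediateField.inclusion hle).injective
  refine h1.trans ?_
  rw [adjoin.finrank hθM, hθ, adjoin.finrank hθI]
  refine (Polynomial.natDegree_le_of_dvd (minpoly.dvd M θ (p := (minpoly E θ).map (algebraMap E M))
    ?_) ?_).trans (Polynomial.natDegree_map_le)
  · rw [Polynomial.aeval_map_algebraMap]
    exact minpoly.aeval E θ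
  · exact Polynomial.map_ne_zero (minpoly.ne_zero hθI)

/-- **The degree over an algebraically closed subfield.** -/
theorem finrank_down {E L A : Type} [Field E] [Field L] [Field A] [CharZero E] [Algebra E L]
    [Algebra L A] [Algebra E A] [IsScalarTower E L A] [Normal L A]
    (hcl : ∀ x : L, IsAlgebraic E x → x ∈ Set.range (algebraMap E L)) (S : Set A)
    [FiniteDimensional E (adjoin E S)] [FiniteDimensional L (adjoin L S)] :
    finrank E (adjoin E S) ≤ finrank L (adjoin L S) := by
  obtain ⟨θ, hθ⟩ := exists_prim (E := E) S
  have hθS : θ ∈ adjoin E S := by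
    rw [hθ]
    exact mem_adjoin_simple_self E θ
  have hθI : IsIntegral E θ := by
    have h2 : IsIntegral E (⟨θ, hθS⟩ : adjoin E S) := Algebra.IsIntegral.isIntegral _
    exact h2.map (adjoin E S).val
  have hθL : IsIntegral L θ := hθI.tower_top
  have hle : L⟮θ⟯ ≤ adjoin L S := by
    rw [adjoin_le_iff, Set.singleton_subset_iff]
    have h2 : adjoin E S ≤ (adjoin L S).restrictScalars E := by
      rw [adjoin_le_iff]
      exact subset_adjoin L S
    exact h2 hθS
  have h1 : finrank L L⟮θ⟯ ≤ finrank L (adjoin L S) :=
    LinearMap.finrank_le_finrank_of_injective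
      (f := (IntermediateField.inclusion hle).toLinearMap)
      (IntermediateField.inclusion hle).injective
  refine le_trans ?_ h1
  rw [adjoin.finrank hθL, hθ, adjoin.finrank hθI]
  -- the coefficients of the minimal polynomial
  have hsp : (Polynomial.map (algebraMap L A) (minpoly L θ)).Splits := Normal.splits inferInstance θ
  have hmon : (minpoly L θ).Monic := minpoly.monic hθL
  have hdvd : minpoly L θ ∣ (minpoly E θ).map (algebraMap E L) := by
    refine minpoly.dvd L θ ?_
    rw [Polynomial.aeval_map_algebraMap]
    exact minpoly.aeval E θ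
  have hl : (minpoly L θ).map (algebraMap L A) ∈
      Polynomial.lifts (algebraMap (algebraicClosure E A) A) := by
    rw [hsp.eq_prod_roots_of_monic (hmon.map _)]
    refine Subsemiring.multiset_prod_mem _ _ ?_
    intro q hq
    obtain ⟨a, ha, rfl⟩ := Multiset.mem_map.1 hq
    have h1 : Polynomial.aeval a (minpoly L θ) = 0 := by
      rw [← Polynomial.aeval_map_algebraMap A a]
      rw [Polynomial.mem_roots'] at ha
      simpa [Polynomial.aeval_def] using ha.2
    have h2 : Polynomial.aeval a (minpoly E θ) = 0 := by
      obtain ⟨r, hr⟩ := hdvd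
      rw [← Polynomial.aeval_map_algebraMap L a, hr, map_mul, h1, zero_mul]
    have h3 : a ∈ algebraicClosure E A :=
      mem_algebraicClosure_iff.2 ⟨_, minpoly.ne_zero hθI, h2⟩
    refine ⟨Polynomial.X - Polynomial.C ⟨a, h3⟩, ?_⟩
    simp only [Polynomial.coe_mapRingHom, Polynomial.map_sub, Polynomial.map_X, Polynomial.map_C]
    rfl
  have hl2 : minpoly L θ ∈ Polynomial.lifts (algebraMap E L) := by
    rw [Polynomial.lifts_iff_coeff_lifts] at hl ⊢
    intro i
    obtain ⟨c, hc⟩ := hl i
    rw [Polynomial.coeff_map] at hc
    apply hcl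
    have h1 : IsAlgebraic E (algebraMap L A ((minpoly L θ).coeff i)) := by
      rw [← hc]
      exact mem_algebraicClosure_iff.1 c.2
    exact (isAlgebraic_algebraMap_iff (algebraMap L A).injective).1 h1
  obtain ⟨Q, hQ, hQd, hQm⟩ := Polynomial.lifts_and_natDegree_eq_and_monic hl2 hmon
  rw [← hQd]
  refine Polynomial.natDegree_le_of_dvd (minpoly.dvd E θ ?_) hQm.ne_zero
  rw [← Polynomial.aeval_map_algebraMap L θ, hQ]
  exact minpoly.aeval L θ

end degree

end Pool.Agent.N133.CC
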