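import Pool.Agent.N133.Big

/-!
Consequences of Kodaira's lemma: the conjecture of Campana and Peternell, and the bigness of the
divisors `L` with `m L - K` pseudo-effective, if the canonical class is big.
-/

set_option autoImplicit false
set_option linter.overlappingInstances false

open FF Pool.Agent.W602.GT Pool.Agent.W603.LV

namespace Pool.Agent.N133.GA

section

variable (k : Type) {K : Type} [Field k] [Field K] [Algebra k K]

/-- `m L - K_X` is pseudo-effective. The projective manifold `X`, of dimension `w` and with the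
function field `K`, is given by the set of its prime divisors (a set of places of `K`), and the
divisor `L` by its multiplicities `a v` along the prime divisors `v` of `X`. There is a divisor `H`,
generated by a finite set `S` of functions, such that for all `j ≥ 1` the divisor
`j (m L - K_X) + H` has a nonzero section: the quotient `f / η` of a function `f` and a `j`-fold
pluricanonical form `η`, whose order along each prime divisor `v` (the order of `η` is the minimum of
its orders on the vector fields which are regular along `v`) is at least `- j m (a v) + v (s)` for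
some `s` in `S`. -/
def PsefSub (w : ℕ) (X : Place k K → Prop) (m : ℕ) (a : Place k K → ℤ) : Prop :=
  ∃ S : Finset K, ∀ j : ℕ, 1 ≤ j → ∃ (η : (Fin w → Derivation k K K) → K) (f : K),
    IsPluri j η ∧ (∃ D, η D ≠ 0) ∧ f ≠ 0 ∧
    ∀ v, X v → ∃ s ∈ S, s ≠ 0 ∧ ∃ D : Fin w → Derivation k K K, (∀ i, DerReg v (D i)) ∧
      η D ≠ 0 ∧ -(j * (m * a v)) + v.ord s ≤ v.ord f - v.ord (η D)

/-- The divisor `L` with the multiplicities `a v` on the projective manifold `X` of dimension `w` is
big: for some `m ≥ 1` the divisors `j m L` have at least `j ^ w` linearly independent sections, for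
all `j ≥ 1`. -/
def BigDiv (w : ℕ) (X : Place k K → Prop) (a : Place k K → ℤ) : Prop :=
  ∃ m : ℕ, 1 ≤ m ∧ ∀ j : ℕ, 1 ≤ j → ∃ f : Fin (j ^ w) → K, LinearIndependent k f ∧
    ∀ l v, X v → -(j * m * a v) ≤ v.ord (f l)

end

section

variable {k K : Type} [Field k] [Field K] [Algebra k K]

theorem kodTr_of_gt {w : ℕ} (h : GeneralType k K w) : Pool.Agent.W619.Y.KodTr k K w w := by
  obtain ⟨-, N, hN, ω, hω, hreg, D0, hD0, hind⟩ := h
  refine ⟨N, hN, ω, fun l => ⟨hω l, fun v hv _ D hD => ?_, fun v _ hv => hv.elim⟩, D0, fun l => ?_,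
    hind⟩
  · rcases hreg v hv l D hD with h1 | h1
    · exact Or.inl h1
    · right
      exact ⟨1, by simp, one_ne_zero, by simpa using h1⟩
  · induction l using Fin.cases with
    | zero => exact hD0
    | succ i =>
      intro h0
      have h1 := hind.ne_zero i
      exact h1 (by simp only [h0, zero_div])

theorem kodGe_of_gt [CharZero k] {w : ℕ} (h : GeneralType k K w) :
    Pool.Agent.W619.TW.KodGe k K w (fun _ => False) w :=
  Pool.Agent.W300.PG.TRGE.main k K w w h.1 (kodTr_of_gt h)

/-- **The conjecture of Campana and Peternell** if the canonical class is big or numerically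
negative. -/
theorem cp_dich [CharZero k] [hK : Algebra.EssFiniteType k K] {w : ℕ} (hw : 1 ≤ w)
    (hd : GeneralType k K w ∨ Pool.Agent.W619.TW.NumNeg k K w (fun _ => False)) {r : ℕ}
    (hr : 1 ≤ r) {a : Place k K → ℤ}
    (hps : Pool.Agent.W619.TW.IsPsefRest k K w (fun _ => False) r a) {h : ℕ}
    (hA : Pool.Agent.W619.TW.DivKodGe k K w a h) :
    Pool.Agent.W619.TW.KodGe k K w (fun _ => False) h := by
  rcases hd with hg | hneg
  · obtain ⟨m, rfl⟩ : ∃ m, w = m + 1 := ⟨w - 1, by omega⟩
    obtain ⟨x, hx⟩ := Pool.Agent.W619.Y.exists_fin_basis (k := k) (m + 1) hg.1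
    have halg : Algebra.IsAlgebraic (IntermediateField.adjoin k (Set.range x)) K :=
      hx.isAlgebraic_field
    have hess : Algebra.EssFiniteType (IntermediateField.adjoin k (Set.range x)) K :=
      Algebra.EssFiniteType.of_comp k _ K
    have hfd : FiniteDimensional (IntermediateField.adjoin k (Set.range x)) K :=
      Algebra.finite_of_essFiniteType_of_isAlgebraic
    exact Pool.Agent.W619.TW.cp_of_num (kodGe_of_gt hg) (Pool.Agent.R885.num_top hx hfd) hr hps hA
  · exact absurd hA (Pool.Agent.W619.TW.cp_of_neg hneg hr hps)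

/-- **Bigness of `L`.** If the canonical class is big and `m L - K_X` is pseudo-effective then `L` is
big. -/
theorem big_of_psefSub [CharZero k] {w : ℕ} (hgt : GeneralType k K w) {X : Place k K → Prop}
    (hX : ∀ v, X v → Divisorial w v) {m : ℕ} (hm : 1 ≤ m) {a : Place k K → ℤ}
    (h : PsefSub k w X m a) : BigDiv k w X a := by
  classical
  obtain ⟨S, hS⟩ := h
  obtain ⟨M, hM, γ, hγ, ⟨D1, hD1⟩, hγreg⟩ := Pool.Agent.N133.Big.kodaira hgt (insert 1 S)
  obtain ⟨E, Δ, hΔ⟩ := Pool.Agent.N133.Big.exists_frame (K := K) hgt.1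
  obtain ⟨m1, hm1, hsec⟩ := kodGe_of_gt hgt
  refine ⟨m1 * (1 + M) * m, Nat.mul_pos (Nat.mul_pos hm1 (by omega)) hm, fun j hj => ?_⟩
  obtain ⟨j', hj'⟩ : ∃ j', j' + M = j * (1 + M) := ⟨j * (1 + M) - M, Nat.sub_add_cancel (by
    nlinarith)⟩
  have hjj' : j ≤ j' := by nlinarith
  obtain ⟨ω, hlin, hω⟩ := hsec j' (by omega)
  obtain ⟨η, f, hη, ⟨D2, hD2⟩, hf0, hηf⟩ := hS (m1 * (j * (1 + M)))
    (Nat.mul_pos hm1 (Nat.mul_pos hj (by omega)))
  have hηE : η E ≠ 0 := fun h0 => hD2 (by rw [hΔ _ _ hη D2, h0, mul_zero])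
  have hγE : γ E ≠ 0 := fun h0 => hD1 (by rw [hΔ _ _ hγ D1, h0, mul_zero])
  have hωD : ∀ l D, ω l D = Δ D ^ (j' * m1) * ω l E := fun l D => hΔ _ _ (hω l).1 D
  set c : K := γ E ^ m1 / η E * f with hc
  have hc0 : c ≠ 0 := mul_ne_zero (div_ne_zero (pow_ne_zero _ hγE) hηE) hf0
  have hle : j ^ w ≤ j' ^ w := Nat.pow_le_pow_left hjj' w
  have hlinE : LinearIndependent k fun l => ω l E := by
    rw [Fintype.linearIndependent_iff] at hlin ⊢
    intro g hg i
    refine hlin g ?_ i
    funext D
    rw [Finset.sum_apply]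
    have h1 : ∀ l, (g l • ω l) D = Δ D ^ (j' * m1) * (g l • ω l E) := fun l => by
      rw [Pi.smul_apply, hωD l D, mul_smul_comm]
    simp only [h1, ← Finset.mul_sum, hg, mul_zero, Pi.zero_apply]
  refine ⟨fun l => ω (Fin.castLE hle l) E * c, ?_, fun l v hv => ?_⟩
  · have h1 : LinearIndependent k fun l => ω l E * c :=
      hlinE.map' (LinearMap.mulRight k c) (LinearMap.ker_eq_bot.2 (mul_left_injective₀ hc0))
    exact h1.comp _ (Fin.castLE_injective hle)
  · simp only
    set i := Fin.castLE hle l with hi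
    obtain ⟨s, hs, hs0, D, hD, hηD, hineq⟩ := hηf v hv
    have hωE : ω i E ≠ 0 := hlinE.ne_zero i
    have hJ : Δ D ≠ 0 := by
      intro h0
      apply hηD
      rw [hΔ _ _ hη D, h0, zero_pow (by
        have : 0 < m1 * (j * (1 + M)) := Nat.mul_pos hm1 (Nat.mul_pos hj (by omega))
        omega), zero_mul]
    have hωD0 : ω i D ≠ 0 := by
      rw [hωD i D]
      exact mul_ne_zero (pow_ne_zero _ hJ) hωE
    have hγD0 : γ D ≠ 0 := by
      rw [hΔ _ _ hγ D]
      exact mul_ne_zero (pow_ne_zero _ hJ) hγE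
    have hF : ω i E * c = ω i D * γ D ^ m1 / η D * f := by
      rw [hc, hωD i D, hΔ _ _ hγ D, hΔ _ _ hη D]
      have h1 : Δ D ^ (j' * m1) * (Δ D ^ M) ^ m1 = Δ D ^ (m1 * (j * (1 + M))) := by
        rw [← pow_mul, ← pow_add, ← hj']
        congr 1
        ring
      rw [mul_pow, ← h1]
      have h2 : Δ D ^ (j' * m1) ≠ 0 := pow_ne_zero _ hJ
      have h3 : (Δ D ^ M) ^ m1 ≠ 0 := pow_ne_zero _ (pow_ne_zero _ hJ)
      field_simp
    rw [hF]
    have h1 : 0 ≤ v.ord (ω i D) := by
      rcases (hω i).2.1 v (hX v hv) (fun h => h) D hD with h2 | ⟨s', hs', hs0', h2⟩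
      · exact absurd h2 hωD0
      · simpa using h2
    have h2 : 0 ≤ v.ord (γ D) := by
      have h3 := hγreg v (hX v hv) D hD 1 (Finset.mem_insert_self _ _)
      rw [mul_one] at h3
      exact h3.resolve_left hγD0
    have h3 : 0 ≤ v.ord (γ D) + v.ord s := by
      have h4 := hγreg v (hX v hv) D hD s (Finset.mem_insert_of_mem hs)
      have h5 := h4.resolve_left (mul_ne_zero hγD0 hs0)
      rwa [v.ord_mul hγD0 hs0] at h5
    have h4 : v.ord (γ D) ≤ m1 * v.ord (γ D) := by
      have h5 : (1 : ℤ) ≤ m1 := by exact_mod_cast hm1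
      nlinarith
    rw [v.ord_mul (div_ne_zero (mul_ne_zero hωD0 (pow_ne_zero _ hγD0)) hηD) hf0,
      v.ord_div (mul_ne_zero hωD0 (pow_ne_zero _ hγD0)) hηD,
      v.ord_mul hωD0 (pow_ne_zero _ hγD0), v.ord_pow]
    push_cast at hineq ⊢
    nlinarith

end

end Pool.Agent.N133.GA
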