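import Mathlib

/-!
Meromorphic functions with an entire power are entire.
-/

set_option autoImplicit false

namespace Pool.Agent.N133.WZ

open Filter Topology Set

/-- an entire function which is not identically zero does not vanish near any point, except
possibly at the point -/
theorem punct {A : ℂ → ℂ} (hA : Differentiable ℂ A) {z0 : ℂ} (h0 : A z0 ≠ 0) (z : ℂ) :
    ∀ᶠ w in 𝓝[≠] z, A w ≠ 0 := by
  have han : AnalyticOnNhd ℂ A univ := fun x _ => hA.analyticAt x
  rcases (hA.analyticAt z).eventually_eq_zero_or_eventually_ne_zero with h | h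
  · exfalso
    apply h0
    have := han.eqOn_zero_of_preconnected_of_eventuallyEq_zero isPreconnected_univ (mem_univ z) h
    exact this (mem_univ z0)
  · exact h

theorem dense_ne {A : ℂ → ℂ} (hA : Differentiable ℂ A) {z0 : ℂ} (h0 : A z0 ≠ 0) :
    Dense {z | A z ≠ 0} := by
  intro z
  rw [mem_closure_iff_frequently]
  have h1 := punct hA h0 z
  exact (h1.frequently).filter_mono nhdsWithin_le_nhds

/-- two continuous functions which agree where `A` does not vanish are equal -/
theorem eq_of_ne {A f g : ℂ → ℂ} (hA : Differentiable ℂ A) {z0 : ℂ} (h0 : A z0 ≠ 0)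
    (hf : Continuous f) (hg : Continuous g) (h : ∀ z, A z ≠ 0 → f z = g z) (z : ℂ) : f z = g z := by
  have h1 : f = g := by
    apply Continuous.ext_on (dense_ne hA h0) hf hg
    intro z hz
    exact h z hz
  rw [h1]

/-- meromorphic functions with an entire power are entire -/
theorem entire_root {h P A : ℂ → ℂ} (hA : Differentiable ℂ A) {z0 : ℂ} (h0 : A z0 ≠ 0)
    (hh : ∀ z, MeromorphicAt h z) (hP : Differentiable ℂ P) {e : ℕ} (he : 0 < e)
    (hpow : ∀ z, A z ≠ 0 → h z ^ e = P z) (han : ∀ z, A z ≠ 0 → ContinuousAt h z) :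
    ∃ v : ℂ → ℂ, Differentiable ℂ v ∧ ∀ z, A z ≠ 0 → v z = h z := by
  have hm : MeromorphicOn h univ := fun z _ => hh z
  refine ⟨toMeromorphicNFOn h univ, ?_⟩
  have hv : ∀ z, AnalyticAt ℂ (toMeromorphicNFOn h univ) z := by
    intro z
    rw [← (meromorphicNFOn_toMeromorphicNFOn h univ
      (mem_univ z)).meromorphicOrderAt_nonneg_iff_analyticAt,
      meromorphicOrderAt_toMeromorphicNFOn hm (mem_univ z)]
    have h1 : (h ^ e) =ᶠ[𝓝[≠] z] P := by
      filter_upwards [punct hA h0 z] with w hw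
      exact hpow w hw
    have h2 := meromorphicOrderAt_congr h1
    rw [meromorphicOrderAt_pow (hh z)] at h2
    have h3 : 0 ≤ meromorphicOrderAt P z := (hP.analyticAt z).meromorphicOrderAt_nonneg
    rw [← h2] at h3
    by_contra hneg
    rw [not_le] at hneg
    obtain ⟨k, hk⟩ := WithTop.ne_top_iff_exists.mp (ne_top_of_lt hneg)
    rw [← hk] at h3 hneg
    have h4 : (k : ℤ) < 0 := by exact_mod_cast hneg
    have h5 : (0 : ℤ) ≤ e * k := by exact_mod_cast h3
    have h6 : (0 : ℤ) < e := by exact_mod_cast he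
    nlinarith
  refine ⟨fun z => (hv z).differentiableAt, fun z hz => ?_⟩
  have h1 : toMeromorphicNFOn h univ =ᶠ[𝓝[≠] z] h :=
    hm.toMeromorphicNFOn_eq_self_on_nhdsNE (mem_univ z)
  have h2 : Tendsto (toMeromorphicNFOn h univ) (𝓝[≠] z) (𝓝 (toMeromorphicNFOn h univ z)) :=
    (hv z).continuousAt.tendsto.mono_left nhdsWithin_le_nhds
  have h3 : Tendsto h (𝓝[≠] z) (𝓝 (h z)) := (han z hz).tendsto.mono_left nhdsWithin_le_nhds
  exact tendsto_nhds_unique h2 (h3.congr' h1.symm)

end Pool.Agent.N133.WZ
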