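import Pool.Agent.N133.WZ
import Pool.Agent.N133.Root
import Pool.Agent.Y824.FG.Fcb
import Pool.Agent.Y221.BD.Defs

/-!
Pseudo-Brody hyperbolicity of all projective varieties with a given function field.
-/

set_option autoImplicit false

namespace Pool.Agent.N133.KB

open MvPolynomial Filter Topology Set Pool.Agent.N133.WZ
open Pool.Agent.Y192.KC (Cov ZCov ZField Poly WH PseudoBrody Entire Pt Same)
open Pool.Agent.Y824.FG
open Pool.Agent.W602.GT (val IsForm coords val_smul)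

/-- evaluation of a polynomial at entire functions is entire -/
theorem diff_eval {σ : Type} [Finite σ] {f : σ → ℂ → ℂ} (hf : ∀ i, Differentiable ℂ (f i))
    (P : MvPolynomial σ ℂ) : Differentiable ℂ fun τ => eval (fun i => f i τ) P := by
  induction P using MvPolynomial.induction_on with
  | C a => simp
  | add p q hp hq =>
    simp only [map_add]
    exact hp.add hq
  | mul_X p i hp =>
    simp only [map_mul, eval_X]
    exact hp.mul (hf i)

theorem aeval_id {σ : Type} (f : σ → ℂ) (P : MvPolynomial σ ℂ) : aeval f P = eval f P := by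
  rw [MvPolynomial.aeval_eq_eval]

/-- **Birational invariance** of pseudo-Brody hyperbolicity, for the covers. -/
theorem brody_of {n r : ℕ} {X : Cov n r} {m : ℕ} (hem : ∀ j, X.e j ∣ m) (hG : X.G = 1)
    {L : Type} [Field L] [Algebra ℂ L] {t : Fin (n + 1) → L} {w : Fin r → L} (ht0 : t 0 ≠ 0)
    (heqn : ∀ j, w j ^ X.e j = aeval (fun i => t i ^ m) (X.F j))
    (hgenx : IntermediateField.adjoin ℂ (Set.range (fun i => t i / t 0) ∪
      Set.range (fun j => w j / t 0 ^ X.wt m j)) = ⊤)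
    (hB : PseudoBrody X m t w) {N : ℕ} {y : Fin (N + 1) → L} (hy : y ≠ 0)
    (hgen : coords ℂ y = ⊤) : Pool.Agent.Y221.BD.PseudoBrody y := by
  classical
  obtain ⟨B0, D, hB0, hB0ne, hcurve⟩ := hB
  obtain ⟨i0, hi0⟩ : ∃ i0, y i0 ≠ 0 := Function.ne_iff.1 hy
  -- the affine coordinates
  set y' : Fin (N + 1) → L := fun i => y i / y i0 with hy'
  have hy'gen : IntermediateField.adjoin ℂ (Set.range y') = ⊤ := by
    rw [eq_top_iff, ← hgen]
    unfold coords
    rw [IntermediateField.adjoin_le_iff]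
    rintro z ⟨i, j, hj, rfl⟩
    have e : y i / y j = y' i / y' j := by
      simp only [hy']
      field_simp
    rw [e]
    exact div_mem (IntermediateField.subset_adjoin _ _ ⟨i, rfl⟩)
      (IntermediateField.subset_adjoin _ _ ⟨j, rfl⟩)
  set x : Fin (n + 1) ⊕ Fin r → L :=
    Sum.elim (fun i => t i / t 0) (fun j => w j / t 0 ^ X.wt m j) with hx
  have hxgen : IntermediateField.adjoin ℂ (Set.range x) = ⊤ := by
    rw [hx, Set.Sum.elim_range]
    exact hgenx
  have hxt : ∀ (B : Poly n r) (D : ℕ), WH X m B D →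
      aeval (Sum.elim t w) B = t 0 ^ D * aeval x B := by
    intro B D hB
    rw [hx, ← wh_aeval hB]
    congr 1
    congr 1
    funext a
    rcases a with i | j
    · simp only [Sum.elim_inl]
      field_simp
    · simp only [Sum.elim_inr]
      field_simp
  obtain ⟨Q, R, hQ, hR⟩ := common y' hy'gen x
  obtain ⟨Q2, R2, hQ2, hR2⟩ := common x hxgen y'
  have hxR : (fun a => aeval y' (R a) / aeval y' Q) = x := funext fun a => (hR a).symm
  obtain ⟨K0, B0', hB0'⟩ := clear Q R B0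
  obtain ⟨K2, Q2', hQ2'⟩ := clear Q R Q2
  obtain ⟨KH, H, hHh, hH⟩ := homog i0 (Q * B0' * Q2')
  refine ⟨MvPolynomial.X i0 * H, ⟨1 + KH, (isHomogeneous_X _ _).mul hHh⟩, ?_, ?_⟩
  · unfold val
    rw [map_mul, aeval_X, hH L y hi0]
    refine mul_ne_zero hi0 (mul_ne_zero (pow_ne_zero _ hi0) ?_)
    change aeval y' (Q * B0' * Q2') ≠ 0
    rw [map_mul, map_mul, hB0' L y' hQ, hQ2' L y' hQ, hxR]
    refine mul_ne_zero (mul_ne_zero hQ (mul_ne_zero (pow_ne_zero _ hQ) ?_))
      (mul_ne_zero (pow_ne_zero _ hQ) hQ2)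
    intro h
    apply hB0ne
    rw [hxt B0 D hB0, h, mul_zero]
  intro f hf
  by_contra hcon
  push Not at hcon
  obtain ⟨τ0, hτ0⟩ := hcon
  set A : ℂ → ℂ := fun τ => eval (fun i => f i τ) (MvPolynomial.X i0 * H) with hAdef
  have hA : Differentiable ℂ A := diff_eval hf.hol _
  have hA0 : A τ0 ≠ 0 := hτ0
  -- the good points
  let f' : ℂ → Fin (N + 1) → ℂ := fun τ i => f i τ / f i0 τ
  have hfi0 : ∀ τ, A τ ≠ 0 → f i0 τ ≠ 0 := by
    intro τ hτ
    have h1 : A τ = f i0 τ * eval (fun i => f i τ) H := by simp [hAdef]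
    rw [h1] at hτ
    exact left_ne_zero_of_mul hτ
  have hprod : ∀ τ, A τ ≠ 0 → aeval (f' τ) (Q * B0' * Q2') ≠ 0 := by
    intro τ hτ
    have h1 : A τ = f i0 τ * eval (fun i => f i τ) H := by simp [hAdef]
    rw [h1] at hτ
    have h2 := right_ne_zero_of_mul hτ
    have h3 := hH ℂ (fun i => f i τ) (left_ne_zero_of_mul hτ)
    rw [aeval_id] at h3
    rw [h3] at h2
    exact right_ne_zero_of_mul h2
  have hQf : ∀ τ, A τ ≠ 0 → aeval (f' τ) Q ≠ 0 := by
    intro τ hτ
    have h1 := hprod τ hτ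
    rw [map_mul, map_mul] at h1
    exact left_ne_zero_of_mul (left_ne_zero_of_mul h1)
  let z : ℂ → Fin (n + 1) ⊕ Fin r → ℂ := fun τ a => aeval (f' τ) (R a) / aeval (f' τ) Q
  have hBz : ∀ τ, A τ ≠ 0 → aeval (z τ) B0 ≠ 0 := by
    intro τ hτ
    have h1 := hprod τ hτ
    rw [map_mul, map_mul] at h1
    have h2 := right_ne_zero_of_mul (left_ne_zero_of_mul h1)
    rw [hB0' ℂ (f' τ) (hQf τ hτ)] at h2
    exact right_ne_zero_of_mul h2
  have hQz : ∀ τ, A τ ≠ 0 → aeval (z τ) Q2 ≠ 0 := by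
    intro τ hτ
    have h1 := hprod τ hτ
    rw [map_mul, map_mul] at h1
    have h2 := right_ne_zero_of_mul h1
    rw [hQ2' ℂ (f' τ) (hQf τ hτ)] at h2
    exact right_ne_zero_of_mul h2
  have hsp : ∀ τ, A τ ≠ 0 → Sp y' (f' τ) := by
    intro τ hτ P hP
    obtain ⟨K, P', g, hP'⟩ := homog i0 P
    have h1 : val y P' = 0 := by
      unfold val
      rw [hP' L y hi0]
      change y i0 ^ K * aeval y' P = 0
      rw [hP, mul_zero]
    have h2 := hf.mem P' ⟨K, g⟩ h1 τ
    have h3 := hP' ℂ (fun i => f i τ) (hfi0 τ hτ)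
    rw [aeval_id, h2] at h3
    exact (mul_eq_zero.1 h3.symm).resolve_left (pow_ne_zero _ (hfi0 τ hτ))
  have hspz : ∀ τ, A τ ≠ 0 → Sp x (z τ) := by
    intro τ hτ
    have h2 := (hsp τ hτ).ratio Q R hQ (hQf τ hτ)
    rw [hxR] at h2
    exact h2
  -- the direct map
  have hdir : ∀ τ, A τ ≠ 0 → ∀ i, aeval (z τ) Q2 * f' τ i = aeval (z τ) (R2 i) := by
    intro τ hτ i
    obtain ⟨K3, R3, hR3⟩ := clear Q R (R2 i)
    have h2 : aeval y' (Q ^ K3 * Q2' * MvPolynomial.X i - Q ^ K2 * R3) = 0 := by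
      rw [map_sub, map_mul, map_mul, map_mul, map_pow, map_pow, aeval_X, hQ2' L y' hQ,
        hR3 L y' hQ, hxR, hR2 i]
      field_simp
      ring
    have h3 := hsp τ hτ _ h2
    rw [map_sub, map_mul, map_mul, map_mul, map_pow, map_pow, aeval_X, hQ2' ℂ (f' τ) (hQf τ hτ),
      hR3 ℂ (f' τ) (hQf τ hτ)] at h3
    have h4 : aeval (f' τ) Q ^ (K3 + K2) * (aeval (z τ) Q2 * f' τ i - aeval (z τ) (R2 i)) = 0 := by
      rw [← h3]
      ring
    exact sub_eq_zero.1 ((mul_eq_zero.1 h4).resolve_left (pow_ne_zero _ (hQf τ hτ)))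
  have hz0 : ∀ τ, A τ ≠ 0 → z τ (Sum.inl 0) = 1 := by
    intro τ hτ
    have h2 : aeval x (MvPolynomial.X (Sum.inl 0) - 1 : Poly n r) = 0 := by
      rw [map_sub, aeval_X, map_one]
      simp only [hx, Sum.elim_inl]
      rw [div_self ht0, sub_self]
    have h3 := hspz τ hτ _ h2
    rw [map_sub, aeval_X, map_one] at h3
    exact sub_eq_zero.1 h3
  have hwt : ∀ j, X.wt m j * X.e j = m * X.d j := by
    intro j
    unfold Cov.wt
    exact Nat.div_mul_cancel (Dvd.dvd.mul_right (hem j) _)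
  have hzeq : ∀ τ, A τ ≠ 0 → ∀ j, z τ (Sum.inr j) ^ X.e j =
      aeval (fun i => z τ (Sum.inl i) ^ m) (X.F j) := by
    intro τ hτ j
    have h3 : aeval x (MvPolynomial.X (Sum.inr j) ^ X.e j -
        aeval (fun i => MvPolynomial.X (Sum.inl i) ^ m) (X.F j) : Poly n r) = 0 := by
      rw [map_sub, map_pow, aeval_X]
      rw [aeval_pow_aeval]
      simp only [hx, Sum.elim_inl, Sum.elim_inr]
      have h6 := val_smul (X.hF j) ((t 0 ^ m)⁻¹) (fun i => t i ^ m)
      unfold val at h6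
      have h7 : (fun i => (t i / t 0) ^ m) = fun i => (t 0 ^ m)⁻¹ * t i ^ m := by
        funext i
        rw [div_pow]
        field_simp
      rw [h7, h6, ← heqn j, div_pow, ← pow_mul, hwt, pow_mul, inv_pow]
      field_simp
      ring
    have h8 := hspz τ hτ _ h3
    rw [map_sub, map_pow, aeval_X] at h8
    rw [aeval_pow_aeval] at h8
    exact sub_eq_zero.1 h8
  -- homogenization
  obtain ⟨KQ, Qh, -, hQh⟩ := homog i0 Q
  choose KR Rh _ hRh using fun a => homog i0 (R a)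
  have hQe : ∀ τ, A τ ≠ 0 → eval (fun i => f i τ) Qh = f i0 τ ^ KQ * aeval (f' τ) Q := by
    intro τ hτ
    have := hQh ℂ (fun i => f i τ) (hfi0 τ hτ)
    rwa [aeval_id] at this
  have hRe : ∀ τ, A τ ≠ 0 → ∀ a, eval (fun i => f i τ) (Rh a) =
      f i0 τ ^ KR a * aeval (f' τ) (R a) := by
    intro τ hτ a
    have := hRh a ℂ (fun i => f i τ) (hfi0 τ hτ)
    rwa [aeval_id] at this
  set KS : ℕ := ∑ i : Fin (n + 1), KR (Sum.inl i) with hKS
  have hKle : ∀ i : Fin (n + 1), KR (Sum.inl i) ≤ KS := fun i =>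
    Finset.single_le_sum (f := fun i : Fin (n + 1) => KR (Sum.inl i)) (fun _ _ => Nat.zero_le _)
      (Finset.mem_univ i)
  let u : Fin (n + 1) → ℂ → ℂ := fun i τ =>
    f i0 τ ^ (KQ + (KS - KR (Sum.inl i))) * eval (fun k => f k τ) (Rh (Sum.inl i))
  have hu : ∀ i, Differentiable ℂ (u i) := fun i =>
    ((hf.hol i0).pow _).mul (diff_eval hf.hol _)
  let lam : ℂ → ℂ := fun τ => f i0 τ ^ (KQ + KS) * aeval (f' τ) Q
  have hlam : ∀ τ, A τ ≠ 0 → lam τ ≠ 0 := fun τ hτ =>
    mul_ne_zero (pow_ne_zero _ (hfi0 τ hτ)) (hQf τ hτ)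
  have hul : ∀ τ, A τ ≠ 0 → ∀ i, u i τ = lam τ * z τ (Sum.inl i) := by
    intro τ hτ i
    change f i0 τ ^ (KQ + (KS - KR (Sum.inl i))) * eval (fun k => f k τ) (Rh (Sum.inl i)) =
      f i0 τ ^ (KQ + KS) * aeval (f' τ) Q * (aeval (f' τ) (R (Sum.inl i)) / aeval (f' τ) Q)
    rw [hRe τ hτ, ← mul_assoc, ← pow_add]
    have h1 : KQ + (KS - KR (Sum.inl i)) + KR (Sum.inl i) = KQ + KS := by
      have := hKle i
      omega
    rw [h1]
    have h2 := hQf τ hτ
    field_simp
  have hu00 : u 0 τ0 ≠ 0 := by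
    rw [hul τ0 hA0 0, hz0 τ0 hA0, mul_one]
    exact hlam τ0 hA0
  obtain ⟨g, u', hg, hu', hfac, hncz⟩ := reduce u hu hu00
  have hu'0 : ∀ τ, A τ ≠ 0 → u' 0 τ ≠ 0 := by
    intro τ hτ h0
    have h1 := hfac 0 τ
    rw [h0, mul_zero, hul τ hτ 0, hz0 τ hτ, mul_one] at h1
    exact hlam τ hτ h1
  have hu'z : ∀ τ, A τ ≠ 0 → ∀ i, u' i τ = u' 0 τ * z τ (Sum.inl i) := by
    intro τ hτ i
    have h1 := hfac 0 τ
    have h2 := hfac i τ
    rw [hul τ hτ, hz0 τ hτ, mul_one] at h1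
    rw [hul τ hτ, h1] at h2
    have hg0 : g τ ≠ 0 := by
      intro h0
      rw [h0, zero_mul] at h1
      exact hlam τ hτ h1
    have h3 : g τ * (u' i τ - u' 0 τ * z τ (Sum.inl i)) = 0 := by
      linear_combination -h2
    exact sub_eq_zero.1 ((mul_eq_zero.1 h3).resolve_left hg0)
  -- the other coordinates
  let h : Fin r → ℂ → ℂ := fun j τ => u' 0 τ ^ X.wt m j *
    ((eval (fun k => f k τ) (Rh (Sum.inr j)) * f i0 τ ^ KQ) /
      (eval (fun k => f k τ) Qh * f i0 τ ^ KR (Sum.inr j)))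
  have hhz : ∀ τ, A τ ≠ 0 → ∀ j, h j τ = u' 0 τ ^ X.wt m j * z τ (Sum.inr j) := by
    intro τ hτ j
    change u' 0 τ ^ X.wt m j *
      ((eval (fun k => f k τ) (Rh (Sum.inr j)) * f i0 τ ^ KQ) /
      (eval (fun k => f k τ) Qh * f i0 τ ^ KR (Sum.inr j))) = _ * (aeval (f' τ) (R (Sum.inr j)) /
        aeval (f' τ) Q)
    rw [hRe τ hτ, hQe τ hτ]
    have h1 := hQf τ hτ
    have h2 := hfi0 τ hτ
    field_simp
  have hroot : ∀ j, ∃ v : ℂ → ℂ, Differentiable ℂ v ∧ ∀ τ, A τ ≠ 0 → v τ = h j τ := by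
    intro j
    have hd1 : Differentiable ℂ fun τ => u' 0 τ ^ X.wt m j := (hu' 0).pow _
    have hd2 : Differentiable ℂ fun τ =>
        eval (fun k => f k τ) (Rh (Sum.inr j)) * f i0 τ ^ KQ :=
      (diff_eval hf.hol _).mul ((hf.hol i0).pow _)
    have hd3 : Differentiable ℂ fun τ => eval (fun k => f k τ) Qh * f i0 τ ^ KR (Sum.inr j) :=
      (diff_eval hf.hol _).mul ((hf.hol i0).pow _)
    have hd4 : Differentiable ℂ fun τ => eval (fun i => u' i τ ^ m) (X.F j) :=
      diff_eval (fun i => (hu' i).pow m) _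
    refine entire_root hA hA0 (P := fun τ => eval (fun i => u' i τ ^ m) (X.F j)) ?_ hd4
      (X.he j) ?_ ?_
    · intro τ
      exact (hd1.analyticAt τ).meromorphicAt.mul
        ((hd2.analyticAt τ).meromorphicAt.div (hd3.analyticAt τ).meromorphicAt)
    · intro τ hτ
      rw [hhz τ hτ, mul_pow, ← pow_mul, hwt, hzeq τ hτ]
      have h6 := val_smul (X.hF j) (u' 0 τ ^ m) (fun i => z τ (Sum.inl i) ^ m)
      unfold val at h6
      rw [pow_mul, ← h6, aeval_id]
      congr 1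
      congr 1
      funext i
      rw [hu'z τ hτ i, mul_pow]
    · intro τ hτ
      refine (hd1 τ).continuousAt.mul ((hd2 τ).continuousAt.div (hd3 τ).continuousAt ?_)
      rw [hQe τ hτ]
      exact mul_ne_zero (mul_ne_zero (pow_ne_zero _ (hfi0 τ hτ)) (hQf τ hτ))
        (pow_ne_zero _ (hfi0 τ hτ))
  choose v' hv' hv'h using hroot
  have hv'z : ∀ τ, A τ ≠ 0 → ∀ j, v' j τ = u' 0 τ ^ X.wt m j * z τ (Sum.inr j) :=
    fun τ hτ j => (hv'h j τ hτ).trans (hhz τ hτ j)
  have hcoord : ∀ τ, A τ ≠ 0 → (Sum.elim (fun i => u' i τ) (fun j => v' j τ) :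
      Fin (n + 1) ⊕ Fin r → ℂ) =
      Sum.elim (fun i => u' 0 τ * z τ (Sum.inl i)) (fun j => u' 0 τ ^ X.wt m j * z τ (Sum.inr j)) := by
    intro τ hτ
    funext a
    rcases a with i | j
    · exact hu'z τ hτ i
    · exact hv'z τ hτ j
  have hzz : ∀ τ, (Sum.elim (fun i => z τ (Sum.inl i)) (fun j => z τ (Sum.inr j)) :
      Fin (n + 1) ⊕ Fin r → ℂ) = z τ := by
    intro τ
    funext a
    rcases a with i | j <;> rfl
  have hval : ∀ τ, A τ ≠ 0 → ∀ (B : Poly n r) (D : ℕ), WH X m B D →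
      eval (Sum.elim (fun i => u' i τ) (fun j => v' j τ)) B = u' 0 τ ^ D * aeval (z τ) B := by
    intro τ hτ B D hB
    rw [hcoord τ hτ, ← aeval_id, wh_aeval hB, hzz]
  have hcont : ∀ B : Poly n r, Continuous fun τ =>
      eval (Sum.elim (fun i => u' i τ) (fun j => v' j τ)) B := by
    intro B
    have h1 : Differentiable ℂ fun τ => eval (fun a => Sum.elim u' v' a τ) B := by
      apply diff_eval
      rintro (i | j)
      · exact hu' i
      · exact hv' j
    have h2 : (fun τ => eval (Sum.elim (fun i => u' i τ) (fun j => v' j τ)) B) =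
        fun τ => eval (fun a => Sum.elim u' v' a τ) B := by
      funext τ
      congr 2
      funext a
      rcases a with i | j <;> rfl
    rw [h2]
    exact h1.continuous
  have hent : Entire X m t w (fun τ i => u' i τ) (fun τ j => v' j τ) := by
    refine ⟨differentiable_pi.2 hu', differentiable_pi.2 hv', ?_, ?_⟩
    · intro τ
      refine ⟨?_, ?_, ?_⟩
      · obtain ⟨i, hi⟩ := hncz τ
        exact fun h0 => hi (congrFun h0 i)
      · intro B D hB hB0
        refine eq_of_ne hA hA0 (hcont B) continuous_const (fun τ hτ => ?_) τ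
        rw [hval τ hτ B D hB]
        rw [hxt B D hB] at hB0
        rw [hspz τ hτ B ((mul_eq_zero.1 hB0).resolve_left (pow_ne_zero _ ht0)), mul_zero]
      · rw [hG, map_one]
        exact one_ne_zero
    · by_contra hconst
      push Not at hconst
      have hzc : ∀ τ τ', A τ ≠ 0 → A τ' ≠ 0 → z τ = z τ' := by
        intro τ τ' hτ hτ'
        obtain ⟨s, hs, h1, h2⟩ := hconst τ τ'
        have h10 := h1 0
        simp only at h1 h2 h10
        funext a
        rcases a with i | j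
        · have h3 := h1 i
          rw [hu'z τ hτ i, hu'z τ' hτ' i, h10] at h3
          have h4 : s * u' 0 τ * (z τ (Sum.inl i) - z τ' (Sum.inl i)) = 0 := by
            linear_combination -h3
          exact sub_eq_zero.1 ((mul_eq_zero.1 h4).resolve_left (mul_ne_zero hs (hu'0 τ hτ)))
        · have h3 := h2 j
          rw [hv'z τ hτ j, hv'z τ' hτ' j, h10, mul_pow] at h3
          have h4 : s ^ X.wt m j * u' 0 τ ^ X.wt m j * (z τ (Sum.inr j) - z τ' (Sum.inr j)) = 0 := by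
            linear_combination -h3
          exact sub_eq_zero.1 ((mul_eq_zero.1 h4).resolve_left
            (mul_ne_zero (pow_ne_zero _ hs) (pow_ne_zero _ (hu'0 τ hτ))))
      have hfc : ∀ τ τ', A τ ≠ 0 → A τ' ≠ 0 → ∀ i, f i τ * f i0 τ' = f i τ' * f i0 τ := by
        intro τ τ' hτ hτ' i
        have h1 := hdir τ hτ i
        have h2 := hdir τ' hτ' i
        rw [hzc τ τ' hτ hτ'] at h1
        have h3 : f' τ i = f' τ' i := by
          rw [← h2] at h1
          exact mul_left_cancel₀ (hQz τ' hτ') h1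
        have h4 := hfi0 τ hτ
        have h5 := hfi0 τ' hτ'
        change f i τ / f i0 τ = f i τ' / f i0 τ' at h3
        rw [div_eq_div_iff h4 h5] at h3
        exact h3
      obtain ⟨i, j, a, b, hab⟩ := hf.nonconst
      apply hab
      have hgood : ∀ τ τ', A τ ≠ 0 → A τ' ≠ 0 → f i τ * f j τ' = f j τ * f i τ' := by
        intro τ τ' hτ hτ'
        have h1 := hfc τ τ' hτ hτ' i
        have h2 := hfc τ τ' hτ hτ' j
        have h4 := hfi0 τ hτ
        have h5 := hfi0 τ' hτ'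
        have h6 : f i0 τ * f i0 τ' * (f i τ * f j τ' - f j τ * f i τ') = 0 := by
          linear_combination (f j τ' * f i0 τ) * h1 - (f i τ' * f i0 τ) * h2
        exact sub_eq_zero.1 ((mul_eq_zero.1 h6).resolve_left (mul_ne_zero h4 h5))
      have c1 := (hf.hol i).continuous
      have c2 := (hf.hol j).continuous
      have h1 : ∀ τ, A τ ≠ 0 → ∀ τ', f i τ * f j τ' = f j τ * f i τ' := fun τ hτ τ' =>
        eq_of_ne hA hA0 (c2.const_mul (f i τ)) (c1.const_mul (f j τ))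
          (fun τ' hτ' => hgood τ τ' hτ hτ') τ'
      exact eq_of_ne hA hA0 (f := fun τ => f i τ * f j b) (g := fun τ => f j τ * f i b)
        (c1.mul_const _) (c2.mul_const _) (fun τ hτ => h1 τ hτ b) a
  have h1 := hcurve _ _ hent τ0
  rw [hval τ0 hA0 B0 D hB0] at h1
  exact mul_ne_zero (pow_ne_zero _ (hu'0 τ0 hA0)) (hBz τ0 hA0) h1

end Pool.Agent.N133.KB
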