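import Pool.Agent.N133.KB
import Pool.Agent.N133.Pt
import Pool.Agent.Y192.KC.Dich
import Pool.Agent.R882.HYM
import Pool.Agent.TH466.QG.Top

/-!
Covers of arbitrary projective varieties: hyperbolicity, special sets and general type for all
projective varieties which are birational to them.
-/

set_option autoImplicit false
set_option linter.overlappingInstances false

open FF Pool.Agent.W602.GT Pool.Agent.Y192.KC
open Pool.Agent.W619.PQ (IsUniruled)
open Pool.Agent.R882.HY (NoRationalCurve BrodyHyperbolic SpRat SpH spRat_sub_spH spH_sub)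

namespace Pool.Agent.N133.Kum

/-- from pseudo-Brody hyperbolicity to the special set of the entire curves -/
theorem spH_ne {L : Type} [Field L] [Algebra ℂ L] {M : ℕ} {y : Fin (M + 1) → L} (hy : y ≠ 0)
    (h : Pool.Agent.Y221.BD.PseudoBrody y) : SpH y ≠ VarPts ℂ y := by
  obtain ⟨R, hR, hRy, hc⟩ := h
  obtain ⟨p, hp, hpR⟩ := Pool.Agent.N133.Pt.exists_varPt hy hR hRy
  intro heq
  rw [← heq] at hp
  refine hpR (hp.2 R hR ?_)
  intro f hf hmem ⟨s, t, hst⟩ z
  have hne : ∀ τ, f τ ≠ 0 := fun τ => (hmem τ).1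
  have hnc : ∃ i j a b, f a i * f b j ≠ f a j * f b i := by
    by_contra hcon
    push Not at hcon
    obtain ⟨k, hk⟩ := Function.ne_iff.1 (hne t)
    apply hst (f s k / f t k)
    funext i
    have h1 := hcon i k s t
    have hk' : f t k ≠ 0 := hk
    rw [Pi.smul_apply, smul_eq_mul]
    field_simp
    linear_combination h1
  have h1 := hc (fun i τ => f τ i) ⟨fun i => (differentiable_pi.1 hf) i, fun τ => ?_, ?_, hnc⟩ z
  · unfold val
    rw [MvPolynomial.aeval_eq_eval]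
    exact h1
  · obtain ⟨k, hk⟩ := Function.ne_iff.1 (hne τ)
    exact ⟨k, hk⟩
  · intro G hG hGy τ
    have h2 := (hmem τ).2 G hG hGy
    unfold val at h2
    rw [MvPolynomial.aeval_eq_eval] at h2
    exact h2

theorem spRat_ne {L : Type} [Field L] [Algebra ℂ L] {M : ℕ} {y : Fin (M + 1) → L}
    (h : SpH y ≠ VarPts ℂ y) : SpRat y ≠ VarPts ℂ y := fun heq =>
  h (Set.Subset.antisymm spH_sub (heq ▸ spRat_sub_spH))

theorem uniruled_of_ruled {L : Type} [Field L] [Algebra ℂ L] [Algebra.EssFiniteType ℂ L] {d : ℕ}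
    (hd : Algebra.trdeg ℂ L = d) (h : Ruled ℂ L) : IsUniruled ℂ L d :=
  (Pool.Agent.TH466.QG.neg_below (K := L) (L := L) hd h).1

/-- all equivalences -/
theorem kum_all {n r : ℕ} (X : ZCov n r) (hG : X.G = 1) :
    ∃ m0 : ℕ, ∀ m, m0 ≤ m → (∀ j, X.e j ∣ m) →
      ∀ (L : Type) [Field L] [Algebra ℂ L] (t : Fin (n + 1) → L) (w : Fin r → L),
      ZField X m L t w → ∀ d : ℕ, 1 ≤ d → Algebra.trdeg ℂ L = d →
      ∀ (N : ℕ) (y : Fin (N + 1) → L), y ≠ 0 → coords ℂ y = ⊤ →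
      [GeneralType ℂ L d, KodGe ℂ L d (fun _ => False) 0, Psef ℂ L d (fun _ => False),
        ¬ Ruled ℂ L, ¬ IsUniruled ℂ L d, SpH y ≠ VarPts ℂ y, SpRat y ≠ VarPts ℂ y,
        ¬ ZRed X].TFAE ∧
      (NoRationalCurve y → GeneralType ℂ L d) ∧ (BrodyHyperbolic y → GeneralType ℂ L d) := by
  obtain ⟨m0, hm0⟩ := dich_all X hG
  refine ⟨m0, fun m hm he L _ _ t w hF d hd htr N y hy hgen => ?_⟩
  have h := hm0 m hm he L t w hF d hd htr
  have hess : Algebra.EssFiniteType ℂ L := Pool.Agent.R882.HY.ess_of_coords hgen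
  have h3 : GeneralType ℂ L d ↔ ¬ Ruled ℂ L := by
    have h9 : Ruled ℂ L ↔ ¬ GeneralType ℂ L d := h.out 2 3
    exact (not_iff_comm.1 h9.symm).symm
  have h6 : GeneralType ℂ L d ↔ PseudoBrody X.toCov m t w := by
    have : ¬ GeneralType ℂ L d ↔ ¬ PseudoBrody X.toCov m t w := h.out 3 5
    exact not_iff_not.1 this
  have hdich : GeneralType ℂ L d ∨ IsUniruled ℂ L d := by
    by_cases hR : Ruled ℂ L
    · exact Or.inr (uniruled_of_ruled htr hR)
    · exact Or.inl (h3.2 hR)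
  obtain ⟨c1, c2, c3, c4⟩ := Pool.Agent.R882.HY.of_dichotomy htr hdich hy hgen
  refine ⟨?_, c3, c4⟩
  tfae_have 1 ↔ 2 := by
    have : ¬ KodGe ℂ L d (fun _ => False) 0 ↔ ¬ GeneralType ℂ L d := h.out 0 3
    exact (not_iff_not.1 this).symm
  tfae_have 1 ↔ 3 := by
    have : ¬ Psef ℂ L d (fun _ => False) ↔ ¬ GeneralType ℂ L d := h.out 1 3
    exact (not_iff_not.1 this).symm
  tfae_have 1 ↔ 4 := h3
  tfae_have 1 ↔ 5 := c1
  tfae_have 1 → 6 := fun h7 => spH_ne hy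
    (Pool.Agent.N133.KB.brody_of he hG hF.ne hF.eqn hF.gen (h6.1 h7) hy hgen)
  tfae_have 6 → 7 := spRat_ne
  tfae_have 7 → 1 := c2
  tfae_have 1 ↔ 8 := by
    have h9 : ¬ GeneralType ℂ L d ↔ ZRed X := h.out 3 7
    exact (not_iff_comm.1 h9).symm
  tfae_finish

/-- Kodaira dimension and numerical dimension -/
theorem kum_abundance {n r : ℕ} (X : ZCov n r) (hG : X.G = 1) :
    ∃ m0 : ℕ, ∀ m, m0 ≤ m → (∀ j, X.e j ∣ m) →
      ∀ (L : Type) [Field L] [Algebra ℂ L] (t : Fin (n + 1) → L) (w : Fin r → L),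
      ZField X m L t w → ∀ d : ℕ, 1 ≤ d → Algebra.trdeg ℂ L = d →
      [Psef ℂ L d (fun _ => False), KodGe ℂ L d (fun _ => False) 0, GeneralType ℂ L d,
        ¬ Ruled ℂ L, ¬ ZRed X].TFAE ∧
      (¬ Psef ℂ L d (fun _ => False) →
        Pool.Agent.W619.TW.NumNeg ℂ L d (fun _ => False)) := by
  obtain ⟨m0, hm0⟩ := dich_all X hG
  refine ⟨m0, fun m hm he L _ _ t w hF d hd htr => ?_⟩
  have h := hm0 m hm he L t w hF d hd htr
  have hess : Algebra.EssFiniteType ℂ L := by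
    rw [← IntermediateField.fg_top_iff, ← hF.gen]
    exact IntermediateField.fg_adjoin_of_finite ((Set.finite_range _).union (Set.finite_range _))
  have e1 : ¬ KodGe ℂ L d (fun _ => False) 0 ↔ ¬ Psef ℂ L d (fun _ => False) := h.out 0 1
  have e2 : ¬ GeneralType ℂ L d ↔ ¬ Psef ℂ L d (fun _ => False) := h.out 3 1
  have e3 : Ruled ℂ L ↔ ¬ Psef ℂ L d (fun _ => False) := h.out 2 1
  have e4 : ZRed X ↔ ¬ Psef ℂ L d (fun _ => False) := h.out 7 1
  refine ⟨?_, fun h2 => (Pool.Agent.TH466.QG.neg_below (K := L) (L := L) htr (e3.2 h2)).2.2⟩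
  tfae_have 1 ↔ 2 := (not_iff_not.1 e1).symm
  tfae_have 1 ↔ 3 := (not_iff_not.1 e2).symm
  tfae_have 1 ↔ 4 := by rw [e3, not_not]
  tfae_have 1 ↔ 5 := by rw [e4, not_not]
  tfae_finish

end Pool.Agent.N133.Kum
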