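import Pool.Agent.N133.BT
import Pool.Agent.N133.Kum
import Pool.Agent.TH710.ND.Lang
import Pool.Agent.TH710.NW.Mono3

/-!
Nested sums of high powers of monomials: hyperbolicity, special sets and general type for all
projective varieties which are birational to the given ones.
-/

set_option autoImplicit false
set_option linter.overlappingInstances false

open FF Pool.Agent.W602.GT
open Pool.Agent.W619.PQ (IsUniruled)
open Pool.Agent.R882.HY (NoRationalCurve BrodyHyperbolic SpRat SpH spRat_sub_spH spH_sub)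
open Pool.Agent.Y221.BD (PseudoBrody EntireCurve)
open Pool.Agent.TH710.ND (NestedIn IsMono HighTowers)
open Pool.Agent.TH710.NW (FunctionField)

namespace Pool.Agent.N133.NS

variable {n : ℕ} {ι : Type} {F : ι → MvPolynomial (Fin (n + 1)) ℂ}

theorem subVar_of (hF : ∀ e, IsForm (F e)) {K : Type} [Field K] [Algebra ℂ K] {w : ℕ}
    {y : Fin (n + 1) → K} (hy : FunctionField F K w y) : SubVar F K w y :=
  ⟨hy.ne, fun i => (hy.rel (F i) (hF i)).2 fun _ hx => hx.2 i, hy.gen, hy.dim⟩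

theorem comp_of {K : Type} [Field K] [Algebra ℂ K] {w : ℕ}
    {y : Fin (n + 1) → K} (hy : FunctionField F K w y) : IsComponent F y := by
  refine ⟨1, ⟨0, MvPolynomial.isHomogeneous_one _ _⟩, ?_, fun x hx _ => ⟨hx.1, fun G hG hGy => ?_⟩⟩
  · unfold val
    rw [map_one]
    exact one_ne_zero
  · have h1 := (hy.rel G hG).1 hGy x ⟨hx.1, fun i => by
      have h2 := hx.2 i
      unfold val at h2
      rwa [MvPolynomial.aeval_eq_eval] at h2⟩
    unfold val
    rw [MvPolynomial.aeval_eq_eval]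
    exact h1

theorem pseudo_of {K : Type} [Field K] [Algebra ℂ K] {w : ℕ} (hF : ∀ e, IsForm (F e))
    {y : Fin (n + 1) → K} (hy : FunctionField F K w y)
    (h : Pool.Agent.H159R3.GGL.PseudoBrody F) : PseudoBrody y := by
  obtain ⟨G, hG, ⟨x, hx, hxG⟩, hc⟩ := h
  refine ⟨G, hG, fun h0 => hxG ((hy.rel G hG).1 h0 x hx), fun f hf t => ?_⟩
  refine hc (fun z i => f i z) ⟨differentiable_pi.2 hf.hol, fun z => ⟨?_, fun i => ?_⟩, ?_⟩ t
  · obtain ⟨i, hi⟩ := hf.ne z
    exact Function.ne_iff.2 ⟨i, hi⟩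
  · exact hf.mem (F i) (hF i) ((subVar_of hF hy).mem i) z
  · obtain ⟨i, j, a, b, hab⟩ := hf.nonconst
    refine ⟨a, b, fun c hcc => hab ?_⟩
    have h1 := congrFun hcc i
    have h2 := congrFun hcc j
    simp only [Pi.smul_apply, smul_eq_mul] at h1 h2
    rw [h1, h2]
    ring

theorem nested_all [Finite ι] {s N h : ℕ}
    (hF : ∀ e, IsForm (F e) ∧ NestedIn IsMono s N h (F e))
    (hN : (n + 1) * ((h + 1) * (2 * s + 1) ^ 5) ≤ N) (hirr : Pool.Agent.H159R3.GGL.Irred F)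
    {K : Type} [Field K] [Algebra ℂ K] {w : ℕ} {y : Fin (n + 1) → K}
    (hy : FunctionField F K w y)
    {M : ℕ} {x : Fin (M + 1) → K} (hx : x ≠ 0) (hgen : coords ℂ x = ⊤) :
    [GeneralType ℂ K w, SpRat x ≠ VarPts ℂ x, SpH x ≠ VarPts ℂ x, ¬ Ruled ℂ K,
      ∀ b : Fin (n + 1) → ℤ, Pool.Agent.H159R3.GGL.Preserves b F →
        Pool.Agent.H159R3.GGL.ActsTrivially b F].TFAE := by
  have hsub := subVar_of (fun e => (hF e).1) hy
  have hcomp := comp_of hy
  obtain ⟨hNb, hN2, hN1⟩ := Pool.Agent.TH710.ND.bnd_le hN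
  have hTow : ∀ i, Pool.Agent.TH710.NW.TowerM (F i) := fun i =>
    Pool.Agent.TH710.ND.towerM_of hN2 hN1 (hF i).2
  have h1 := Pool.Agent.TH710.ND.neg_tfae (F := F) (Or.inr hF) hNb hsub hcomp
  have hess : Algebra.EssFiniteType ℂ K := Pool.Agent.TH466.QG.SubVar.ess hsub
  have e1 : ¬ KodGe ℂ K w (fun _ => False) 0 ↔ ¬ GeneralType ℂ K w := h1.out 0 3
  have e3 : Ruled ℂ K ↔ ¬ GeneralType ℂ K w := h1.out 2 3
  have hd : GeneralType ℂ K w ∨ IsUniruled ℂ K w := by
    by_cases hR : Ruled ℂ K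
    · exact Or.inr (Pool.Agent.TH466.QG.neg_below (K := K) (L := K) hy.dim hR).1
    · exact Or.inl (not_not.1 fun h2 => hR (e3.2 h2))
  obtain ⟨c1, c2, -, -⟩ := Pool.Agent.R882.HY.of_dichotomy hy.dim hd hx hgen
  -- general type and the group
  have hB : GeneralType ℂ K w → Pool.Agent.H159R3.GGL.PseudoBrody F := by
    rintro ⟨-, m, hm, ω, hpl, hreg, D, hD0, -⟩
    by_contra hnb
    apply hD0
    rw [(Pool.Agent.TH710.NW.covered_of_not_brody F (fun i => (hF i).1) hTow hirr hnb hy).2 m hm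
      (ω 0) ⟨hpl 0, fun P hP => hreg P hP 0⟩]
    rfl
  have hBy : Pool.Agent.H159R3.GGL.PseudoBrody F → SpH x ≠ VarPts ℂ x := fun hb =>
    Pool.Agent.N133.Kum.spH_ne hx (Pool.Agent.N133.KB.brody_bir hy.ne hy.gen
      (pseudo_of (fun e => (hF e).1) hy hb) hx hgen)
  have hmain := Pool.Agent.TH710.NW.mainM F (fun i => (hF i).1) hTow hirr
  tfae_have 1 → 3 := fun h => hBy (hB h)
  tfae_have 3 → 2 := Pool.Agent.N133.Kum.spRat_ne
  tfae_have 2 → 1 := c2
  tfae_have 1 ↔ 4 := by rw [e3, not_not]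
  tfae_have 1 → 5 := fun h => hmain.1 (hB h)
  tfae_have 5 → 3 := fun h => hBy (hmain.2 h)
  tfae_finish

end Pool.Agent.N133.NS
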