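import Pool.Agent.R885.G13
import Pool.Agent.Y174.OB.O10

/-!
Log canonical pairs with an orbifold structure below the boundary: the boundary on all models.
-/

set_option autoImplicit false
set_option linter.overlappingInstances false
set_option linter.unusedSectionVars false

open FF Pool.Agent.W602.GT Pool.Agent.W603.LV Pool.Agent.W619.PQ Pool.Agent.W619.TW
  Pool.Agent.Y172 Pool.Agent.Y191 Pool.Agent.Y174

namespace Pool.Agent.N133.OB

section

variable {K : Type} [Field K] [Algebra ℂ K] {n N : ℕ} {y : Fin (N + 1) → K}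

/-- the volume form of a system of functions -/
theorem isPluri_det (x : Fin n → K) :
    IsPluri 1 (fun D : Fin n → Derivation ℂ K K => (Matrix.of fun a b => D a (x b)).det) := by
  intro A D
  have e : (Matrix.of fun a b => (∑ j, A a j • D j) (x b)) =
      A * Matrix.of fun a b => D a (x b) := by
    ext a b
    rw [Matrix.of_apply, Matrix.mul_apply, Pool.Agent.W721.PG.EFF2.der_sum]
    rfl
  show (Matrix.of fun a b => (∑ j, A a j • D j) (x b)).det = _
  rw [e, Matrix.det_mul, pow_one]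

/-- a function whose zeros contain the support of the divisor and the places where the log
discrepancy may be less than one -/
theorem exists_etale (hy : NormalModel y) (hn : Algebra.trdeg ℂ K = n) {Δ : Place ℂ K → ℚ}
    (hΔ : Effective y Δ) {j : Fin (N + 1)} (hj : y j ≠ 0) :
    ∃ g ∈ chart y j, g ≠ 0 ∧
      (∀ P, IsPrimeDivisor y P → Centred y j P → Δ P ≤ (P.ord g : ℚ)) ∧
      ∀ Q : Place ℂ K, Centred y j Q → ¬ 0 < Q.ord g → LogDisc y n Δ Q 1 := by
  classical
  obtain ⟨x, E, hx, hE⟩ := exists_crd hn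
  have hfr := hy.frac hj
  -- the denominators of the coordinates
  have h1 : ∀ i, ∃ b ∈ chart y j, b ≠ 0 ∧ b * x i ∈ chart y j := by
    intro i
    obtain ⟨a, b, hb, hab⟩ := IsFractionRing.div_surjective (chart y j) (x i)
    have hb0 : (b : K) ≠ 0 := fun h => nonZeroDivisors.ne_zero hb (Subtype.ext h)
    have hab' : (a : K) / b = x i := hab
    refine ⟨b, b.2, hb0, ?_⟩
    rw [← hab', mul_div_cancel₀ _ hb0]
    exact a.2
  choose b hb hb0 hbx using h1
  obtain ⟨h, hh, hh0, hD⟩ := exists_den_frame hy hj E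
  obtain ⟨s, hs, hs0, hsP⟩ := exists_high (y := y) (j := j)
    (S := {P | IsPrimeDivisor y P ∧ Centred y j P ∧ Δ P ≠ 0})
    (hΔ.2.subset (by
      rintro P ⟨h1, -, h2⟩
      exact ⟨h1, h2⟩)) (fun P hP => hP.2.1) (fun P hP => hP.1) (fun P => ⌈Δ P⌉₊)
  obtain ⟨B, hB⟩ : ∃ B, B = ∏ i, b i := ⟨_, rfl⟩
  have hBm : B ∈ chart y j := by
    rw [hB]
    exact (chart y j).prod_mem fun i _ => hb i
  have hB0 : B ≠ 0 := by
    rw [hB]
    exact Finset.prod_ne_zero_iff.2 fun i _ => hb0 i
  refine ⟨h * B * s, (chart y j).mul_mem ((chart y j).mul_mem hh hBm) hs,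
    mul_ne_zero (mul_ne_zero hh0 hB0) hs0, ?_, ?_⟩
  · intro P hP hPc
    have e1 := (P.reg_iff hh0).1 (hPc.reg h hh)
    have e2 := (P.reg_iff hB0).1 (hPc.reg B hBm)
    have e3 := (P.reg_iff hs0).1 (hPc.reg s hs)
    rw [P.ord_mul (mul_ne_zero hh0 hB0) hs0, P.ord_mul hh0 hB0]
    have e4 : Δ P ≤ (P.ord s : ℚ) := by
      by_cases h0 : Δ P = 0
      · rw [h0]
        exact_mod_cast e3
      · have h6 := hsP P ⟨hP, hPc, h0⟩
        exact (Nat.le_ceil _).trans (by exact_mod_cast h6)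
    have e5 : (P.ord s : ℚ) ≤ ((P.ord h + P.ord B + P.ord s : ℤ) : ℚ) := by
      exact_mod_cast (by linarith : P.ord s ≤ P.ord h + P.ord B + P.ord s)
    exact e4.trans e5
  · intro Q hQc hQ
    have e1 := (Q.reg_iff hh0).1 (hQc.reg h hh)
    have e2 := (Q.reg_iff hB0).1 (hQc.reg B hBm)
    have e3 := (Q.reg_iff hs0).1 (hQc.reg s hs)
    rw [Q.ord_mul (mul_ne_zero hh0 hB0) hs0, Q.ord_mul hh0 hB0] at hQ
    have q1 : Q.ord h = 0 := by omega
    have q2 : Q.ord B = 0 := by omega
    have q3 : Q.ord s = 0 := by omega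
    -- units at the centre
    have hunit : ∀ P, Through y P Q → ∀ f ∈ chart y j, f ≠ 0 → Q.ord f = 0 → P.ord f = 0 := by
      intro P hPQ f hf hf0 hfQ
      have u1 : f⁻¹ ∈ localRing y Q :=
        ⟨j, hQc, 1, (chart y j).one_mem, f, hf, hf0, hfQ, inv_mul_cancel₀ hf0⟩
      have u2 := (P.reg_iff (inv_ne_zero hf0)).1 (hPQ _ u1)
      have u3 := (P.reg_iff hf0).1 ((hPQ.centred hQc).reg f hf)
      rw [P.ord_inv] at u2
      omega
    have hxreg : ∀ P : Place ℂ K, Centred y j P → P.ord B = 0 → ∀ i, P.Reg (x i) := by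
      intro P hP hPB i
      have u1 : B * x i ∈ chart y j := by
        rw [hB, ← Finset.prod_erase_mul _ _ (Finset.mem_univ i), mul_assoc]
        exact (chart y j).mul_mem ((chart y j).prod_mem fun l _ => hb l) (hbx i)
      have u2 := hP.reg _ u1
      by_cases hxi : x i = 0
      · exact Or.inl hxi
      right
      have u3 := (P.reg_iff (mul_ne_zero hB0 hxi)).1 u2
      rw [P.ord_mul hB0 hxi, hPB, zero_add] at u3
      exact u3
    have hreg : ∀ P : Place ℂ K, Centred y j P → P.ord B = 0 →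
        OrdGe P (fun D : Fin n → Derivation ℂ K K => (Matrix.of fun a b => D a (x b)).det) 0 := by
      intro P hP hPB G hG
      have u1 : Ge P 0 (Matrix.of fun i j => G i (x j) : Matrix (Fin n) (Fin n) K).det :=
        ge_det P _ _ (fun _ _ => 0) (fun a b => hG a _ (hxreg P hP hPB b)) fun σ => by simp
      rcases u1 with u1 | u1
      · exact Or.inl u1
      · right
        exact_mod_cast u1
    refine Or.inr ⟨1, Nat.one_pos, fun D => (Matrix.of fun a b => D a (x b)).det,
      isPluri_det x, fun P hP hPQ => ?_, ?_⟩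
    · have hPc := hPQ.centred hQc
      have p1 := hunit P hPQ h hh hh0 q1
      have p2 := hunit P hPQ B hBm hB0 q2
      have p3 := hunit P hPQ s hs hs0 q3
      have hΔP : Δ P = 0 := by
        by_contra h0
        have h6 := hsP P ⟨hP, hPc, h0⟩
        rw [p3] at h6
        have h7 : ⌈Δ P⌉₊ = 0 := by omega
        rw [Nat.ceil_eq_zero] at h7
        exact h0 (le_antisymm h7 (hΔ.1 P hP))
      rw [hΔP, mul_zero, neg_zero]
      refine ⟨hreg P hPc p2, E, fun i => ?_, ?_, ?_⟩
      · have u1 : DerReg P (h • E i) := derReg_of_chart hP hPc fun f hf => hD i f hf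
        intro f hf
        have u2 := u1 f hf
        rw [Derivation.smul_apply, smul_eq_mul] at u2
        by_cases h0 : E i f = 0
        · exact Or.inl h0
        right
        have u3 := (P.reg_iff (mul_ne_zero hh0 h0)).1 u2
        rw [P.ord_mul hh0 h0, p1, zero_add] at u3
        exact u3
      · have u1 : (Matrix.of fun a b => E a (x b)) = (1 : Matrix (Fin n) (Fin n) K) := by
          ext a b
          rw [Matrix.of_apply, Matrix.one_apply]
          exact hE a b
        show (Matrix.of fun a b => E a (x b)).det ≠ 0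
        rw [u1, Matrix.det_one]
        exact one_ne_zero
      · have u1 : (Matrix.of fun a b => E a (x b)) = (1 : Matrix (Fin n) (Fin n) K) := by
          ext a b
          rw [Matrix.of_apply, Matrix.one_apply]
          exact hE a b
        show ((P.ord (Matrix.of fun a b => E a (x b)).det : ℤ) : ℚ) = 0
        rw [u1, Matrix.det_one, P.ord_one]
        simp
    · rw [sub_self, mul_zero]
      exact hreg Q hQc q2

/-- **The boundary on all models.** -/
theorem exists_delta (hy : NormalModel y) (hn : Algebra.trdeg ℂ K = n) {Δ : Place ℂ K → ℚ}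
    (hΔ : Effective y Δ) (hLC : LogCanonical y n Δ) {δ0 : Place ℂ K → ℝ} (hO : IsOrb δ0)
    (hle : ∀ P, IsPrimeDivisor y P → δ0 P ≤ Δ P) {G : Finset K} (hG0 : ∀ g ∈ G, g ≠ 0)
    (hG : ∀ v, δ0 v ≠ 0 → ∃ g ∈ G, 0 < v.ord g) :
    ∃ (δ : Place ℂ K → ℚ) (G' : Finset K), (∀ P, IsPrimeDivisor y P → δ P = Δ P) ∧
      (∀ v, 0 ≤ δ v ∨ IsPrimeDivisor y v) ∧ (∀ v, δ0 v ≤ δ v) ∧
      (∀ Q, Divisorial n Q → LogDisc y n Δ Q (1 - δ Q)) ∧
      ∀ v : Place ℂ K, ∃ g ∈ G', g ≠ 0 ∧ (δ v : ℝ) ≤ (v.ord g : ℝ) := by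
  classical
  have h1 : ∀ j : Fin (N + 1), ∃ g : K, y j ≠ 0 → g ∈ chart y j ∧ g ≠ 0 ∧
      (∀ P, IsPrimeDivisor y P → Centred y j P → Δ P ≤ (P.ord g : ℚ)) ∧
      ∀ Q : Place ℂ K, Centred y j Q → ¬ 0 < Q.ord g → LogDisc y n Δ Q 1 := by
    intro j
    by_cases hj : y j = 0
    · exact ⟨1, fun h => absurd hj h⟩
    · obtain ⟨g, h1, h2, h3, h4⟩ := exists_etale hy hn hΔ hj
      exact ⟨g, fun _ => ⟨h1, h2, h3, h4⟩⟩
  choose g hg using h1
  obtain ⟨G', hG'⟩ : ∃ G' : Finset K, G' = G ∪ (Finset.univ.filter fun j => y j ≠ 0).image g :=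
    ⟨_, rfl⟩
  have hG'0 : ∀ f ∈ G', f ≠ 0 := by
    intro f hf
    rw [hG', Finset.mem_union, Finset.mem_image] at hf
    rcases hf with hf | ⟨j, hj, rfl⟩
    · exact hG0 f hf
    · exact (hg j (Finset.mem_filter.1 hj).2).2.1
  have hgG' : ∀ j, y j ≠ 0 → g j ∈ G' := by
    intro j hj
    rw [hG', Finset.mem_union]
    exact Or.inr (Finset.mem_image_of_mem _ (Finset.mem_filter.2 ⟨Finset.mem_univ _, hj⟩))
  refine ⟨fun v => if IsPrimeDivisor y v then Δ v else if ∃ f ∈ G', 0 < v.ord f then 1 else 0,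
    insert 1 G', fun P hP => if_pos hP, fun v => ?_, fun v => ?_, fun Q hQ => ?_, fun v => ?_⟩
  · beta_reduce
    by_cases h2 : IsPrimeDivisor y v
    · exact Or.inr h2
    · left
      rw [if_neg h2]
      split_ifs
      · exact zero_le_one
      · exact le_rfl
  · beta_reduce
    by_cases h2 : IsPrimeDivisor y v
    · rw [if_pos h2]
      exact hle v h2
    rw [if_neg h2]
    by_cases h3 : ∃ f ∈ G', 0 < v.ord f
    · rw [if_pos h3, Rat.cast_one]
      rcases hO v with h4 | ⟨q, hq, h4⟩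
      · exact h4.le
      · rw [h4]
        have : (0 : ℝ) ≤ 1 / q := by positivity
        linarith
    · rw [if_neg h3, Rat.cast_zero]
      by_contra h4
      obtain ⟨f, hf, hf'⟩ := hG v (by
        intro h0
        rw [h0] at h4
        exact h4 le_rfl)
      exact h3 ⟨f, by rw [hG']; exact Finset.mem_union_left _ hf, hf'⟩
  · beta_reduce
    by_cases h2 : IsPrimeDivisor y Q
    · rw [if_pos h2]
      exact Or.inl ⟨h2, le_rfl⟩
    rw [if_neg h2]
    by_cases h3 : ∃ f ∈ G', 0 < Q.ord f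
    · rw [if_pos h3, sub_self]
      obtain ⟨r, hr, η, h4, h5, h6⟩ := hLC Q hQ
      refine Or.inr ⟨r, hr, η, h4, h5, h6.mono (le_of_eq ?_)⟩
      ring
    · rw [if_neg h3, sub_zero]
      obtain ⟨j, hj⟩ := exists_centred hy Q
      exact (hg j hj.1).2.2.2 Q hj fun h4 => h3 ⟨g j, hgG' j hj.1, h4⟩
  · beta_reduce
    by_cases h2 : IsPrimeDivisor y v
    · rw [if_pos h2]
      obtain ⟨j, hj⟩ := exists_centred hy v
      obtain ⟨-, h3, h4, -⟩ := hg j hj.1
      refine ⟨g j, Finset.mem_insert_of_mem (hgG' j hj.1), h3, ?_⟩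
      have := h4 v h2 hj
      exact_mod_cast this
    rw [if_neg h2]
    by_cases h3 : ∃ f ∈ G', 0 < v.ord f
    · rw [if_pos h3]
      obtain ⟨f, hf, hf'⟩ := h3
      refine ⟨f, Finset.mem_insert_of_mem hf, hG'0 f hf, ?_⟩
      have : (1 : ℤ) ≤ v.ord f := by omega
      rw [Rat.cast_one]
      exact_mod_cast this
    · rw [if_neg h3]
      refine ⟨1, Finset.mem_insert_self _ _, one_ne_zero, ?_⟩
      rw [v.ord_one]
      simp

end

end Pool.Agent.N133.OB
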