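import Pool.Agent.N133.OB9

/-! The geometric generic fibre of the Iitaka fibration has Kodaira dimension at most zero. -/

set_option autoImplicit false
set_option linter.overlappingInstances false
set_option linter.unusedSectionVars false

open FF IntermediateField Pool.Agent.W602.GT Pool.Agent.W619.PQ Pool.Agent.W619.PL
  Pool.Agent.W619.TW Pool.Agent.W603.LV Pool.Agent.W619.Y Pool.Agent.W824.PG Pool.Agent.Y172
  Pool.Agent.Y174

namespace Pool.Agent.N133.OB

section

variable {L K Λ F : Type} [Field L] [Field K] [Field Λ]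
  [Field F] [Algebra ℂ L] [Algebra ℂ K] [Algebra L K] [IsScalarTower ℂ L K] [Algebra L Λ]
  [Algebra Λ F] [Algebra K F] [Algebra L F] [IsScalarTower L Λ F] [IsScalarTower L K F]
  [Algebra ℂ Λ] [Algebra ℂ F] [IsScalarTower ℂ Λ F] [IsScalarTower ℂ K F]
  [IsScalarTower ℂ L Λ] {N : ℕ} {y : Fin (N + 1) → K}

/-- **The geometric generic fibre of the Iitaka fibration.** -/
theorem not_kod [IsAlgClosed Λ] [Algebra.IsAlgebraic L Λ]
    (hgenF : IntermediateField.adjoin Λ (Set.range (algebraMap K F)) = ⊤)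
    {d r : ℕ} (hL : Algebra.trdeg ℂ L = d) (hn : Algebra.trdeg ℂ K = (d + (r + 1) : ℕ))
    (hy : NormalModel y) {Δ : Place ℂ K → ℚ} (hΔ : Effective y Δ) {f0 : K}
    (hf0 : f0 ∈ Ratio y (d + (r + 1)) Δ)
    (hRL : ∀ f ∈ Ratio y (d + (r + 1)) Δ, f ∈ Set.range (algebraMap L K))
    (hLR : ∀ c : L, IsAlgebraic (IntermediateField.adjoin ℂ (Ratio y (d + (r + 1)) Δ))
      (algebraMap L K c))
    {δ : Place ℂ K → ℝ} (hδ : ∀ P, IsPrimeDivisor y P → δ P = Δ P)
    {δ' : Place Λ F → ℝ} (hδ' : IsPullFib δ δ') : ¬ PairKod Λ F (r + 1) δ' 1 := by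
  classical
  rintro ⟨m, hm, ω, hω, D, hD, hind⟩
  have hL0 : CharZero L := charZero_of_injective_algebraMap (algebraMap ℂ L).injective
  have hΛ0 : CharZero Λ := charZero_of_injective_algebraMap (algebraMap ℂ Λ).injective
  have hess : Algebra.EssFiniteType ℂ K := hy.ess
  have halg : Algebra.IsAlgebraic K F := alg_KF (L := L) hgenF
  have hLK := trdeg_LK (L := L) hL hn
  obtain ⟨t, ht⟩ := Pool.Agent.W636.PG.exists_basis ℂ L d hL
  obtain ⟨x, hx⟩ := Pool.Agent.W636.PG.exists_basis L K (r + 1) hLK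
  have hbx := basis_F hLK hgenF hx
  obtain ⟨E', hE'⟩ := Pool.Agent.W636.PG.exists_duals Λ F (r + 1) _ hbx
  have hE'2 : ∀ i j, E' i (algebraMap K F (x j)) = if i = j then 1 else 0 := hE'
  -- the values
  have hval : ∀ l, ω l D = (Matrix.of fun a b => D a (algebraMap K F (x b))).det ^ m * ω l E' := by
    intro l
    have h2 := (hω l).1 (Matrix.of fun a b => D a (algebraMap K F (x b))) E'
    rw [← h2]
    congr 1
    funext a
    exact (Pool.Agent.W73.PG.PULL.expand _ hbx E' hE' (D a)).symm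
  have hX : (Matrix.of fun a b => D a (algebraMap K F (x b))).det ^ m ≠ 0 := by
    intro h0
    apply hD 0
    rw [hval, h0, zero_mul]
  have ha : ∀ l, ω l E' ≠ 0 := by
    intro l h0
    apply hD l
    rw [hval, h0, mul_zero]
  obtain ⟨N0, β, p, hpa, hpb⟩ := exists_descent (L := L) (K := K) hgenF
    (Finset.univ.image fun l : Fin 2 => ω l E')
  have hmemT : ∀ l : Fin 2, ω l E' ∈ Finset.univ.image fun l : Fin 2 => ω l E' := fun l =>
    Finset.mem_image_of_mem _ (Finset.mem_univ l)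
  let q : Fin 2 → Fin N0 → K := fun l j => p (ω l E') j
  let Z : Fin (d + (r + 1)) → K := Fin.append (algebraMap L K ∘ t) x
  have hZ : IsTranscendenceBasis ℂ Z := basis_append ht hx
  have hhor : ∀ (l : Fin 2) (j : Fin N0) (P : Place ℂ K), IsPrimeDivisor y P →
      (∀ c : L, c ≠ 0 → P.ord (algebraMap L K c) = 0) →
      OrdGe P (formOf Z m (q l j)) (-(m * Δ P)) := fun l j P hP hPL =>
    hor_bound hess hgenF hL hn hy hΔ ht hx hE'2 hδ hδ' (hω l)
      (fun v c hc => hpb _ (hmemT l) v c hc j) hP hPL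
  -- the bad prime divisors
  obtain ⟨B, hB⟩ : ∃ B : Finset (Place ℂ K), ∀ P, P ∈ B ↔ ∃ (l : Fin 2) (j : Fin N0),
      IsPrimeDivisor y P ∧ ¬ OrdGe P (formOf Z m (q l j)) (-(m * Δ P)) := by
    have h1 : (⋃ l : Fin 2, ⋃ j : Fin N0, {P | IsPrimeDivisor y P ∧
        ¬ OrdGe P (formOf Z m (q l j)) (-(m * Δ P))}).Finite :=
      Set.finite_iUnion fun l => Set.finite_iUnion fun j =>
        finite_poles hy hn hΔ (isPluri_formOf Z m (q l j))
    refine ⟨h1.toFinset, fun P => ?_⟩
    rw [Set.Finite.mem_toFinset]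
    simp only [Set.mem_iUnion, Set.mem_ofPred_eq]
  have hBp : ∀ P ∈ B, IsPrimeDivisor y P := by
    intro P hP
    obtain ⟨l, j, h1, -⟩ := (hB P).1 hP
    exact h1
  have hBx : ∀ P ∈ B, ∃ c : K, IsAlgebraic
      (IntermediateField.adjoin ℂ (Ratio y (d + (r + 1)) Δ)) c ∧ P.ord c ≠ 0 := by
    intro P hP
    by_contra hcon
    push Not at hcon
    obtain ⟨l, j, h1, h2⟩ := (hB P).1 hP
    exact h2 (hhor l j P h1 fun c _ => hcon _ (hLR c))
  have hk : ∀ P, ∃ c : ℕ, IsPrimeDivisor y P → ∀ (l : Fin 2) (j : Fin N0),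
      OrdGe P (formOf Z m (q l j)) (-(c : ℚ)) := by
    intro P
    by_cases hP : IsPrimeDivisor y P
    · choose c hc using fun (l : Fin 2) (j : Fin N0) =>
        exists_ordGe hn hy hP (isPluri_formOf Z m (q l j))
      refine ⟨∑ l, ∑ j, c l j, fun _ l j => (hc l j).mono (neg_le_neg ?_)⟩
      have h1 : c l j ≤ ∑ j, c l j :=
        Finset.single_le_sum (f := fun j => c l j) (fun _ _ => Nat.zero_le _) (Finset.mem_univ j)
      have h2 : ∑ j, c l j ≤ ∑ l, ∑ j, c l j :=
        Finset.single_le_sum (f := fun l => ∑ j, c l j) (fun _ _ => Nat.zero_le _)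
          (Finset.mem_univ l)
      exact_mod_cast h1.trans h2
    · exact ⟨0, fun h => absurd h hP⟩
  choose k hk using hk
  obtain ⟨M, hM, s, hs1, hs2, hs3⟩ := exists_kill hn hf0 B hBp hBx k
  -- the sections
  have hsec : ∀ l j, IsSection y (d + (r + 1)) (M + m) ((M + m) • Δ)
      (fun E => s E * formOf Z m (q l j) E) := by
    intro l j
    refine ⟨isPluri_mul hs1.1 (isPluri_formOf Z m (q l j)), fun P hP => ?_⟩
    by_cases hPB : P ∈ B
    · refine ((hs3 P hPB).mul (hk P hP l j)).mono ?_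
      rw [Pi.smul_apply, nsmul_eq_mul]
      have h1 : (0 : ℚ) ≤ m * Δ P := mul_nonneg (Nat.cast_nonneg _) (hΔ.1 P hP)
      push_cast
      linarith
    · have h1 : OrdGe P (formOf Z m (q l j)) (-(m * Δ P)) := by
        by_contra h2
        exact hPB ((hB P).2 ⟨l, j, hP, h2⟩)
      refine ((hs1.2 P hP).mul h1).mono (le_of_eq ?_)
      rw [Pi.smul_apply, Pi.smul_apply, nsmul_eq_mul, nsmul_eq_mul]
      push_cast
      ring
  obtain ⟨EZ, hEZ⟩ := Pool.Agent.W636.PG.exists_duals ℂ K (d + (r + 1)) Z hZ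
  have hform : ∀ a : K, formOf Z m a EZ = a := by
    intro a
    unfold formOf
    have h1 : (Matrix.of fun i b => EZ i (Z b)) = 1 := by
      ext i b
      rw [Matrix.of_apply, Matrix.one_apply]
      exact hEZ i b
    rw [h1, Matrix.det_one, one_pow, mul_one]
  have hratio : ∀ l j l' j', q l' j' ≠ 0 → q l j / q l' j' ∈ Ratio y (d + (r + 1)) Δ := by
    intro l j l' j' h0
    refine ⟨M + m, by omega, _, hsec l' j', mul_ne_zero_form hn hs1.1 (isPluri_formOf Z m _) hs2
      (fun hc => h0 ?_), ?_⟩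
    · rw [← hform (q l' j'), hc]
      rfl
    · have e : (fun E => q l j / q l' j' * (s E * formOf Z m (q l' j') E)) =
          fun E => s E * formOf Z m (q l j) E := by
        funext E
        unfold formOf
        field_simp
      rw [e]
      exact hsec l j
  -- the ratio is constant
  obtain ⟨j0, hj0⟩ : ∃ j0, q 0 j0 ≠ 0 := by
    by_contra hcon
    push Not at hcon
    apply ha 0
    rw [hpa _ (hmemT 0)]
    refine Finset.sum_eq_zero fun j _ => ?_
    change algebraMap K F (q 0 j) * _ = 0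
    rw [hcon j, map_zero, zero_mul]
  choose lam hlam using fun (l : Fin 2) (j : Fin N0) => hRL _ (hratio l j 0 j0 hj0)
  have hq : ∀ l j, q l j = q 0 j0 * algebraMap L K (lam l j) := by
    intro l j
    rw [hlam, mul_div_cancel₀ _ hj0]
  have hω2 : ∀ l, ω l E' = algebraMap K F (q 0 j0) *
      algebraMap Λ F (∑ j, algebraMap L Λ (lam l j) * β j) := by
    intro l
    rw [map_sum, Finset.mul_sum]
    refine (hpa _ (hmemT l)).trans (Finset.sum_congr rfl fun j _ => ?_)
    change algebraMap K F (q l j) * _ = _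
    rw [hq, map_mul, map_mul, ← IsScalarTower.algebraMap_apply L K F,
      ← IsScalarTower.algebraMap_apply L Λ F, mul_assoc]
  have hqF : algebraMap K F (q 0 j0) ≠ 0 := by simpa using hj0
  have h1 := hind.transcendental 0
  apply h1
  have h2 : ω (Fin.succ 0) D / ω 0 D = algebraMap Λ F
      ((∑ j, algebraMap L Λ (lam 1 j) * β j) / (∑ j, algebraMap L Λ (lam 0 j) * β j)) := by
    change ω 1 D / ω 0 D = _
    rw [hval, hval, mul_div_mul_left _ _ hX, hω2, hω2, mul_div_mul_left _ _ hqF, map_div₀]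
  rw [h2]
  exact isAlgebraic_algebraMap _

end

end Pool.Agent.N133.OB
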