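import Pool.Agent.N133.OB10

/-! Counting sections. -/

set_option autoImplicit false
set_option linter.overlappingInstances false
set_option linter.unusedSectionVars false

open FF IntermediateField Pool.Agent.W619.PQ Pool.Agent.W619.PL Pool.Agent.W619.TW
  Pool.Agent.W603.LV Pool.Agent.W619.Y Pool.Agent.W824.PG Pool.Agent.TH122.AB MvPolynomial
  Pool.Agent.Y173.QA Pool.Agent.Y174 Pool.Agent.Y179.OB

namespace Pool.Agent.N133.OB

section

variable {k L K : Type} [Field k] [CharZero k] [Field L] [Field K]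
  [Algebra k L] [Algebra k K] [Algebra L K] [IsScalarTower k L K]

/-- counting sections in a subspace of bounded rank over the base -/
theorem count_Q (hessL : Algebra.EssFiniteType k L) (hess : Algebra.EssFiniteType k K)
    {d r : ℕ} (hn : Algebra.trdeg k K = (d + r : ℕ)) {t : Fin d → L}
    (ht : IsTranscendenceBasis k t) {x : Fin r → K} (hx : IsTranscendenceBasis L x)
    {E : Fin (d + r) → Derivation k K K}
    (hE : ∀ i j, E i ((Fin.append (algebraMap L K ∘ t) x : Fin (d + r) → K) j) =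
      if i = j then 1 else 0) {h : ℕ}
    {δ : Place k K → ℝ} (G : Finset K)
    (hG : ∀ v : Place k K, IsDivisorial v (d + r) → ∃ g ∈ G, g ≠ 0 ∧ δ v ≤ (v.ord g : ℝ))
    {S : Finset K} {Q : ℕ → ((Fin (d + r) → Derivation k K K) → K) → Prop}
    (hQ : ∀ m ω, 1 ≤ m → Q m ω → PairSec k K (d + r) δ S m 1 ω) {C1 : ℕ}
    (hC1 : ∀ m N : ℕ, 1 ≤ m → ∀ ω : Fin N → (Fin (d + r) → Derivation k K K) → K,
      (∀ l, Q m (ω l)) →
      Module.finrank L (Submodule.span L (Set.range fun l => ω l E)) ≤ C1 * m ^ h) :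
    ∃ C : ℕ, ∀ m N : ℕ, 1 ≤ m → ∀ ω : Fin N → (Fin (d + r) → Derivation k K K) → K,
      LinearIndependent k ω → (∀ l, Q m (ω l)) → N ≤ C * m ^ (d + h) := by
  classical
  have hL0 : CharZero L := charZero_of_injective_algebraMap (algebraMap k L).injective
  have hZ := basis_append ht hx
  have hfdL := fin_adj hessL t ht
  have hfin : ∀ y : Fin (d + r) → K, IsTranscendenceBasis k y →
      FiniteDimensional (IntermediateField.adjoin k (Set.range y)) K :=
    fun y hy => fin_adj hess y hy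
  have hfd := hfin _ hZ
  -- clearing the denominators
  choose q hq0 hq using fun i => exists_clear hZ hfd (E i)
  obtain ⟨c, hc⟩ : ∃ c : K, c = ∏ i, aeval (Fin.append (algebraMap L K ∘ t) x) (q i) := ⟨_, rfl⟩
  have hc0 : c ≠ 0 := by
    rw [hc]
    refine Finset.prod_ne_zero_iff.2 fun i _ h0 => hq0 i ?_
    exact (injective_iff_map_eq_zero _).1 hZ.1 _ h0
  have hcE : ∀ p : MvPolynomial (Fin (d + r)) k, Irreducible p → ∀ P : Place k K,
      Adic (Fin.append (algebraMap L K ∘ t) x) p P → ∀ i, Pres P (c • E i) := by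
    intro p hp P hP i f hf
    have h1 := hq i p hp P hP f hf
    rw [hc, ← Finset.mul_prod_erase Finset.univ _ (Finset.mem_univ i), mul_comm, mul_smul,
      Derivation.smul_apply, smul_eq_mul]
    refine P.reg_mul ?_ h1
    have h2 : (∏ j ∈ Finset.univ.erase i,
        aeval (Fin.append (algebraMap L K ∘ t) x) (q j)) ∈ regRing P :=
      prod_mem fun j _ => adic_reg hP (q j)
    exact h2
  -- the boundary
  obtain ⟨b0, hb0, hb0G⟩ := exists_bdry hZ G
  obtain ⟨c', hc'⟩ : ∃ c' : K, c' = c ^ (d + r) * b0 := ⟨_, rfl⟩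
  have hc'0 : c' ≠ 0 := by
    rw [hc']
    exact mul_ne_zero (pow_ne_zero _ hc0) hb0
  obtain ⟨T, hTfin, hTdeg, C2, c2, hC2⟩ := count_rel ht hx hfd hfdL S
  -- the bound at infinity
  have hlb : ∀ P : Place k K, IsDivisorial P (d + r) → ∃ C : ℕ,
      ∀ (m : ℕ) (ω : (Fin (d + r) → Derivation k K K) → K), 1 ≤ m →
      PairSec k K (d + r) δ S m 1 ω →
        Ge P (-((C * m : ℕ) : ℤ)) (c' ^ m * ω E) :=
    fun P hP => lin_boundP hn hfin hP E δ S c'
  have hdivT : ∀ b, ∀ P ∈ T b, IsDivisorial P (d + r) := by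
    intro b P hP
    obtain ⟨e, he, hdeg⟩ := hTdeg b P hP
    refine div_of_deg hZ.1 (b := b) fun f hf hf0 => ?_
    rw [hdeg f hf, hf0]
    simp
  obtain ⟨C3, hC3⟩ : ∃ C3 : ℕ, ∀ b, ∀ P ∈ T b, ∀ (m : ℕ)
      (ω : (Fin (d + r) → Derivation k K K) → K), 1 ≤ m →
      PairSec k K (d + r) δ S m 1 ω →
        Ge P (-((C3 * m : ℕ) : ℤ)) (c' ^ m * ω E) := by
    choose Cf hCf using hlb
    have hfin2 : (⋃ b, T b).Finite := Set.finite_iUnion hTfin
    have := hfin2.fintype
    let g : (⋃ b, T b) → ℕ := fun P => Cf P.1 (by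
      obtain ⟨b, hb⟩ := Set.mem_iUnion.1 P.2
      exact hdivT b P.1 hb)
    refine ⟨∑ P, g P, fun b P hP m ω hm hω => ?_⟩
    have hPm : P ∈ ⋃ b, T b := Set.mem_iUnion.2 ⟨b, hP⟩
    have h1 := hCf P (hdivT b P hP) m ω hm hω
    refine h1.mono ?_
    have h2 : g ⟨P, hPm⟩ ≤ ∑ P, g P :=
      Finset.single_le_sum (fun _ _ => Nat.zero_le _) (Finset.mem_univ _)
    have h3 : Cf P (hdivT b P hP) * m ≤ (∑ P, g P) * m := Nat.mul_le_mul_right _ h2
    have h4 : ((Cf P (hdivT b P hP) * m : ℕ) : ℤ) ≤ (((∑ P, g P) * m : ℕ) : ℤ) := by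
      exact_mod_cast h3
    exact neg_le_neg h4
  have hexp : ∀ D : Derivation k K K, ∃ a : Fin (d + r) → K, D = ∑ i, a i • E i :=
    fun D => ⟨_, der_expand hZ hE D⟩
  refine ⟨C2 * C1 * (C3 + c2) ^ d, fun m N hm ω hli hω0 => ?_⟩
  have hω : ∀ l, PairSec k K (d + r) δ S m 1 (ω l) := fun l => hQ m _ hm (hω0 l)
  have hcm : c' ^ m ≠ 0 := pow_ne_zero _ hc'0
  have hlin := lin_frame (fun D => hexp D) hli (fun l => (hω l).1) hcm
  have hrk : Module.finrank L (Submodule.span L (Set.range fun l =>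
      c' ^ m * ω l E)) ≤ C1 * m ^ h := by
    have h1 := hC1 m N hm ω fun l => hω0 l
    have h2 : Submodule.span L (Set.range fun l => c' ^ m * ω l E) =
        (Submodule.span L (Set.range fun l => ω l E)).map
          (LinearMap.mulLeft L (c' ^ m)) := by
      rw [Submodule.map_span, ← Set.range_comp]
      rfl
    rw [h2]
    have h3 : FiniteDimensional L (Submodule.span L (Set.range fun l => ω l E)) :=
      FiniteDimensional.span_of_finite L (Set.finite_range _)
    exact (Submodule.finrank_map_le _ _).trans h1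
  have h1 := hC2 (fun _ => C3 * m) N (C1 * m ^ h) _ hlin hrk (fun l p hp P hP => ?_)
    fun l b P hP => hC3 b P hP m (ω l) hm (hω l)
  · refine h1.trans ?_
    rw [Finset.prod_const, Finset.card_univ, Fintype.card_fin]
    have h2 : C3 * m + c2 ≤ (C3 + c2) * m := by
      rw [Nat.add_mul]
      have := Nat.le_mul_of_pos_right c2 hm
      omega
    have h3 : (C3 * m + c2) ^ d ≤ (C3 + c2) ^ d * m ^ d := by
      rw [← Nat.mul_pow]
      exact Nat.pow_le_pow_left h2 d
    calc C2 * (C1 * m ^ h) * (C3 * m + c2) ^ d ≤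
        C2 * (C1 * m ^ h) * ((C3 + c2) ^ d * m ^ d) := Nat.mul_le_mul_left _ h3
      _ = C2 * C1 * (C3 + c2) ^ d * m ^ (d + h) := by
        rw [pow_add]
        ring
  · change Dom P S 1 (c' ^ m * ω l E)
    have h2 : c' ^ m * ω l E = b0 ^ m * ω l (fun i => c • E i) := by
      rw [phi_smul (hω l).1 c E, hc']
      ring
    rw [h2]
    by_cases h3 : ω l (fun i => c • E i) = 0
    · left
      rw [h3, mul_zero]
    obtain ⟨s, hs, hs0, hle⟩ := ((hω l).2 P (adic_div hZ.1 hp hP) (fun i => c • E i)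
      (fun i f hf => hcE p hp P hP i f hf)).resolve_left h3
    obtain ⟨g, hgG, hg0, hδg⟩ := hG P (adic_div hZ.1 hp hP)
    have h4 := hb0G P (fun Q => adic_reg hP Q) g hgG hg0
    refine Or.inr ⟨s, hs, hs0, ?_⟩
    rw [P.ord_mul (pow_ne_zero _ hb0) h3, P.ord_pow]
    have h5 : (m : ℝ) * δ P ≤ m * (P.ord b0 : ℝ) := by
      refine mul_le_mul_of_nonneg_left (hδg.trans ?_) (Nat.cast_nonneg m)
      exact_mod_cast h4
    have h6 : (((1 : ℕ) : ℤ) * P.ord s : ℝ) ≤ ((m : ℤ) : ℝ) * (P.ord b0 : ℝ) +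
        (P.ord (ω l (fun i => c • E i)) : ℝ) := by
      push_cast at hle ⊢
      linarith
    exact_mod_cast h6


end

end Pool.Agent.N133.OB
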