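import Pool.Agent.N133.OB11

/-! The Kodaira dimension is the transcendence degree of the field of the Iitaka fibration. -/

set_option autoImplicit false
set_option linter.overlappingInstances false
set_option linter.unusedSectionVars false

open FF IntermediateField Pool.Agent.W602.GT Pool.Agent.W619.PQ Pool.Agent.W619.PL
  Pool.Agent.W619.TW Pool.Agent.W603.LV Pool.Agent.W619.Y Pool.Agent.W824.PG Pool.Agent.Y172
  Pool.Agent.Y174 Pool.Agent.Y191

namespace Pool.Agent.N133.OB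

section

variable {K : Type} [Field K] [Algebra ℂ K] {n N : ℕ} {y : Fin (N + 1) → K}

/-- From the sections on a variety to the sections over all models. -/
theorem exists_S (hy : NormalModel y) {Δ A : Place ℂ K → ℚ} (hA : Effective y A)
    {E : Fin n → Derivation ℂ K K} (hfr : IsFrame E) {β : Place ℂ K → ℚ}
    (hdisc : ∀ Q, Divisorial n Q → LogDisc y n Δ Q (1 - β Q)) :
    ∃ S : Finset K, ∀ (m : ℕ) (ω : (Fin n → Derivation ℂ K K) → K), 1 ≤ m →
      IsSection y n m (m • Δ + A) ω → PairSec ℂ K n (fun P => (β P : ℝ)) S m 1 ω := by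
  classical
  choose s hs hs0 hsQ using fun j => disc_bound (n := n) (Δ := Δ) hy hA hfr j
  refine ⟨Finset.univ.image fun j => (s j)⁻¹, fun m ω hm hω => ⟨hω.1, ?_⟩⟩
  intro Q hQ E' hE'
  obtain ⟨j, hj⟩ := exists_centred hy Q
  rcases hsQ j Q hj (1 - β Q) (hdisc Q hQ) m hm ω hω E' hE' with h5 | h5
  · exact Or.inl h5
  · right
    refine ⟨(s j)⁻¹, Finset.mem_image_of_mem _ (Finset.mem_univ j), inv_ne_zero (hs0 j), ?_⟩
    rw [Q.ord_inv, Nat.cast_one, one_mul]
    have h6 : ((m * (1 - β Q - 1) - (Q.ord (s j) : ℤ) : ℚ) : ℝ) ≤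
        ((Q.ord (ω E') : ℤ) : ℝ) := by exact_mod_cast h5
    push_cast at h6 ⊢
    linarith

/-- From bounds for the sections over all models to bounds for the sections on a variety. -/
theorem hup_of_num (hy : NormalModel y) {Δ A : Place ℂ K → ℚ} (hA : Effective y A)
    {E : Fin n → Derivation ℂ K K} (hfr : IsFrame E) {β : Place ℂ K → ℚ}
    (hdisc : ∀ Q, Divisorial n Q → LogDisc y n Δ Q (1 - β Q)) {h : ℕ}
    (h2 : PairNum ℂ K n (fun P => (β P : ℝ)) h) :
    ∃ C : ℕ, ∀ m : ℕ, 1 ≤ m → ∀ (r : ℕ) (f : Fin r → K),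
      LinearIndependent ℂ f → (∀ i, ∃ ω, IsSection y n m (m • Δ + A) ω ∧ ω E = f i) →
      r ≤ C * m ^ h := by
  obtain ⟨S, hS⟩ := exists_S hy hA hfr hdisc
  obtain ⟨C, hC⟩ := h2 S
  refine ⟨C, fun m hm r f hf hω' => hC m r hm ?_⟩
  choose ω' hω' hωf using hω'
  refine ⟨ω', ?_, fun l => hS m _ hm (hω' l)⟩
  have h3 : (LinearMap.proj E : ((Fin n → Derivation ℂ K K) → K) →ₗ[ℂ] K) ∘ ω' = f := by
    funext i
    exact hωf i
  rw [← h3] at hf
  exact hf.of_comp _

end

section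

variable {L K : Type} [Field L] [Field K] [Algebra ℂ L] [Algebra ℂ K] [Algebra L K]
  [IsScalarTower ℂ L K] {N : ℕ} {y : Fin (N + 1) → K}

/-- **The number of the sections of the multiples of `K_X + Δ`.** -/
theorem sec_count (hessL : Algebra.EssFiniteType ℂ L) (hy : NormalModel y) {d r : ℕ}
    (hL : Algebra.trdeg ℂ L = d)
    (hn : Algebra.trdeg ℂ K = (d + r : ℕ)) {Δ A : Place ℂ K → ℚ} (hA : Effective y A)
    {β : Place ℂ K → ℚ} (hdisc : ∀ Q, Divisorial (d + r) Q → LogDisc y (d + r) Δ Q (1 - β Q))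
    {G : Finset K} (hG : ∀ v : Place ℂ K, ∃ g ∈ G, g ≠ 0 ∧ (β v : ℝ) ≤ (v.ord g : ℝ))
    (hR : ∀ m : ℕ, 1 ≤ m → ∀ ω η : (Fin (d + r) → Derivation ℂ K K) → K,
      IsSection y (d + r) m (m • Δ + A) ω → IsSection y (d + r) m (m • Δ + A) η →
      ∀ E, η E ≠ 0 → ω E / η E ∈ Set.range (algebraMap L K)) :
    ∃ C : ℕ, ∀ (m N : ℕ), 1 ≤ m → ∀ ω : Fin N → (Fin (d + r) → Derivation ℂ K K) → K,
      LinearIndependent ℂ ω → (∀ l, IsSection y (d + r) m (m • Δ + A) (ω l)) →
      N ≤ C * m ^ d := by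
  classical
  have hess : Algebra.EssFiniteType ℂ K := hy.ess
  obtain ⟨t, ht⟩ := Pool.Agent.W636.PG.exists_basis ℂ L d hL
  obtain ⟨x, hx⟩ := Pool.Agent.W636.PG.exists_basis L K r (trdeg_LK (L := L) hL hn)
  have hZ := basis_append ht hx
  obtain ⟨E, hE⟩ := Pool.Agent.W636.PG.exists_duals ℂ K (d + r) _ hZ
  have hfr : IsFrame E := fun G =>
    ⟨_, (Pool.Agent.W73.PG.PULL.expand _ hZ E hE G).symm⟩
  obtain ⟨S, hS⟩ := exists_S hy hA hfr hdisc
  have h1 := count_Q (h := 0) (C1 := 1) hessL hess hn ht hx hE (δ := fun P => (β P : ℝ)) G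
    (fun v _ => hG v) (S := S) (Q := fun m ω => IsSection y (d + r) m (m • Δ + A) ω)
    (fun m ω hm hω => hS m ω hm hω) ?_
  · exact h1
  · intro m N hm ω hω
    rw [pow_zero, mul_one]
    by_cases h0 : ∃ l0, ω l0 E ≠ 0
    · obtain ⟨l0, hl0⟩ := h0
      have h2 : Submodule.span L (Set.range fun l => ω l E) ≤
          Submodule.span L {ω l0 E} := by
        rw [Submodule.span_le]
        rintro _ ⟨l, rfl⟩
        obtain ⟨c, hc⟩ := hR m hm (ω l) (ω l0) (hω l) (hω l0) E hl0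
        rw [SetLike.mem_coe, Submodule.mem_span_singleton]
        refine ⟨c, ?_⟩
        rw [Algebra.smul_def, hc, div_mul_cancel₀ _ hl0]
      refine (Submodule.finrank_mono h2).trans ?_
      have := finrank_span_le_card (R := L) ({ω l0 E} : Set K)
      simpa using this
    · push Not at h0
      have h2 : Submodule.span L (Set.range fun l => ω l E) = ⊥ := by
        rw [Submodule.span_eq_bot]
        rintro _ ⟨l, rfl⟩
        exact h0 l
      rw [h2, finrank_bot]
      exact Nat.zero_le _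

end

end Pool.Agent.N133.OB
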