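import Pool.Agent.N133.OB12
import Pool.Agent.R885.FinAc

/-! The field of the Iitaka fibration. -/

set_option autoImplicit false
set_option linter.overlappingInstances false
set_option linter.unusedSectionVars false

open FF IntermediateField Pool.Agent.W602.GT Pool.Agent.W619.PQ Pool.Agent.W619.PL
  Pool.Agent.W619.TW Pool.Agent.W603.LV Pool.Agent.W619.Y Pool.Agent.W824.PG Pool.Agent.Y172
  Pool.Agent.Y174 Pool.Agent.Y191

namespace Pool.Agent.N133.OB

section

variable {K : Type} [Field K] [Algebra ℂ K] {n N : ℕ} {y : Fin (N + 1) → K}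

/-- The function field of the base of the Iitaka fibration of the pair `(X, Δ)`: the algebraic
closure, in the function field of `X`, of the field generated by the ratios of the sections. -/
noncomputable def iitakaField (y : Fin (N + 1) → K) (n : ℕ) (Δ : Place ℂ K → ℚ) :
    IntermediateField ℂ K :=
  (algebraicClosure (IntermediateField.adjoin ℂ (Ratio y n Δ)) K).restrictScalars ℂ

theorem mem_iitaka {Δ : Place ℂ K → ℚ} {x : K} : x ∈ iitakaField y n Δ ↔
    IsAlgebraic (IntermediateField.adjoin ℂ (Ratio y n Δ)) x := by
  unfold iitakaField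
  rw [IntermediateField.mem_restrictScalars, mem_algebraicClosure_iff]

theorem ratio_mem_iitaka {Δ : Place ℂ K → ℚ} {x : K} (hx : x ∈ Ratio y n Δ) :
    x ∈ iitakaField y n Δ := by
  rw [mem_iitaka]
  exact isAlgebraic_algebraMap (R := IntermediateField.adjoin ℂ (Ratio y n Δ)) (A := K)
    ⟨x, IntermediateField.subset_adjoin _ _ hx⟩

/-- the field is algebraically closed in `K` -/
theorem iitaka_closed {Δ : Place ℂ K → ℚ} {x : K} (hx : IsAlgebraic (iitakaField y n Δ) x) :
    x ∈ iitakaField y n Δ := by
  let C0 := IntermediateField.adjoin ℂ (Ratio y n Δ)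
  have h1 : IsAlgebraic (algebraicClosure C0 K) x := hx
  rw [mem_iitaka]
  exact h1.restrictScalars C0

theorem iitaka_ess (hess : Algebra.EssFiniteType ℂ K) (Δ : Place ℂ K → ℚ) :
    Algebra.EssFiniteType ℂ (iitakaField y n Δ) := by
  -- a transcendence basis of the field
  obtain ⟨ι, z, hz⟩ := exists_isTranscendenceBasis' ℂ (iitakaField y n Δ)
  let zK : ι → K := fun i => (z i : K)
  have hzK : AlgebraicIndependent ℂ zK :=
    hz.1.map' (f := (iitakaField y n Δ).val) (iitakaField y n Δ).val.injective
  have hfinι : Finite ι := by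
    obtain ⟨s, hs⟩ := IntermediateField.fg_top ℂ K
    have h1 : Algebra.trdeg ℂ K < Cardinal.aleph0 := by
      have h2 : Algebra.IsAlgebraic (Algebra.adjoin ℂ (s : Set K)) K := by
        constructor
        intro w
        have h3 : w ∈ IntermediateField.adjoin ℂ (s : Set K) := by
          rw [hs]
          trivial
        rw [IntermediateField.mem_adjoin_iff_div] at h3
        obtain ⟨a, ha, b, hb, rfl⟩ := h3
        have ha' : IsAlgebraic (Algebra.adjoin ℂ (s : Set K)) a :=
          isAlgebraic_algebraMap (R := Algebra.adjoin ℂ (s : Set K)) (A := K) ⟨a, ha⟩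
        have hb' : IsAlgebraic (Algebra.adjoin ℂ (s : Set K)) b :=
          isAlgebraic_algebraMap (R := Algebra.adjoin ℂ (s : Set K)) (A := K) ⟨b, hb⟩
        rw [div_eq_mul_inv]
        exact ha'.mul hb'.inv
      obtain ⟨B, hB, hBt⟩ := exists_isTranscendenceBasis_subset (R := ℂ) (s : Set K)
      rw [← hBt.cardinalMk_eq_trdeg]
      exact Cardinal.lt_aleph0_iff_finite.2 (s.finite_toSet.subset hB)
    have h2 : Cardinal.mk ι ≤ Algebra.trdeg ℂ K := hzK.cardinalMk_le_trdeg
    exact Cardinal.lt_aleph0_iff_finite.1 (h2.trans_lt h1)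
  let E1 : IntermediateField ℂ K := IntermediateField.adjoin ℂ (Set.range zK)
  have hessE1 : Algebra.EssFiniteType ℂ E1 := by
    rw [IntermediateField.essFiniteType_iff]
    exact IntermediateField.fg_adjoin_of_finite (Set.finite_range zK)
  have hess1 : Algebra.EssFiniteType E1 K := Algebra.EssFiniteType.of_comp ℂ E1 K
  have hfin1 := Pool.Agent.R885.fin_algClosure E1 K
  -- the field is inside the algebraic closure of `E1`
  have hEle : E1 ≤ iitakaField y n Δ := by
    rw [IntermediateField.adjoin_le_iff]
    rintro _ ⟨i, rfl⟩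
    exact (z i).2
  have hle : iitakaField y n Δ ≤ (algebraicClosure E1 K).restrictScalars ℂ := by
    intro x hx
    rw [IntermediateField.mem_restrictScalars, mem_algebraicClosure_iff]
    have h1 : IsAlgebraic (IntermediateField.adjoin ℂ (Set.range z)) (⟨x, hx⟩ :
        iitakaField y n Δ) := hz.isAlgebraic_field.isAlgebraic _
    obtain ⟨p, hp0, hp⟩ := h1
    -- transport
    have h2 : ∀ c : IntermediateField.adjoin ℂ (Set.range z), ((c : iitakaField y n Δ) : K) ∈ E1 := by
      intro c
      have h3 : (IntermediateField.adjoin ℂ (Set.range z)).map (iitakaField y n Δ).val = E1 := by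
        rw [IntermediateField.adjoin_map]
        congr 1
        ext w
        simp only [Set.mem_image, Set.mem_range]
        constructor
        · rintro ⟨_, ⟨j, rfl⟩, rfl⟩
          exact ⟨j, rfl⟩
        · rintro ⟨j, rfl⟩
          exact ⟨_, ⟨j, rfl⟩, rfl⟩
      rw [← h3]
      exact ⟨c, c.2, rfl⟩
    let gh : IntermediateField.adjoin ℂ (Set.range z) →+* E1 :=
      { toFun := fun c => ⟨_, h2 c⟩
        map_one' := rfl
        map_mul' := fun a b => rfl
        map_zero' := rfl
        map_add' := fun a b => rfl }
    refine ⟨p.map gh, ?_, ?_⟩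
    · rw [Ne, Polynomial.map_eq_zero]
      exact hp0
    · rw [Polynomial.aeval_def, Polynomial.eval₂_map]
      have h4 := Polynomial.hom_eval₂ p (algebraMap (IntermediateField.adjoin ℂ (Set.range z))
        (iitakaField y n Δ)) ((iitakaField y n Δ).val : iitakaField y n Δ →+* K) ⟨x, hx⟩
      have h5 : ((iitakaField y n Δ).val : iitakaField y n Δ →+* K)
          (Polynomial.eval₂ (algebraMap (IntermediateField.adjoin ℂ (Set.range z))
          (iitakaField y n Δ)) ⟨x, hx⟩ p) = 0 := by
        rw [← Polynomial.aeval_def, hp, map_zero]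
      rw [h4] at h5
      exact h5
  -- finite generation
  let L' : IntermediateField E1 K := IntermediateField.extendScalars hEle
  have hle' : L' ≤ algebraicClosure E1 K := fun x hx => hle hx
  have hfin' : FiniteDimensional E1 L' :=
    FiniteDimensional.of_injective (IntermediateField.inclusion hle').toLinearMap
      (IntermediateField.inclusion hle').injective
  have h1 : Algebra.EssFiniteType E1 L' := inferInstance
  have h2 : Algebra.EssFiniteType ℂ L' := Algebra.EssFiniteType.comp ℂ E1 L'
  exact h2

end

end Pool.Agent.N133.OB
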