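import Pool.Agent.N133.OB13

/-! The Kodaira dimension is the transcendence degree of the field of the Iitaka fibration. -/

set_option autoImplicit false
set_option linter.overlappingInstances false
set_option linter.unusedSectionVars false

open FF IntermediateField Pool.Agent.W602.GT Pool.Agent.W619.PQ Pool.Agent.W619.PL
  Pool.Agent.W619.TW Pool.Agent.W603.LV Pool.Agent.W619.Y Pool.Agent.W824.PG Pool.Agent.Y172
  Pool.Agent.Y174 Pool.Agent.Y191

namespace Pool.Agent.N133.OB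

section

variable {K : Type} [Field K] [Algebra ℂ K] {n N : ℕ} {y : Fin (N + 1) → K}

theorem iitaka_dim (hn : Algebra.trdeg ℂ K = n) (Δ : Place ℂ K → ℚ) :
    ∃ d r : ℕ, Algebra.trdeg ℂ (iitakaField y n Δ) = d ∧ n = d + r := by
  have h1 := trdeg_add_eq ℂ (iitakaField y n Δ) (A := K)
  rw [hn] at h1
  have h2 : Algebra.trdeg ℂ (iitakaField y n Δ) ≤ n := by
    rw [← h1]
    exact self_le_add_right _ _
  have h3 : Algebra.trdeg (iitakaField y n Δ) K ≤ n := by
    rw [← h1]
    exact self_le_add_left _ _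
  obtain ⟨d, hd⟩ := Cardinal.lt_aleph0.1 (h2.trans_lt Cardinal.natCast_lt_aleph0)
  obtain ⟨r, hr⟩ := Cardinal.lt_aleph0.1 (h3.trans_lt Cardinal.natCast_lt_aleph0)
  refine ⟨d, r, hd, ?_⟩
  rw [hd, hr] at h1
  exact_mod_cast h1.symm

/-- algebraically independent ratios -/
theorem exists_ratios (hn : Algebra.trdeg ℂ K = n) {Δ : Place ℂ K → ℚ} {f0 : K}
    (hf0 : f0 ∈ Ratio y n Δ) {d : ℕ} (hd : Algebra.trdeg ℂ (iitakaField y n Δ) = d) :
    ∃ f : Fin d → K, AlgebraicIndependent ℂ f ∧ ∀ i, f i ∈ Ratio y n Δ := by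
  let C0 := IntermediateField.adjoin ℂ (Ratio y n Δ)
  let L0 : IntermediateField C0 K := algebraicClosure C0 K
  have h1 : Algebra.trdeg ℂ C0 = d := by
    have h2 := trdeg_add_eq ℂ C0 (A := L0)
    have h3 : Algebra.trdeg C0 L0 = 0 := trdeg_eq_zero
    rw [h3, add_zero] at h2
    exact h2.trans hd
  obtain ⟨t, ht⟩ := Pool.Agent.W636.PG.exists_basis ℂ C0 d h1
  refine ⟨fun i => (t i : K), ?_, fun i => ratio_adjoin hn hf0 (t i).2⟩
  exact ht.1.map' (f := C0.val) C0.val.injective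

/-- **The Kodaira dimension is the dimension of the base of the Iitaka fibration.** -/
theorem kod_main (hy : NormalModel y) (hn : Algebra.trdeg ℂ K = n) {Δ : Place ℂ K → ℚ}
    (hΔ : Effective y Δ) {β : Place ℂ K → ℚ}
    (hdisc : ∀ Q, Divisorial n Q → LogDisc y n Δ Q (1 - β Q))
    {G : Finset K} (hG : ∀ v : Place ℂ K, ∃ g ∈ G, g ≠ 0 ∧ (β v : ℝ) ≤ (v.ord g : ℝ)) {f0 : K}
    (hf0 : f0 ∈ Ratio y n Δ) {d : ℕ} (hd : Algebra.trdeg ℂ (iitakaField y n Δ) = d) :
    kodairaDim y n Δ = (d : WithBot ℕ) ∧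
      ∀ k : ℕ, (∀ A, Effective y A → ∃ C : ℕ, ∀ (m N : ℕ), 1 ≤ m →
          ∀ ω : Fin N → (Fin n → Derivation ℂ K K) → K, LinearIndependent ℂ ω →
          (∀ l, IsSection y n m (m • Δ + A) (ω l)) → N ≤ C * m ^ k) →
        ∀ A, Effective y A → Integral y A → (d : EReal) ≤ numericalDim y n Δ A ∧
          numericalDim y n Δ A ≤ (k : EReal) := by
  classical
  have hess : Algebra.EssFiniteType ℂ K := hy.ess
  obtain ⟨f, hf, hfR⟩ := exists_ratios hn hf0 hd
  obtain ⟨m0, hm0, η, h1, h2, h3⟩ := ratio_common hn hf0 hfR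
  obtain ⟨x, E, hx, hE⟩ := exists_crd hn
  have hfr : IsFrame E := fun G =>
    ⟨fun j => G (x j), (Pool.Agent.W73.PG.PULL.expand x hx E hE G).symm⟩
  have hηE : η E ≠ 0 := fun h => h2 (pluri_zero hfr h1.1 h)
  let ω : Fin (d + 1) → (Fin n → Derivation ℂ K K) → K := Fin.cons η fun i E => f i * η E
  have hω : ∀ j, IsSection y n m0 (m0 • Δ) (ω j) := by
    intro j
    refine Fin.cases ?_ (fun i => ?_) j
    · exact h1
    · exact h3 i
  have hind : AlgebraicIndependent ℂ (fun i : Fin d => ω i.succ E / ω 0 E) := by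
    have h4 : (fun i : Fin d => ω i.succ E / ω 0 E) = f := by
      funext i
      change f i * η E / η E = f i
      rw [mul_div_cancel_right₀ _ hηE]
    rw [h4]
    exact hf
  have hup : ∀ k : ℕ, (∀ A, Effective y A → ∃ C : ℕ, ∀ (m N : ℕ), 1 ≤ m →
      ∀ ω : Fin N → (Fin n → Derivation ℂ K K) → K, LinearIndependent ℂ ω →
      (∀ l, IsSection y n m (m • Δ + A) (ω l)) → N ≤ C * m ^ k) →
      ∀ A, Effective y A → ∃ C : ℕ, ∀ m : ℕ, 1 ≤ m → ∀ (r : ℕ) (f : Fin r → K),
      LinearIndependent ℂ f → (∀ i, ∃ ω, IsSection y n m (m • Δ + A) ω ∧ ω E = f i) →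
      r ≤ C * m ^ k := by
    intro k hk A hA
    obtain ⟨C, hC⟩ := hk A hA
    refine ⟨C, fun m hm r f hf hω' => ?_⟩
    choose ω' hω' hωf using hω'
    refine hC m r hm ω' ?_ hω'
    have h4 : (LinearMap.proj E : ((Fin n → Derivation ℂ K K) → K) →ₗ[ℂ] K) ∘ ω' = f := by
      funext i
      exact hωf i
    rw [← h4] at hf
    exact hf.of_comp _
  -- the general bound
  have hgen : ∀ A, Effective y A → ∃ C : ℕ, ∀ (m N : ℕ), 1 ≤ m →
      ∀ ω : Fin N → (Fin n → Derivation ℂ K K) → K, LinearIndependent ℂ ω →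
      (∀ l, IsSection y n m (m • Δ + A) (ω l)) → N ≤ C * m ^ n := fun A hA =>
    sec_count (L := K) (r := 0) hess hy hn hn hA hdisc hG
      fun m hm ω η hω hη E hE => ⟨ω E / η E, rfl⟩
  obtain ⟨κ, hκ1, hκ2, -⟩ := dims2 (Δ := Δ) hΔ hfr (hup n hgen) hm0 hω hηE hind
  -- the upper bound
  have hzero : Effective y (0 : Place ℂ K → ℚ) :=
    ⟨fun _ _ => le_rfl, Set.finite_empty.subset (by rintro P ⟨-, h⟩; exact h rfl)⟩
  have hκd : κ ≤ d := by
    obtain ⟨d', r, hd', hnr⟩ := iitaka_dim (y := y) hn Δ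
    have hdd : d' = d := by
      rw [hd] at hd'
      exact_mod_cast hd'.symm
    subst hdd
    subst hnr
    obtain ⟨C, hC⟩ := sec_count (L := iitakaField y (d' + r) Δ) (r := r) (iitaka_ess hess Δ) hy
      hd hn hzero hdisc hG fun m hm ω η hω hη E' hE' => by
        rw [add_zero] at hω hη
        have hη0 : η ≠ 0 := fun h => hE' (congrFun h E')
        have hηE' : η E ≠ 0 := fun h => hη0 (pluri_zero hfr hη.1 h)
        have hR : ω E' / η E' ∈ Ratio y (d' + r) Δ := by
          refine ⟨m, hm, η, hη, hη0, ?_⟩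
          have e : (fun G => ω E' / η E' * η G) = ω := by
            funext G
            obtain ⟨c, hc⟩ : ∃ c : K, ∀ G, ω G = c * η G := by
              refine ⟨ω E / η E, fun G => ?_⟩
              have g1 := hω.1 (Matrix.of fun a b => G a (x b)) E
              have g2 := hη.1 (Matrix.of fun a b => G a (x b)) E
              have g3 : (fun i => ∑ j, (Matrix.of fun a b => G a (x b)) i j • E j) = G := by
                funext a
                exact Pool.Agent.W73.PG.PULL.expand x hx E hE (G a)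
              rw [g3] at g1 g2
              rw [g1, g2]
              field_simp
            rw [hc G, hc E', mul_div_cancel_right₀ _ hE']
          rw [e]
          exact hω
        exact ⟨⟨_, ratio_mem_iitaka hR⟩, rfl⟩
    have h4 : ∀ m : ℕ, 1 ≤ m → h0 y (d' + r) m (m • Δ) ≤ C * m ^ d' := by
      intro m hm
      refine (finite_h0 hfr (A := m • Δ) fun r' f' hf' hω' => ?_).2
      choose ω' hω' hωf using hω'
      refine hC m r' hm ω' ?_ fun l => by
        rw [add_zero]
        exact hω' l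
      have h4 : (LinearMap.proj E : ((Fin (d' + r) → Derivation ℂ K K) → K) →ₗ[ℂ] K) ∘ ω' =
          f' := by
        funext i
        exact hωf i
      rw [← h4] at hf'
      exact hf'.of_comp _
    unfold kodairaDim at hκ2
    split_ifs at hκ2 with h5
    · exact absurd hκ2 WithBot.bot_ne_coe
    have h6 : sSup {k : ℕ | 0 < Filter.limsup (fun m : ℕ =>
        (h0 y (d' + r) m (m • Δ) : ENNReal) / (m : ENNReal) ^ k)
        (Filter.atTop ⊓ Filter.principal {m : ℕ | 1 ≤ m ∧ Integral y (m • Δ)})} = κ := by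
      exact_mod_cast hκ2
    rw [← h6]
    exact csSup_le' (kappa_le (I := {m : ℕ | 1 ≤ m ∧ Integral y (m • Δ)})
      (h := fun m => h0 y (d' + r) m (m • Δ)) (C := C) fun m _ hm => h4 m hm)
  have hκ : κ = d := le_antisymm hκd hκ1
  refine ⟨by rw [hκ2, hκ], fun k hk A hA hAint => ?_⟩
  obtain ⟨κ', hκ1', -, hκ3'⟩ := dims2 (Δ := Δ) hΔ hfr (hup k hk) hm0 hω hηE hind
  obtain ⟨h5, h6⟩ := hκ3' A hA hAint
  exact ⟨le_trans (by exact_mod_cast hκ1') h5, h6⟩

end

end Pool.Agent.N133.OB
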