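import Pool.Agent.N133.OB14

/-! Log canonical pairs whose orbifold symmetric differentials have no common zeros at the generic
point. -/

set_option autoImplicit false
set_option linter.overlappingInstances false
set_option linter.unusedSectionVars false

open FF IntermediateField Pool.Agent.W602.GT Pool.Agent.W619.PQ Pool.Agent.W619.PL
  Pool.Agent.W619.TW Pool.Agent.W603.LV Pool.Agent.W619.Y Pool.Agent.W824.PG Pool.Agent.Y172
  Pool.Agent.Y174 Pool.Agent.Y191

namespace Pool.Agent.N133.OB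

section

variable {K : Type} [Field K] [Algebra ℂ K] {n N : ℕ} {y : Fin (N + 1) → K}

theorem orb_le_one {δ0 : Place ℂ K → ℝ} (hO : IsOrb δ0) (v : Place ℂ K) : δ0 v ≤ 1 := by
  rcases hO v with h | ⟨q, -, h⟩
  · exact h.le
  · rw [h]
    have : (0 : ℝ) ≤ 1 / q := by positivity
    linarith

theorem orb_nonneg {δ0 : Place ℂ K → ℝ} (hO : IsOrb δ0) (v : Place ℂ K) : 0 ≤ δ0 v := by
  rcases hO v with h | ⟨q, hq, h⟩
  · rw [h]
    exact zero_le_one
  · rw [h]
    have h1 : (1 : ℝ) ≤ q := by exact_mod_cast hq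
    have h2 : (1 : ℝ) / q ≤ 1 := by
      rw [div_le_one (by linarith)]
      exact h1
    linarith

/-- the ratios in the language of all models -/
theorem ratio_of_kod (hy : NormalModel y) (hn : Algebra.trdeg ℂ K = n) {Δ : Place ℂ K → ℚ}
    {β : Place ℂ K → ℚ} (hβ : ∀ P, IsPrimeDivisor y P → β P = Δ P)
    (h : PairKod ℂ K n (fun P => (β P : ℝ)) 0) : (1 : K) ∈ Ratio y n Δ := by
  obtain ⟨m, hm, ω, hω, D, hD, -⟩ := h
  refine ratio_one hm (η := ω 0) ⟨(hω 0).1, fun P hP E' hE' => ?_⟩ (fun h => hD 0 (congrFun h D))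
  rcases (hω 0).2 P (hP.divisorial hy hn) E' hE' with h3 | ⟨s, hs, hs0, h3⟩
  · exact Or.inl h3
  · right
    rw [Nat.cast_zero, zero_mul, zero_sub] at h3
    beta_reduce at h3
    rw [hβ P hP] at h3
    have h4 : -((m : ℚ) * Δ P) ≤ (P.ord (ω 0 E') : ℤ) := by exact_mod_cast h3
    rw [Pi.smul_apply, nsmul_eq_mul]
    exact h4

end

section

variable {L K : Type} [Field L] [Field K] [Algebra ℂ L] [Algebra ℂ K] [Algebra L K]
  [IsScalarTower ℂ L K] {n N : ℕ} {y : Fin (N + 1) → K}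

/-- a copy of the field of the Iitaka fibration -/
theorem iitaka_copy {Δ : Place ℂ K → ℚ}
    (hL : ∀ x : K, x ∈ Set.range (algebraMap L K) ↔
      IsAlgebraic (IntermediateField.adjoin ℂ (Ratio y n Δ)) x) :
    Nonempty (L ≃ₐ[ℂ] iitakaField y n Δ) := by
  let φ : L →ₐ[ℂ] K := IsScalarTower.toAlgHom ℂ L K
  have h1 : φ.fieldRange = iitakaField y n Δ := by
    ext x
    rw [mem_iitaka, ← hL]
    rfl
  rw [← h1]
  exact ⟨AlgEquiv.ofInjectiveField φ⟩

end

section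

variable {L K Λ F : Type} [Field L] [Field K] [Field Λ]
  [Field F] [Algebra ℂ L] [Algebra ℂ K] [Algebra L K] [IsScalarTower ℂ L K] [Algebra L Λ]
  [Algebra Λ F] [Algebra K F] [Algebra L F] [IsScalarTower L Λ F] [IsScalarTower L K F]
  {N : ℕ} {y : Fin (N + 1) → K}

/-- **Main theorem, the fibres.** -/
theorem fibre_main {d r : ℕ} (hy : NormalModel y)
    (hn : Algebra.trdeg ℂ K = (d + (r + 1) : ℕ)) {Δ : Place ℂ K → ℚ}
    (hΔ : Effective y Δ) {δ0 : Place ℂ K → ℝ} (hO : IsOrb δ0)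
    (h : NoBaseOrb ℂ K (d + (r + 1)) δ0) {β : Place ℂ K → ℚ}
    (hβ : ∀ P, IsPrimeDivisor y P → β P = Δ P) (hle : ∀ v, δ0 v ≤ β v)
    (hdisc : ∀ Q, Divisorial (d + (r + 1)) Q → LogDisc y (d + (r + 1)) Δ Q (1 - β Q))
    {G : Finset K} (hG : ∀ v : Place ℂ K, ∃ g ∈ G, g ≠ 0 ∧ (β v : ℝ) ≤ (v.ord g : ℝ)) {f0 : K}
    (hf0 : f0 ∈ Ratio y (d + (r + 1)) Δ)
    (hL : ∀ x : K, x ∈ Set.range (algebraMap L K) ↔
      IsAlgebraic (IntermediateField.adjoin ℂ (Ratio y (d + (r + 1)) Δ)) x)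
    (hd : Algebra.trdeg ℂ L = d) [IsAlgClosure L Λ]
    (hF : IntermediateField.adjoin Λ (Set.range (algebraMap K F)) = ⊤)
    {δF δ0F : Place Λ F → ℝ} (hδF : IsPullFib (fun v => (β v : ℝ)) δF)
    (hδ0F : IsPullFib δ0 δ0F) :
    ∃ M : IntermediateField F (AlgebraicClosure F), FiniteDimensional F M ∧ IsGalois F M ∧
      (∃ (ω : Fin (r + 1) → (Derivation Λ F F →ₗ[F] M)), LinearIndependent M ω ∧
        ∀ i, OrbForm (r + 1) δ0F (ω i)) ∧
      (∃ (η : Fin (r + 1) → (Derivation Λ M M →ₗ[M] M)), LinearIndependent M η ∧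
        ∀ i, ∀ w : Place Λ M, IsDivisorial w (r + 1) → ∀ D : Derivation Λ M M,
          LogFld (BdOn fun v => δ0F v = 1) w D → w.Reg (η i D)) ∧
      PairKod Λ F (r + 1) δF 0 ∧ ¬ PairKod Λ F (r + 1) δF 1 ∧
      ∀ δ' : Place Λ M → ℝ, IsPull δF δ' →
        (∀ a, PairKod Λ F (r + 1) δF a ↔ PairKod Λ M (r + 1) δ' a) ∧
        ∀ k, PairNum Λ M (r + 1) δ' k → PairNum Λ F (r + 1) δF k ∧
          ∀ A, Effective y A → Integral y A →
            numericalDim y (d + (r + 1)) Δ A ≤ ((d + k : ℕ) : EReal) := by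
  classical
  have hΛ1 : IsAlgClosed Λ := IsAlgClosure.isAlgClosed L
  have hΛ2 : Algebra.IsAlgebraic L Λ := IsAlgClosure.isAlgebraic
  have hess : Algebra.EssFiniteType ℂ K := hy.ess
  obtain ⟨ε⟩ := iitaka_copy hL
  have hessL : Algebra.EssFiniteType ℂ L := by
    have := iitaka_ess (y := y) (n := d + (r + 1)) hess Δ
    exact (Algebra.EssFiniteType.iff_of_algEquiv ε).2 this
  have hL0 : CharZero L := charZero_of_injective_algebraMap (algebraMap ℂ L).injective
  -- the algebra structures over the complex numbers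
  let iΛ : Algebra ℂ Λ := ((algebraMap L Λ).comp (algebraMap ℂ L)).toAlgebra
  let iF : Algebra ℂ F := ((algebraMap Λ F).comp (algebraMap ℂ Λ)).toAlgebra
  have hT1 : IsScalarTower ℂ L Λ := IsScalarTower.of_algebraMap_eq fun _ => rfl
  have hT2 : IsScalarTower ℂ Λ F := IsScalarTower.of_algebraMap_eq fun _ => rfl
  have hT3 : IsScalarTower ℂ K F := IsScalarTower.of_algebraMap_eq fun c => by
    change algebraMap Λ F (algebraMap L Λ (algebraMap ℂ L c)) = _
    rw [← IsScalarTower.algebraMap_apply L Λ F, IsScalarTower.algebraMap_apply L K F,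
      ← IsScalarTower.algebraMap_apply ℂ L K]
  have hRL : ∀ f ∈ Ratio y (d + (r + 1)) Δ, f ∈ Set.range (algebraMap L K) := fun f hf =>
    (hL f).2 (mem_iitaka.1 (ratio_mem_iitaka hf))
  have hLR : ∀ c : L, IsAlgebraic (IntermediateField.adjoin ℂ (Ratio y (d + (r + 1)) Δ))
        (algebraMap L K c) := fun c => (hL _).1 ⟨c, rfl⟩
  have hnk : ¬ PairKod Λ F (r + 1) δF 1 :=
    not_kod (L := L) hF hd hn hy hΔ hf0 hRL hLR
      (δ := fun v => (β v : ℝ)) (fun P hP => by rw [hβ P hP]) hδF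
  have hcl : ∀ x : K, IsAlgebraic L x → x ∈ Set.range (algebraMap L K) := by
    intro x hx
    rw [hL]
    let C0 := IntermediateField.adjoin ℂ (Ratio y (d + (r + 1)) Δ)
    have h1 : IsAlgebraic (algebraicClosure C0 K) x := by
      obtain ⟨p, hp0, hp⟩ := hx
      let g : L →+* algebraicClosure C0 K :=
        (algebraMap L K).codRestrict (algebraicClosure C0 K) fun c =>
          mem_algebraicClosure_iff.2 (hLR c)
      refine ⟨p.map g, ?_, ?_⟩
      · rw [Ne, Polynomial.map_eq_zero]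
        exact hp0
      · rw [Polynomial.aeval_def, Polynomial.eval₂_map]
        exact hp
    exact h1.restrictScalars C0
  have hlies : ∀ w : Place Λ F, ∃ v : Place ℂ K, LiesFib w v 1 := by
    intro w
    have halg : Algebra.IsAlgebraic K F := alg_KF (L := L) hF
    obtain ⟨e, v, h1⟩ := Pool.Agent.W73.PG.PULL.exists_over' (K := K) (resPl L w)
    have h2 : LiesFib w (resPl ℂ v) e := ⟨h1.1, fun f => h1.2 f⟩
    have h3 := fib_unram (L := L) hF h2
    subst h3
    exact ⟨_, h2⟩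
  have hO' : IsOrb δ0F := by
    intro w
    obtain ⟨v, hv⟩ := hlies w
    have h1 : δ0F w = δ0 v := by
      rw [hδ0F v w 1 hv, Nat.cast_one, one_mul, sub_sub_cancel, max_eq_right (orb_nonneg hO v)]
    rw [h1]
    exact hO v
  have hle' : ∀ w, δ0F w ≤ δF w := by
    intro w
    obtain ⟨v, hv⟩ := hlies w
    rw [hδ0F v w 1 hv, hδF v w 1 hv, Nat.cast_one, one_mul, one_mul, sub_sub_cancel,
      sub_sub_cancel]
    exact max_le_max le_rfl (hle v)
  have hNB : NoBaseOrb Λ F (r + 1) δ0F := OB.noBase_fib hess hd hn hF hδ0F (orb_le_one hO) h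
  obtain ⟨M, h1, h2, h3, h4, h5, h6⟩ := Pool.Agent.Y174.OB.main_base
    (L := L) hessL hess hd hn hcl hF
    (δ := fun v => (β v : ℝ)) (G := G) (fun v _ => hG v) hδF hO' hle' hnk hNB
  refine ⟨M, h1, h2, h3, h4, h5, hnk, fun δ' hδ' => ⟨(h6 δ' hδ').1, fun k hk =>
    ⟨((h6 δ' hδ').2 k hk).1, fun A hA hAint => ?_⟩⟩⟩
  have h7 := ((h6 δ' hδ').2 k hk).2
  have hd' : Algebra.trdeg ℂ (iitakaField y (d + (r + 1)) Δ) = d := by
    rw [← ε.trdeg_eq]
    exact hd
  obtain ⟨-, h8⟩ := kod_main hy hn hΔ hdisc hG hf0 hd'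
  refine (h8 (d + k) (fun A hA => ?_) A hA hAint).2
  obtain ⟨x, E, hx, hE⟩ := exists_crd hn
  have hfr : IsFrame E := fun G =>
    ⟨fun j => G (x j), (Pool.Agent.W73.PG.PULL.expand x hx E hE G).symm⟩
  obtain ⟨S, hS⟩ := exists_S hy hA hfr hdisc
  obtain ⟨C, hC⟩ := h7 S
  exact ⟨C, fun m N hm ω hω hs => hC m N hm ⟨ω, hω, fun l => hS m _ hm (hs l)⟩⟩

end

end Pool.Agent.N133.OB
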