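import Pool.Agent.N133.OB15

/-! Log canonical pairs whose orbifold symmetric differentials have no common zeros at the generic
point: the main theorem. -/

set_option autoImplicit false
set_option linter.overlappingInstances false
set_option linter.unusedSectionVars false

open FF IntermediateField Pool.Agent.W602.GT Pool.Agent.W619.PQ Pool.Agent.W619.PL
  Pool.Agent.W619.TW Pool.Agent.W603.LV Pool.Agent.W619.Y Pool.Agent.W824.PG Pool.Agent.Y172
  Pool.Agent.Y174 Pool.Agent.Y191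

namespace Pool.Agent.N133.OB

/-- **Main theorem.** -/
theorem pair_main {K : Type} [Field K] [Algebra ℂ K] {n N : ℕ} {y : Fin (N + 1) → K}
    (hy : NormalModel y) (hn : Algebra.trdeg ℂ K = n) {Δ : Place ℂ K → ℚ} (hΔ : Effective y Δ)
    (hLC : LogCanonical y n Δ) {δ0 : Place ℂ K → ℝ} (hO : IsOrb δ0)
    (hle : ∀ P, IsPrimeDivisor y P → δ0 P ≤ Δ P) {G : Finset K} (hG0 : ∀ g ∈ G, g ≠ 0)
    (hG : ∀ v, δ0 v ≠ 0 → ∃ g ∈ G, 0 < v.ord g) (h : NoBaseOrb ℂ K n δ0) :
    ∃ (κ : ℕ) (β : Place ℂ K → ℚ), kodairaDim y n Δ = (κ : WithBot ℕ) ∧ κ ≤ n ∧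
      (∀ A, Effective y A → Integral y A → (κ : EReal) ≤ numericalDim y n Δ A ∧
        numericalDim y n Δ A ≤ (n : EReal)) ∧
      (∀ P, IsPrimeDivisor y P → β P = Δ P) ∧
      (∀ Q, Divisorial n Q → LogDisc y n Δ Q (1 - β Q)) ∧
      ∀ (L : Type) [Field L] [Algebra ℂ L] [Algebra L K] [IsScalarTower ℂ L K],
        (∀ x : K, x ∈ Set.range (algebraMap L K) ↔
          IsAlgebraic (IntermediateField.adjoin ℂ (Ratio y n Δ)) x) →
        Algebra.trdeg ℂ L = κ ∧
        ∀ (r : ℕ), n = κ + (r + 1) → ∀ (Λ F : Type) [Field Λ] [Field F] [Algebra L Λ]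
          [IsAlgClosure L Λ] [Algebra Λ F] [Algebra K F] [Algebra L F] [IsScalarTower L Λ F]
          [IsScalarTower L K F] (δF δ0F : Place Λ F → ℝ),
          IntermediateField.adjoin Λ (Set.range (algebraMap K F)) = ⊤ →
          IsPullFib (fun v => (β v : ℝ)) δF → IsPullFib δ0 δ0F →
          ∃ M : IntermediateField F (AlgebraicClosure F), FiniteDimensional F M ∧ IsGalois F M ∧
            (∃ (ω : Fin (r + 1) → (Derivation Λ F F →ₗ[F] M)), LinearIndependent M ω ∧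
              ∀ i, OrbForm (r + 1) δ0F (ω i)) ∧
            (∃ (η : Fin (r + 1) → (Derivation Λ M M →ₗ[M] M)), LinearIndependent M η ∧
              ∀ i, ∀ w : Place Λ M, IsDivisorial w (r + 1) → ∀ D : Derivation Λ M M,
                LogFld (BdOn fun v => δ0F v = 1) w D → w.Reg (η i D)) ∧
            PairKod Λ F (r + 1) δF 0 ∧ ¬ PairKod Λ F (r + 1) δF 1 ∧
            ∀ δ' : Place Λ M → ℝ, IsPull δF δ' →
              (∀ a, PairKod Λ F (r + 1) δF a ↔ PairKod Λ M (r + 1) δ' a) ∧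
              ∀ k, PairNum Λ M (r + 1) δ' k → PairNum Λ F (r + 1) δF k ∧
                ∀ A, Effective y A → Integral y A →
                  numericalDim y n Δ A ≤ ((κ + k : ℕ) : EReal) := by
  classical
  have hess : Algebra.EssFiniteType ℂ K := hy.ess
  obtain ⟨β, G', hβ, -, hδ0, hdisc, hG'⟩ := exists_delta hy hn hΔ hLC hO hle hG0 hG
  have hk0 : PairKod ℂ K n (fun P => (β P : ℝ)) 0 := Pool.Agent.Y174.OB.nonvanishing hess hn hO
    (δ := fun P => (β P : ℝ)) hδ0 h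
  have hf0 := ratio_of_kod hy hn hβ hk0
  obtain ⟨d, r0, hd, hnd⟩ := iitaka_dim (y := y) hn Δ
  obtain ⟨h1, h2⟩ := kod_main hy hn hΔ hdisc hG' hf0 hd
  refine ⟨d, β, h1, by omega, h2 n fun A hA => ?_, hβ, hdisc, ?_⟩
  · exact sec_count (L := K) (r := 0) hess hy hn hn hA hdisc hG'
      fun m hm ω η hω hη E hE => ⟨ω E / η E, rfl⟩
  · intro L _ _ _ _ hL
    obtain ⟨ε⟩ := iitaka_copy hL
    have hdL : Algebra.trdeg ℂ L = d := by
      rw [ε.trdeg_eq]
      exact hd
    refine ⟨hdL, ?_⟩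
    intro r hr Λ F _ _ _ _ _ _ _ _ _ δF δ0F hF hδF hδ0F
    subst hr
    exact fibre_main hy hn hΔ hO h hβ hδ0 hdisc hG' hf0 hL hdL hF hδF hδ0F

end Pool.Agent.N133.OB
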