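import Pool.Agent.N133.OB16

/-! The main theorem, stated with short definitions. -/

set_option autoImplicit false
set_option linter.overlappingInstances false
set_option linter.unusedSectionVars false

universe u v

open FF IntermediateField Pool.Agent.W602.GT Pool.Agent.W619.PQ Pool.Agent.W619.PL
  Pool.Agent.W619.TW Pool.Agent.W603.LV Pool.Agent.W619.Y Pool.Agent.W824.PG Pool.Agent.Y172
  Pool.Agent.Y174 Pool.Agent.Y191

namespace Pool.Agent.N133.OB

/-- `L` is the function field of the base of the Iitaka fibration of `(X, Δ)`: it consists of the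
functions which are algebraic over the field generated by the ratios of the sections of the multiples
of `K_X + Δ`. -/
def IsIitaka {K : Type} [Field K] [Algebra ℂ K] {N : ℕ} (y : Fin (N + 1) → K) (n : ℕ)
    (Δ : Place ℂ K → ℚ) (L : Type) [Field L] [Algebra L K] : Prop :=
  ∀ x : K, x ∈ Set.range (algebraMap L K) ↔
    IsAlgebraic (IntermediateField.adjoin ℂ (Ratio y n Δ)) x

/-- `M` is the function field of a finite Galois cover of the variety `V` of dimension `n` with
function field `F` over `Λ`, such that the orbifold `(V, δ0)` has `n` linearly independent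
multivalued 1-forms with values in `M`; `M` has `n` linearly independent 1-forms, which are regular
away from the prime divisors over those with `δ0 v = 1`, and have at most logarithmic poles there; and
the log canonical divisors of `V` with the boundary `δ`, and of the cover with the boundary `δ'` which
is the effective part of the pull-back of `δ`, have the same Kodaira dimension, and the numerical
dimension of the first is at most that of the second. -/
def FormCover (Λ : Type v) {F : Type u} [Field Λ] [Field F] [Algebra Λ F] (n : ℕ)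
    (δ δ0 : Place Λ F → ℝ) (M : IntermediateField F (AlgebraicClosure F)) : Prop :=
  FiniteDimensional F M ∧ IsGalois F M ∧
    (∃ (ω : Fin n → (Derivation Λ F F →ₗ[F] M)), LinearIndependent M ω ∧
      ∀ i, OrbForm n δ0 (ω i)) ∧
    (∃ (η : Fin n → (Derivation Λ M M →ₗ[M] M)), LinearIndependent M η ∧
      ∀ i, ∀ w : Place Λ M, IsDivisorial w n → ∀ D : Derivation Λ M M,
        LogFld (BdOn fun v => δ0 v = 1) w D → w.Reg (η i D)) ∧
    ∀ δ' : Place Λ M → ℝ, IsPull δ δ' → (∀ a, PairKod Λ F n δ a ↔ PairKod Λ M n δ' a) ∧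
      ∀ k, PairNum Λ M n δ' k → PairNum Λ F n δ k

/-- **Main theorem**, short form. -/
theorem pair_main' {K : Type} [Field K] [Algebra ℂ K] {n N : ℕ} {y : Fin (N + 1) → K}
    (hy : NormalModel y) (hn : Algebra.trdeg ℂ K = n) {Δ : Place ℂ K → ℚ} (hΔ : Effective y Δ)
    (hLC : LogCanonical y n Δ) {δ0 : Place ℂ K → ℝ} (hO : IsOrb δ0)
    (hle : ∀ P, IsPrimeDivisor y P → δ0 P ≤ Δ P) {G : Finset K} (hG0 : ∀ g ∈ G, g ≠ 0)
    (hG : ∀ v, δ0 v ≠ 0 → ∃ g ∈ G, 0 < v.ord g) (h : NoBaseOrb ℂ K n δ0) :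
    ∃ (κ : ℕ) (β : Place ℂ K → ℚ), kodairaDim y n Δ = (κ : WithBot ℕ) ∧ κ ≤ n ∧
      (∀ A, Effective y A → Integral y A → (κ : EReal) ≤ numericalDim y n Δ A ∧
        numericalDim y n Δ A ≤ (n : EReal)) ∧
      (∀ P, IsPrimeDivisor y P → β P = Δ P) ∧
      (∀ Q, Divisorial n Q → LogDisc y n Δ Q (1 - β Q)) ∧
      ∀ (L : Type) [Field L] [Algebra ℂ L] [Algebra L K] [IsScalarTower ℂ L K],
        IsIitaka y n Δ L → Algebra.trdeg ℂ L = κ ∧
        ∀ (r : ℕ), n = κ + (r + 1) → ∀ (Λ F : Type) [Field Λ] [Field F] [Algebra L Λ]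
          [IsAlgClosure L Λ] [Algebra Λ F] [Algebra K F] [Algebra L F] [IsScalarTower L Λ F]
          [IsScalarTower L K F] (δF δ0F : Place Λ F → ℝ),
          IntermediateField.adjoin Λ (Set.range (algebraMap K F)) = ⊤ →
          IsPullFib (fun v => (β v : ℝ)) δF → IsPullFib δ0 δ0F →
          PairKod Λ F (r + 1) δF 0 ∧ ¬ PairKod Λ F (r + 1) δF 1 ∧
          ∃ M : IntermediateField F (AlgebraicClosure F), FormCover Λ (r + 1) δF δ0F M ∧
            ∀ δ' : Place Λ M → ℝ, IsPull δF δ' → ∀ k, PairNum Λ M (r + 1) δ' k →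
              ∀ A, Effective y A → Integral y A →
                numericalDim y n Δ A ≤ ((κ + k : ℕ) : EReal) := by
  obtain ⟨κ, β, h1, h2, h3, h4, h5, h6⟩ := pair_main hy hn hΔ hLC hO hle hG0 hG h
  refine ⟨κ, β, h1, h2, h3, h4, h5, fun L _ _ _ _ hL => ⟨(h6 L hL).1, ?_⟩⟩
  intro r hr Λ F _ _ _ _ _ _ _ _ _ δF δ0F hF hδF hδ0F
  obtain ⟨M, a1, a2, a3, a4, a5, a6, a7⟩ := (h6 L hL).2 r hr Λ F δF δ0F hF hδF hδ0F
  exact ⟨a5, a6, M, ⟨a1, a2, a3, a4, fun δ' hδ' => ⟨(a7 δ' hδ').1, fun k hk =>
    ((a7 δ' hδ').2 k hk).1⟩⟩, fun δ' hδ' k hk => ((a7 δ' hδ').2 k hk).2⟩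

end Pool.Agent.N133.OB
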