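import Pool.Agent.W619.PQ.Ram
import Pool.Agent.Y174.V1
import Pool.Agent.Y174.VDefs

/-! Constant extensions of function fields are unramified; extension of places. -/

set_option autoImplicit false
set_option linter.overlappingInstances false
set_option linter.unusedSectionVars false

open Polynomial FF IsDedekindDomain IntermediateField Pool.Agent.W619.PQ

namespace Pool.Agent.N133.OB

open Pool.Agent.W603.LV

section

variable {k L : Type*} [Field k] [Field L] [Algebra k L] (G : Subgroup (L ≃ₐ[k] L))

/-- The inertia group of a place over a place of the fixed field. -/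
theorem place_inertia [CharZero k] [Finite G] {v : Place k (fixedField G)} {w : Place k L} {e : ℕ}
    (hover : Over w v e) :
    ∃ (I : Subgroup G), Nat.card I = e ∧ ∀ g ∈ I, Inert w (g : L ≃ₐ[k] L) := by
  classical
  let K := fixedField G
  have hGal : IsGaloisGroup G K L := isGaloisGroup_fixed G
  have hfd : FiniteDimensional K L := IsGaloisGroup.finiteDimensional G K L
  have hcomm : SMulCommClass G K L := hGal.commutes
  let iA : Algebra v.O L := algO v
  let ik : Algebra k v.O := algk v
  obtain ⟨t, ht0, ht⟩ := v.surj
  have htr : v.Reg t := Or.inr (by omega)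
  have htF : algebraMap K L t ≠ 0 := by simpa using ht0
  have : IsDiscreteValuationRing v.O := v.isDVR
  have : CharZero K := charZero_of_injective_algebraMap (algebraMap k K).injective
  have : IsScalarTower v.O K L := IsScalarTower.of_algebraMap_eq fun _ => rfl
  have : IsScalarTower k v.O L := IsScalarTower.of_algebraMap_eq fun c => by
    rw [IsScalarTower.algebraMap_apply k K L]
    rfl
  have hcomm' : SMulCommClass G v.O L := ⟨fun g a z => by
    rw [Algebra.smul_def, Algebra.smul_def, smul_mul']
    congr 1
    exact (a : K).2 g⟩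
  let B := integralClosure v.O L
  have : IsDedekindDomain B := integralClosure.isDedekindDomain v.O K L
  have : IsFractionRing B L := integralClosure.isFractionRing_of_finite_extension K L
  have hfin : Module.Finite v.O B := IsIntegralClosure.finite v.O K L B
  have hinj : Function.Injective (algebraMap v.O L) := by
    rw [IsScalarTower.algebraMap_eq v.O K L]
    exact (algebraMap K L).injective.comp (IsFractionRing.injective v.O K)
  have hinj' : Function.Injective (algebraMap v.O B) := by
    intro a b h
    apply hinj
    rw [IsScalarTower.algebraMap_apply v.O B L, IsScalarTower.algebraMap_apply v.O B L, h]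
  have htf : Module.IsTorsionFree v.O B := Module.isTorsionFree_iff_algebraMap_injective.2 hinj'
  have hfree : Module.Free v.O B := inferInstance
  have hsc : IsScalarTower k B L := by
    refine IsScalarTower.of_algebraMap_eq fun c => ?_
    rw [IsScalarTower.algebraMap_apply k v.O B, ← IsScalarTower.algebraMap_apply v.O B L,
      ← IsScalarTower.algebraMap_apply k v.O L]
  have hGB : IsGaloisGroup G v.O B := IsGaloisGroup.of_isFractionRing G v.O B K L
  let p := IsLocalRing.maximalIdeal v.O
  have hp0 : p ≠ ⊥ := IsDiscreteValuationRing.not_a_field v.O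
  have hregB0 : ∀ b : B, w.Reg (algebraMap B L b) := fun b =>
    w.reg_of_isIntegral (A := v.O) (fun a => hover.reg.2 a.2) b.2
  obtain ⟨P', rfl⟩ := exists_placeOf_eq (B := B) w hregB0
  let P := P'.asIdeal
  have hPmax : P.IsMaximal := P'.isMaximal
  have hPl : P.LiesOver p := by
    constructor
    ext a
    rw [Ideal.under_def, Ideal.mem_comap, mem_maximalIdeal_iff,
      ← placeOf_red_eq_zero (k := k) (L := L) P', Place.red_eq_zero_iff _ (placeOf_reg _ _)]
    change _ ↔ algebraMap K L (a : K) = 0 ∨ 0 < (placeOf P').ord (algebraMap K L (a : K))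
    rw [hover.2, map_eq_zero]
    have he0 : (0 : ℤ) < e := by exact_mod_cast hover.1
    constructor
    · rintro (h | h)
      · exact Or.inl h
      · exact Or.inr (mul_pos he0 (by omega))
    · rintro (h | h)
      · exact Or.inl h
      · right
        have := (mul_pos_iff_of_pos_left he0).1 h
        omega
  have hP0 : P ≠ ⊥ := P'.ne_bot
  let v' : HeightOneSpectrum v.O := ⟨p, Ideal.IsMaximal.isPrime inferInstance, hp0⟩
  have hlo : P'.asIdeal.LiesOver v'.asIdeal := hPl
  let w : Place k L := placeOf P'
  -- `w` lies over `v`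
  have h1 : ∀ f : K, v.Reg f → w.Reg (algebraMap K L f) := by
    intro f hf
    have := placeOf_reg (k := k) (L := L) P' (algebraMap v.O B ⟨f, hf⟩)
    rwa [← IsScalarTower.algebraMap_apply v.O B L] at this
  have htp : (⟨t, htr⟩ : v.O) ∈ p := (mem_maximalIdeal_iff v _).2 (Or.inr ht.ge)
  have h2 : 0 < w.ord (algebraMap K L t) := by
    have h3 : w.red (algebraMap B L (algebraMap v.O B ⟨t, htr⟩)) = 0 := by
      rw [placeOf_red_eq_zero]
      have : (⟨t, htr⟩ : v.O) ∈ P.comap (algebraMap v.O B) := by
        rw [← Ideal.under_def, ← hPl.over]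
        exact htp
      exact this
    rw [Place.red_eq_zero_iff _ (placeOf_reg _ _), ← IsScalarTower.algebraMap_apply v.O B L] at h3
    exact h3.resolve_left htF
  -- the ramification index
  have hchar : CharZero p.ResidueField :=
    charZero_of_injective_ringHom ((algebraMap v.O p.ResidueField).comp (algebraMap k v.O)).injective
  have hcard : Nat.card (P.inertia G) = P.ramificationIdx v.O := by
    rw [Ideal.card_inertia_eq_ramificationIdxIn p P, Ideal.ramificationIdxIn_eq_ramificationIdx p P G]
  have hram : p.ramificationIdx' P = P.ramificationIdx v.O :=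
    Ideal.ramificationIdx'_eq_ramificationIdx _ _ hp0
  have hspan : p = Ideal.span {(⟨t, htr⟩ : v.O)} := (maximalIdeal_eq v ht0 ht htr).symm
  have hew : w.ord (algebraMap K L t) = e := by
    rw [hover.2 t, ht, mul_one]
  have he : (w.ord (algebraMap K L t)).toNat = Nat.card (P.inertia G) := by
    rw [hcard, ← hram]
    have h4 := HeightOneSpectrum.valuation_liesOver L v' P' (algebraMap v.O K ⟨t, htr⟩)
    have h5 : v'.valuation K (algebraMap v.O K ⟨t, htr⟩) = WithZero.exp (-1) := by
      rw [HeightOneSpectrum.valuation_of_algebraMap]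
      refine v'.intValuation_singleton ?_ hspan
      intro h
      exact ht0 (congrArg Subtype.val h)
    rw [h5] at h4
    have h6 : w.ord (algebraMap K L t) = - WithZero.log (P'.valuation L (algebraMap K L t)) := rfl
    have h7 : algebraMap K L (algebraMap v.O K ⟨t, htr⟩) = algebraMap K L t := rfl
    rw [h7] at h4
    rw [h6, ← h4, WithZero.log_pow, WithZero.log_exp]
    simp [v']
    rfl
  rw [hew, Int.toNat_natCast] at he
  refine ⟨P.inertia G, he.symm, ?_⟩
  intro g hg z hz
  by_cases hz0 : z = 0
  · left; rw [hz0]; simp
  obtain ⟨n, d, hnd⟩ := P'.exists_primeCompl_mul_eq_of_integer z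
    ((placeOf_nonneg P' hz0).1 (hz.resolve_left hz0))
  have hmem : ∀ b : B, b ∈ P → Ge w 1 (algebraMap B L b) := by
    intro b hb
    have h3 : w.red (algebraMap B L b) = 0 := (placeOf_red_eq_zero (k := k) (L := L) P' b).2 hb
    rw [Place.red_eq_zero_iff _ (placeOf_reg _ _)] at h3
    exact h3
  have hregB : ∀ b : B, Ge w 0 (algebraMap B L b) := fun b => placeOf_reg P' b
  have hdu : ∀ d : B, d ∉ P → algebraMap B L d ≠ 0 ∧ w.ord (algebraMap B L d) = 0 := by
    intro d hd
    have h3 : w.red (algebraMap B L d) ≠ 0 := by
      rw [Ne, placeOf_red_eq_zero (k := k) (L := L) P' d]; exact hd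
    rw [Ne, Place.red_eq_zero_iff _ (placeOf_reg _ _)] at h3
    push Not at h3
    have h4 : 0 ≤ w.ord (algebraMap B L d) := (hregB d).resolve_left h3.1
    have h5 : w.ord (algebraMap B L d) ≤ 0 := h3.2
    exact ⟨h3.1, by omega⟩
  have hgB : ∀ b : B, algebraMap B L (g • b) = (g : L ≃ₐ[k] L) (algebraMap B L b) := fun b => rfl
  have hd1 := hdu (d : B) d.2
  have hgd : g • (d : B) ∉ P := by
    intro h
    apply d.2
    have h3 := P.sub_mem h (hg (d : B))
    simpa using h3
  have hd2 := hdu _ hgd
  rw [hgB] at hd2
  -- z = n / d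
  have hzn : z = algebraMap B L n / algebraMap B L d := by
    rw [eq_div_iff hd1.1]; exact hnd
  have hkey : (g : L ≃ₐ[k] L) z - z =
      (algebraMap B L (g • n - n) * algebraMap B L d - algebraMap B L n * algebraMap B L (g • (d : B) - d)) *
        ((g : L ≃ₐ[k] L) (algebraMap B L d) * algebraMap B L d)⁻¹ := by
    rw [hzn, map_div₀, map_sub, map_sub, hgB, hgB]
    have := hd1.1
    have := hd2.1
    field_simp
    ring
  rw [hkey]
  have h8 : Ge w 1 (algebraMap B L (g • n - n) * algebraMap B L d -
      algebraMap B L n * algebraMap B L (g • (d : B) - d)) := by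
    have e1 := (hmem _ (hg n)).mul (hregB (d : B))
    have e2 := (hregB n).mul (hmem _ (hg (d : B)))
    rw [add_zero] at e1
    rw [zero_add] at e2
    exact e1.sub e2
  have h9 : Ge w 0 ((g : L ≃ₐ[k] L) (algebraMap B L d) * algebraMap B L d)⁻¹ := by
    right
    rw [w.ord_inv, w.ord_mul hd2.1 hd1.1, hd1.2, hd2.2]; simp
  simpa using h8.mul h9


end

end Pool.Agent.N133.OB
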