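import Pool.Agent.N133.OB2

/-! Constant extensions of function fields are unramified. -/

set_option autoImplicit false
set_option linter.overlappingInstances false
set_option linter.unusedSectionVars false

open Polynomial FF IsDedekindDomain IntermediateField Pool.Agent.W619.PQ Pool.Agent.Y174

namespace Pool.Agent.N133.OB

open Pool.Agent.W603.LV

/-- the order of algebraic elements -/
theorem ord_alg {L M : Type*} [Field L] [Field M] [Algebra L M] (w : Place L M) {s : M}
    (hs : IsAlgebraic L s) : w.ord s = 0 := by
  by_cases hs0 : s = 0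
  · rw [hs0, w.ord_zero]
  have h1 : w.Reg s := w.reg_of_isIntegral (A := L) (fun a => w.reg_const a) hs.isIntegral
  have h2 : w.Reg s⁻¹ := w.reg_of_isIntegral (A := L) (fun a => w.reg_const a) hs.inv.isIntegral
  have h3 := (w.reg_iff hs0).1 h1
  have h4 := (w.reg_iff (inv_ne_zero hs0)).1 h2
  rw [w.ord_inv] at h4
  omega

section

variable {L K M : Type*} [Field L] [CharZero L] [Field K] [Field M] [Algebra L K] [Algebra L M]
  [Algebra K M] [IsScalarTower L K M]

/-- **Constant extensions are unramified.** -/
theorem unram_fin [FiniteDimensional K M] [IsGalois K M] {S : Set M}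
    (hS : ∀ s ∈ S, IsAlgebraic L s) (hgen : IntermediateField.adjoin K S = ⊤) {v : Place L K}
    {w : Place L M} {e : ℕ} (h : Over w v e) : e = 1 := by
  classical
  let G : Subgroup (M ≃ₐ[L] M) := (AlgEquiv.restrictScalarsHom L : (M ≃ₐ[K] M) →* _).range
  have hfinG : Finite G := inferInstance
  have hmem : ∀ z : M, z ∈ fixedField G ↔ z ∈ Set.range (algebraMap K M) := by
    intro z
    rw [← IntermediateField.mem_bot, IsGalois.mem_bot_iff_fixed]
    constructor
    · intro hz f
      exact hz ⟨f.restrictScalars L, ⟨f, rfl⟩⟩
    · rintro hz ⟨_, f, rfl⟩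
      exact hz f
  have : Algebra.IsAlgebraic (fixedField G) M := by
    have hG := isGaloisGroup_fixed G
    have : FiniteDimensional (fixedField G) M := IsGaloisGroup.finiteDimensional G (fixedField G) M
    infer_instance
  obtain ⟨e', v', hv'⟩ := Pool.Agent.W73.PG.PULL.exists_over' (K := fixedField G) w
  obtain ⟨I, hI, hin⟩ := place_inertia G hv'
  have hI1 : ∀ g ∈ I, g = 1 := by
    intro g hg
    have h1 := hin g hg
    have h2 : ∀ s ∈ S, (g : M ≃ₐ[L] M) s = s := by
      intro s hs
      have h3 := ord_alg w (hS s hs)
      have h4 : Ge w 1 ((g : M ≃ₐ[L] M) s - s) := h1 s (Or.inr h3.ge)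
      have h5 : IsAlgebraic L ((g : M ≃ₐ[L] M) s - s) :=
        ((hS s hs).algHom (g : M ≃ₐ[L] M).toAlgHom).sub (hS s hs)
      rcases h4 with h4 | h4
      · exact sub_eq_zero.1 h4
      · rw [ord_alg w h5] at h4
        omega
    obtain ⟨f, hf⟩ := g.2
    have h3 : f = 1 := by
      ext x
      have hx : x ∈ IntermediateField.adjoin K S := by
        rw [hgen]
        trivial
      change f x = x
      induction hx using IntermediateField.adjoin_induction with
      | mem x hx =>
        have h5 := h2 x hx
        rw [← hf] at h5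
        exact h5
      | algebraMap x => exact f.commutes x
      | add x y _ _ h5 h6 => rw [map_add, h5, h6]
      | inv x _ h5 => rw [map_inv₀, h5]
      | mul x y _ _ h5 h6 => rw [map_mul, h5, h6]
    apply Subtype.ext
    rw [← hf, h3, map_one]
    rfl
  have he' : e' = 1 := by
    rw [← hI]
    have : I = ⊥ := by
      rw [Subgroup.eq_bot_iff_forall]
      exact hI1
    rw [this, Subgroup.card_bot]
  obtain ⟨t, ht0, ht⟩ := v'.surj
  obtain ⟨f, hf⟩ := (hmem t).1 t.2
  have h1 : w.ord (algebraMap K M f) = 1 := by
    rw [hf]
    have := hv'.2 t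
    rw [ht, he'] at this
    simpa using this
  rw [h.2] at h1
  have h2 : (e : ℤ) ∣ 1 := ⟨_, h1.symm⟩
  have h3 := Int.eq_one_of_dvd_one (by positivity) h2
  exact_mod_cast h3

end

section

variable {L K Λ F : Type*} [Field L] [CharZero L] [Field K] [Field Λ] [Field F] [Algebra L K]
  [Algebra L Λ] [Algebra Λ F] [Algebra K F] [Algebra L F] [IsScalarTower L Λ F]
  [IsScalarTower L K F]

/-- every element of the field of the fibre is in a finite Galois extension of `K` which is generated
by constants -/
theorem exists_galois [IsAlgClosed Λ] [Algebra.IsAlgebraic L Λ]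
    (hgen : IntermediateField.adjoin Λ (Set.range (algebraMap K F)) = ⊤) (T0 : Finset F) :
    ∃ M : IntermediateField K F, FiniteDimensional K M ∧ IsGalois K M ∧ (∀ x ∈ T0, x ∈ M) ∧
      ∃ S : Set M, (∀ s ∈ S, IsAlgebraic L s) ∧ IntermediateField.adjoin K S = ⊤ := by
  classical
  have hK0 : CharZero K := charZero_of_injective_algebraMap (algebraMap L K).injective
  -- `F` is generated over `K` by the constants
  have h1 : IntermediateField.adjoin K (Set.range (algebraMap Λ F)) = ⊤ := by
    let A : IntermediateField K F := IntermediateField.adjoin K (Set.range (algebraMap Λ F))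
    let B : IntermediateField Λ F :=
      { A.toSubfield with
        algebraMap_mem' := fun c => IntermediateField.subset_adjoin _ _ ⟨c, rfl⟩ }
    have h2 : (⊤ : IntermediateField Λ F) ≤ B := by
      rw [← hgen, IntermediateField.adjoin_le_iff]
      rintro _ ⟨x, rfl⟩
      exact A.algebraMap_mem x
    rw [eq_top_iff]
    intro x _
    exact h2 (by trivial : x ∈ (⊤ : IntermediateField Λ F))
  have h2 : ∀ x : F, ∃ T : Finset F, (T : Set F) ⊆ Set.range (algebraMap Λ F) ∧
      x ∈ IntermediateField.adjoin K (T : Set F) := by
    intro x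
    exact IntermediateField.exists_finset_of_mem_adjoin (by rw [h1]; trivial)
  choose T hT hxT using h2
  obtain ⟨T', hT'⟩ : ∃ T' : Finset F, T' = T0.biUnion T := ⟨_, rfl⟩
  have hT'Λ : (T' : Set F) ⊆ Set.range (algebraMap Λ F) := by
    intro t ht
    rw [hT', Finset.mem_coe, Finset.mem_biUnion] at ht
    obtain ⟨x, -, hx⟩ := ht
    exact hT x hx
  have hT'L : ∀ t ∈ T', IsAlgebraic L t := by
    intro t ht
    obtain ⟨c, rfl⟩ := hT'Λ ht
    exact (Algebra.IsAlgebraic.isAlgebraic (R := L) c).algebraMap
  let p : L[X] := ∏ t ∈ T', minpoly L t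
  have hp0 : p ≠ 0 := Finset.prod_ne_zero_iff.2 fun t ht => minpoly.ne_zero (hT'L t ht).isIntegral
  let q : K[X] := p.map (algebraMap L K)
  have hq0 : q ≠ 0 := (Polynomial.map_ne_zero_iff (algebraMap L K).injective).2 hp0
  have hqs : (q.map (algebraMap K F)).Splits := by
    have e1 : q.map (algebraMap K F) = (p.map (algebraMap L Λ)).map (algebraMap Λ F) := by
      rw [Polynomial.map_map, Polynomial.map_map, ← IsScalarTower.algebraMap_eq,
        ← IsScalarTower.algebraMap_eq]
    rw [e1]
    exact (IsAlgClosed.splits (p.map (algebraMap L Λ))).map _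
  have hroot : ∀ s ∈ q.rootSet F, IsAlgebraic L s := by
    intro s hs
    rw [Polynomial.mem_rootSet'] at hs
    refine ⟨p, hp0, ?_⟩
    have := hs.2
    rwa [Polynomial.aeval_map_algebraMap] at this
  let M : IntermediateField K F := IntermediateField.adjoin K (q.rootSet F)
  have hsf : q.IsSplittingField K M := IntermediateField.adjoin_rootSet_isSplittingField hqs
  have hfin : FiniteDimensional K M := Polynomial.IsSplittingField.finiteDimensional M q
  have hnor : Normal K M := Normal.of_isSplittingField q
  have hgal : IsGalois K M := ⟨⟩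
  refine ⟨M, hfin, hgal, fun x hx => ?_, {s : M | (s : F) ∈ q.rootSet F}, fun s hs => ?_, ?_⟩
  · have h3 : IntermediateField.adjoin K (T x : Set F) ≤ M := by
      rw [IntermediateField.adjoin_le_iff]
      intro t ht
      refine IntermediateField.subset_adjoin K _ ?_
      have ht' : t ∈ T' := by
        rw [hT', Finset.mem_biUnion]
        exact ⟨x, hx, ht⟩
      rw [Polynomial.mem_rootSet']
      refine ⟨(Polynomial.map_ne_zero_iff (algebraMap K F).injective).2 hq0, ?_⟩
      change aeval t (p.map (algebraMap L K)) = 0
      rw [Polynomial.aeval_map_algebraMap]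
      change aeval t (∏ t ∈ T', minpoly L t) = 0
      rw [← Finset.mul_prod_erase T' _ ht', map_mul, minpoly.aeval, zero_mul]
    exact h3 (hxT x)
  · have h3 := hroot s hs
    have tLM : IsScalarTower L M F := IsScalarTower.of_algebraMap_eq fun c => rfl
    exact (isAlgebraic_algebraMap_iff (R := L) (S := M) (A := F) (algebraMap M F).injective).1 h3
  · have h3 : (IntermediateField.adjoin K {s : M | (s : F) ∈ q.rootSet F}).map M.val =
        (⊤ : IntermediateField K M).map M.val := by
      rw [IntermediateField.adjoin_map, ← AlgHom.fieldRange_eq_map,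
        IntermediateField.fieldRange_val]
      congr 1
      ext z
      simp only [Set.mem_image, Set.mem_ofPred_eq]
      constructor
      · rintro ⟨s, hs, rfl⟩
        exact hs
      · intro hz
        exact ⟨⟨z, IntermediateField.subset_adjoin K _ hz⟩, hz, rfl⟩
    exact IntermediateField.map_injective _ h3

end

end Pool.Agent.N133.OB
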