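import Pool.Agent.N133.OB3
import Pool.Agent.Y174.V2

/-! Extension of places to the geometric generic fibre. -/

set_option autoImplicit false
set_option linter.overlappingInstances false
set_option linter.unusedSectionVars false

open Polynomial FF IsDedekindDomain IntermediateField Pool.Agent.W619.PQ Pool.Agent.Y174

namespace Pool.Agent.N133.OB

open Pool.Agent.W603.LV

section

variable {L K M F : Type*} [Field L] [CharZero L] [Field K] [Field M] [Field F] [Algebra L K]
  [Algebra L M] [Algebra K M] [Algebra K F] [Algebra M F] [IsScalarTower L K M]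
  [IsScalarTower K M F]

/-- The place of a finite extension which is induced by a valuation ring of a larger field. -/
theorem val_fin [FiniteDimensional K M] (v : Place L K) (V : ValuationSubring F)
    (hV : ∀ f : K, v.Reg f → algebraMap K F f ∈ V) {t : K} (ht0 : t ≠ 0) (ht : v.ord t = 1)
    (htV : algebraMap K F t ∈ V.nonunits) :
    ∃ (w : Place L M) (e : ℕ), Over w v e ∧ ∀ z : M, w.Reg z → algebraMap M F z ∈ V := by
  classical
  let iA : Algebra v.O M := algO v
  let ik : Algebra L v.O := algk v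
  have htr : v.Reg t := Or.inr (by omega)
  have htF : algebraMap K M t ≠ 0 := by simpa using ht0
  have : IsDiscreteValuationRing v.O := v.isDVR
  have : CharZero K := charZero_of_injective_algebraMap (algebraMap L K).injective
  have : IsScalarTower v.O K M := IsScalarTower.of_algebraMap_eq fun _ => rfl
  have : IsScalarTower L v.O M := IsScalarTower.of_algebraMap_eq fun c => by
    rw [IsScalarTower.algebraMap_apply L K M]
    rfl
  let B := integralClosure v.O M
  have : IsDedekindDomain B := integralClosure.isDedekindDomain v.O K M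
  have : IsFractionRing B M := integralClosure.isFractionRing_of_finite_extension K M
  have hsc : IsScalarTower L B M := by
    refine IsScalarTower.of_algebraMap_eq fun c => ?_
    rw [IsScalarTower.algebraMap_apply L v.O B, ← IsScalarTower.algebraMap_apply v.O B M,
      ← IsScalarTower.algebraMap_apply L v.O M]
  -- the integral elements are in the valuation ring
  let φ : v.O →+* V := ((algebraMap K F).comp v.O.subtype).codRestrict V fun a => hV a a.2
  have hBV : ∀ b : B, algebraMap M F (algebraMap B M b) ∈ V := by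
    intro b
    have h1 : IsIntegral V (algebraMap M F (algebraMap B M b)) := by
      refine IsIntegral.map_of_comp_eq φ (algebraMap M F) ?_ b.2
      ext a
      change algebraMap K F (a : K) = algebraMap M F (algebraMap K M (a : K))
      rw [← IsScalarTower.algebraMap_apply K M F]
    obtain ⟨z, hz⟩ := IsIntegrallyClosed.isIntegral_iff.1 h1
    rw [← hz]
    exact z.2
  let ψ : B →+* V := ((algebraMap M F).comp (algebraMap B M)).codRestrict V hBV
  let P : Ideal B := (IsLocalRing.maximalIdeal V).comap ψ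
  have hPp : P.IsPrime := Ideal.comap_isPrime ψ _
  have htB : IsIntegral v.O (algebraMap K M t) := by
    have : algebraMap K M t = algebraMap v.O M ⟨t, htr⟩ := rfl
    rw [this]
    exact isIntegral_algebraMap
  have htP : (⟨algebraMap K M t, htB⟩ : B) ∈ P := by
    rw [Ideal.mem_comap]
    have h1 : ((ψ ⟨algebraMap K M t, htB⟩ : V) : F) ∈ V.nonunits := by
      change algebraMap M F (algebraMap K M t) ∈ _
      rw [← IsScalarTower.algebraMap_apply K M F]
      exact htV
    exact ValuationSubring.coe_mem_nonunits_iff.1 h1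
  have hP0 : P ≠ ⊥ := by
    intro h0
    rw [h0, Ideal.mem_bot] at htP
    exact htF (congrArg Subtype.val htP)
  let P' : HeightOneSpectrum B := ⟨P, hPp, hP0⟩
  let w : Place L M := placeOf P'
  have h1 : ∀ f : K, v.Reg f → w.Reg (algebraMap K M f) := by
    intro f hf
    have := placeOf_reg (k := L) (L := M) P' (algebraMap v.O B ⟨f, hf⟩)
    rwa [← IsScalarTower.algebraMap_apply v.O B M] at this
  have h2 : 0 < w.ord (algebraMap K M t) := by
    have h3 : w.red (algebraMap B M ⟨algebraMap K M t, htB⟩) = 0 := by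
      rw [placeOf_red_eq_zero]
      exact htP
    rw [Place.red_eq_zero_iff _ (placeOf_reg _ _)] at h3
    exact h3.resolve_left htF
  refine ⟨w, _, over_of_reg w v t ht0 ht h1 h2, fun z hz => ?_⟩
  by_cases hz0 : z = 0
  · rw [hz0, map_zero]
    exact V.zero_mem
  obtain ⟨n, d, hnd⟩ := P'.exists_primeCompl_mul_eq_of_integer z
    ((placeOf_nonneg P' hz0).1 ((w.reg_iff hz0).1 hz))
  have hd : ψ (d : B) ∉ IsLocalRing.maximalIdeal V := fun h => d.2 h
  rw [IsLocalRing.notMem_maximalIdeal] at hd
  obtain ⟨u, hu⟩ := hd.exists_right_inv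
  have hu' : algebraMap M F (algebraMap B M d) * (u : F) = 1 := congrArg Subtype.val hu
  have h3 : algebraMap M F z = ((ψ n * u : V) : F) := by
    change algebraMap M F z = algebraMap M F (algebraMap B M n) * (u : F)
    rw [← hnd, map_mul, mul_assoc, hu', mul_one]
  rw [h3]
  exact (ψ n * u).2

end

section

variable {L K Λ F : Type*} [Field L] [CharZero L] [Field K] [Field Λ] [Field F] [Algebra L K]
  [Algebra L Λ] [Algebra Λ F] [Algebra K F] [Algebra L F] [IsScalarTower L Λ F]
  [IsScalarTower L K F]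

/-- **Extension of places to the geometric generic fibre.** -/
theorem exists_fib_place [IsAlgClosed Λ] [Algebra.IsAlgebraic L Λ]
    (hgen : IntermediateField.adjoin Λ (Set.range (algebraMap K F)) = ⊤) (v : Place L K) :
    ∃ w : Place Λ F, ∀ f, w.ord (algebraMap K F f) = v.ord f := by
  classical
  obtain ⟨t, ht0, ht⟩ := v.surj
  have htr : v.Reg t := Or.inr (by omega)
  have htF : algebraMap K F t ≠ 0 := by simpa using ht0
  let A : Subring F := v.O.toSubring.map (algebraMap K F)
  have htA : algebraMap K F t ∈ A := ⟨t, htr, rfl⟩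
  let I : Ideal A := Ideal.span {⟨algebraMap K F t, htA⟩}
  have hI : I ≠ ⊤ := by
    rw [Ne, Ideal.eq_top_iff_one, Ideal.mem_span_singleton]
    rintro ⟨⟨_, a, ha, rfl⟩, h⟩
    have h1 : (1 : F) = algebraMap K F t * algebraMap K F a := congrArg Subtype.val h
    rw [← map_mul, ← map_one (algebraMap K F)] at h1
    have h2 : (1 : K) = t * a := (algebraMap K F).injective h1
    have ha0 : a ≠ 0 := by
      rintro rfl
      rw [mul_zero] at h2
      exact one_ne_zero h2
    have h3 := congrArg v.ord h2
    rw [v.ord_one, v.ord_mul ht0 ha0, ht] at h3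
    have h4 := (v.reg_iff ha0).1 ha
    omega
  obtain ⟨V, hAV, hIV⟩ := Ideal.image_subset_nonunits_valuationSubring I hI
  have hV : ∀ f : K, v.Reg f → algebraMap K F f ∈ V := fun f hf => hAV ⟨f, hf, rfl⟩
  have htV : algebraMap K F t ∈ V.nonunits :=
    hIV ⟨⟨algebraMap K F t, htA⟩, Ideal.mem_span_singleton_self _, rfl⟩
  -- the value group
  have key : ∀ x : F, x ≠ 0 → ∃ n : ℤ, x * algebraMap K F t ^ (-n) ∈ V ∧
      (x * algebraMap K F t ^ (-n))⁻¹ ∈ V := by
    intro x hx0
    obtain ⟨M, hfin, hgal, hxM, S, hS, hSgen⟩ := exists_galois (L := L) hgen {x}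
    obtain ⟨w, e, hwv, hw⟩ := val_fin (M := M) v V hV ht0 ht htV
    have he := unram_fin hS hSgen hwv
    subst he
    have hx := hxM x (Finset.mem_singleton_self x)
    have hx0' : (⟨x, hx⟩ : M) ≠ 0 := fun h => hx0 (congrArg Subtype.val h)
    have htM : algebraMap K M t ≠ 0 := by simpa using ht0
    have hz0 : (⟨x, hx⟩ : M) * algebraMap K M t ^ (-(w.ord ⟨x, hx⟩)) ≠ 0 :=
      mul_ne_zero hx0' (zpow_ne_zero _ htM)
    have hz : w.ord ((⟨x, hx⟩ : M) * algebraMap K M t ^ (-(w.ord ⟨x, hx⟩))) = 0 := by
      rw [w.ord_mul hx0' (zpow_ne_zero _ htM), w.ord_zpow, hwv.2, ht]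
      push_cast
      ring
    refine ⟨w.ord ⟨x, hx⟩, ?_, ?_⟩
    · have h1 := hw _ (Or.inr hz.ge)
      rw [map_mul, map_zpow₀, ← IsScalarTower.algebraMap_apply K M F] at h1
      exact h1
    · have h1 := hw (((⟨x, hx⟩ : M) * algebraMap K M t ^ (-(w.ord ⟨x, hx⟩)))⁻¹)
        (Or.inr (by rw [w.ord_inv, hz]; simp))
      rw [map_inv₀, map_mul, map_zpow₀, ← IsScalarTower.algebraMap_apply K M F] at h1
      exact h1
  choose! N hN1 hN2 using key
  have htinv : (algebraMap K F t)⁻¹ ∉ V := by
    intro h
    have h1 := ValuationSubring.mem_nonunits_iff_exists_mem_maximalIdeal.1 htV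
    obtain ⟨h2, h3⟩ := h1
    rw [IsLocalRing.mem_maximalIdeal, mem_nonunits_iff] at h3
    exact h3 (IsUnit.of_mul_eq_one ⟨_, h⟩ (Subtype.ext (mul_inv_cancel₀ htF)))
  have hpow : ∀ m : ℤ, algebraMap K F t ^ m ∈ V → 0 ≤ m := by
    intro m hm
    by_contra hneg
    push Not at hneg
    apply htinv
    have h1 : (algebraMap K F t)⁻¹ = algebraMap K F t ^ m * algebraMap K F t ^ ((-m - 1).toNat) := by
      rw [← zpow_natCast, ← zpow_add₀ htF, Int.toNat_of_nonneg (by omega)]
      rw [← zpow_neg_one]
      congr 1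
      ring
    rw [h1]
    exact V.mul_mem _ _ hm (pow_mem (hV t htr) _)
  have huniq : ∀ x : F, x ≠ 0 → ∀ m : ℤ, x * algebraMap K F t ^ (-m) ∈ V → m ≤ N x := by
    intro x hx0 m hm
    have h1 : algebraMap K F t ^ (N x - m) ∈ V := by
      have h2 := V.mul_mem _ _ hm (hN2 x hx0)
      have h3 : x * algebraMap K F t ^ (-m) * (x * algebraMap K F t ^ (-(N x)))⁻¹ =
          algebraMap K F t ^ (N x - m) := by
        rw [mul_inv, ← zpow_neg, neg_neg]
        have e1 : x * algebraMap K F t ^ (-m) * (x⁻¹ * algebraMap K F t ^ N x) =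
          (x * x⁻¹) * (algebraMap K F t ^ (-m) * algebraMap K F t ^ N x) := by ring
        rw [e1, mul_inv_cancel₀ hx0, one_mul, ← zpow_add₀ htF]
        congr 1
        ring
      rwa [h3] at h2
    have := hpow _ h1
    omega
  have hle : ∀ x : F, x ≠ 0 → ∀ m : ℤ, (x * algebraMap K F t ^ (-m))⁻¹ ∈ V → N x ≤ m := by
    intro x hx0 m hm
    have h1 : algebraMap K F t ^ (m - N x) ∈ V := by
      have h2 := V.mul_mem _ _ hm (hN1 x hx0)
      have h3 : (x * algebraMap K F t ^ (-m))⁻¹ * (x * algebraMap K F t ^ (-(N x))) =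
          algebraMap K F t ^ (m - N x) := by
        rw [mul_inv, ← zpow_neg, neg_neg]
        have e1 : x⁻¹ * algebraMap K F t ^ m * (x * algebraMap K F t ^ (-N x)) =
          (x * x⁻¹) * (algebraMap K F t ^ m * algebraMap K F t ^ (-N x)) := by ring
        rw [e1, mul_inv_cancel₀ hx0, one_mul, ← zpow_add₀ htF]
        congr 1
      rwa [h3] at h2
    have := hpow _ h1
    omega
  have hNval : ∀ x : F, x ≠ 0 → ∀ m : ℤ, x * algebraMap K F t ^ (-m) ∈ V →
      (x * algebraMap K F t ^ (-m))⁻¹ ∈ V → N x = m := fun x hx0 m h1 h2 =>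
    le_antisymm (hle x hx0 m h2) (huniq x hx0 m h1)
  have hNK : ∀ f : K, f ≠ 0 → N (algebraMap K F f) = v.ord f := by
    intro f hf
    have h1 : v.ord (f * t ^ (-(v.ord f))) = 0 := by
      rw [v.ord_mul hf (zpow_ne_zero _ ht0), v.ord_zpow, ht]
      ring
    refine hNval _ (by simpa using hf) _ ?_ ?_
    · have h2 := hV _ (Or.inr h1.ge : v.Reg (f * t ^ (-(v.ord f))))
      rwa [map_mul, map_zpow₀] at h2
    · have h2 := hV _ (Or.inr (by rw [v.ord_inv, h1]; simp) : v.Reg (f * t ^ (-(v.ord f)))⁻¹)
      rwa [map_inv₀, map_mul, map_zpow₀] at h2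
  have hconst : ∀ c : Λ, c ≠ 0 → algebraMap Λ F c ∈ V := by
    intro c _
    have h1 : IsIntegral L c := (Algebra.IsAlgebraic.isAlgebraic (R := L) c).isIntegral
    let φ : L →+* V := (algebraMap L F).codRestrict V fun a => by
      rw [IsScalarTower.algebraMap_apply L K F]
      exact hV _ (v.reg_const a)
    have h2 : IsIntegral V (algebraMap Λ F c) := by
      refine IsIntegral.map_of_comp_eq φ (algebraMap Λ F) ?_ h1
      ext a
      change algebraMap L F a = algebraMap Λ F (algebraMap L Λ a)
      rw [← IsScalarTower.algebraMap_apply L Λ F]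
    obtain ⟨z, hz⟩ := IsIntegrallyClosed.isIntegral_iff.1 h2
    rw [← hz]
    exact z.2
  refine ⟨{ ord := fun x => if x = 0 then 0 else N x
            ord_zero := if_pos rfl
            ord_mul := ?_
            ord_add := ?_
            ord_const := ?_
            surj := ?_ }, fun f => ?_⟩
  · intro x z hx hz
    rw [if_neg hx, if_neg hz, if_neg (mul_ne_zero hx hz)]
    have e1 : x * z * algebraMap K F t ^ (-(N x + N z)) =
        x * algebraMap K F t ^ (-(N x)) * (z * algebraMap K F t ^ (-(N z))) := by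
      rw [neg_add, zpow_add₀ htF]
      ring
    refine hNval _ (mul_ne_zero hx hz) _ ?_ ?_
    · rw [e1]
      exact V.mul_mem _ _ (hN1 x hx) (hN1 z hz)
    · rw [e1, mul_inv]
      exact V.mul_mem _ _ (hN2 x hx) (hN2 z hz)
  · intro x z hx hz hxz
    rw [if_neg hx, if_neg hz, if_neg hxz]
    refine huniq _ hxz _ ?_
    have h1 : ∀ u : F, u ≠ 0 → ∀ m : ℤ, m ≤ N u → u * algebraMap K F t ^ (-m) ∈ V := by
      intro u hu m hm
      have e1 : u * algebraMap K F t ^ (-m) = u * algebraMap K F t ^ (-(N u)) *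
          algebraMap K F t ^ ((N u - m).toNat) := by
        rw [mul_assoc, ← zpow_natCast, ← zpow_add₀ htF, Int.toNat_of_nonneg (by omega)]
        congr 2
        ring
      rw [e1]
      exact V.mul_mem _ _ (hN1 u hu) (pow_mem (hV t htr) _)
    rw [add_mul]
    exact V.add_mem _ _ (h1 x hx _ (min_le_left _ _)) (h1 z hz _ (min_le_right _ _))
  · intro c hc
    have hc' : algebraMap Λ F c ≠ 0 := by simpa using hc
    rw [if_neg hc']
    refine hNval _ hc' 0 ?_ ?_
    · rw [neg_zero, zpow_zero, mul_one]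
      exact hconst c hc
    · rw [neg_zero, zpow_zero, mul_one, ← map_inv₀]
      exact hconst _ (inv_ne_zero hc)
  · refine ⟨algebraMap K F t, htF, ?_⟩
    rw [if_neg htF, hNK t ht0, ht]
  · change (if algebraMap K F f = 0 then 0 else N (algebraMap K F f)) = v.ord f
    by_cases hf : f = 0
    · rw [hf, map_zero, if_pos rfl, v.ord_zero]
    · rw [if_neg (by simpa using hf), hNK f hf]

end

section

variable {k L K Λ F : Type} [Field k] [Field L] [CharZero L] [Field K] [Field Λ] [Field F]
  [Algebra k K] [Algebra L K] [Algebra L Λ] [Algebra Λ F] [Algebra K F] [Algebra L F]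
  [IsScalarTower L Λ F] [IsScalarTower L K F]

/-- **The geometric generic fibre is unramified over the total space.** -/
theorem fib_unram [IsAlgClosed Λ] [Algebra.IsAlgebraic L Λ]
    (hgen : IntermediateField.adjoin Λ (Set.range (algebraMap K F)) = ⊤) {v : Place k K}
    {w : Place Λ F} {e : ℕ} (h : LiesFib w v e) : e = 1 := by
  classical
  obtain ⟨s, hs0, hs⟩ := w.surj
  obtain ⟨M, hfin, hgal, hsM, S, hS, hSgen⟩ := exists_galois (L := L) hgen {s}
  have halg : Algebra.IsAlgebraic K F := alg_KF (L := L) hgen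
  have hMalg : Algebra.IsAlgebraic M F :=
    ⟨fun x => (Algebra.IsAlgebraic.isAlgebraic (R := K) x).tower_top M⟩
  have tLM : IsScalarTower L M F := IsScalarTower.of_algebraMap_eq fun c => rfl
  obtain ⟨e1, wM, h1⟩ := Pool.Agent.W73.PG.PULL.exists_over' (K := M) (resPl L w)
  obtain ⟨e2, v', h2⟩ := Pool.Agent.W73.PG.PULL.exists_over' (K := K) wM
  have he2 := unram_fin hS hSgen h2
  subst he2
  have h3 : w.ord s = e1 * wM.ord ⟨s, hsM s (Finset.mem_singleton_self s)⟩ :=
    h1.2 ⟨s, hsM s (Finset.mem_singleton_self s)⟩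
  rw [hs] at h3
  have he1 : (e1 : ℤ) = 1 := Int.eq_one_of_dvd_one (by positivity) ⟨_, h3⟩
  obtain ⟨t, ht0, ht⟩ := v'.surj
  have h4 : w.ord (algebraMap K F t) = 1 := by
    have h5 : w.ord (algebraMap K F t) = e1 * wM.ord (algebraMap K M t) :=
      h1.2 (algebraMap K M t)
    rw [h5, he1, h2.2, ht]
    simp
  rw [h.2] at h4
  have h5 := Int.eq_one_of_dvd_one (by positivity : (0 : ℤ) ≤ e) ⟨_, h4.symm⟩
  exact_mod_cast h5

end

end Pool.Agent.N133.OB
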