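import Pool.Agent.N133.OB4

/-! Prime divisors of the total space and of the geometric generic fibre. -/

set_option autoImplicit false
set_option linter.overlappingInstances false
set_option linter.unusedSectionVars false

open FF Pool.Agent.W619.PQ Pool.Agent.Y174

namespace Pool.Agent.N133.OB

open Pool.Agent.W603.LV

section

variable {k K : Type*} [Field k] [Field K] [Algebra k K]

theorem red_aeval (w : Place k K) {a : ℕ} {y : Fin a → K} (hy : ∀ i, w.Reg (y i))
    (p : MvPolynomial (Fin a) k) : w.Reg (MvPolynomial.aeval y p) ∧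
      w.red (MvPolynomial.aeval y p) = MvPolynomial.aeval (fun i => w.red (y i)) p := by
  induction p using MvPolynomial.induction_on with
  | C c =>
    rw [MvPolynomial.aeval_C, MvPolynomial.aeval_C]
    exact ⟨w.reg_const c, rfl⟩
  | add p q hp hq =>
    rw [map_add, map_add, w.red_add hp.1 hq.1, hp.2, hq.2]
    exact ⟨w.reg_add hp.1 hq.1, rfl⟩
  | mul_X p i hp =>
    rw [map_mul, map_mul, MvPolynomial.aeval_X, MvPolynomial.aeval_X, w.red_mul hp.1 (hy i), hp.2]
    exact ⟨w.reg_mul hp.1 (hy i), rfl⟩

theorem resInd_reg {w : Place k K} {a : ℕ} {y : Fin a → K} (h : ResInd w y) (i : Fin a) :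
    w.Reg (y i) := by
  have h1 := h (MvPolynomial.X i) (MvPolynomial.X_ne_zero i)
  rw [MvPolynomial.aeval_X] at h1
  exact Or.inr h1.2.ge

theorem resInd_iff (w : Place k K) {a : ℕ} (y : Fin a → K) :
    ResInd w y ↔ (∀ i, w.Reg (y i)) ∧ AlgebraicIndependent k (fun i => w.red (y i)) := by
  constructor
  · intro h
    refine ⟨resInd_reg h, (injective_iff_map_eq_zero _).2 fun p hp => ?_⟩
    by_contra hp0
    obtain ⟨h1, h2⟩ := h p hp0
    have h3 := red_aeval w (resInd_reg h) p
    exact w.red_ne_zero h1 h2 (h3.2.trans hp)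
  · rintro ⟨h1, h2⟩ p hp
    have h3 := red_aeval w h1 p
    have h4 : w.red (MvPolynomial.aeval y p) ≠ 0 := by
      rw [h3.2]
      exact fun h0 => hp ((injective_iff_map_eq_zero _).1 h2 p h0)
    rw [Ne, w.red_eq_zero_iff h3.1] at h4
    push Not at h4
    exact ⟨h4.1, le_antisymm h4.2 ((w.reg_iff h4.1).1 h3.1)⟩

end

section

variable {L K Λ F : Type*} [Field L] [Field K] [Field Λ] [Field F] [Algebra L K]
  [Algebra L Λ] [Algebra Λ F] [Algebra K F] [Algebra L F] [IsScalarTower L Λ F]
  [IsScalarTower L K F]

/-- prime divisors over the total space which dominate the base restrict to prime divisors over the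
geometric generic fibre -/
theorem resInd_fib [Algebra.IsAlgebraic L Λ] {v : Place L K} {w : Place Λ F}
    (h : ∀ f, w.ord (algebraMap K F f) = v.ord f) {a : ℕ} {y : Fin a → K} (hy : ResInd v y) :
    ResInd w (fun i => algebraMap K F (y i)) := by
  have hreg : ∀ i, w.Reg (algebraMap K F (y i)) := by
    intro i
    rcases resInd_reg hy i with h1 | h1
    · left
      rw [h1, map_zero]
    · right
      rwa [h]
  rw [resInd_iff]
  refine ⟨hreg, ?_⟩
  let iA : Algebra L w.RF := ((algebraMap Λ w.RF).comp (algebraMap L Λ)).toAlgebra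
  have hT : IsScalarTower L Λ w.RF := IsScalarTower.of_algebraMap_eq fun _ => rfl
  have h1 : AlgebraicIndependent L (fun i => w.red (algebraMap K F (y i))) := by
    refine (injective_iff_map_eq_zero _).2 fun p hp => ?_
    by_contra hp0
    obtain ⟨h1, h2⟩ := hy p hp0
    have h3 : MvPolynomial.aeval (fun i => w.red (algebraMap K F (y i))) p =
        MvPolynomial.aeval (fun i => w.red (algebraMap K F (y i)))
          (MvPolynomial.map (algebraMap L Λ) p) := by
      rw [MvPolynomial.aeval_map_algebraMap]
    have h4 : MvPolynomial.aeval (fun i => algebraMap K F (y i))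
        (MvPolynomial.map (algebraMap L Λ) p) = algebraMap K F (MvPolynomial.aeval y p) := by
      rw [MvPolynomial.aeval_map_algebraMap]
      exact MvPolynomial.aeval_algebraMap_apply F y p
    have h5 := (red_aeval w hreg (MvPolynomial.map (algebraMap L Λ) p)).2
    rw [h4] at h5
    refine w.red_ne_zero (f := algebraMap K F (MvPolynomial.aeval y p)) ?_ ?_ ?_
    · rw [Ne, map_eq_zero]
      exact h1
    · rw [h, h2]
    · rw [h5, ← h3]
      exact hp
  exact h1.extendScalars Λ

end

section

variable {k L K : Type} [Field k] [Field L] [Field K] [Algebra k L] [Algebra k K] [Algebra L K]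
  [IsScalarTower k L K]

/-- a place which is trivial on the base -/
def trivPl (P : Place k K) (h : ∀ c : L, c ≠ 0 → P.ord (algebraMap L K c) = 0) : Place L K where
  ord := P.ord
  ord_zero := P.ord_zero
  ord_mul := P.ord_mul
  ord_add := P.ord_add
  ord_const := fun {c} hc => h c hc
  surj := P.surj

theorem trivPl_ord (P : Place k K) (h : ∀ c : L, c ≠ 0 → P.ord (algebraMap L K c) = 0) (f : K) :
    (trivPl P h).ord f = P.ord f := rfl

/-- a prime divisor over the total space which dominates the base is divisorial over the base -/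
theorem div_triv {d r : ℕ} (hL : Algebra.trdeg k L = d) {P : Place k K}
    (hP : IsDivisorial P (d + (r + 1)))
    (h : ∀ c : L, c ≠ 0 → P.ord (algebraMap L K c) = 0) : IsDivisorial (trivPl P h) (r + 1) := by
  classical
  obtain ⟨u, hu⟩ : ∃ u : Fin (d + r) → K, ResInd P u := hP
  let v := trivPl P h
  let iA : Algebra k v.RF := ((algebraMap L v.RF).comp (algebraMap k L)).toAlgebra
  have hT : IsScalarTower k L v.RF := IsScalarTower.of_algebraMap_eq fun _ => rfl
  have hreg0 : ∀ i, P.Reg (u i) := resInd_reg hu
  have hreg : ∀ i, v.Reg (u i) := fun i => hreg0 i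
  have h1 : AlgebraicIndependent k (fun i => v.red (u i)) := by
    refine (injective_iff_map_eq_zero _).2 fun p hp => ?_
    by_contra hp0
    obtain ⟨h1, h2⟩ := hu p hp0
    have h3 : MvPolynomial.aeval (fun i => v.red (u i)) p =
        MvPolynomial.aeval (fun i => v.red (u i)) (MvPolynomial.map (algebraMap k L) p) := by
      rw [MvPolynomial.aeval_map_algebraMap]
    have h4 : MvPolynomial.aeval u (MvPolynomial.map (algebraMap k L) p) =
        MvPolynomial.aeval u p := by
      rw [MvPolynomial.aeval_map_algebraMap]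
    have h5 := (red_aeval v hreg (MvPolynomial.map (algebraMap k L) p)).2
    rw [h4] at h5
    refine v.red_ne_zero (f := MvPolynomial.aeval u p) h1 h2 ?_
    rw [h5, ← h3]
    exact hp
  -- the transcendence degree of the residue field
  have h2 : ((d + r : ℕ) : Cardinal) ≤ Algebra.trdeg k v.RF := by
    have := h1.cardinalMk_le_trdeg
    simpa using this
  have h3 := trdeg_add_eq k L (A := v.RF)
  rw [← h3, hL] at h2
  have h4 : (r : Cardinal) ≤ Algebra.trdeg L v.RF := by
    push_cast at h2
    rw [add_comm (d : Cardinal), add_comm (d : Cardinal)] at h2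
    exact (Cardinal.add_le_add_iff_of_lt_aleph0 (Cardinal.natCast_lt_aleph0)).1 h2
  obtain ⟨ι, z, hz⟩ := exists_isTranscendenceBasis' L v.RF
  rw [← hz.cardinalMk_eq_trdeg] at h4
  have h5 : Nonempty (Fin r ↪ ι) := by
    rw [← Cardinal.mk_fin] at h4
    exact h4
  obtain ⟨e⟩ := h5
  choose yy hy1 hy2 using fun i : Fin r => v.red_surjective (z (e i))
  refine ⟨yy, (resInd_iff v yy).2 ⟨hy1, ?_⟩⟩
  have h6 : (fun i => v.red (yy i)) = z ∘ e := funext hy2
  rw [h6]
  exact hz.1.comp e e.injective

end

end Pool.Agent.N133.OB
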