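import Pool.Agent.N133.OB5
import Pool.Agent.Y174.B4
import Pool.Agent.Y172.Cov1

/-! Descent of bounds for the orders from the geometric generic fibre to the total space. -/

set_option autoImplicit false
set_option linter.overlappingInstances false
set_option linter.unusedSectionVars false

open FF IntermediateField Pool.Agent.W619.PQ Pool.Agent.Y174

namespace Pool.Agent.N133.OB

open Pool.Agent.W603.LV

section

variable {L K M : Type} [Field L] [CharZero L] [Field K] [Field M] [Algebra L K] [Algebra L M]
  [Algebra K M] [IsScalarTower L K M] [FiniteDimensional K M] [IsGalois K M]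

theorem trace_bound {S : Set M} (hS : ∀ s ∈ S, IsAlgebraic L s)
    (hgen : IntermediateField.adjoin K S = ⊤) {v : Place L K} {c : ℝ} {z : M}
    (hz : ∀ u : Place L M, (∀ f, u.ord (algebraMap K M f) = v.ord f) → GeR u c z) :
    GeR v c (Algebra.trace K M z) := by
  classical
  obtain ⟨u, e, hu⟩ := Pool.Agent.Y172.exists_above (L := M) v
  have he := unram_fin hS hgen hu
  subst he
  have hu1 : ∀ f, u.ord (algebraMap K M f) = v.ord f := fun f => by
    rw [hu.2]
    simp
  have h1 : GeR u c (algebraMap K M (Algebra.trace K M z)) := by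
    rw [trace_eq_sum_automorphisms]
    refine GeR.sum _ _ _ fun σ _ => ?_
    have h2 := hz (u.comp (σ.restrictScalars L)) (fun f => by
      rw [Place.comp_ord]
      change u.ord (σ (algebraMap K M f)) = _
      rw [σ.commutes, hu1])
    exact GeR.comp.1 h2
  rcases h1 with h1 | h1
  · left
    exact (map_eq_zero _).1 h1
  · right
    rwa [hu1] at h1

/-- a basis which consists of constants -/
theorem exists_const_basis {S : Set M} (hS : ∀ s ∈ S, IsAlgebraic L s)
    (hgen : IntermediateField.adjoin K S = ⊤) :
    ∃ (N : ℕ) (b : Module.Basis (Fin N) K M), ∀ i, IsAlgebraic L (b i) := by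
  classical
  let C : Set M := {s : M | IsAlgebraic L s}
  have h1 : Submodule.span K C = ⊤ := by
    have h2 : (Submonoid.closure S : Set M) ⊆ C := by
      intro x hx
      induction hx using Submonoid.closure_induction with
      | mem x hx => exact hS x hx
      | one => exact isAlgebraic_one
      | mul x y _ _ hx hy => exact hx.mul hy
    have h3 : (IntermediateField.adjoin K S).toSubalgebra = Algebra.adjoin K S :=
      IntermediateField.adjoin_toSubalgebra_of_isAlgebraic fun x _ =>
        Algebra.IsAlgebraic.isAlgebraic x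
    rw [eq_top_iff]
    intro x _
    have h4 : x ∈ Algebra.adjoin K S := by
      rw [← h3, hgen]
      trivial
    rw [← Subalgebra.mem_toSubmodule, Algebra.adjoin_eq_span] at h4
    exact Submodule.span_mono h2 h4
  obtain ⟨B, hBC, hB1, hB2⟩ := exists_linearIndependent K C
  have hB3 : ⊤ ≤ Submodule.span K (Set.range ((↑) : B → M)) := by
    rw [Subtype.range_coe, hB1, h1]
  let b := Module.Basis.mk hB2 hB3
  have hfin : Finite B := hB2.finite
  have := Fintype.ofFinite B
  refine ⟨Fintype.card B, b.reindex (Fintype.equivFin B), fun i => ?_⟩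
  rw [Module.Basis.reindex_apply, Module.Basis.mk_apply]
  exact hBC ((Fintype.equivFin B).symm i).2

/-- **The coordinates with respect to a basis of constants.** -/
theorem coef_bound {S : Set M} (hS : ∀ s ∈ S, IsAlgebraic L s)
    (hgen : IntermediateField.adjoin K S = ⊤) {N : ℕ} (b : Module.Basis (Fin N) K M)
    (hb : ∀ i, IsAlgebraic L (b i)) {v : Place L K} {c : ℝ} {z : M}
    (hz : ∀ u : Place L M, (∀ f, u.ord (algebraMap K M f) = v.ord f) → GeR u c z) (j : Fin N) :
    GeR v c (b.equivFun z j) := by
  classical
  let C : IntermediateField L K := algebraicClosure L K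
  have hT0 : ∀ i j, Algebra.traceMatrix K b i j ∈ C := by
    intro i j
    change Algebra.trace K M (b i * b j) ∈ C
    rw [mem_algebraicClosure_iff]
    have h1 : IsIntegral L (b i * b j) := ((hb i).mul (hb j)).isIntegral
    exact (Algebra.isIntegral_trace (L := K) h1).isAlgebraic
  let T : Matrix (Fin N) (Fin N) C := Matrix.of fun i j => ⟨_, hT0 i j⟩
  have hT : T.map (algebraMap C K) = Algebra.traceMatrix K b := by
    ext i j
    rfl
  have hdet : T.det ≠ 0 := by
    intro h0
    apply Algebra.discr_not_zero_of_basis K b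
    rw [Algebra.discr_def, ← hT]
    have := RingHom.map_det (algebraMap C K) T
    rw [h0, map_zero] at this
    exact this.symm
  have h1 : T⁻¹ * T = 1 := Matrix.nonsing_inv_mul T (isUnit_iff_ne_zero.2 hdet)
  have h2 : (T⁻¹).map (algebraMap C K) * Algebra.traceMatrix K b = 1 := by
    rw [← hT, ← Matrix.map_mul, h1, Matrix.map_one _ (map_zero _) (map_one _)]
  have h3 : b.equivFun z = Matrix.mulVec ((T⁻¹).map (algebraMap C K))
      fun i => Algebra.trace K M (z * b i) := by
    rw [← Algebra.traceMatrix_of_basis_mulVec, Matrix.mulVec_mulVec, h2, Matrix.one_mulVec]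
  rw [h3]
  change GeR v c (∑ i, (T⁻¹).map (algebraMap C K) j i * Algebra.trace K M (z * b i))
  refine GeR.sum _ _ _ fun i _ => ?_
  have h4 : GeR v 0 ((T⁻¹).map (algebraMap C K) j i) := by
    right
    have h5 : IsAlgebraic L ((T⁻¹).map (algebraMap C K) j i) :=
      mem_algebraicClosure_iff.1 (T⁻¹ j i).2
    rw [ord_alg v h5]
    simp
  have h5 : GeR v c (Algebra.trace K M (z * b i)) := by
    refine trace_bound hS hgen fun u hu => ?_
    have h6 := hz u hu
    have h7 : GeR u 0 (b i) := by
      right
      rw [ord_alg u (hb i)]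
      simp
    have h8 := h6.mul h7
    rwa [add_zero] at h8
  have h6 := h4.mul h5
  rwa [zero_add] at h6

end

section

variable {L K Λ F : Type} [Field L] [CharZero L] [Field K] [Field Λ] [Field F] [Algebra L K]
  [Algebra L Λ] [Algebra Λ F] [Algebra K F] [Algebra L F] [IsScalarTower L Λ F]
  [IsScalarTower L K F]

/-- **Descent.** Two functions on the geometric generic fibre are combinations, with constant
coefficients, of functions on the total space which satisfy the same bounds at all places. -/
theorem exists_descent [IsAlgClosed Λ] [Algebra.IsAlgebraic L Λ]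
    (hgen : IntermediateField.adjoin Λ (Set.range (algebraMap K F)) = ⊤) (T : Finset F) :
    ∃ (N : ℕ) (β : Fin N → Λ) (p : F → Fin N → K),
      (∀ a ∈ T, a = ∑ j, algebraMap K F (p a j) * algebraMap Λ F (β j)) ∧
      ∀ a ∈ T, ∀ (v : Place L K) (c : ℝ), (∀ w : Place Λ F,
        (∀ f, w.ord (algebraMap K F f) = v.ord f) → GeR w c a) → ∀ j, GeR v c (p a j) := by
  classical
  obtain ⟨M, hfin, hgal, hTM, S, hS, hSgen⟩ := exists_galois (L := L) hgen T
  obtain ⟨N, b, hb⟩ := exists_const_basis hS hSgen
  have tLM : IsScalarTower L M F := IsScalarTower.of_algebraMap_eq fun c => rfl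
  have hgenM : IntermediateField.adjoin Λ (Set.range (algebraMap M F)) = ⊤ := by
    rw [eq_top_iff, ← hgen]
    refine IntermediateField.adjoin.mono _ _ _ ?_
    rintro _ ⟨x, rfl⟩
    exact ⟨algebraMap K M x, rfl⟩
  -- the constants of `F`
  have hconst : ∀ x : F, IsAlgebraic L x → ∃ c : Λ, algebraMap Λ F c = x := by
    intro x hx
    have h1 : IsAlgebraic Λ x := hx.tower_top Λ
    have h2 := IsAlgClosed.degree_eq_one_of_irreducible Λ (minpoly.irreducible h1.isIntegral)
    exact minpoly.mem_range_of_degree_eq_one Λ x h2
  choose β hβ using fun j => hconst (b j : F) ((hb j).algebraMap)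
  refine ⟨N, β, fun a j => if h : a ∈ M then b.equivFun ⟨a, h⟩ j else 0, fun a ha => ?_,
    fun a ha v c hw j => ?_⟩
  · have haM := hTM a ha
    have h1 := congrArg (algebraMap M F) (b.sum_equivFun ⟨a, haM⟩)
    rw [map_sum] at h1
    have h2 : algebraMap M F ⟨a, haM⟩ = a := rfl
    rw [h2] at h1
    refine h1.symm.trans (Finset.sum_congr rfl fun j _ => ?_)
    have hp : (if h : a ∈ M then b.equivFun ⟨a, h⟩ j else 0) = b.equivFun ⟨a, haM⟩ j :=
      dif_pos haM
    beta_reduce
    rw [hp, hβ, Algebra.smul_def, map_mul]
    congr 1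
  · have haM := hTM a ha
    have hp : (if h : a ∈ M then b.equivFun ⟨a, h⟩ j else 0) = b.equivFun ⟨a, haM⟩ j :=
      dif_pos haM
    beta_reduce
    rw [hp]
    refine coef_bound hS hSgen b hb (fun u hu => ?_) j
    obtain ⟨w, hw'⟩ := exists_fib_place (L := L) (K := M) hgenM u
    have h1 := hw w fun f => by
      rw [IsScalarTower.algebraMap_apply K M F, hw', hu]
    rcases h1 with h1 | h1
    · left
      exact Subtype.ext h1
    · right
      rw [← hw']
      exact h1

end

end Pool.Agent.N133.OB
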