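import Pool.Agent.Y172.Dim2
import Pool.Agent.Y172.Dim4
import Pool.Agent.N133.OB5

/-! The field of the ratios of the sections of the multiples of `K_X + Δ`. -/

set_option autoImplicit false
set_option linter.overlappingInstances false
set_option linter.unusedSectionVars false

open FF Pool.Agent.W602.GT Pool.Agent.W603.LV Pool.Agent.W619.PQ Pool.Agent.Y172

namespace Pool.Agent.N133.OB

section

variable {K : Type} [Field K] [Algebra ℂ K] {n N : ℕ} {y : Fin (N + 1) → K}

/-- The ratios of the sections of the multiples of `K_X + Δ`: the functions `f` such that both `η`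
and `f η` are sections of `m (K_X + Δ)`, for some `m ≥ 1` and some nonzero `η`. -/
def Ratio (y : Fin (N + 1) → K) (n : ℕ) (Δ : Place ℂ K → ℚ) : Set K :=
  {f | ∃ m : ℕ, 1 ≤ m ∧ ∃ η : (Fin n → Derivation ℂ K K) → K, IsSection y n m (m • Δ) η ∧ η ≠ 0 ∧
    IsSection y n m (m • Δ) (fun E => f * η E)}

theorem mul_ne_zero_form (hn : Algebra.trdeg ℂ K = n) {m m' : ℕ}
    {ω ω' : (Fin n → Derivation ℂ K K) → K} (h : IsPluri m ω) (h' : IsPluri m' ω') (h0 : ω ≠ 0)
    (h0' : ω' ≠ 0) : (fun E => ω E * ω' E) ≠ 0 := by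
  obtain ⟨x, E, hx, hE⟩ := exists_crd hn
  have hfr : IsFrame E := fun G =>
    ⟨fun j => G (x j), (Pool.Agent.W73.PG.PULL.expand x hx E hE G).symm⟩
  intro hc
  have h1 : ω E * ω' E = 0 := congrFun hc E
  rcases mul_eq_zero.1 h1 with h2 | h2
  · exact h0 (pluri_zero hfr h h2)
  · exact h0' (pluri_zero hfr h' h2)

theorem sec_mul {m m' : ℕ} {Δ : Place ℂ K → ℚ} {ω ω' : (Fin n → Derivation ℂ K K) → K}
    (h : IsSection y n m (m • Δ) ω) (h' : IsSection y n m' (m' • Δ) ω') :
    IsSection y n (m + m') ((m + m') • Δ) (fun E => ω E * ω' E) := by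
  rw [add_smul]
  exact h.mul h'

theorem sec_add {m : ℕ} {D : Place ℂ K → ℚ} {ω ω' : (Fin n → Derivation ℂ K K) → K}
    (h : IsSection y n m D ω) (h' : IsSection y n m D ω') : IsSection y n m D (ω + ω') :=
  (secSub y n m D).add_mem h h'

theorem sec_smul {m : ℕ} {D : Place ℂ K → ℚ} {ω : (Fin n → Derivation ℂ K K) → K}
    (h : IsSection y n m D ω) (c : ℂ) : IsSection y n m D (c • ω) :=
  (secSub y n m D).smul_mem c h

theorem ratio_mul (hn : Algebra.trdeg ℂ K = n) {Δ : Place ℂ K → ℚ} {f g : K}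
    (hf : f ∈ Ratio y n Δ) (hg : g ∈ Ratio y n Δ) : f * g ∈ Ratio y n Δ := by
  obtain ⟨m, hm, η, h1, h2, h3⟩ := hf
  obtain ⟨m', hm', θ, h1', h2', h3'⟩ := hg
  refine ⟨m + m', by omega, fun E => η E * θ E, sec_mul h1 h1', mul_ne_zero_form hn h1.1 h1'.1 h2 h2',
    ?_⟩
  have := sec_mul h3 h3'
  have e : (fun E => f * g * (η E * θ E)) = fun E => f * η E * (g * θ E) := by
    funext E
    ring
  rw [e]
  exact this

theorem ratio_add (hn : Algebra.trdeg ℂ K = n) {Δ : Place ℂ K → ℚ} {f g : K}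
    (hf : f ∈ Ratio y n Δ) (hg : g ∈ Ratio y n Δ) : f + g ∈ Ratio y n Δ := by
  obtain ⟨m, hm, η, h1, h2, h3⟩ := hf
  obtain ⟨m', hm', θ, h1', h2', h3'⟩ := hg
  refine ⟨m + m', by omega, fun E => η E * θ E, sec_mul h1 h1', mul_ne_zero_form hn h1.1 h1'.1 h2 h2',
    ?_⟩
  have := sec_add (sec_mul h3 h1') (sec_mul h1 h3')
  have e : (fun E => (f + g) * (η E * θ E)) =
      (fun E => f * η E * θ E) + (fun E => η E * (g * θ E)) := by
    funext E
    simp only [Pi.add_apply]
    ring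
  rw [e]
  exact this

theorem ratio_inv (hn : Algebra.trdeg ℂ K = n) {Δ : Place ℂ K → ℚ} {f : K}
    (hf : f ∈ Ratio y n Δ) : f⁻¹ ∈ Ratio y n Δ := by
  by_cases hf0 : f = 0
  · rw [hf0, inv_zero, ← hf0]
    exact hf
  obtain ⟨m, hm, η, h1, h2, h3⟩ := hf
  refine ⟨m, hm, fun E => f * η E, h3, ?_, ?_⟩
  · intro hc
    apply h2
    funext E
    have h4 : f * η E = 0 := congrFun hc E
    exact (mul_eq_zero.1 h4).resolve_left hf0
  · have e : (fun E => f⁻¹ * (f * η E)) = η := by
      funext E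
      rw [inv_mul_cancel_left₀ hf0]
    rw [e]
    exact h1

theorem ratio_const {Δ : Place ℂ K → ℚ} {f : K} (hf : f ∈ Ratio y n Δ) (c : ℂ) :
    algebraMap ℂ K c ∈ Ratio y n Δ := by
  obtain ⟨m, hm, η, h1, h2, h3⟩ := hf
  refine ⟨m, hm, η, h1, h2, ?_⟩
  have := sec_smul h1 c
  have e : (fun E => algebraMap ℂ K c * η E) = c • η := by
    funext E
    rw [Pi.smul_apply, Algebra.smul_def]
  rw [e]
  exact this

/-- the ratios form a field -/
theorem ratio_adjoin (hn : Algebra.trdeg ℂ K = n) {Δ : Place ℂ K → ℚ} {f0 : K}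
    (hf0 : f0 ∈ Ratio y n Δ) {x : K} (hx : x ∈ IntermediateField.adjoin ℂ (Ratio y n Δ)) :
    x ∈ Ratio y n Δ := by
  induction hx using IntermediateField.adjoin_induction with
  | mem x hx => exact hx
  | algebraMap c => exact ratio_const hf0 c
  | add x y _ _ h1 h2 => exact ratio_add hn h1 h2
  | inv x _ h1 => exact ratio_inv hn h1
  | mul x y _ _ h1 h2 => exact ratio_mul hn h1 h2

/-- a nonzero section gives a ratio -/
theorem ratio_one {Δ : Place ℂ K → ℚ} {m : ℕ} (hm : 1 ≤ m) {η : (Fin n → Derivation ℂ K K) → K}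
    (h : IsSection y n m (m • Δ) η) (h0 : η ≠ 0) : (1 : K) ∈ Ratio y n Δ := by
  refine ⟨m, hm, η, h, h0, ?_⟩
  simp only [one_mul]
  exact h

/-- finitely many ratios with a common denominator -/
theorem ratio_common (hn : Algebra.trdeg ℂ K = n) {Δ : Place ℂ K → ℚ} {f0 : K}
    (hf0 : f0 ∈ Ratio y n Δ) {d : ℕ} {f : Fin d → K} (hf : ∀ i, f i ∈ Ratio y n Δ) :
    ∃ m : ℕ, 1 ≤ m ∧ ∃ η : (Fin n → Derivation ℂ K K) → K, IsSection y n m (m • Δ) η ∧ η ≠ 0 ∧
      ∀ i, IsSection y n m (m • Δ) (fun E => f i * η E) := by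
  induction d with
  | zero =>
    obtain ⟨m, hm, η, h1, h2, -⟩ := hf0
    exact ⟨m, hm, η, h1, h2, fun i => i.elim0⟩
  | succ d ih =>
    obtain ⟨m, hm, η, h1, h2, h3⟩ := ih (f := fun i => f i.succ) fun i => hf i.succ
    obtain ⟨m', hm', θ, h1', h2', h3'⟩ := hf 0
    refine ⟨m + m', by omega, fun E => η E * θ E, sec_mul h1 h1',
      mul_ne_zero_form hn h1.1 h1'.1 h2 h2', fun i => ?_⟩
    refine Fin.cases ?_ (fun i => ?_) i
    · have := sec_mul h1 h3'
      have e : (fun E => f 0 * (η E * θ E)) = fun E => η E * (f 0 * θ E) := by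
        funext E
        ring
      rw [e]
      exact this
    · have := sec_mul (h3 i) h1'
      have e : (fun E => f i.succ * (η E * θ E)) = fun E => f i.succ * η E * θ E := by
        funext E
        ring
      rw [e]
      exact this

/-- a prime divisor at which some function that is algebraic over the ratios is not a unit is in the
zero divisor of a section, more than in the fixed part -/
theorem exists_vanishing (hn : Algebra.trdeg ℂ K = n) {Δ : Place ℂ K → ℚ} {f0 : K}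
    (hf0 : f0 ∈ Ratio y n Δ) {P : Place ℂ K} (hP : IsPrimeDivisor y P) {x : K}
    (hx : IsAlgebraic (IntermediateField.adjoin ℂ (Ratio y n Δ)) x) (hxP : P.ord x ≠ 0) :
    ∃ m : ℕ, 1 ≤ m ∧ ∃ s : (Fin n → Derivation ℂ K K) → K, IsSection y n m (m • Δ) s ∧ s ≠ 0 ∧
      OrdGe P s (-(m * Δ P) + 1) := by
  have h1 : ∃ f ∈ Ratio y n Δ, f ≠ 0 ∧ P.ord f ≠ 0 := by
    by_contra hcon
    push Not at hcon
    apply hxP
    have h2 : ∀ c : IntermediateField.adjoin ℂ (Ratio y n Δ), c ≠ 0 →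
        P.ord (algebraMap (IntermediateField.adjoin ℂ (Ratio y n Δ)) K c) = 0 := by
      intro c hc
      exact hcon c (ratio_adjoin hn hf0 c.2) (fun h => hc (Subtype.ext h))
    exact ord_alg (trivPl P h2) hx
  obtain ⟨f, hf, hfne, hfP⟩ := h1
  obtain ⟨g, hg, hgne, hgP⟩ : ∃ g ∈ Ratio y n Δ, g ≠ 0 ∧ 1 ≤ P.ord g := by
    rcases lt_or_gt_of_ne hfP with h | h
    · refine ⟨f⁻¹, ratio_inv hn hf, inv_ne_zero hfne, ?_⟩
      rw [P.ord_inv]
      omega
    · exact ⟨f, hf, hfne, by omega⟩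
  obtain ⟨m, hm, η, h1, h2, h3⟩ := hg
  refine ⟨m, hm, fun E => g * η E, h3, ?_, ?_⟩
  · intro hc
    apply h2
    funext E
    have h4 : g * η E = 0 := congrFun hc E
    exact (mul_eq_zero.1 h4).resolve_left hgne
  · intro E hE
    rcases h1.2 P hP E hE with h4 | h4
    · left
      change g * η E = 0
      rw [h4, mul_zero]
    by_cases h5 : η E = 0
    · left
      change g * η E = 0
      rw [h5, mul_zero]
    right
    change _ ≤ ((P.ord (g * η E) : ℤ) : ℚ)
    rw [P.ord_mul hgne h5]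
    rw [Pi.smul_apply, nsmul_eq_mul] at h4
    have h6 : (1 : ℚ) ≤ P.ord g := by exact_mod_cast hgP
    push_cast
    linarith

/-- **A section which vanishes along finitely many prime divisors that do not dominate the base.** -/
theorem exists_kill (hn : Algebra.trdeg ℂ K = n) {Δ : Place ℂ K → ℚ} {f0 : K}
    (hf0 : f0 ∈ Ratio y n Δ) (B : Finset (Place ℂ K)) (hB : ∀ P ∈ B, IsPrimeDivisor y P)
    (hx : ∀ P ∈ B, ∃ x : K, IsAlgebraic (IntermediateField.adjoin ℂ (Ratio y n Δ)) x ∧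
      P.ord x ≠ 0) (k : Place ℂ K → ℕ) :
    ∃ m : ℕ, 1 ≤ m ∧ ∃ s : (Fin n → Derivation ℂ K K) → K, IsSection y n m (m • Δ) s ∧ s ≠ 0 ∧
      ∀ P ∈ B, OrdGe P s (-(m * Δ P) + k P) := by
  classical
  induction B using Finset.induction_on with
  | empty =>
    obtain ⟨m, hm, η, h1, h2, -⟩ := hf0
    exact ⟨m, hm, η, h1, h2, fun P hP => absurd hP (Finset.notMem_empty P)⟩
  | insert P B hPB ih =>
    obtain ⟨m, hm, s, h1, h2, h3⟩ := ih (fun Q hQ => hB Q (Finset.mem_insert_of_mem hQ))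
      fun Q hQ => hx Q (Finset.mem_insert_of_mem hQ)
    obtain ⟨x, hx1, hx2⟩ := hx P (Finset.mem_insert_self _ _)
    have hP := hB P (Finset.mem_insert_self _ _)
    obtain ⟨m', hm', s', h1', h2', h3'⟩ := exists_vanishing hn hf0 hP hx1 hx2
    -- the power of `s'`
    have key : ∀ t : ℕ, ∃ s'' : (Fin n → Derivation ℂ K K) → K,
        IsSection y n (m + t * m') ((m + t * m') • Δ) s'' ∧ s'' ≠ 0 ∧
        OrdGe P s'' (-((m + t * m' : ℕ) * Δ P) + t) ∧
        ∀ Q ∈ B, OrdGe Q s'' (-((m + t * m' : ℕ) * Δ Q) + k Q) := by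
      intro t
      induction t with
      | zero =>
        refine ⟨s, ?_, h2, ?_, fun Q hQ => ?_⟩
        · rw [Nat.zero_mul, Nat.add_zero]
          exact h1
        · refine (h1.2 P hP).mono (le_of_eq ?_)
          rw [Pi.smul_apply, nsmul_eq_mul]
          push_cast
          ring
        · refine (h3 Q hQ).mono (le_of_eq ?_)
          push_cast
          ring
      | succ t iht =>
        obtain ⟨s'', g1, g2, g3, g4⟩ := iht
        have e1 : m + t * m' + m' = m + (t + 1) * m' := by ring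
        refine ⟨fun E => s'' E * s' E, ?_, mul_ne_zero_form hn g1.1 h1'.1 g2 h2', ?_,
          fun Q hQ => ?_⟩
        · have := sec_mul g1 h1'
          rw [e1] at this
          exact this
        · refine (g3.mul h3').mono (le_of_eq ?_)
          push_cast
          ring
        · refine ((g4 Q hQ).mul (h1'.2 Q (hB Q (Finset.mem_insert_of_mem hQ)))).mono
            (le_of_eq ?_)
          rw [Pi.smul_apply, nsmul_eq_mul]
          push_cast
          ring
    obtain ⟨s'', g1, g2, g3, g4⟩ := key (k P)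
    refine ⟨m + k P * m', by omega, s'', g1, g2, fun Q hQ => ?_⟩
    rcases Finset.mem_insert.1 hQ with rfl | hQ
    · exact g3
    · exact g4 Q hQ

end

end Pool.Agent.N133.OB
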