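import Pool.Agent.N133.OB6
import Pool.Agent.N133.OB7
import Pool.Agent.Y174.V5

/-! The sections over the geometric generic fibre along the prime divisors which dominate the base. -/

set_option autoImplicit false
set_option linter.overlappingInstances false
set_option linter.unusedSectionVars false

universe u v

open FF IntermediateField Pool.Agent.W619.PQ Pool.Agent.W619.PL Pool.Agent.W619.TW
  Pool.Agent.W603.LV Pool.Agent.W619.Y Pool.Agent.W824.PG Pool.Agent.Y174

namespace Pool.Agent.N133.OB

section

variable {k : Type v} {L K : Type u} [Field k] [CharZero k] [Field L] [Field K] [Algebra k L]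
  [Algebra k K] [Algebra L K] [IsScalarTower k L K]

/-- The coordinates at a place which is trivial on the base. -/
theorem frame_fib (hess : Algebra.EssFiniteType k K) {d r : ℕ}
    (hn : Algebra.trdeg k K = (d + (r + 1) : ℕ)) {v : Place L K} {t : Fin d → L}
    (ht : AlgebraicIndependent k t) {y : Fin r → K} (hy' : ResInd v y) {s : K} (hs : v.ord s = 1) :
    ∃ (E : Fin (d + (r + 1)) → Derivation k K K),
      (∀ i, v.Reg ((Fin.cons s y : Fin (r + 1) → K) i)) ∧
      IsTranscendenceBasis k (Fin.append (algebraMap L K ∘ t) (Fin.cons s y)) ∧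
      (∀ i j, E i (Fin.append (algebraMap L K ∘ t) (Fin.cons s y) j) = if i = j then 1 else 0) ∧
      ∀ i, Pres (resPl k v) (E i) := by
  classical
  have hy2 := hy'.append ht
  obtain ⟨h1, E, hE, hP⟩ := Pool.Agent.Y173.QA.frame_of (k := k) (K := K) (m := d + r) hn
    (fun y hy => fin_adj hess y hy) (resPl k v) (s := s) hs (y' := Fin.append (algebraMap L K ∘ t) y)
    hy2
  let σ : Fin (d + (r + 1)) → Fin (d + (r + 1)) := Fin.addCases
    (fun c => (Fin.castAdd r c).succ) (fun j => Fin.cases 0 (fun j' => (Fin.natAdd d j').succ) j)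
  have hσ1 : ∀ c, σ (Fin.castAdd (r + 1) c) = (Fin.castAdd r c).succ := fun c => by
    simp only [σ, Fin.addCases_left]
  have hσ2 : σ (Fin.natAdd d 0) = 0 := by
    simp only [σ, Fin.addCases_right, Fin.cases_zero]
  have hσ3 : ∀ j : Fin r, σ (Fin.natAdd d j.succ) = (Fin.natAdd d j).succ := fun j => by
    simp only [σ, Fin.addCases_right, Fin.cases_succ]
  have hσcomp : (Fin.cons s (Fin.append (algebraMap L K ∘ t) y) : Fin (d + r + 1) → K) ∘ σ =
      Fin.append (algebraMap L K ∘ t) (Fin.cons s y) := by
    funext i
    refine Fin.addCases (fun c => ?_) (fun j => ?_) i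
    · rw [Function.comp_apply, hσ1, Fin.cons_succ, Fin.append_left, Fin.append_left]
    · refine Fin.cases ?_ (fun j => ?_) j
      · rw [Function.comp_apply, hσ2, Fin.cons_zero, Fin.append_right, Fin.cons_zero]
      · rw [Function.comp_apply, hσ3, Fin.cons_succ, Fin.append_right, Fin.append_right,
          Fin.cons_succ]
  have hσinj : Function.Injective σ := by
    intro i j
    refine Fin.addCases (fun c => ?_) (fun a => ?_) i
    · refine Fin.addCases (fun c' => ?_) (fun a' => ?_) j
      · rw [hσ1, hσ1]
        intro h
        have h2 := Fin.castAdd_injective d r (Fin.succ_injective _ h)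
        rw [h2]
      · refine Fin.cases ?_ (fun a' => ?_) a'
        · rw [hσ1, hσ2]
          intro h
          exact absurd h (Fin.succ_ne_zero _)
        · rw [hσ1, hσ3]
          intro h
          have h2 := congrArg Fin.val (Fin.succ_injective _ h)
          simp only [Fin.val_castAdd, Fin.val_natAdd] at h2
          omega
    · refine Fin.cases ?_ (fun a => ?_) a
      · refine Fin.addCases (fun c' => ?_) (fun a' => ?_) j
        · rw [hσ1, hσ2]
          intro h
          exact absurd h.symm (Fin.succ_ne_zero _)
        · refine Fin.cases ?_ (fun a' => ?_) a'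
          · intro _; rfl
          · rw [hσ2, hσ3]
            intro h
            exact absurd h.symm (Fin.succ_ne_zero _)
      · refine Fin.addCases (fun c' => ?_) (fun a' => ?_) j
        · rw [hσ1, hσ3]
          intro h
          have h2 := congrArg Fin.val (Fin.succ_injective _ h)
          simp only [Fin.val_castAdd, Fin.val_natAdd] at h2
          omega
        · refine Fin.cases ?_ (fun a' => ?_) a'
          · rw [hσ2, hσ3]
            intro h
            exact absurd h (Fin.succ_ne_zero _)
          · rw [hσ3, hσ3]
            intro h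
            have h2 := Fin.natAdd_injective r d (Fin.succ_injective _ h)
            rw [h2]
  have hσbij : Function.Bijective σ := Finite.injective_iff_bijective.1 hσinj
  refine ⟨fun i => E (σ i), ?_, ?_, ?_, fun i => hP _⟩
  · intro i
    refine Fin.cases ?_ (fun j => ?_) i
    · rw [Fin.cons_zero]
      exact Or.inr (by omega)
    · rw [Fin.cons_succ]
      have h2 := hy' (MvPolynomial.X j) (MvPolynomial.X_ne_zero _)
      rw [MvPolynomial.aeval_X] at h2
      exact Or.inr h2.2.ge
  · rw [← hσcomp]
    exact h1.comp_equiv (Equiv.ofBijective σ hσbij)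
  · intro i j
    rw [← hσcomp, Function.comp_apply, hE]
    by_cases h : i = j
    · rw [if_pos h, if_pos (by rw [h])]
    · rw [if_neg h, if_neg fun h' => h (hσinj h')]

end

section

variable {k L K Λ F : Type} [Field k] [CharZero k] [Field L] [Field K] [Field Λ]
  [Field F] [Algebra k L] [Algebra k K] [Algebra L K] [IsScalarTower k L K] [Algebra L Λ]
  [Algebra Λ F] [Algebra K F] [Algebra L F] [IsScalarTower L Λ F] [IsScalarTower L K F]
  [Algebra k Λ] [Algebra k F] [IsScalarTower k Λ F] [IsScalarTower k K F]
  [IsScalarTower k L Λ]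

/-- **The sections over the geometric generic fibre at the places over a prime divisor which dominates
the base.** -/
theorem fib_sec_bound [IsAlgClosed Λ] [Algebra.IsAlgebraic L Λ] (hess : Algebra.EssFiniteType k K)
    (hgenF : IntermediateField.adjoin Λ (Set.range (algebraMap K F)) = ⊤)
    {d r : ℕ} (hL : Algebra.trdeg k L = d) (hn : Algebra.trdeg k K = (d + (r + 1) : ℕ))
    {t : Fin d → L} (ht : IsTranscendenceBasis k t) {x : Fin (r + 1) → K}
    (hx : IsTranscendenceBasis L x) {E' : Fin (r + 1) → Derivation Λ F F}
    (hE' : ∀ i j, E' i (algebraMap K F (x j)) = if i = j then 1 else 0)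
    {v : Place L K} {y : Fin r → K} (hy : ResInd v y) {s : K} (hs : v.ord s = 1)
    {E : Fin (d + (r + 1)) → Derivation k K K}
    (hbas : IsTranscendenceBasis k (Fin.append (algebraMap L K ∘ t) (Fin.cons s y)))
    (hE : ∀ i j, E i (Fin.append (algebraMap L K ∘ t) (Fin.cons s y) j) = if i = j then 1 else 0)
    {δ' : Place Λ F → ℝ} {m : ℕ} {ω : (Fin (r + 1) → Derivation Λ F F) → F}
    (hω : PairSec Λ F (r + 1) δ' {1} m 0 ω) {w : Place Λ F}
    (hw : ∀ f, w.ord (algebraMap K F f) = v.ord f)
    (hJ : (Matrix.of fun a b => E a
      ((Fin.append (algebraMap L K ∘ t) x : Fin (d + (r + 1)) → K) b)).det ≠ 0) :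
    GeR w (-(m * δ' w) - m * v.ord (Matrix.of fun a b => E a
      ((Fin.append (algebraMap L K ∘ t) x : Fin (d + (r + 1)) → K) b)).det) (ω E') := by
  classical
  have hL0 : CharZero L := charZero_of_injective_algebraMap (algebraMap k L).injective
  have hΛ0 : CharZero Λ := charZero_of_injective_algebraMap (algebraMap k Λ).injective
  have halg : Algebra.IsAlgebraic K F := alg_KF (L := L) hgenF
  have hLK := trdeg_LK (L := L) hL hn
  have htrF := trdeg_F hLK hgenF
  have hessF : Algebra.EssFiniteType Λ F := ess_F hess hgenF
  have hyF : ResInd w (fun i => algebraMap K F (y i)) := resInd_fib hw hy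
  have hwdiv : IsDivisorial w (r + 1) := ⟨_, hyF⟩
  obtain ⟨hb, G, hG, hGP⟩ := Pool.Agent.Y173.QA.frame_of (k := Λ) (K := F) (m := r) htrF
    (fun y hy => fin_adj hessF y hy) w (s := algebraMap K F s) (by rw [hw, hs]) hyF
  -- the matrix of the change of the coordinates
  have hbx := basis_F hLK hgenF hx
  have h1 : ω G = (Matrix.of fun a b => G a (algebraMap K F (x b))).det ^ m * ω E' := by
    have h2 := hω.1 (Matrix.of fun a b => G a (algebraMap K F (x b))) E'
    rw [← h2]
    congr 1
    funext a
    exact (Pool.Agent.W73.PG.PULL.expand _ hbx E' hE' (G a)).symm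
  have h3 : ∀ a b, G a (algebraMap K F (x b)) = algebraMap K F (E (Fin.natAdd d a) (x b)) := by
    intro a b
    have h4 := Pool.Agent.W73.PG.PULL.chain _ hbas E hE ((G a).restrictScalars k) (x b)
    refine h4.trans ?_
    rw [Fin.sum_univ_add, Finset.sum_eq_zero, zero_add, Finset.sum_eq_single a]
    · rw [Fin.append_right]
      have h5 : ((G a).restrictScalars k) (algebraMap K F ((Fin.cons s y : Fin (r + 1) → K) a)) =
          1 := by
        have h6 := hG a a
        rw [if_pos rfl] at h6
        refine Eq.trans ?_ h6
        change G a _ = G a _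
        congr 1
        refine Fin.cases ?_ (fun i => ?_) a
        · rw [Fin.cons_zero, Fin.cons_zero]
        · rw [Fin.cons_succ, Fin.cons_succ]
      rw [h5, one_mul]
    · intro c _ hc
      rw [Fin.append_right]
      have h5 : ((G a).restrictScalars k) (algebraMap K F ((Fin.cons s y : Fin (r + 1) → K) c)) =
          0 := by
        have h6 := hG a c
        rw [if_neg (Ne.symm hc)] at h6
        refine Eq.trans ?_ h6
        change G a _ = G a _
        congr 1
        refine Fin.cases ?_ (fun i => ?_) c
        · rw [Fin.cons_zero, Fin.cons_zero]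
        · rw [Fin.cons_succ, Fin.cons_succ]
      rw [h5, zero_mul]
    · intro h
      exact absurd (Finset.mem_univ a) h
    · intro c _
      rw [Fin.append_left]
      change G a (algebraMap K F (algebraMap L K (t c))) * _ = 0
      rw [← IsScalarTower.algebraMap_apply L K F, IsScalarTower.algebraMap_apply L Λ F,
        Derivation.map_algebraMap, zero_mul]
  obtain ⟨J, hJdef⟩ : ∃ J : K, J = (Matrix.of fun a b => E a
      ((Fin.append (algebraMap L K ∘ t) x : Fin (d + (r + 1)) → K) b)).det := ⟨_, rfl⟩
  have h4 : (Matrix.of fun a b => G a (algebraMap K F (x b))).det = algebraMap K F J := by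
    have h5 := det_append (t := algebraMap L K ∘ t) x
      (G := fun i : Fin d => E (Fin.castAdd (r + 1) i)) (D := fun i => E (Fin.natAdd d i))
      (fun i j => by
        have h6 := hE (Fin.castAdd (r + 1) i) (Fin.castAdd (r + 1) j)
        rw [Fin.append_left] at h6
        rw [h6]
        by_cases hij : i = j
        · rw [if_pos hij, if_pos (by rw [hij])]
        · rw [if_neg hij, if_neg fun h => hij (Fin.castAdd_injective d (r + 1) h)])
      (fun i j => by
        have h6 := hE (Fin.natAdd d i) (Fin.castAdd (r + 1) j)
        rw [Fin.append_left] at h6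
        rw [h6, if_neg]
        intro h
        have := congrArg Fin.val h
        simp only [Fin.val_natAdd, Fin.val_castAdd] at this
        omega)
    rw [Fin.append_castAdd_natAdd] at h5
    rw [hJdef, h5]
    have h6 : (Matrix.of fun a b => G a (algebraMap K F (x b))) =
        (algebraMap K F).mapMatrix (Matrix.of fun i j => E (Fin.natAdd d i) (x j)) := by
      ext a b
      exact h3 a b
    rw [h6, ← RingHom.map_det]
  rw [← hJdef] at hJ ⊢
  have hJF : algebraMap K F J ≠ 0 := by simpa using hJ
  rcases hω.2 w hwdiv G (fun l f hf => hGP l f hf) with h5 | ⟨c, hc, hc0, hle⟩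
  · left
    rw [h1, h4] at h5
    exact (mul_eq_zero.1 h5).resolve_left (pow_ne_zero _ hJF)
  by_cases h6 : ω E' = 0
  · exact Or.inl h6
  right
  rw [h1, h4, w.ord_mul (pow_ne_zero _ hJF) h6, w.ord_pow, hw] at hle
  push_cast at hle
  rw [zero_mul, zero_sub] at hle
  linarith

/-- the matrix of a change of coordinates is invertible -/
theorem det_change {K : Type} [Field K] [Algebra k K] {n : ℕ} (z z' : Fin n → K)
    (hz : IsTranscendenceBasis k z) (hz' : IsTranscendenceBasis k z')
    {E : Fin n → Derivation k K K} (hE : ∀ i j, E i (z j) = if i = j then 1 else 0) :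
    (Matrix.of fun a b => E a (z' b)).det ≠ 0 := by
  classical
  obtain ⟨E', hE'⟩ := Pool.Agent.W636.PG.exists_duals k K n z' hz'
  have h1 : (Matrix.of fun a c => E' a (z c)) * (Matrix.of fun a b => E a (z' b)) = 1 := by
    ext a b
    rw [Matrix.mul_apply, Matrix.one_apply, ← hE' a b]
    conv_rhs => rw [← Pool.Agent.W73.PG.PULL.expand z hz E hE (E' a)]
    rw [Pool.Agent.W721.PG.EFF2.der_sum]
    rfl
  intro h0
  have h2 := congrArg Matrix.det h1
  rw [Matrix.det_mul, h0, mul_zero, Matrix.det_one] at h2
  exact zero_ne_one h2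

end

end Pool.Agent.N133.OB
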