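import Pool.Agent.N133.OB8
import Pool.Agent.N133.OB1

/-! The geometric generic fibre of the Iitaka fibration. -/

set_option autoImplicit false
set_option linter.overlappingInstances false
set_option linter.unusedSectionVars false

open FF IntermediateField Pool.Agent.W602.GT Pool.Agent.W619.PQ Pool.Agent.W619.PL
  Pool.Agent.W619.TW Pool.Agent.W603.LV Pool.Agent.W619.Y Pool.Agent.W824.PG Pool.Agent.Y172
  Pool.Agent.Y174

namespace Pool.Agent.N133.OB

section

variable {L K Λ F : Type} [Field L] [Field K] [Field Λ]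
  [Field F] [Algebra ℂ L] [Algebra ℂ K] [Algebra L K] [IsScalarTower ℂ L K] [Algebra L Λ]
  [Algebra Λ F] [Algebra K F] [Algebra L F] [IsScalarTower L Λ F] [IsScalarTower L K F]
  [Algebra ℂ Λ] [Algebra ℂ F] [IsScalarTower ℂ Λ F] [IsScalarTower ℂ K F]
  [IsScalarTower ℂ L Λ] {N : ℕ} {y : Fin (N + 1) → K}

/-- the form of degree `m` with the coefficient `a` in the coordinates `Z` -/
def formOf {n : ℕ} (Z : Fin n → K) (m : ℕ) (a : K) (D : Fin n → Derivation ℂ K K) : K :=
  a * (Matrix.of fun i b => D i (Z b)).det ^ m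

theorem isPluri_formOf {n : ℕ} (Z : Fin n → K) (m : ℕ) (a : K) : IsPluri m (formOf Z m a) := by
  intro A D
  have e : (Matrix.of fun i b => (∑ j, A i j • D j) (Z b)) =
      A * Matrix.of fun i b => D i (Z b) := by
    ext i b
    rw [Matrix.of_apply, Matrix.mul_apply, Pool.Agent.W721.PG.EFF2.der_sum]
    rfl
  show a * (Matrix.of fun i b => (∑ j, A i j • D j) (Z b)).det ^ m = _
  rw [e, Matrix.det_mul, mul_pow]
  unfold formOf
  ring

theorem hor_bound [IsAlgClosed Λ] [Algebra.IsAlgebraic L Λ] (hess : Algebra.EssFiniteType ℂ K)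
    (hgenF : IntermediateField.adjoin Λ (Set.range (algebraMap K F)) = ⊤)
    {d r : ℕ} (hL : Algebra.trdeg ℂ L = d) (hn : Algebra.trdeg ℂ K = (d + (r + 1) : ℕ))
    (hy : NormalModel y) {Δ : Place ℂ K → ℚ} (hΔ : Effective y Δ)
    {t : Fin d → L} (ht : IsTranscendenceBasis ℂ t) {x : Fin (r + 1) → K}
    (hx : IsTranscendenceBasis L x) {E' : Fin (r + 1) → Derivation Λ F F}
    (hE' : ∀ i j, E' i (algebraMap K F (x j)) = if i = j then 1 else 0)
    {δ : Place ℂ K → ℝ} (hδ : ∀ P, IsPrimeDivisor y P → δ P = Δ P)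
    {δ' : Place Λ F → ℝ} (hδ' : IsPullFib δ δ') {m : ℕ}
    {ω : (Fin (r + 1) → Derivation Λ F F) → F} (hω : PairSec Λ F (r + 1) δ' {1} m 0 ω)
    {p : K} (hp : ∀ (v : Place L K) (c : ℝ), (∀ w : Place Λ F,
        (∀ f, w.ord (algebraMap K F f) = v.ord f) → GeR w c (ω E')) → GeR v c p)
    {P : Place ℂ K} (hP : IsPrimeDivisor y P)
    (hPL : ∀ c : L, c ≠ 0 → P.ord (algebraMap L K c) = 0) :
    OrdGe P (formOf (Fin.append (algebraMap L K ∘ t) x) m p) (-(m * Δ P)) := by
  classical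
  have hL0 : CharZero L := charZero_of_injective_algebraMap (algebraMap ℂ L).injective
  have hdiv : IsDivisorial P (d + (r + 1)) := hP.divisorial hy hn
  obtain ⟨u, hu⟩ : ∃ u : Fin r → K, ResInd (trivPl P hPL) u := div_triv hL hdiv hPL
  obtain ⟨s, hs0, hs⟩ := P.surj
  have hs' : (trivPl P hPL).ord s = 1 := hs
  obtain ⟨E, hreg, hbas, hE, hPres⟩ := frame_fib (k := ℂ) hess hn ht.1 hu hs'
  have hZ := basis_append ht hx
  have hJ := det_change _ _ hbas hZ hE
  obtain ⟨J, hJdef⟩ : ∃ J : K, J = (Matrix.of fun a b => E a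
      ((Fin.append (algebraMap L K ∘ t) x : Fin (d + (r + 1)) → K) b)).det := ⟨_, rfl⟩
  -- the bound for the coefficient
  have h1 : GeR (trivPl P hPL) (-(m * (Δ P : ℝ)) - m * (trivPl P hPL).ord J) p := by
    refine hp _ _ fun w hw => ?_
    have h2 := fib_sec_bound (k := ℂ) hess hgenF hL hn ht hx hE' hu hs' hbas hE hω hw hJ
    have h3 : δ' w = Δ P := by
      have h4 : LiesFib w P 1 := ⟨Nat.one_pos, fun f => by
        rw [hw f, Nat.cast_one, one_mul]
        rfl⟩
      rw [hδ' P w 1 h4, hδ P hP]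
      have h5 : (0 : ℝ) ≤ (Δ P : ℝ) := by exact_mod_cast hΔ.1 P hP
      rw [Nat.cast_one, one_mul, sub_sub_cancel, max_eq_right h5]
    rw [h3, ← hJdef] at h2
    exact h2
  have hl : Loc P (Fin.append (algebraMap L K ∘ t) (Fin.cons s u)) E (Fin.natAdd d 0) :=
    { bas := hbas
      dual := hE
      unif := by
        rw [Fin.append_right, Fin.cons_zero]
        exact hs
      reg := fun i => by
        refine Fin.addCases (fun c => ?_) (fun j => ?_) i
        · rw [Fin.append_left]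
          change P.Reg (algebraMap L K (t c))
          by_cases h0 : t c = 0
          · left
            rw [h0, map_zero]
          · right
            rw [hPL _ h0]
        · rw [Fin.append_right]
          exact hreg j
      pres := fun i f hf => hPres i f hf }
  rw [ordGe_iff hl (isPluri_formOf _ m p)]
  have h2 : formOf (Fin.append (algebraMap L K ∘ t) x) m p E = p * J ^ m := by
    unfold formOf
    rw [← hJdef]
  rw [h2]
  rw [← hJdef] at hJ
  rcases h1 with h1 | h1
  · left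
    rw [h1, zero_mul]
  by_cases hp0 : p = 0
  · left
    rw [hp0, zero_mul]
  right
  rw [P.ord_mul hp0 (pow_ne_zero _ hJ), P.ord_pow]
  have h3 : (-(m * (Δ P : ℝ)) - m * (P.ord J : ℝ)) ≤ (P.ord p : ℝ) := h1
  have h4 : ((-(m * Δ P) : ℚ) : ℝ) ≤ ((P.ord p + m * P.ord J : ℤ) : ℝ) := by
    push_cast
    linarith
  have h5 : ((P.ord p + m * P.ord J : ℤ) : ℝ) = ((P.ord p + m * P.ord J : ℤ) : ℚ) := by
    push_cast
    ring
  rw [h5] at h4
  exact_mod_cast h4

/-- some order of vanishing -/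
theorem exists_ordGe {n : ℕ} [Algebra.EssFiniteType ℂ K] (hn : Algebra.trdeg ℂ K = n)
    (hy : NormalModel y) {P : Place ℂ K} (hP : IsPrimeDivisor y P) {m : ℕ}
    {ω : (Fin n → Derivation ℂ K K) → K} (hω : IsPluri m ω) :
    ∃ c : ℕ, OrdGe P ω (-(c : ℚ)) := by
  obtain ⟨yP, EP, i0, hl⟩ := exists_loc hn (hP.divisorial hy hn)
  refine ⟨(P.ord (ω EP)).natAbs, (ordGe_iff hl hω).2 (Or.inr ?_)⟩
  have : -((P.ord (ω EP)).natAbs : ℤ) ≤ P.ord (ω EP) := by omega
  exact_mod_cast this

end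

end Pool.Agent.N133.OB
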