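import Pool.Agent.W602.GT.KPsef
import Pool.Agent.W602.GT.KGen

/-!
Log canonical divisors with fractional boundaries on function fields (helper133).

`c P` is the coefficient of the boundary at the prime divisor `P`.
-/

set_option autoImplicit false

open FF IntermediateField Pool.Agent.W603.LV Pool.Agent.W602.GT

namespace Pool.Agent.N133.PC

variable {k K : Type} [Field k] [Field K] [Algebra k K]

/-- `f` is zero, or its order at `P` is at least `j` times the order of some nonzero element of
`S`, minus `r`: at `P`, `f` is a section of `j A` with a pole of order at most `r`, where `A` is the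
divisor, on suitable models, which is generated by the elements of `S`. -/
def TwRegC (P : Place k K) (S : Finset K) (j : ℕ) (r : ℚ) (f : K) : Prop :=
  f = 0 ∨ ∃ s ∈ S, s ≠ 0 ∧ (j : ℚ) * (P.ord s : ℚ) - r ≤ (P.ord f : ℚ)

variable (k K)

/-- `ω` is a section of `N (K_X + Δ) + j A`, where `c P ≤ 1` is the coefficient of `Δ` at the prime
divisor `P`: its values on regular vector fields have poles of order at most `N (c P)` at `P`, and
its values on logarithmic vector fields are regular, as sections of `j A`. -/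
def SecC (w N : ℕ) (c : Place k K → ℚ) (S : Finset K) (j : ℕ)
    (ω : (Fin w → Derivation k K K) → K) : Prop :=
  IsPluri N ω ∧
  (∀ P : Place k K, Divisorial w P → ∀ D : Fin w → Derivation k K K, (∀ i, DerLog P (D i)) →
    TwReg P S j (ω D)) ∧
  ∀ P : Place k K, Divisorial w P → ∀ D : Fin w → Derivation k K K,
    (∀ i, DerReg P (D i)) → TwRegC P S j (N * c P) (ω D)

/-- `K_X + Δ` is pseudo-effective: there is a divisor `A`, generated by a finite set `S` of
functions, such that for every `N` some multiple `j (N (K_X + Δ) + A)` has a nonzero section. -/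
def PsefC (w : ℕ) (c : Place k K → ℚ) : Prop :=
  ∃ S : Finset K, ∀ N : ℕ, ∃ j : ℕ, 0 < j ∧ ∃ ω : (Fin w → Derivation k K K) → K,
    SecC k K w (j * N) c S j ω ∧ ∃ D, ω D ≠ 0

/-- The Kodaira dimension of `K_X + Δ` is at least `h`: for some `N > 0` there are sections of
`N (K_X + Δ)` whose ratios contain `h` algebraically independent functions. -/
def KodGeC (w : ℕ) (c : Place k K → ℚ) (h : ℕ) : Prop :=
  ∃ N : ℕ, 0 < N ∧ ∃ ω : Fin (h + 1) → (Fin w → Derivation k K K) → K,
    (∀ i, SecC k K w N c {1} 0 (ω i)) ∧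
    ∃ D, ω 0 D ≠ 0 ∧ AlgebraicIndependent k (fun i : Fin h => ω i.succ D / ω 0 D)

variable {k K}

theorem twReg_one {P : Place k K} {f : K} : TwReg P {1} 0 f ↔ P.Reg f := by
  unfold TwReg
  constructor
  · rintro (h | ⟨s, hs, hs0, h⟩)
    · rw [h]; exact P.reg_zero
    · by_cases hf : f = 0
      · rw [hf]; exact P.reg_zero
      · rw [Place.reg_iff _ hf]
        simpa using h
  · intro h
    by_cases hf : f = 0
    · exact Or.inl hf
    · refine Or.inr ⟨1, by simp, one_ne_zero, ?_⟩
      rw [Place.reg_iff _ hf] at h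
      simpa using h

theorem kodC_of_general {w : ℕ} (h : GeneralType k K w) {c : Place k K → ℚ} (hc : ∀ P, 0 ≤ c P) :
    KodGeC k K w c w := by
  obtain ⟨-, N, hN, ω, h1, h2, h3⟩ := h
  refine ⟨N, hN, ω, fun i => ⟨h1 i, fun P hP D hD => ?_, fun P hP D hD => ?_⟩, h3⟩
  · rw [twReg_one]
    refine h2 P hP i D fun l f hf => ?_
    by_cases h0 : f = 0
    · rw [h0, map_zero]
      exact P.reg_zero
    · have h3 := P.reg_mul (hD l f) hf
      rwa [div_mul_cancel₀ _ h0] at h3
  · have h4 := h2 P hP i D hD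
    by_cases h0 : ω i D = 0
    · exact Or.inl h0
    · refine Or.inr ⟨1, by simp, one_ne_zero, ?_⟩
      rw [Place.reg_iff _ h0] at h4
      have h5 : (0 : ℚ) ≤ (P.ord (ω i D) : ℚ) := by exact_mod_cast h4
      have h6 : (0 : ℚ) ≤ N * c P := mul_nonneg (by positivity) (hc P)
      simp only [Nat.cast_zero, zero_mul, zero_sub]
      linarith

theorem kodC_mono {w h h' : ℕ} (hh : h' ≤ h) {c : Place k K → ℚ} (hk : KodGeC k K w c h) :
    KodGeC k K w c h' := by
  obtain ⟨N, hN, ω, h1, D, hD, h2⟩ := hk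
  have h3 := h2.comp (Fin.castLE hh) (Fin.castLE_injective hh)
  refine ⟨N, hN, fun i => ω (Fin.castLE (by omega) i), fun i => h1 _, D, ?_, ?_⟩
  · exact hD
  · exact h3

/-- If a multiple of `K_X + Δ` is effective then `K_X + Δ` is pseudo-effective. -/
theorem psefC_of_kodC {w : ℕ} {c : Place k K → ℚ} (h : KodGeC k K w c 0) : PsefC k K w c := by
  classical
  obtain ⟨N0, hN0, ω, hω, D, hD, -⟩ := h
  refine ⟨{1}, fun N => ⟨N0, hN0, fun D' => ω 0 D' ^ N, ⟨?_, ?_, ?_⟩, D, pow_ne_zero _ hD⟩⟩
  · intro A D'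
    change ω 0 _ ^ N = _
    rw [(hω 0).1 A D', mul_pow, ← pow_mul]
  · intro P hP D' hD'
    by_cases h0 : ω 0 D' ^ N = 0
    · exact Or.inl h0
    · refine Or.inr ⟨1, by simp, one_ne_zero, ?_⟩
      rw [P.ord_one, mul_zero]
      have h1 := twReg_one.1 ((hω 0).2.1 P hP D' hD')
      exact ord_pow_nonneg P h1 h0
  · intro P hP D' hD'
    by_cases h0 : ω 0 D' ^ N = 0
    · exact Or.inl h0
    · refine Or.inr ⟨1, by simp, one_ne_zero, ?_⟩
      by_cases hN : N = 0
      · subst hN
        simp [P.ord_one]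
      have h1 := (hω 0).2.2 P hP D' hD'
      have h2 : ω 0 D' ≠ 0 := fun h3 => h0 (by rw [h3, zero_pow hN])
      rcases h1 with h1 | ⟨s, hs, hs0, h1⟩
      · exact absurd h1 h2
      · rw [Finset.mem_singleton] at hs
        subst hs
        rw [P.ord_one] at h1 ⊢
        rw [P.ord_pow]
        push_cast
        simp only [Nat.cast_zero, zero_mul, zero_sub, Int.cast_zero, mul_zero] at h1 ⊢
        have h3 : (0 : ℚ) ≤ N := by positivity
        nlinarith

/-- **Ruled fields.** Let `δ` be a derivation with `δ σ = σ` such that `K` is generated by `σ` over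
the constants of `δ`, and suppose that the coefficients of `Δ` at the places which are trivial on the
constants are zero if the order of `σ` is zero, and at most `c0 < 1` if it is positive. Then
`K_X + Δ` is not pseudo-effective. -/
theorem not_psefC [CharZero k] {w : ℕ} (htr : Algebra.trdeg k K = w) {cf : Place k K → ℚ}
    (δ : Derivation k K K) {σ : K}
    (hσ0 : σ ≠ 0) (hσ : δ σ = σ) (htop : (consts δ)⟮σ⟯ = ⊤) {c0 : ℚ} (hc0' : c0 < 1)
    (hcf0 : ∀ P : Place k K, (∀ c : K, δ c = 0 → c ≠ 0 → P.ord c = 0) → P.ord σ = 0 → cf P = 0)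
    (hcf1 : ∀ P : Place k K, (∀ c : K, δ c = 0 → c ≠ 0 → P.ord c = 0) → 0 < P.ord σ →
      cf P ≤ c0) :
    ¬ PsefC k K w cf := by
  classical
  obtain ⟨r, hr⟩ : ∃ r : ℕ, 1 ≤ (r : ℚ) * (1 - c0) := by
    have h1 : 0 < 1 - c0 := by linarith
    obtain ⟨r, hr⟩ := exists_nat_gt (1 / (1 - c0))
    refine ⟨r, ?_⟩
    rw [div_lt_iff₀ h1] at hr
    exact hr.le
  set C := consts δ with hC
  -- `σ` is transcendental over the constants
  have hσt : Transcendental C σ := by
    intro halg
    have h1 : Algebra.IsAlgebraic C K := by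
      have h2 : Algebra.IsAlgebraic C C⟮σ⟯ :=
        IntermediateField.isAlgebraic_adjoin_simple halg.isIntegral
      constructor
      intro z
      have h3 := h2.isAlgebraic (⟨z, by rw [htop]; exact IntermediateField.mem_top⟩ : C⟮σ⟯)
      exact h3.algebraMap (A := K)
    have h2 : Algebra.IsAlgebraic (IntermediateField.adjoin k (C : Set K)) K := by
      rw [IntermediateField.adjoin_self]
      exact h1
    have h3 := der_eq_zero δ _ h2 (fun s hs => hs)
    rw [h3] at hσ
    exact hσ0 hσ.symm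
  -- a transcendence basis
  obtain ⟨B, hB⟩ := exists_isTranscendenceBasis k C
  have hσb : IsTranscendenceBasis C (fun _ : Unit => σ) := by
    have h1 : AlgebraicIndependent C (fun _ : Unit => σ) :=
      (algebraicIndependent_unique_type_iff).2 hσt
    rw [h1.isTranscendenceBasis_iff_isAlgebraic]
    apply alg_adjoin
    have h2 : Set.range (fun _ : Unit => σ) = {σ} := by simp
    rw [h2, htop]
    infer_instance
  have hBσ := hB.sumElim_comp hσb
  have hcard := hBσ.cardinalMk_eq_trdeg
  rw [htr] at hcard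
  have hfin : Finite (Unit ⊕ B) := by
    rw [← Cardinal.lt_aleph0_iff_finite, hcard]
    exact Cardinal.natCast_lt_aleph0
  have hfinB : Finite B := Finite.of_injective (Sum.inr : B → Unit ⊕ B) Sum.inr_injective
  obtain ⟨m, ⟨φ⟩⟩ := Finite.exists_equiv_fin B
  obtain rfl : w = m + 1 := by
    have h1 : Cardinal.mk (Unit ⊕ B) = ((m + 1 : ℕ) : Cardinal) := by
      rw [Cardinal.mk_sum, Cardinal.mk_congr φ]
      simp [add_comm]
    rw [h1] at hcard
    exact_mod_cast hcard.symm
  let s : Fin m → C := fun l => (φ.symm l : C)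
  have hs : IsTranscendenceBasis k s := hB.comp_equiv φ.symm
  let x : Fin (m + 1) → K := Fin.cons σ (fun l => (s l : K))
  have hx : IsTranscendenceBasis k x := by
    let E : Fin (m + 1) ≃ Unit ⊕ B := (finSuccEquiv m).trans ((Equiv.optionEquivSumPUnit _).trans
      ((Equiv.sumComm _ _).trans (Equiv.sumCongr (Equiv.refl _) φ.symm)))
    have h1 := hBσ.comp_equiv E
    convert h1 using 1
    funext i
    refine Fin.cases ?_ (fun l => ?_) i
    · simp [x, E]
    · simp [x, E, s]
  have hx0 : ∀ l : Fin m, x l.succ = (s l : K) := fun l => rfl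
  -- the dual derivations
  have hDer : ∀ l : Fin m, ∃ D : Derivation k K K, D σ = 0 ∧
      ∀ j, D (s j : K) = if j = l then 1 else 0 := by
    intro l
    obtain ⟨D, hD⟩ := exists_der x hx (Fin.cons 0 fun j => if j = l then 1 else 0)
    exact ⟨D, hD 0, fun j => hD j.succ⟩
  choose Δ hΔσ hΔs using hDer
  let D : Fin (m + 1) → Derivation k K K := Fin.cons δ Δ
  have hδs : ∀ j, δ (s j : K) = 0 := fun j => (s j).2
  have hcomm : ∀ l c, δ c = 0 → δ (Δ l c) = 0 := by
    intro l c hc
    have h1 : ⁅Δ l, δ⁆ = 0 := by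
      apply der_ext x hx
      intro i
      rw [Derivation.commutator_apply, Derivation.zero_apply]
      refine Fin.cases ?_ (fun j => ?_) i
      · change Δ l (δ σ) - δ (Δ l σ) = 0
        rw [hσ, hΔσ, map_zero, sub_zero]
      · change Δ l (δ (s j : K)) - δ (Δ l (s j : K)) = 0
        rw [hδs, hΔs, map_zero, zero_sub, neg_eq_zero]
        split_ifs
        · exact δ.map_one_eq_zero
        · exact map_zero _
    have h2 := congrArg (fun d : Derivation k K K => d c) h1
    simp only [Derivation.commutator_apply, Derivation.zero_apply, hc, map_zero, zero_sub,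
      neg_eq_zero] at h2
    exact h2
  have hDC : ∀ i c, c ∈ C → D i c ∈ C := by
    intro i
    refine Fin.cases ?_ (fun l => ?_) i
    · intro c hc
      change δ c ∈ C
      have h1 : δ c = 0 := hc
      rw [h1]
      exact zero_mem C
    · intro c hc
      exact hcomm l c hc
  have hDσ : ∀ i, D i σ = 0 ∨ D i σ = σ := by
    intro i
    refine Fin.cases ?_ (fun l => ?_) i
    · exact Or.inr hσ
    · exact Or.inl (hΔσ l)
  -- the places of the two affine lines
  have hpl : ∀ τ : K, (τ = σ ∨ τ = σ⁻¹) → ∃ S : Set (Place k K),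
      (∀ P ∈ S, (∀ c : K, δ c = 0 → c ≠ 0 → P.ord c = 0) ∧ (∀ f ∈ Algebra.adjoin C {τ}, P.Reg f) ∧
        (∀ f, P.Reg f → ∃ a ∈ Algebra.adjoin C {τ}, ∃ b ∈ Algebra.adjoin C {τ},
          b ≠ 0 ∧ P.ord b = 0 ∧ f * b = a) ∧ (P.ord τ = 0 ∨ (P.ord τ = 1 ∧ ∀ i, DerLog P (D i))) ∧
        (∀ i, DerReg P (D i)) ∧ Divisorial (m + 1) P) ∧
      ∀ f, (∀ P ∈ S, P.Reg f) → f ∈ Algebra.adjoin C {τ} := by
    intro τ hτ
    have hτt : Transcendental C τ := by
      rcases hτ with rfl | rfl
      · exact hσt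
      · intro h
        apply hσt
        have := h.inv
        rwa [inv_inv] at this
    have hττ : C⟮τ⟯ = ⊤ := by
      rcases hτ with rfl | rfl
      · exact htop
      · rw [eq_top_iff, ← htop, IntermediateField.adjoin_simple_le_iff]
        have h1 := inv_mem (IntermediateField.mem_adjoin_simple_self C σ⁻¹)
        rwa [inv_inv] at h1
    have hDτ : ∀ i, D i τ / τ = 0 ∨ D i τ / τ = 1 ∨ D i τ / τ = -1 := by
      intro i
      rcases hτ with rfl | rfl
      · rcases hDσ i with h | h
        · left; rw [h, zero_div]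
        · right; left; rw [h, div_self hσ0]
      · rw [(D i).leibniz_inv]
        rcases hDσ i with h | h
        · left; rw [h, smul_zero, zero_div]
        · right; right
          rw [h, smul_eq_mul]
          field_simp
    have hτ0 : τ ≠ 0 := by
      rcases hτ with rfl | rfl
      · exact hσ0
      · exact inv_ne_zero hσ0
    obtain ⟨S, hS1, hS2⟩ := places C hτt hττ
    refine ⟨S, fun P hP => ?_, hS2⟩
    obtain ⟨hP1, hP2, hP3, hP4⟩ := hS1 P hP
    have hAD : ∀ i, ∀ f ∈ Algebra.adjoin C {τ}, D i f ∈ Algebra.adjoin C {τ} := by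
      intro i f hf
      induction hf using Algebra.adjoin_induction with
      | mem z hz =>
        rw [Set.mem_singleton_iff] at hz
        subst hz
        have hz := Algebra.self_mem_adjoin_singleton (R := C) z
        have h1 : D i z = (D i z / z) * z := by field_simp
        rw [h1]
        rcases hDτ i with h | h | h <;> rw [h]
        · rw [zero_mul]; exact Subalgebra.zero_mem _
        · rw [one_mul]; exact hz
        · rw [neg_one_mul]; exact Subalgebra.neg_mem _ hz
      | algebraMap r => exact (Algebra.adjoin C {τ}).algebraMap_mem (⟨_, hDC i _ r.2⟩ : C)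
      | add f g hf' hg' hf hg => rw [map_add]; exact Subalgebra.add_mem _ hf hg
      | mul f g hf' hg' hf hg =>
        rw [(D i).leibniz]
        exact Subalgebra.add_mem _ (Subalgebra.mul_mem _ hf' hg) (Subalgebra.mul_mem _ hg' hf)
    have hDreg : ∀ i, DerReg P (D i) := fun i => pl_reg (A := (Algebra.adjoin C {τ} : Set K))
      hP2 hP3 (hAD i)
    have hdiv : Divisorial (m + 1) P := by
      refine ⟨fun l => (s l : K), fun F hF => ?_⟩
      have h1 : MvPolynomial.aeval (fun l : Fin m => (s l : K)) F =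
          ((MvPolynomial.aeval s F : C) : K) := by
        have := MvPolynomial.comp_aeval_apply (IntermediateField.val C) (p := F) (f := s)
        exact this.symm
      have h2 : MvPolynomial.aeval s F ≠ 0 := by
        intro h0
        exact hF ((injective_iff_map_eq_zero _).1 hs.1 F h0)
      have h3 : ((MvPolynomial.aeval s F : C) : K) ≠ 0 := by
        intro h0
        exact h2 (Subtype.ext h0)
      constructor
      · change MvPolynomial.aeval (fun l : Fin m => (s l : K)) F ≠ 0
        rw [h1]; exact h3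
      · change P.ord (MvPolynomial.aeval (fun l : Fin m => (s l : K)) F) = 0
        rw [h1]
        exact hP1 _ (MvPolynomial.aeval s F).2 h3
    refine ⟨hP1, hP2, hP3, ?_, hDreg, hdiv⟩
    rcases hP4 with h | h
    · exact Or.inl h
    · refine Or.inr ⟨h, fun i => pl_log (hDreg i) h ?_⟩
      rcases hDτ i with h | h | h <;> rw [h]
      · exact P.reg_zero
      · exact P.reg_one
      · exact P.reg_neg P.reg_one
  have hττ : C⟮σ⁻¹⟯ = ⊤ := by
    rw [eq_top_iff, ← htop, IntermediateField.adjoin_simple_le_iff]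
    have h1 := inv_mem (IntermediateField.mem_adjoin_simple_self C σ⁻¹)
    rwa [inv_inv] at h1
  rintro ⟨S, hS⟩
  obtain ⟨q, hq, hq0, hqs⟩ := exists_denom C htop S
  obtain ⟨q', hq', hq'0, hqs'⟩ := exists_denom C hττ S
  obtain ⟨d, hd⟩ := adjoin_flip C (mul_inv_cancel₀ hσ0) hq
  obtain ⟨d', hd'⟩ := adjoin_flip C (inv_mul_cancel₀ hσ0) hq'
  obtain ⟨j, hj, ω, hω, D', hD'⟩ := hS (r * (d + d' + 1))
  set N := d + d' + 1 with hN
  -- the frame
  let M : Matrix (Fin (m + 1)) (Fin (m + 1)) K :=
    Matrix.of fun i => Fin.cons (D' i σ / σ) fun l => D' i (s l : K)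
  have hM : (fun i => ∑ l, M i l • D l) = D' := by
    funext i
    apply der_ext x hx
    intro q
    have h0 : ∀ (t : Finset (Fin (m + 1))) (c : Fin (m + 1) → K) (z : K),
        (∑ l ∈ t, c l • D l) z = ∑ l ∈ t, c l * D l z := by
      intro t c z
      induction t using Finset.induction_on with
      | empty => simp
      | insert l t hl ih =>
        rw [Finset.sum_insert hl, Finset.sum_insert hl, Derivation.add_apply, ih]
        rfl
    rw [h0, Fin.sum_univ_succ]
    refine Fin.cases ?_ (fun j => ?_) q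
    · change (D' i σ / σ) * δ σ + ∑ l : Fin m, D' i (s l : K) * Δ l σ = D' i σ
      rw [hσ, Finset.sum_eq_zero fun l _ => by rw [hΔσ, mul_zero]]
      field_simp
      ring
    · change (D' i σ / σ) * δ (s j : K) + ∑ l : Fin m, D' i (s l : K) * Δ l (s j : K) = D' i (s j : K)
      rw [hδs, mul_zero, zero_add]
      simp only [hΔs, mul_ite, mul_one, mul_zero]
      rw [Finset.sum_ite_eq Finset.univ j]
      simp
  have hf0 : ω D ≠ 0 := by
    intro h0
    have h1 := hω.1 M D
    rw [hM, h0, mul_zero] at h1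
    exact hD' h1
  -- the affine line with coordinate `σ⁻¹`
  have hF2 : ω D * q' ^ j ∈ Algebra.adjoin C {σ⁻¹} := by
    obtain ⟨T, hT1, hT2⟩ := hpl σ⁻¹ (Or.inr rfl)
    apply hT2
    intro P hP
    obtain ⟨hP1, hP2, -, hP4, hDreg, hdiv⟩ := hT1 P hP
    refine twReg_mul (S := S) ?_ (fun s hs => hP2 _ (hqs' s hs)) hq'0
    rcases hP4 with h | h
    · have h3 := hω.2.2 P hdiv D hDreg
      rw [P.ord_inv] at h
      rw [hcf0 P hP1 (by omega), mul_zero] at h3
      rcases h3 with h3 | ⟨s, hs, hs0, h3⟩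
      · exact Or.inl h3
      · refine Or.inr ⟨s, hs, hs0, ?_⟩
        rw [sub_zero] at h3
        exact_mod_cast h3
    · exact hω.2.1 P hdiv D h.2
  -- the affine line with coordinate `σ`
  have hF1 : (σ⁻¹ ^ (j * N) * ω D) * q ^ j ∈ Algebra.adjoin C {σ} := by
    obtain ⟨T, hT1, hT2⟩ := hpl σ (Or.inl rfl)
    apply hT2
    intro P hP
    obtain ⟨hP1, hP2, hP3, hP4, hDreg, hdiv⟩ := hT1 P hP
    refine twReg_mul (S := S) ?_ (fun s hs => hP2 _ (hqs s hs)) hq0
    have hreg0 : DerReg P (σ⁻¹ • δ) := by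
      refine pl_reg (A := (Algebra.adjoin C {σ} : Set K)) hP2 hP3 ?_
      intro f hf
      change σ⁻¹ * δ f ∈ Algebra.adjoin C {σ}
      have hf' : f ∈ Algebra.adjoin C {σ} := hf
      clear hf
      induction hf' using Algebra.adjoin_induction with
      | mem z hz =>
        rw [Set.mem_singleton_iff] at hz
        subst hz
        rw [hσ, inv_mul_cancel₀ hσ0]
        exact Subalgebra.one_mem _
      | algebraMap r =>
        have h1 : δ (algebraMap C K r) = 0 := r.2
        rw [h1, mul_zero]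
        exact Subalgebra.zero_mem _
      | add f g hf' hg' hf hg => rw [map_add, mul_add]; exact Subalgebra.add_mem _ hf hg
      | mul f g hf' hg' hf hg =>
        have h1 : σ⁻¹ * δ (f * g) = f * (σ⁻¹ * δ g) + g * (σ⁻¹ * δ f) := by
          rw [δ.leibniz]
          simp only [smul_eq_mul]
          ring
        rw [h1]
        exact Subalgebra.add_mem _ (Subalgebra.mul_mem _ hf' hg) (Subalgebra.mul_mem _ hg' hf)
    let A : Matrix (Fin (m + 1)) (Fin (m + 1)) K := Matrix.diagonal (Fin.cons σ⁻¹ fun _ => 1)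
    have hA : A.det = σ⁻¹ := by
      rw [Matrix.det_diagonal, Fin.prod_univ_succ]
      simp
    have h1 := hω.1 A D
    rw [hA] at h1
    have hfin : TwRegC P S j ((j * (r * N) : ℕ) * cf P) (σ⁻¹ ^ (j * (r * N)) * ω D) → 
        TwReg P S j (σ⁻¹ ^ (j * N) * ω D) := by
      rintro (h2 | ⟨s, hs, hs0, h2⟩)
      · exact absurd h2 (mul_ne_zero (pow_ne_zero _ (inv_ne_zero hσ0)) hf0)
      · refine Or.inr ⟨s, hs, hs0, ?_⟩
        rw [P.ord_mul (pow_ne_zero _ (inv_ne_zero hσ0)) hf0, P.ord_pow, P.ord_inv] at h2 ⊢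
        rcases hP4 with h | h
        · rw [hcf0 P hP1 h, h, mul_zero] at h2
          rw [h]
          have h4 : (j : ℚ) * (P.ord s : ℚ) ≤ (P.ord (ω D) : ℚ) := by
            push_cast at h2
            linarith
          have h5 : (j : ℤ) * P.ord s ≤ P.ord (ω D) := by exact_mod_cast h4
          linarith
        · have h3 := hcf1 P hP1 (by omega)
          rw [h.1] at h2 ⊢
          have h4 : (j : ℚ) * (P.ord s : ℚ) ≤ (P.ord (ω D) : ℚ) - j * N := by
            push_cast at h2
            have h5 : (0 : ℚ) ≤ j * N := by positivity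
            have h6 : (0 : ℚ) ≤ j * (r * N) := by positivity
            have h7 : (j : ℚ) * (r * N) * cf P ≤ j * (r * N) * c0 :=
              mul_le_mul_of_nonneg_left h3 h6
            have h8 : (j : ℚ) * N * 1 ≤ j * N * (r * (1 - c0)) :=
              mul_le_mul_of_nonneg_left hr h5
            nlinarith
          have h5 : (j : ℤ) * P.ord s ≤ P.ord (ω D) - j * N := by exact_mod_cast h4
          push_cast
          linarith
    apply hfin
    rw [← h1]
    apply hω.2.2 P hdiv
    intro i
    have h3 : (∑ j, A i j • D j) = (Fin.cons σ⁻¹ fun _ => 1 : Fin (m + 1) → K) i • D i := by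
      rw [Finset.sum_eq_single i]
      · simp [A]
      · intro j _ hj
        simp [A, Matrix.diagonal_apply_ne _ hj.symm]
      · intro h
        exact absurd (Finset.mem_univ _) h
    rw [h3]
    refine Fin.cases ?_ (fun l => ?_) i
    · exact hreg0
    · simp only [Fin.cons_succ, one_smul]
      exact hDreg _
  -- comparison
  have hσm := Algebra.self_mem_adjoin_singleton C σ
  have hτm := Algebra.self_mem_adjoin_singleton C σ⁻¹
  set c : K := ω D * q ^ j * q' ^ j * σ⁻¹ ^ (d * j) with hc
  have hc0 : c ≠ 0 := mul_ne_zero (mul_ne_zero (mul_ne_zero hf0 (pow_ne_zero _ hq0))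
    (pow_ne_zero _ hq'0)) (pow_ne_zero _ (inv_ne_zero hσ0))
  have hc2 : c ∈ Algebra.adjoin C {σ⁻¹} := by
    have h1 : c = (ω D * q' ^ j) * (q * σ⁻¹ ^ d) ^ j := by
      rw [hc, mul_pow, ← pow_mul]
      ring
    rw [h1]
    exact Subalgebra.mul_mem _ hF2 (Subalgebra.pow_mem _ hd _)
  have hc1 : c * σ⁻¹ ^ j ∈ Algebra.adjoin C {σ} := by
    have h1 : c * σ⁻¹ ^ j = ((σ⁻¹ ^ (j * N) * ω D) * q ^ j) * (q' * σ ^ d') ^ j := by
      rw [hc, hN, mul_pow, ← pow_mul]
      have h2 : σ⁻¹ ^ (j * (d + d' + 1)) = σ⁻¹ ^ (d * j) * σ⁻¹ ^ (d' * j) * σ⁻¹ ^ j := by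
        rw [← pow_add, ← pow_add]
        congr 1
        ring
      have h3 : σ⁻¹ ^ (d' * j) * σ ^ (d' * j) = 1 := by
        rw [← mul_pow, inv_mul_cancel₀ hσ0, one_pow]
      rw [h2]
      linear_combination (-(ω D * q ^ j * q' ^ j * σ⁻¹ ^ (d * j) * σ⁻¹ ^ j)) * h3
    rw [h1]
    exact Subalgebra.mul_mem _ hF1 (Subalgebra.pow_mem _ hd' _)
  have hc3 : c * σ⁻¹ ^ j ∈ C :=
    adjoin_inter C hσt hc1 (Subalgebra.mul_mem _ hc2 (Subalgebra.pow_mem _ hτm _))
  have hc4 : c ∈ C := by
    refine adjoin_inter C hσt ?_ hc2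
    have h1 : c = c * σ⁻¹ ^ j * σ ^ j := by
      rw [mul_assoc, ← mul_pow, inv_mul_cancel₀ hσ0, one_pow, mul_one]
    rw [h1]
    exact Subalgebra.mul_mem _ hc1 (Subalgebra.pow_mem _ hσm _)
  have hc5 : σ⁻¹ ^ j ∈ C := by
    have h1 : σ⁻¹ ^ j = c⁻¹ * (c * σ⁻¹ ^ j) := by
      rw [← mul_assoc, inv_mul_cancel₀ hc0, one_mul]
    rw [h1]
    exact mul_mem (inv_mem hc4) hc3
  have hc6 : σ ^ j ∈ C := by
    have := inv_mem hc5
    rwa [inv_pow, inv_inv] at this
  have hc7 : δ (σ ^ j) = 0 := hc6
  rw [δ.leibniz_pow, hσ] at hc7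
  have hK : CharZero K := charZero_of_injective_algebraMap (algebraMap k K).injective
  have hc8 : (j : K) * (σ ^ (j - 1) * σ) = 0 := by
    rw [← hc7]
    simp [nsmul_eq_mul, smul_eq_mul]
  rcases mul_eq_zero.1 hc8 with h | h
  · have : j = 0 := by exact_mod_cast h
    omega
  · exact mul_ne_zero (pow_ne_zero _ hσ0) hσ0 h

end Pool.Agent.N133.PC
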