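import Pool.Agent.N133.PC2
import Pool.Agent.N133.NS

/-!
Kawamata log terminal pairs on nested systems (helper133).
-/

set_option autoImplicit false
set_option linter.overlappingInstances false

open FF Pool.Agent.W602.GT
open Pool.Agent.TH710.ND (NestedIn IsMono)
open Pool.Agent.TH710.NW (FunctionField)

namespace Pool.Agent.N133.PC

variable {n : ℕ} {ι : Type} {F : ι → MvPolynomial (Fin (n + 1)) ℂ}

theorem nested_klt [Finite ι] {s N h : ℕ}
    (hF : ∀ e, IsForm (F e) ∧ NestedIn IsMono s N h (F e))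
    (hN : (n + 1) * ((h + 1) * (2 * s + 1) ^ 5) ≤ N) (hirr : Pool.Agent.H159R3.GGL.Irred F)
    {K : Type} [Field K] [Algebra ℂ K] {w : ℕ} {y : Fin (n + 1) → K}
    (hy : FunctionField F K w y) {c : Place ℂ K → ℚ} {c0 : ℚ} (hc0 : c0 < 1)
    (hc : ∀ P, 0 ≤ c P) (h2 : ∀ P, c P ≤ c0)
    (h0 : ∀ P : Place ℂ K, (∀ j l, y j ≠ 0 → y l ≠ 0 → P.ord (y j) = P.ord (y l)) → c P = 0) :
    [PsefC ℂ K w c, KodGeC ℂ K w c 0, KodGeC ℂ K w c w, GeneralType ℂ K w,
      ∀ b : Fin (n + 1) → ℤ, Pool.Agent.H159R3.GGL.Preserves b F →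
        Pool.Agent.H159R3.GGL.ActsTrivially b F].TFAE := by
  have h45 : GeneralType ℂ K w ↔ ∀ b : Fin (n + 1) → ℤ, Pool.Agent.H159R3.GGL.Preserves b F →
      Pool.Agent.H159R3.GGL.ActsTrivially b F :=
    (Pool.Agent.N133.NS.nested_all hF hN hirr hy hy.ne hy.gen).out 0 4
  tfae_have 4 → 3 := fun h => kodC_of_general h hc
  tfae_have 3 → 2 := kodC_mono (Nat.zero_le _)
  tfae_have 2 → 1 := psefC_of_kodC
  tfae_have 1 → 5 := by
    intro hps b hb
    by_contra hnt
    have hnt' : ∃ x ∈ Pool.Agent.H159R3.GGL.Pts F, ∃ t : ℂ, t ≠ 0 ∧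
        ∀ c : ℂ, (fun j => x j * t ^ b j) ≠ c • x := by
      by_contra hcon
      push Not at hcon
      exact hnt fun x hx t ht => hcon x hx t ht
    obtain ⟨x, hx, t, ht, hxt⟩ := hnt'
    obtain ⟨i, hi⟩ : ∃ i, x i ≠ 0 := Function.ne_iff.1 hx.1
    obtain ⟨i', hi', hne⟩ : ∃ i', x i' ≠ 0 ∧ b i ≠ b i' := by
      by_contra hcon
      push Not at hcon
      apply hxt (t ^ b i)
      funext j
      rw [Pi.smul_apply, smul_eq_mul]
      by_cases hj : x j = 0
      · rw [hj, zero_mul, mul_zero]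
      · rw [hcon j hj, mul_comm]
    have hsupp : ∀ j, x j ≠ 0 → y j ≠ 0 := by
      intro j hj h3
      apply hj
      have h4 := (hy.rel (MvPolynomial.X j) ⟨1, MvPolynomial.isHomogeneous_X _ _⟩).1 (by
        unfold val
        rw [MvPolynomial.aeval_X]
        exact h3) x hx
      rwa [MvPolynomial.eval_X] at h4
    refine not_psefC_of_weights (U := ∅) (fun j hj => absurd hj (Set.notMem_empty j)) hy.gen hy.dim
      (hsupp i hi) (hsupp i' hi') hne (fun j hj => absurd hj (Set.notMem_empty j))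
      (fun G hG h3 v => ?_) hc0 h0 (fun P _ => h2 P) hps
    refine (hy.rel _ (wc_form hG b v)).2 fun z hz => ?_
    have h4 : val z (wc b v G) = 0 := wc_of_orbit (fun s hs => by
      have h5 := (hy.rel G hG).1 h3 _ (hb z hz s hs)
      unfold val
      rw [MvPolynomial.aeval_eq_eval]
      have h6 : (fun j => s ^ b j * z j) = fun j => z j * s ^ b j := by
        funext j
        rw [mul_comm]
      rw [h6]
      exact h5) v
    unfold val at h4
    rwa [MvPolynomial.aeval_eq_eval] at h4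
  tfae_have 5 ↔ 4 := h45.symm
  tfae_finish

end Pool.Agent.N133.PC
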