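import Pool.Agent.N133.PC8
import Pool.Agent.N133.PC4
import Pool.Agent.Y191.DimGe

/-!
Projective pairs on wide systems and on nested systems (helper133).
-/

set_option autoImplicit false
set_option linter.overlappingInstances false
set_option linter.unusedSectionVars false

open FF IntermediateField Pool.Agent.W603.LV Pool.Agent.W602.GT
open Pool.Agent.Y172 (NormalModel IsPrimeDivisor Through OrdGe OrdEq Effective Integral
  LogCanonical IsSection kodairaDim numericalDim IsFrame Centred chart)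
open Pool.Agent.Y191 (LogDisc)

namespace Pool.Agent.N133.PC

section

variable {K : Type} [Field K] [Algebra ℂ K] {N w : ℕ} {y : Fin (N + 1) → K}

theorem effective_zero : Effective y (0 : Place ℂ K → ℚ) :=
  ⟨fun _ _ => le_rfl, Set.finite_empty.subset (by rintro P ⟨-, h⟩; exact h rfl)⟩

/-- **Pairs on varieties of log general type.** -/
theorem pair_big_log (hy : NormalModel y) (hn : Algebra.trdeg ℂ K = w) {Δ : Place ℂ K → ℚ}
    (hΔ : Effective y Δ) {Bd : Place ℂ K → Prop} (hgt : LogGeneralType ℂ K w Bd)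
    (hone : ∀ P, IsPrimeDivisor y P → Bd P → 1 ≤ Δ P) :
    kodairaDim y w Δ = (w : WithBot ℕ) ∧
      ∀ A, Effective y A → Integral y A → numericalDim y w Δ A = (w : EReal) := by
  obtain ⟨D, hD⟩ := exists_frame (K := K) hn
  obtain ⟨-, M, hM, ω, h1, h2, h3, E, hE, h4⟩ := hgt
  refine Pool.Agent.Y172.dims hΔ hD (fun A hA =>
    Pool.Agent.R887.sec_growth hy hn hΔ hA D) hM (ω := ω) (fun j => ⟨h1 j, fun P hP F hF => ?_⟩)
    hE h4
  by_cases h0 : ω j F = 0
  · exact Or.inl h0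
  right
  rw [Pi.smul_apply, nsmul_eq_mul]
  have hPd := hP.divisorial hy hn
  by_cases hoff : Bd P
  · have h4 := pole_of_log (h1 j) (h2 P hPd j) hF h0
    have h5 : (-(M : ℚ)) ≤ (P.ord (ω j F) : ℚ) := by exact_mod_cast h4
    have h6 : (M : ℚ) * 1 ≤ M * Δ P :=
      mul_le_mul_of_nonneg_left (hone P hP hoff) (Nat.cast_nonneg _)
    linarith
  · have h4 := h3 P hPd hoff j F hF
    rw [P.reg_iff h0] at h4
    have h5 : (0 : ℚ) ≤ (P.ord (ω j F) : ℚ) := by exact_mod_cast h4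
    have h6 : (0 : ℚ) ≤ M * Δ P := mul_nonneg (Nat.cast_nonneg _) (hΔ.1 P hP)
    linarith

end

section wide

open Pool.Agent.R869.Wd

variable {n : ℕ} {ι : Type} {K : Type} [Field K] [Algebra ℂ K] {N w : ℕ} {y : Fin (N + 1) → K}
  {z : Fin (n + 1) → K}

/-- **Log canonical pairs on wide systems.** -/
theorem wide_pair_lc {U : Set (Fin (n + 1))} {F : ι → MvPolynomial (Fin (n + 1)) ℂ} {s M : ℕ}
    (hC : Sys U F s M) (hw : 1 ≤ w) (hz : SubVarU U F K w z) (hcomp : IsComponentU U F z)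
    (hy : NormalModel y) {Δ : Place ℂ K → ℚ} (hΔ : Effective y Δ) (hLC : LogCanonical y w Δ)
    (hone : ∀ P, IsPrimeDivisor y P → OffU U z P → 1 ≤ Δ P)
    (hklt : ∀ Q, Divisorial w Q → ¬ OffU U z Q → ∃ α > 0, LogDisc y w Δ Q α)
    (hcan : ∀ Q, Divisorial w Q → LogDisc y w Δ Q 1 ∨ OverCoord z Q ∨
      ∀ b, Acts U ℂ z b → Tangent z b Q) :
    (kodairaDim y w Δ = (w : WithBot ℕ) ∧
      ∀ A, Effective y A → Integral y A → numericalDim y w Δ A = (w : EReal)) ∨
    (kodairaDim y w Δ = ⊥ ∧ ∀ A, Effective y A → numericalDim y w Δ A = ⊥) ∨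
    ((∃ b, Acts U ℂ z b ∧ ∃ i i', z i ≠ 0 ∧ z i' ≠ 0 ∧ b i ≠ b i') ∧
        ∀ b, Acts U ℂ z b → (∃ i i', z i ≠ 0 ∧ z i' ≠ 0 ∧ b i ≠ b i') →
          ∃ j ∈ U, ∃ l, z l ≠ 0 ∧ b l < b j) := by
  by_cases hlg : LogGeneralType ℂ K w (OffU U z)
  · exact Or.inl (pair_big_log hy hz.dim hΔ hlg hone)
  right
  by_cases hcon : ∃ b, Acts U ℂ z b ∧ (∃ i i', z i ≠ 0 ∧ z i' ≠ 0 ∧ b i ≠ b i') ∧
      ∀ j ∈ U, ∀ l, z l ≠ 0 → b j ≤ b l
  · left
    obtain ⟨b, hb, ⟨i, i', hi, hi', hne⟩, hmin⟩ := hcon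
    have key : ∀ A, Effective y A → kodairaDim y w Δ = ⊥ ∧ numericalDim y w Δ A = ⊥ :=
      fun A hA => pair_acts hy hz.dim hLC hz.unit hz.gen hi hi' hne hmin
        (fun G hG h v => hom_of_acts hz.unit hi hb G hG h v)
        (fun Q hQ => (hcan Q hQ).imp_right fun h => h.imp_right fun h => h b hb) hklt hA
    exact ⟨(key 0 effective_zero).1, fun A hA => (key A hA).2⟩
  · right
    refine ⟨?_, fun b hb hne => ?_⟩
    · by_contra h3
      push Not at h3
      exact hlg ((lgt_iff_acts hC hw hz hcomp).2 fun b hb i i' hi hi' => h3 b hb i i' hi hi')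
    · by_contra h3
      push Not at h3
      exact hcon ⟨b, hb, hne, h3⟩

/-- **Kawamata log terminal pairs on wide systems.** -/
theorem wide_pair_klt {F : ι → MvPolynomial (Fin (n + 1)) ℂ} {s M : ℕ}
    (hC : Sys ∅ F s M) (hw : 1 ≤ w) (hz : SubVar F K w z) (hcomp : IsComponent F z)
    (hy : NormalModel y) {Δ : Place ℂ K → ℚ} (hΔ : Effective y Δ) (hk : Klt y w Δ)
    (hcan : ∀ Q, Divisorial w Q → LogDisc y w Δ Q 1 ∨ OverCoord z Q ∨
      ∀ b, Acts ∅ ℂ z b → Tangent z b Q) :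
    ((∀ b : Fin (n + 1) → ℤ, Acts ∅ ℂ z b → ∀ i i', z i ≠ 0 → z i' ≠ 0 → b i = b i') ∧
      kodairaDim y w Δ = (w : WithBot ℕ) ∧
      ∀ A, Effective y A → Integral y A → numericalDim y w Δ A = (w : EReal)) ∨
    ((∃ b, Acts ∅ ℂ z b ∧ ∃ i i', z i ≠ 0 ∧ z i' ≠ 0 ∧ b i ≠ b i') ∧
      kodairaDim y w Δ = ⊥ ∧ ∀ A, Effective y A → numericalDim y w Δ A = ⊥) := by
  have hzU : SubVarU ∅ F K w z := subVar_iff.2 hz
  have hU := componentU_of hcomp
  have h45 : GeneralType ℂ K w ↔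
      ∀ b : Fin (n + 1) → ℤ, Acts ∅ ℂ z b → ∀ i i', z i ≠ 0 → z i' ≠ 0 → b i = b i' := by
    rw [← general_iff z]
    exact lgt_iff_acts hC hw hzU hU
  by_cases hgt : GeneralType ℂ K w
  · exact Or.inl ⟨h45.1 hgt, pair_big hy hz.dim hΔ hgt⟩
  right
  have h1 : ∃ b, Acts ∅ ℂ z b ∧ ∃ i i', z i ≠ 0 ∧ z i' ≠ 0 ∧ b i ≠ b i' := by
    by_contra hcon
    push Not at hcon
    exact hgt (h45.2 hcon)
  refine ⟨h1, ?_⟩
  obtain ⟨b, hb, i, i', hi, hi', hne⟩ := h1
  have key : ∀ A, Effective y A → kodairaDim y w Δ = ⊥ ∧ numericalDim y w Δ A = ⊥ :=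
    fun A hA => pair_acts (U := ∅) hy hz.dim hk.lc (fun j hj => absurd hj (Set.notMem_empty j))
      hz.gen hi hi' hne (fun j hj => absurd hj (Set.notMem_empty j))
      (fun G hG h v => hom_of_acts (fun j hj => absurd hj (Set.notMem_empty j)) hi hb G hG h v)
      (fun Q hQ => (hcan Q hQ).imp_right fun h => h.imp_right fun h => h b hb)
      (fun Q hQ _ => hk.disc hQ) hA
  exact ⟨(key 0 effective_zero).1, fun A hA => (key A hA).2⟩

end wide

section nested

open Pool.Agent.TH710.ND (NestedIn IsMono)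
open Pool.Agent.TH710.NW (FunctionField)
open Pool.Agent.H159R3.GGL (Irred Preserves ActsTrivially Pts)

variable {n : ℕ} {ι : Type} {F : ι → MvPolynomial (Fin (n + 1)) ℂ} {K : Type} [Field K]
  [Algebra ℂ K] {N w : ℕ} {y : Fin (N + 1) → K} {z : Fin (n + 1) → K}

/-- **Kawamata log terminal pairs on nested systems.** -/
theorem nested_pair_klt [Finite ι] {s M h : ℕ}
    (hF : ∀ e, IsForm (F e) ∧ NestedIn IsMono s M h (F e))
    (hN : (n + 1) * ((h + 1) * (2 * s + 1) ^ 5) ≤ M) (hirr : Irred F)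
    (hz : FunctionField F K w z) (hy : NormalModel y) {Δ : Place ℂ K → ℚ} (hΔ : Effective y Δ)
    (hk : Klt y w Δ)
    (hcan : ∀ Q, Divisorial w Q → LogDisc y w Δ Q 1 ∨ OverCoord z Q ∨
      ∀ b, Preserves b F → Tangent z b Q) :
    ((∀ b, Preserves b F → ActsTrivially b F) ∧ kodairaDim y w Δ = (w : WithBot ℕ) ∧
      ∀ A, Effective y A → Integral y A → numericalDim y w Δ A = (w : EReal)) ∨
    ((∃ b, Preserves b F ∧ ¬ ActsTrivially b F) ∧
      kodairaDim y w Δ = ⊥ ∧ ∀ A, Effective y A → numericalDim y w Δ A = ⊥) := by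
  have h45 : GeneralType ℂ K w ↔ ∀ b : Fin (n + 1) → ℤ, Preserves b F → ActsTrivially b F :=
    (Pool.Agent.N133.NS.nested_all hF hN hirr hz hz.ne hz.gen).out 0 4
  by_cases hgt : GeneralType ℂ K w
  · exact Or.inl ⟨h45.1 hgt, pair_big hy hz.dim hΔ hgt⟩
  right
  have h1 : ∃ b, Preserves b F ∧ ¬ ActsTrivially b F := by
    by_contra hcon
    push Not at hcon
    exact hgt (h45.2 hcon)
  refine ⟨h1, ?_⟩
  obtain ⟨b, hb, hnt⟩ := h1
  have hnt' : ∃ x ∈ Pts F, ∃ t : ℂ, t ≠ 0 ∧ ∀ c : ℂ, (fun j => x j * t ^ b j) ≠ c • x := by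
    by_contra hcon
    push Not at hcon
    exact hnt fun x hx t ht => hcon x hx t ht
  obtain ⟨x, hx, t, ht, hxt⟩ := hnt'
  obtain ⟨i, hi⟩ : ∃ i, x i ≠ 0 := Function.ne_iff.1 hx.1
  obtain ⟨i', hi', hne⟩ : ∃ i', x i' ≠ 0 ∧ b i ≠ b i' := by
    by_contra hcon
    push Not at hcon
    apply hxt (t ^ b i)
    funext j
    rw [Pi.smul_apply, smul_eq_mul]
    by_cases hj : x j = 0
    · rw [hj, zero_mul, mul_zero]
    · rw [hcon j hj, mul_comm]
  have hsupp : ∀ j, x j ≠ 0 → z j ≠ 0 := by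
    intro j hj h3
    apply hj
    have h4 := (hz.rel (MvPolynomial.X j) ⟨1, MvPolynomial.isHomogeneous_X _ _⟩).1 (by
      unfold Pool.Agent.W602.GT.val
      rw [MvPolynomial.aeval_X]
      exact h3) x hx
    rwa [MvPolynomial.eval_X] at h4
  have hwt : ∀ G : MvPolynomial (Fin (n + 1)) ℂ, IsForm G → val z G = 0 →
      ∀ v, val z (wc b v G) = 0 := by
    intro G hG h3 v
    refine (hz.rel _ (wc_form hG b v)).2 fun q hq => ?_
    have h4 : val q (wc b v G) = 0 := wc_of_orbit (fun s hs => by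
      have h5 := (hz.rel G hG).1 h3 _ (hb q hq s hs)
      unfold Pool.Agent.W602.GT.val
      rw [MvPolynomial.aeval_eq_eval]
      have h6 : (fun j => s ^ b j * q j) = fun j => q j * s ^ b j := by
        funext j
        rw [mul_comm]
      rw [h6]
      exact h5) v
    unfold Pool.Agent.W602.GT.val at h4
    rwa [MvPolynomial.aeval_eq_eval] at h4
  have key : ∀ A, Effective y A → kodairaDim y w Δ = ⊥ ∧ numericalDim y w Δ A = ⊥ :=
    fun A hA => pair_acts (U := ∅) hy hz.dim hk.lc (fun j hj => absurd hj (Set.notMem_empty j))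
      hz.gen (hsupp i hi) (hsupp i' hi') hne (fun j hj => absurd hj (Set.notMem_empty j))
      hwt (fun Q hQ => (hcan Q hQ).imp_right fun h => h.imp_right fun h => h b hb)
      (fun Q hQ _ => hk.disc hQ) hA
  exact ⟨(key 0 effective_zero).1, fun A hA => (key A hA).2⟩

end nested

end Pool.Agent.N133.PC
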