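import Pool.Agent.N133.PC10
import Pool.Agent.Y172.Gs

/-!
Log canonical pairs on varieties with a torus action: the quotient by the torus, and the upper bound
for the numerical dimension (helper133).
-/

set_option autoImplicit false
set_option linter.overlappingInstances false
set_option linter.unusedSectionVars false

open FF IntermediateField Pool.Agent.W603.LV Pool.Agent.W602.GT
open Pool.Agent.Y172 (NormalModel IsPrimeDivisor Through OrdGe OrdEq Effective Integral
  LogCanonical IsSection kodairaDim numericalDim IsFrame Centred chart Kills Closed acl Adic mono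
  trm TT Fb mono_ne mono_mono mono_single mono_sub mono_add logd_mono)
open Pool.Agent.Y191 (LogDisc)
open Pool.Agent.TH122.AB (Gens)

namespace Pool.Agent.N133.PC

section quot

variable {K : Type} [Field K] [Algebra ℂ K] {n p R : ℕ}

/-- the common constants -/
noncomputable def cst (δ : Fin p → Derivation ℂ K K) : IntermediateField ℂ K := ⨅ q, consts (δ q)

theorem mem_cst {δ : Fin p → Derivation ℂ K K} {c : K} : c ∈ cst δ ↔ ∀ q, δ q c = 0 := by
  unfold cst
  rw [← SetLike.mem_coe, IntermediateField.coe_iInf, Set.mem_iInter]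
  rfl

theorem cst_closed (δ : Fin p → Derivation ℂ K K) : Closed (cst δ) := by
  intro x hx
  rw [mem_cst]
  intro q
  exact Pool.Agent.Y172.kills_alg (D := δ q) (M := cst δ) (fun c hc => mem_cst.1 hc q) hx

/-- **The quotient by a torus.** -/
theorem exists_quot (hn : Algebra.trdeg ℂ K = n) {δ : Fin p → Derivation ℂ K K} {r : Fin R → K}
    (hr0 : ∀ i, r i ≠ 0) {β : Fin p → Fin R → ℤ} (hδ : ∀ q i, δ q (r i) = (β q i : K) * r i)
    (hgen : IntermediateField.adjoin ℂ (Set.range r) = ⊤) {jj : Fin p → Fin R}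
    (hj1 : ∀ q, β q (jj q) ≠ 0) (hj2 : ∀ q l, l ≠ q → β q (jj l) = 0) :
    ∃ (l κ : ℕ) (u : Fin l → K) (χ : Fin p → Fin l → ℤ), p ≤ l ∧ n = κ + l ∧
      AlgebraicIndependent (cst δ) u ∧
      IntermediateField.adjoin ℂ ((cst δ : Set K) ∪ Set.range u) = ⊤ ∧
      (∀ q j, δ q (u j) = (χ q j : K) * u j) ∧
      (∀ a : Fin l → ℤ, (∀ q, ∑ j, a j * χ q j = 0) → a = 0) ∧
      ∀ i, ∃ m ∈ cst δ, ∃ c : Fin l → ℤ, r i = m * mono u c := by
  classical
  have hK : CharZero K := charZero_of_injective_algebraMap (algebraMap ℂ K).injective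
  have hM := cst_closed δ
  obtain ⟨l, u, hu0, hub, huc, hum⟩ := Pool.Agent.Y172.lattice' hM hr0
  have hint : ∀ z : ℤ, (z : K) ∈ cst δ := by
    intro z
    have := (cst δ).algebraMap_mem (z : ℂ)
    rwa [map_intCast] at this
  have hmr : ∀ q (b : Fin R → ℤ), δ q (mono r b) = ((∑ i, b i * β q i : ℤ) : K) * mono r b := by
    intro q b
    rw [logd_mono (δ q) hr0]
    congr 1
    push_cast
    exact Finset.sum_congr rfl fun i _ => by rw [hδ, mul_div_cancel_right₀ _ (hr0 i)]
  choose b hb using hub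
  obtain ⟨χ, hχ⟩ : ∃ χ : Fin p → Fin l → ℤ, ∀ q j, δ q (u j) = (χ q j : K) * u j :=
    ⟨fun q j => ∑ i, b j i * β q i, fun q j => by rw [hb j]; exact hmr q (b j)⟩
  have hmu : ∀ q (a : Fin l → ℤ), δ q (mono u a) = ((∑ j, a j * χ q j : ℤ) : K) * mono u a := by
    intro q a
    rw [logd_mono (δ q) hu0]
    congr 1
    push_cast
    exact Finset.sum_congr rfl fun i _ => by rw [hχ, mul_div_cancel_right₀ _ (hu0 i)]
  have hsep : ∀ a : Fin l → ℤ, (∀ q, ∑ j, a j * χ q j = 0) → a = 0 := by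
    intro a ha
    apply hum
    rw [mem_cst]
    intro q
    rw [hmu, ha q, Int.cast_zero, zero_mul]
  have hind : AlgebraicIndependent (cst δ) u := by
    refine Pool.Agent.Y172.mult_indep hu0 fun a ha => ?_
    have h1 : ∃ q, ∑ j, a j * χ q j ≠ 0 := by
      by_contra hcon
      push Not at hcon
      exact ha (hsep a hcon)
    obtain ⟨q, hq⟩ := h1
    refine ⟨δ q, fun c hc => mem_cst.1 hc q, fun j => ⟨(χ q j : K), hint _, hχ q j⟩, ?_⟩
    rw [hmu]
    exact mul_ne_zero (by exact_mod_cast hq) (mono_ne hu0 a)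
  have htop : IntermediateField.adjoin ℂ ((cst δ : Set K) ∪ Set.range u) = ⊤ := by
    rw [← top_le_iff, ← hgen, IntermediateField.adjoin_le_iff]
    rintro _ ⟨i, rfl⟩
    obtain ⟨m, hm, c, hc⟩ := huc i
    rw [hc]
    have hsub := IntermediateField.subset_adjoin ℂ ((cst δ : Set K) ∪ Set.range u)
    refine mul_mem (hsub (Or.inl hm)) ?_
    unfold mono
    refine prod_mem fun j _ => ?_
    have h1 : u j ∈ IntermediateField.adjoin ℂ ((cst δ : Set K) ∪ Set.range u) :=
      hsub (Or.inr ⟨j, rfl⟩)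
    exact zpow_mem h1 _
  -- the dimensions
  obtain ⟨κ, z, hzM, hz, hMz, hext⟩ := Pool.Agent.Y172.exists_coord hn hM
  have hfull := Pool.Agent.Y172.full_coord hMz (hext l u hind) htop
  have hcard := Pool.Agent.Y172.card_coord hn hfull
  have hv0 : ∀ q, r (jj q) ≠ 0 := fun q => hr0 _
  have hvind : AlgebraicIndependent (cst δ) (fun q => r (jj q)) := by
    refine Pool.Agent.Y172.mult_indep (u := fun q => r (jj q)) hv0 fun a ha => ?_
    obtain ⟨q, hq⟩ := Function.ne_iff.1 ha
    refine ⟨δ q, fun c hc => mem_cst.1 hc q, fun j => ⟨(β q (jj j) : K), hint _, hδ q (jj j)⟩, ?_⟩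
    rw [logd_mono (δ q) hv0]
    refine mul_ne_zero ?_ (mono_ne hv0 a)
    rw [Finset.sum_eq_single q]
    · rw [hδ, mul_div_cancel_right₀ _ (hv0 q)]
      exact mul_ne_zero (by exact_mod_cast hq) (by exact_mod_cast hj1 q)
    · intro l' _ hl
      rw [hδ, hj2 q l' hl, Int.cast_zero, zero_mul, zero_div, mul_zero]
    · intro h
      exact absurd (Finset.mem_univ q) h
  have hp : p ≤ l := by
    have h1 := (hext p _ hvind).cardinalMk_le_trdeg
    rw [hn, Cardinal.mk_sum, Cardinal.mk_fin, Cardinal.mk_fin, Cardinal.lift_natCast,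
      Cardinal.lift_natCast, ← Nat.cast_add] at h1
    have h2 : p + κ ≤ n := by exact_mod_cast h1
    omega
  exact ⟨l, κ, u, χ, hp, hcard, hind, htop, hχ, hsep, huc⟩

/-- no invariant multisections -/
theorem not_tangent {l : ℕ} {δ : Fin p → Derivation ℂ K K} {u : Fin l → K}
    {χ : Fin p → Fin l → ℤ} (hu : AlgebraicIndependent (cst δ) u)
    (hχ : ∀ q j, δ q (u j) = (χ q j : K) * u j)
    (hsep : ∀ a : Fin l → ℤ, (∀ q, ∑ j, a j * χ q j = 0) → a = 0) {Q : Place ℂ K}
    (hQM : ∀ c ∈ cst δ, c ≠ 0 → Q.ord c = 0) (hQu : ∀ j, Q.ord (u j) = 0)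
    (hlog : ∀ q, DerLog Q (δ q)) {g : MvPolynomial (Fin l) (cst δ)} (hg : g ≠ 0) :
    ¬ 0 < Q.ord (MvPolynomial.aeval u g) := by
  classical
  intro hpos
  have hK : CharZero K := charZero_of_injective_algebraMap (algebraMap ℂ K).injective
  have hu0 : ∀ j, u j ≠ 0 := fun j => hu.ne_zero j
  let W : Submodule ℂ K :=
    { carrier := {f | Ge Q 1 f}
      add_mem' := fun h h' => Ge.add h h'
      zero_mem' := Ge.zero
      smul_mem' := by
        intro c f hf
        change Ge Q 1 (c • f)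
        rw [Algebra.smul_def]
        simpa using (Ge.const (P := Q) c).mul hf }
  obtain ⟨a0, ha0⟩ := MvPolynomial.support_nonempty.2 hg
  have hc0 : ((MvPolynomial.coeff a0 g : cst δ) : K) ≠ 0 := fun h =>
    MvPolynomial.mem_support_iff.1 ha0 (Subtype.ext h)
  have h1 : trm u g a0 ∈ W := by
    refine Pool.Agent.Y172.vand W δ (fun j x hx => Pool.Agent.Y172.DerLog.ge (hlog j) hx) g.support
      (fun a q => ((∑ j, (a j : ℤ) * χ q j : ℤ) : ℂ)) (trm u g) (fun a _ q => ?_)
      (fun a _ b _ h => ?_) ?_ a0 ha0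
    · rw [trm, (δ q).leibniz, mem_cst.1 (Subtype.coe_prop _) q, smul_zero, add_zero,
        logd_mono (δ q) hu0, map_intCast, smul_eq_mul]
      have h2 : ∑ i, (((fun i => (a i : ℤ)) i : ℤ) : K) * (δ q (u i) / u i) =
          ((∑ j, (a j : ℤ) * χ q j : ℤ) : K) := by
        push_cast
        exact Finset.sum_congr rfl fun i _ => by rw [hχ, mul_div_cancel_right₀ _ (hu0 i)]
      rw [h2]
      ring
    · have h2 := hsep (fun j => (a j : ℤ) - b j) (fun q => by
        have h3 : (∑ j, (a j : ℤ) * χ q j) = ∑ j, (b j : ℤ) * χ q j := by exact_mod_cast h q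
        simp only [sub_mul, Finset.sum_sub_distrib, h3, sub_self])
      ext j
      have h3 := congrFun h2 j
      simp only [Pi.zero_apply] at h3
      omega
    · change Ge Q 1 _
      rw [← Pool.Agent.Y172.aeval_eq]
      exact Or.inr (by omega)
  have h2 : trm u g a0 ≠ 0 := mul_ne_zero hc0 (mono_ne hu0 _)
  have h3 : Q.ord (trm u g a0) = 0 := by
    rw [trm, Q.ord_mul hc0 (mono_ne hu0 _), hQM _ (Subtype.coe_prop _) hc0, zero_add, mono,
      Pool.Agent.W619.PQ.ord_prod _ Q _ fun i _ => zpow_ne_zero _ (hu0 i)]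
    exact Finset.sum_eq_zero fun i _ => by rw [Q.ord_zpow, hQu, mul_zero]
  have h4 : 1 ≤ Q.ord (trm u g a0) := (show Ge Q 1 (trm u g a0) from h1).resolve_left h2
  omega

end quot

section adic

variable {K : Type} [Field K] [Algebra ℂ K] {l : ℕ} {M : IntermediateField ℂ K} {u : Fin l → K}

theorem adic_ord (hG : Gens (k := M) u) {Q : Place ℂ K} {g : MvPolynomial (Fin l) M}
    (hg : Irreducible g) (hQ : Adic Q u g) (k : ℕ) {P : MvPolynomial (Fin l) M} (hP : P ≠ 0)
    (hgP : ¬ g ∣ P) :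
    Q.ord (MvPolynomial.aeval u (g ^ k * P)) = k * Q.ord (MvPolynomial.aeval u g) := by
  rw [map_mul, map_pow, Q.ord_mul (pow_ne_zero _ (hG.ne hg.ne_zero)) (hG.ne hP), Q.ord_pow,
    (hQ P hP).2.2 hgP, add_zero]

/-- the place of an irreducible polynomial is unique -/
theorem adic_unique (hG : Gens (k := M) u) {Q Q' : Place ℂ K} {g : MvPolynomial (Fin l) M}
    (hg : Irreducible g) (hQ : Adic Q u g) (hQ' : Adic Q' u g) : Q = Q' := by
  have key : ∀ P : MvPolynomial (Fin l) M, P ≠ 0 →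
      Q.ord (MvPolynomial.aeval u P) * Q'.ord (MvPolynomial.aeval u g) =
        Q'.ord (MvPolynomial.aeval u P) * Q.ord (MvPolynomial.aeval u g) := by
    intro P hP
    obtain ⟨k, P', h1, rfl⟩ := WfDvdMonoid.max_power_factor hP hg
    have hP' : P' ≠ 0 := right_ne_zero_of_mul hP
    rw [adic_ord hG hg hQ k hP' h1, adic_ord hG hg hQ' k hP' h1]
    ring
  have key2 : ∀ f : K, Q.ord f * Q'.ord (MvPolynomial.aeval u g) =
        Q'.ord f * Q.ord (MvPolynomial.aeval u g) := by
    intro f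
    by_cases hf : f = 0
    · rw [hf, Q.ord_zero, Q'.ord_zero, zero_mul, zero_mul]
    obtain ⟨P, R, hR, rfl⟩ := hG.gen f
    have hP : P ≠ 0 := by
      rintro rfl
      simp at hf
    rw [Q.ord_div (hG.ne hP) (hG.ne hR), Q'.ord_div (hG.ne hP) (hG.ne hR), sub_mul, sub_mul,
      key P hP, key R hR]
  have hpos : ∀ Q : Place ℂ K, Adic Q u g → 0 < Q.ord (MvPolynomial.aeval u g) := by
    intro Q hQ
    have h1 := hQ g hg.ne_zero
    rcases lt_or_eq_of_le h1.1 with h | h
    · exact h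
    · exact absurd dvd_rfl (h1.2.1 h.symm)
  have h1 := hpos Q hQ
  have h2 := hpos Q' hQ'
  obtain ⟨t, ht0, ht⟩ := Q.surj
  obtain ⟨t', ht'0, ht'⟩ := Q'.surj
  have h3 := key2 t
  have h4 := key2 t'
  rw [ht, one_mul] at h3
  rw [ht', one_mul] at h4
  have h5 : Q.ord (MvPolynomial.aeval u g) = Q'.ord (MvPolynomial.aeval u g) := by
    have h6 : Q.ord (MvPolynomial.aeval u g) ∣ Q'.ord (MvPolynomial.aeval u g) :=
      ⟨Q'.ord t, by rw [h3]; ring⟩
    have h7 : Q'.ord (MvPolynomial.aeval u g) ∣ Q.ord (MvPolynomial.aeval u g) :=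
      ⟨Q.ord t', by rw [← h4]; ring⟩
    exact Int.dvd_antisymm h1.le h2.le h6 h7
  apply Place.ext
  funext f
  have h6 := key2 f
  rw [h5] at h6
  exact mul_right_cancel₀ h2.ne' h6

/-- finitely many of these places are zeros or poles of a function -/
theorem adic_finite (hG : Gens (k := M) u) {f : K} (hf : f ≠ 0) :
    {Q : Place ℂ K | (∃ g : MvPolynomial (Fin l) M, Irreducible g ∧ Adic Q u g) ∧
      Q.ord f ≠ 0}.Finite := by
  classical
  obtain ⟨P, R, hR, rfl⟩ := hG.gen f
  have hP : P ≠ 0 := by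
    rintro rfl
    simp at hf
  have hPR : P * R ≠ 0 := mul_ne_zero hP hR
  let T := (UniqueFactorizationMonoid.factors (P * R)).toFinset
  have hfin : ∀ g ∈ T, {Q : Place ℂ K | Adic Q u g}.Finite := by
    intro g hg
    have hgi : Irreducible g := UniqueFactorizationMonoid.irreducible_of_factor g
      (Multiset.mem_toFinset.1 hg)
    exact Set.Subsingleton.finite fun Q hQ Q' hQ' => adic_unique hG hgi hQ hQ'
  refine (T.finite_toSet.biUnion fun g hg => hfin g hg).subset ?_
  rintro Q ⟨⟨g, hg, hQ⟩, hne⟩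
  have hdvd : g ∣ P * R := by
    by_contra hcon
    apply hne
    have h1 : ¬ g ∣ P := fun h => hcon (h.mul_right R)
    have h2 : ¬ g ∣ R := fun h => hcon (h.mul_left P)
    rw [Q.ord_div (hG.ne hP) (hG.ne hR), (hQ P hP).2.2 h1, (hQ R hR).2.2 h2, sub_zero]
  obtain ⟨g', hg', hass⟩ := UniqueFactorizationMonoid.exists_mem_factors_of_dvd hPR hg hdvd
  refine Set.mem_biUnion (Multiset.mem_toFinset.2 hg') ?_
  intro P' hP'
  have h1 := hQ P' hP'
  refine ⟨h1.1, ?_⟩
  rw [h1.2, hass.dvd_iff_dvd_left]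

end adic

end Pool.Agent.N133.PC
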