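import Pool.Agent.N133.PC11
import Pool.Agent.Y191.CanB
import Pool.Agent.Y191.MovAb

/-!
Log canonical pairs on varieties with a torus action: the upper bound for the numerical dimension
(helper133).
-/

set_option autoImplicit false
set_option linter.overlappingInstances false
set_option linter.unusedSectionVars false

open FF IntermediateField Pool.Agent.W603.LV Pool.Agent.W602.GT
open Pool.Agent.Y172 (NormalModel IsPrimeDivisor Through OrdGe OrdEq Effective Integral
  LogCanonical IsSection kodairaDim numericalDim IsFrame Centred chart Kills Closed acl Adic mono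
  trm TT Fb mono_ne mono_mono mono_single mono_sub mono_add logd_mono)
open Pool.Agent.Y191 (LogDisc)
open Pool.Agent.TH122.AB (Gens)

namespace Pool.Agent.N133.PC

section

variable {K : Type} [Field K] [Algebra ℂ K] {n l : ℕ} {M : IntermediateField ℂ K} {u : Fin l → K}

theorem gens_basis (hG : Gens (k := M) u) : IsTranscendenceBasis M u := by
  rw [hG.ind.isTranscendenceBasis_iff_isAlgebraic]
  apply alg_adjoin
  have h1 : IntermediateField.adjoin M (Set.range u) = ⊤ := by
    rw [eq_top_iff]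
    intro z _
    obtain ⟨P, Q, -, rfl⟩ := hG.gen z
    have h2 : ∀ P : MvPolynomial (Fin l) M,
        MvPolynomial.aeval u P ∈ IntermediateField.adjoin M (Set.range u) := by
      intro P
      rw [MvPolynomial.aeval_def, MvPolynomial.eval₂_eq']
      have h3 : ∀ i, u i ∈ IntermediateField.adjoin M (Set.range u) := fun i =>
        IntermediateField.subset_adjoin M _ ⟨i, rfl⟩
      exact sum_mem fun a _ => mul_mem (IntermediateField.algebraMap_mem _ _)
        (prod_mem fun i _ => pow_mem (h3 i) _)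
    exact div_mem (h2 P) (h2 Q)
  rw [h1]
  infer_instance

theorem adic_divisorial (hn : Algebra.trdeg ℂ K = n) (hM : Closed M) (hG : Gens (k := M) u)
    {Q : Place ℂ K} {g : MvPolynomial (Fin l) M} (hg : Irreducible g) (hQ : Adic Q u g) :
    Divisorial n Q := by
  classical
  obtain ⟨p, z, e, D, hF⟩ := Pool.Agent.Y191.exists_FrF hn hM (gens_basis hG)
  exact Pool.Agent.Y191.AdicF.divisorial hF hg hQ

/-- a prime factor of a variable is a monomial -/
theorem mono_of_dvd {g : MvPolynomial (Fin l) M} {j : Fin l} (h : g ∣ MvPolynomial.X j) :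
    ∃ (a : Fin l →₀ ℕ) (c : M), g = MvPolynomial.monomial a c := by
  have h1 : g ∣ MvPolynomial.monomial (Finsupp.single j 1) (1 : M) := h
  rw [MvPolynomial.dvd_monomial_iff_exists one_ne_zero] at h1
  obtain ⟨a, c, -, -, rfl⟩ := h1
  exact ⟨a, c, rfl⟩

/-- the trivial fibration -/
theorem fb_triv (hM : Closed M) (hu : AlgebraicIndependent M u)
    (htop : IntermediateField.adjoin ℂ ((M : Set K) ∪ Set.range u) = ⊤) :
    Fb M M u (fun g => ∃ (a : Fin l →₀ ℕ) (c : M), g = MvPolynomial.monomial a c)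
      (fun i : Fin 0 => i.elim0) u := by
  classical
  have hu0 : ∀ j, u j ≠ 0 := fun j => hu.ne_zero j
  refine ⟨?_, fun i => i.elim0, ?_, fun D hD _ => hD, fun j => ⟨Pi.single j 1, ?_⟩,
    fun i => ⟨1, one_mem _, Pi.single i 1, ?_⟩, hu, htop⟩
  · apply le_antisymm
    · intro y hy
      exact Pool.Agent.Y172.subset_acl _ (Or.inl hy)
    · refine Pool.Agent.Y172.acl_le hM ?_
      rintro y (hy | ⟨g, ⟨a, c, rfl⟩, b, hb, rfl⟩)
      · exact hy
      · have hc : c ≠ 0 := by
          rintro rfl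
          rw [map_zero] at hb
          simp at hb
        rw [MvPolynomial.support_monomial, if_neg hc, Finset.mem_singleton] at hb
        subst hb
        have h1 : MvPolynomial.aeval u (MvPolynomial.monomial b c) =
            trm u (MvPolynomial.monomial b c) b := by
          rw [Pool.Agent.Y172.aeval_eq, MvPolynomial.support_monomial, if_neg hc,
            Finset.sum_singleton]
        rw [h1, div_self]
        · exact one_mem M
        · exact Pool.Agent.Y172.trm_ne hu0 (by
            rw [MvPolynomial.support_monomial, if_neg hc, Finset.mem_singleton])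
  · rw [algebraicIndependent_empty_type_iff]
    exact (algebraMap M K).injective
  · rw [mono_single]
  · rw [mono_single, one_mul]

end

section

variable {K : Type} [Field K] [Algebra ℂ K] {N n p R : ℕ} {y : Fin (N + 1) → K}

/-- **The upper bound.** -/
theorem torus_upper (hy : NormalModel y) (hn : Algebra.trdeg ℂ K = n) {Δ : Place ℂ K → ℚ}
    (hΔ : Effective y Δ) (hLC : LogCanonical y n Δ) {δ : Fin p → Derivation ℂ K K} {r : Fin R → K}
    (hr0 : ∀ i, r i ≠ 0) {β : Fin p → Fin R → ℤ} (hδ : ∀ q i, δ q (r i) = (β q i : K) * r i)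
    (hgen : IntermediateField.adjoin ℂ (Set.range r) = ⊤) {jj : Fin p → Fin R}
    (hj1 : ∀ q, β q (jj q) ≠ 0) (hj2 : ∀ q l, l ≠ q → β q (jj l) = 0)
    (hcan : ∀ Q, Divisorial n Q → LogDisc y n Δ Q 1 ∨ (∃ i, Q.ord (r i) ≠ 0) ∨
      ∀ q, DerLog Q (δ q)) {h : ℕ} (hh : h + p = n) :
    ∃ D : Fin n → Derivation ℂ K K, IsFrame D ∧ ∀ A, Effective y A → ∃ C : ℕ, ∀ m : ℕ, 1 ≤ m →
      ∀ (s : ℕ) (f : Fin s → K), LinearIndependent ℂ f →
        (∀ i, ∃ ω, IsSection y n m (m • Δ + A) ω ∧ ω D = f i) → s ≤ C * m ^ h := by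
  classical
  have hess := hy.ess
  obtain ⟨l, κ, u, χ, hpl, hκ, hind, htop, hχ, hsep, hru⟩ :=
    exists_quot hn hr0 hδ hgen hj1 hj2
  have hM := cst_closed δ
  have hG := Pool.Agent.Y172.gens_of_top hind htop
  have hu0 : ∀ j, u j ≠ 0 := fun j => hind.ne_zero j
  obtain ⟨D, hD, hDM, hDu⟩ := Pool.Agent.Y172.exists_adapted hn hM hind htop
  have hDf : IsFrame D := hD
  refine ⟨D, hDf, fun A hA => ?_⟩
  choose s hs hs0 hsQ using fun j : Fin (N + 1) =>
    Pool.Agent.Y191.disc_bound (Δ := Δ) hy hA hDf j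
  obtain ⟨S, hS⟩ := Pool.Agent.Y172.sec_fin (n := n) hy hΔ hA D
  obtain ⟨C, hC⟩ := Pool.Agent.Y172.upperF hn hind htop (fb_triv hM hind htop) hDM hDu hκ
    (fun m => {f | ∃ ω, IsSection y n m (m • Δ + A) ω ∧ ω D = f})
    (X := {Q | ∃ g : MvPolynomial (Fin l) (cst δ), Irreducible g ∧ Adic Q u g})
    (A := fun Q => ∑ j, (Q.ord (s j)).natAbs)
    (by
      refine (Set.finite_iUnion fun j => adic_finite hG (hs0 j)).subset ?_
      rintro Q ⟨hQ, hne⟩
      have h1 : ∃ j, Q.ord (s j) ≠ 0 := by
        by_contra hcon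
        push Not at hcon
        apply hne
        exact Finset.sum_eq_zero fun j _ => by rw [hcon j]; rfl
      obtain ⟨j, hj⟩ := h1
      exact Set.mem_iUnion.2 ⟨j, hQ, hj⟩)
    (by
      intro g hg hgB
      obtain ⟨v, hv1, hv⟩ := Pool.Agent.TH122.AB.exists_adic hG hg
      obtain ⟨Q, hQ⟩ : ∃ Q : Place ℂ K, Q = Pool.Agent.Y172.dropP (cst δ) v := ⟨_, rfl⟩
      have hQo : ∀ f, Q.ord f = v.ord f := fun f => by rw [hQ]; rfl
      have hQa : Adic Q u g := fun P hP => by
        rw [hQo]
        exact hv P hP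
      have hQg : 0 < Q.ord (MvPolynomial.aeval u g) := by
        rw [hQo, hv1]
        norm_num
      have hQd := adic_divisorial hn hM hG hg hQa
      have hQM : ∀ c ∈ cst δ, c ≠ 0 → Q.ord c = 0 := hQa.triv
      have hQu : ∀ j, Q.ord (u j) = 0 := by
        intro j
        have h1 := hQa (MvPolynomial.X j) (MvPolynomial.X_ne_zero j)
        rw [MvPolynomial.aeval_X] at h1
        exact h1.2.2 fun h2 => hgB (mono_of_dvd h2)
      refine ⟨Q, ⟨g, hg, hQa⟩, hQa, fun hDr m hm f hf => ?_⟩
      obtain ⟨ω, hω, rfl⟩ := hf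
      have hdisc : LogDisc y n Δ Q 1 := by
        rcases hcan Q hQd with h1 | ⟨i, hi⟩ | h1
        · exact h1
        · exfalso
          apply hi
          obtain ⟨c, hc, a, ha⟩ := hru i
          have hc0 : c ≠ 0 := by
            rintro rfl
            rw [zero_mul] at ha
            exact hr0 i ha
          rw [ha, Q.ord_mul hc0 (mono_ne hu0 _), hQM c hc hc0, zero_add, mono,
            Pool.Agent.W619.PQ.ord_prod _ Q _ fun i _ => zpow_ne_zero _ (hu0 i)]
          exact Finset.sum_eq_zero fun i _ => by rw [Q.ord_zpow, hQu, mul_zero]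
        · exact absurd hQg (not_tangent hind hχ hsep hQM hQu h1 hg.ne_zero)
      obtain ⟨j, hj⟩ := Pool.Agent.Y172.exists_centred hy Q
      have h1 := hsQ j Q hj 1 hdisc m hm ω hω D hDr
      rcases h1 with h1 | h1
      · exact Or.inl h1
      right
      have h2 : (Q.ord (s j)).natAbs ≤ ∑ j, (Q.ord (s j)).natAbs :=
        Finset.single_le_sum (f := fun j => (Q.ord (s j)).natAbs) (fun _ _ => Nat.zero_le _)
          (Finset.mem_univ j)
      have h3 : -(Q.ord (s j)) ≤ Q.ord (ω D) := by
        rw [sub_self, mul_zero, zero_sub] at h1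
        exact_mod_cast h1
      have h4 : Q.ord (s j) ≤ ((Q.ord (s j)).natAbs : ℤ) := by
        rw [Int.natCast_natAbs]
        exact le_abs_self _
      have h5 : ((Q.ord (s j)).natAbs : ℤ) ≤ ((∑ j, (Q.ord (s j)).natAbs : ℕ) : ℤ) := by
        exact_mod_cast h2
      omega)
    (by
      intro Q hQ hlog
      obtain ⟨b, hb⟩ := Pool.Agent.Y172.lc_bound hy hn hLC hA hQ hDf hlog
      refine ⟨b, fun m hm f hf => ?_⟩
      obtain ⟨ω, hω, rfl⟩ := hf
      exact hb m hm ω hω)
    (fun P => by
      obtain ⟨C, hC⟩ := Pool.Agent.Y172.sec_all (n := n) hy hΔ hA D P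
      refine ⟨C, fun m hm f hf => ?_⟩
      obtain ⟨ω, hω, rfl⟩ := hf
      exact hC m hm ω hω) S (fun P hP m hm f hf => by
      obtain ⟨ω, hω, rfl⟩ := hf
      exact hS P hP m hm ω hω)
  refine ⟨C, fun m hm s' f hf hω => (hC m hm s' f hf fun i => hω i).trans ?_⟩
  exact Nat.mul_le_mul_left _ (Nat.pow_le_pow_right hm (by omega))

end

end Pool.Agent.N133.PC
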