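import Pool.Agent.N133.PC12
import Pool.Agent.W602.GT.KFin

/-!
The Kodaira dimension and the numerical dimension of log canonical pairs on sparse quasi-projective
varieties (helper133). The proof of `kod_main2` is that of `Pool.Agent.W602.GT.kod_main`.
-/

set_option autoImplicit false
set_option linter.overlappingInstances false
set_option linter.unusedSectionVars false

open FF IntermediateField Pool.Agent.W603.LV Pool.Agent.W602.GT
open Pool.Agent.Y172 (NormalModel IsPrimeDivisor Through OrdGe OrdEq Effective Integral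
  LogCanonical IsSection kodairaDim numericalDim IsFrame Centred chart)
open Pool.Agent.Y191 (LogDisc)

namespace Pool.Agent.N133.PC

section

variable {k : Type} [Field k] {n : ℕ} {ι : Type}

/-- **The logarithmic Kodaira dimension.** A component of a sparse quasi-projective variety is
covered by affine lines, or its logarithmic Kodaira dimension is its dimension minus the dimension
of a torus which acts on it; this is an upper bound also for the open part where none of the
coordinates vanishes. -/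
theorem kod_main2 [CharZero k] [IsAlgClosed k] {U : Set (Fin (n + 1))}
    {F : ι → MvPolynomial (Fin (n + 1)) k} {s N : ℕ} (hF : ∀ e, IsPowSparse U s N (F e))
    (hN : n * ((s + 1) * tn (s - 1)) ≤ N) {K : Type} [Field K] [Algebra k K] {w : ℕ}
    {y : Fin (n + 1) → K} (hy : SubVarU U F K w y) (hcomp : IsComponentU U F y) :
    (∃ b, Contracts U k y b) ∨ ∃ (h p : ℕ) (b : Fin p → Fin (n + 1) → ℤ), h + p = w ∧
      (∀ l, Acts U k y (b l)) ∧
      (∀ c : Fin p → ℤ, (∀ j j', y j ≠ 0 → y j' ≠ 0 →
        ∑ l, c l * b l j = ∑ l, c l * b l j') → c = 0) ∧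
      KodGe k K w (OffU U y) h ∧
      (∀ l, ∀ G : MvPolynomial (Fin (n + 1)) k, IsForm G → val y G = 0 →
        ∀ v, val y (wc (b l) v G) = 0) ∧
      ∃ (i0 : Fin (n + 1)) (jj : Fin p → Fin (n + 1)), y i0 ≠ 0 ∧ (∀ l, y (jj l) ≠ 0) ∧
        (∀ l, b l (jj l) ≠ b l i0) ∧ ∀ l m, m ≠ l → b l (jj m) = b l i0 := by
  classical
  by_cases hcontr : ∃ b, Contracts U k y b
  · exact Or.inl hcontr
  right
  have hK : CharZero K := charZero_of_injective_algebraMap (algebraMap k K).injective
  obtain ⟨i0, hi0⟩ := Function.ne_iff.1 hy.ne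
  have hi0' : y i0 ≠ 0 := hi0
  -- the differences of exponents in circuits
  let I : Type := Σ e : ι, Σ C : CD k (gg y (F e)), Fin (C.m + 1) × Fin (C.m + 1)
  let v : I → Fin (n + 1) → ℤ := fun i => df (i.2.1.e i.2.2.1) (i.2.1.e i.2.2.2)
  obtain ⟨r, φ, hrn, hspan⟩ := span_pick v (fun i => by
    obtain ⟨d, hd⟩ := (hF i.1).1
    exact df_sum hd _ _)
  let m : Fin r → ℕ := fun i => (φ i).2.1.m
  let T : ∀ i, Fin (m i + 1) → K := fun i l => (φ i).2.1.c l • gg y (F (φ i).1) ((φ i).2.1.e l)
  let a : ∀ i, Fin (m i + 1) := fun i => (φ i).2.2.1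
  let a' : ∀ i, Fin (m i + 1) := fun i => (φ i).2.2.2
  have hT : ∀ i j, T i j ≠ 0 := fun i j => smul_ne_zero ((φ i).2.1.hc j) (gg_ne _)
  have hordT : ∀ (P : Place k K) i j, P.ord (T i j) =
      P.ord (gg y (F (φ i).1) ((φ i).2.1.e j)) := fun P i j =>
    ord_smul' P ((φ i).2.1.hc j) _
  let tt : Fin r → K := fun i => T i (a i) / T i (a' i)
  -- a transcendence basis
  obtain ⟨h, p, t, u, rfl, ht, hu, hbasis, hkill⟩ := basis_pick hy.dim (Set.range tt)
    {z | ∃ j, y j ≠ 0 ∧ z = y j / y i0} (by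
      have h1 : Algebra.IsAlgebraic (coords k y) K := by
        rw [hy.gen]
        infer_instance
      refine alg_mono ?_ h1
      unfold coords
      rw [IntermediateField.adjoin_le_iff]
      rintro _ ⟨i, j, hj, rfl⟩
      have h2 : ∀ l, y l ≠ 0 → y l / y i0 ∈
          IntermediateField.adjoin k {z | ∃ j, y j ≠ 0 ∧ z = y j / y i0} := fun l hl =>
        IntermediateField.subset_adjoin k _ ⟨l, hl, rfl⟩
      by_cases hi : y i = 0
      · rw [hi, zero_div]
        exact zero_mem _
      · have h3 := div_mem (h2 i hi) (h2 j hj)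
        have h4 : y i / y i0 / (y j / y i0) = y i / y j := by field_simp
        rwa [h4] at h3)
  choose idx hidx using ht
  choose jj hjj hujj using hu
  have ht0 : ∀ i, t i ≠ 0 := fun i => by
    rw [← hidx]
    exact div_ne_zero (hT _ _) (hT _ _)
  have hu0 : ∀ l, u l ≠ 0 := fun l => by
    rw [hujj]
    exact div_ne_zero (hjj l) hi0'
  -- the torus
  have hder : ∀ q : Fin p, ∃ D : Derivation k K K, (∀ i, D (t i) = 0) ∧
      ∀ l, D (u l) = if l = q then u l else 0 := by
    intro q
    obtain ⟨D, hD⟩ := exists_der (Sum.elim t u) hbasis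
      (Sum.elim (fun _ => 0) (fun l => if l = q then u l else 0))
    exact ⟨D, fun i => hD (Sum.inl i), fun l => hD (Sum.inr l)⟩
  have hweights : ∀ q : Fin p, ∃ b : Fin (n + 1) → ℤ, b (jj q) ≠ b i0 ∧
      (∀ l, l ≠ q → b (jj l) = b i0) ∧ ∀ i, ∑ l, v i l * b l = 0 := by
    intro q
    obtain ⟨D, hDt, hDu⟩ := hder q
    have hlam : ∀ l, D (y (jj l)) / y (jj l) - D (y i0) / y i0 = if l = q then 1 else 0 := by
      intro l
      have h1 := hDu l
      rw [hujj l] at h1
      have h2 := hjj l
      have h3 : D (y (jj l) / y i0) = (y (jj l) / y i0) *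
          (D (y (jj l)) / y (jj l) - D (y i0) / y i0) := by
        rw [div_eq_mul_inv, D.leibniz, D.leibniz_inv]
        simp only [smul_eq_mul]
        field_simp
        ring
      rw [h3] at h1
      have h4 : y (jj l) / y i0 ≠ 0 := div_ne_zero h2 hi0'
      apply mul_left_cancel₀ h4
      rw [h1]
      split_ifs <;> ring
    obtain ⟨b, hb1, hb2⟩ := int_weights (fun j => D (y j) / y j) (i := jj q) (i' := i0) (by
      intro h0
      have h1 := hlam q
      rw [if_pos rfl] at h1
      rw [h0, sub_self] at h1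
      exact zero_ne_one h1)
    refine ⟨b, hb1, fun l hl => ?_, ?_⟩
    · have h1 := hb2 (fun j => (if j = jj l then 1 else 0) - (if j = i0 then 1 else 0)) (by
        have h2 := hlam l
        rw [if_neg hl] at h2
        simp only [Int.cast_sub, Int.cast_ite, Int.cast_one, Int.cast_zero, sub_mul, ite_mul,
          one_mul, zero_mul, Finset.sum_sub_distrib, Finset.sum_ite_eq', Finset.mem_univ, if_true]
        exact h2)
      simp only [sub_mul, ite_mul, one_mul, zero_mul, Finset.sum_sub_distrib, Finset.sum_ite_eq',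
        Finset.mem_univ, if_true] at h1
      exact sub_eq_zero.1 h1
    · apply hspan
      intro i
      apply hb2
      have h1 := hkill D hDt (tt i) ⟨i, rfl⟩
      have h2 := df_der D ((φ i).2.1.e (a i)) ((φ i).2.1.e (a' i))
      have hga := gg_ne ((φ i).2.1.e (a i))
      have hgb := gg_ne ((φ i).2.1.e (a' i))
      have hca : algebraMap k K ((φ i).2.1.c (a i)) ≠ 0 := by
        rw [Ne, map_eq_zero]; exact (φ i).2.1.hc _
      have hcb : algebraMap k K ((φ i).2.1.c (a' i)) ≠ 0 := by
        rw [Ne, map_eq_zero]; exact (φ i).2.1.hc _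
      have h3 : D (gg y (F (φ i).1) ((φ i).2.1.e (a i))) * gg y (F (φ i).1) ((φ i).2.1.e (a' i)) -
          gg y (F (φ i).1) ((φ i).2.1.e (a i)) * D (gg y (F (φ i).1) ((φ i).2.1.e (a' i))) = 0 := by
        change D ((φ i).2.1.c (a i) • gg y (F (φ i).1) ((φ i).2.1.e (a i)) /
          ((φ i).2.1.c (a' i) • gg y (F (φ i).1) ((φ i).2.1.e (a' i)))) = 0 at h1
        rw [Algebra.smul_def, Algebra.smul_def, div_eq_mul_inv, D.leibniz, D.leibniz_inv,
          D.leibniz, D.leibniz, D.map_algebraMap, D.map_algebraMap] at h1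
        simp only [smul_eq_mul, mul_zero, add_zero] at h1
        field_simp at h1
        rw [mul_zero] at h1
        have h2 := (mul_eq_zero.1 h1).resolve_left hca
        linear_combination h2
      rw [h3] at h2
      exact (mul_eq_zero.1 h2.symm).resolve_left (mul_ne_zero hga hgb)
  choose b hb1 hb2 hb3 using hweights
  have hH : ∀ l, ∀ G : MvPolynomial (Fin (n + 1)) k, IsForm G → val y G = 0 →
      ∀ v, val y (wc (b l) v G) = 0 := fun l =>
    ideal_hom hy hcomp (fun e v' => wc_zero (hy.mem e) (fun C c c' => hb3 l ⟨e, C, c, c'⟩) v')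
  refine ⟨h, p, b, rfl, fun l => acts_of_hom (hH l), ?_, ?_, hH, i0, jj, hi0', hjj, hb1, hb2⟩
  · intro c hc
    funext q
    have h1 := hc (jj q) i0 (hjj q) hi0'
    rw [← sub_eq_zero, ← Finset.sum_sub_distrib, Finset.sum_eq_single q] at h1
    · rw [← mul_sub] at h1
      exact (mul_eq_zero.1 h1).resolve_right (sub_ne_zero.2 (hb1 q))
    · intro l _ hl
      rw [hb2 l q hl.symm, sub_self]
    · intro h2
      exact absurd (Finset.mem_univ _) h2
  · -- the sections
    let x : Fin (h + p) → K := Sum.elim t u ∘ finSumFinEquiv.symm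
    have hx : IsTranscendenceBasis k x := hbasis.comp_equiv finSumFinEquiv.symm
    have hx0 : ∀ q, x q ≠ 0 := by
      intro q
      simp only [x, Function.comp_apply]
      rcases finSumFinEquiv.symm q with i | l
      · exact ht0 i
      · exact hu0 l
    obtain ⟨g, hg0, hg, hP⟩ := coreK T hT (fun i => (φ i).2.1.rel) (fun i => (φ i).2.1.lin) x hx0 hx
    have hwt : wt m ≤ N := by
      refine le_trans ?_ hN
      unfold wt
      calc ∑ i, (m i + 2) * tn (m i) ≤ ∑ _i : Fin r, (s + 1) * tn (s - 1) := by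
            refine Finset.sum_le_sum fun i _ => ?_
            have h3 : m i + 1 ≤ s := by
              have h4 := Fintype.card_le_of_injective _ (φ i).2.1.he
              simp only [Fintype.card_fin] at h4
              exact (h4.trans (gg_card _ _)).trans (hF _).2.1
            exact Nat.mul_le_mul (by omega) (tn_mono (by omega))
        _ = r * ((s + 1) * tn (s - 1)) := by simp
        _ ≤ n * ((s + 1) * tn (s - 1)) := Nat.mul_le_mul_right _ hrn
    let cc : Fin (h + 1) → ∀ i, Fin (m i + 1) :=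
      Fin.cases a' fun q => Function.update a' (idx q) (a (idx q))
    refine ⟨max 1 (wt m), by omega, fun j => form x (max 1 (wt m)) (g (cc j)),
      fun j => ⟨form_pluri _ _ _, fun P _ => (hP P).1 _, fun P _ hPU => (hP P).2 ?_ ?_ _⟩, ?_⟩
    · intro i j l
      rw [hordT, hordT]
      exact gg_jump P hy.unit hPU (hF _) hwt _ _
    · intro hall
      have hperp : ∀ (e : ι) (C : CD k (gg y (F e))) (c c' : Fin (C.m + 1)),
          ∑ l, df (C.e c) (C.e c') l * P.ord (y l) = 0 := by
        intro e C c c'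
        refine hspan (fun l => P.ord (y l)) (fun i => ?_) ⟨e, C, c, c'⟩
        have h1 := hall i (a i) (a' i)
        rw [hordT, hordT, ← sub_eq_zero, df_ord] at h1
        exact h1
      intro q
      simp only [x, Function.comp_apply]
      rcases finSumFinEquiv.symm q with i | l
      · simp only [Sum.elim_inl]
        rw [← hidx, P.ord_div (hT _ _) (hT _ _), hall (idx i) (a (idx i)) (a' (idx i)), sub_self]
      · simp only [Sum.elim_inr]
        by_contra hne
        apply hcontr
        refine contracts_of_place (fun e => (hF e).1) hy hcomp P hPU hperp (hjj l) hi0' ?_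
        intro h0
        apply hne
        rw [hujj, P.ord_div (hjj l) hi0', h0, sub_self]
    · obtain ⟨D, hD⟩ := exists_dual hx
      have hf : ∀ c, form x (max 1 (wt m)) (g c) D = g c := fun c => by
        unfold form
        rw [hD, Matrix.det_one, one_pow, mul_one]
      refine ⟨D, by change form x (max 1 (wt m)) (g (cc 0)) D ≠ 0; rw [hf]; exact hg0 _, ?_⟩
      have h1 : ∀ q : Fin h, g (cc q.succ) / g (cc 0) = t q := by
        intro q
        have h2 := hg (cc q.succ) (cc 0)
        have h3 : ∏ i, T i (cc q.succ i) = (∏ i, T i (cc 0 i)) * t q := by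
          change ∏ i, T i (Function.update a' (idx q) (a (idx q)) i) = (∏ i, T i (a' i)) * t q
          rw [← Finset.mul_prod_erase Finset.univ _ (Finset.mem_univ (idx q)),
            ← Finset.mul_prod_erase Finset.univ (fun i => T i (a' i)) (Finset.mem_univ (idx q))]
          have h4 : ∏ i ∈ Finset.univ.erase (idx q),
              T i (Function.update a' (idx q) (a (idx q)) i) =
              ∏ i ∈ Finset.univ.erase (idx q), T i (a' i) := by
            refine Finset.prod_congr rfl fun i hi => ?_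
            rw [Function.update_of_ne (Finset.ne_of_mem_erase hi)]
          rw [h4, Function.update_self, ← hidx q]
          have h5 := hT (idx q) (a' (idx q))
          simp only [tt]
          field_simp
        rw [h3] at h2
        have h4 : ∏ i, T i (cc 0 i) ≠ 0 := Finset.prod_ne_zero_iff.2 fun i _ => hT _ _
        have h5 := hg0 (cc 0)
        rw [div_eq_iff h5]
        apply mul_right_cancel₀ h4
        rw [h2]
        ring
      simp only [hf, h1]
      exact hbasis.1.comp Sum.inl Sum.inl_injective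

end

section

variable {K : Type} [Field K] [Algebra ℂ K] {N w m p : ℕ} {y : Fin (N + 1) → K}
  {z : Fin (m + 1) → K}

/-- the vector field of a one-parameter group, on the coordinates -/
theorem exists_delta' (hgen : coords ℂ z = ⊤) {b : Fin (m + 1) → ℤ} {i i' : Fin (m + 1)}
    (hi : z i ≠ 0) (hi' : z i' ≠ 0) (hb : b i ≠ b i')
    (hH : ∀ G : MvPolynomial (Fin (m + 1)) ℂ, IsForm G → val z G = 0 →
      ∀ v, val z (wc b v G) = 0) :
    ∃ (δ : Derivation ℂ K K) (b' : Fin (m + 1) → ℤ),
      (∀ j, z j ≠ 0 → δ (z j / z i) = ((b' j : ℤ) : K) * (z j / z i)) ∧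
      (∀ j, z j ≠ 0 → (b' j = 0 ↔ b j = b i)) ∧ ∀ Q, Tangent z b Q → DerLog Q δ := by
  obtain ⟨δ, σ, g, b', hσ0, hσ, htop, hg, hb', hz⟩ := exists_delta hgen b hi hi' hb hH
  have hδ : ∀ j, z j ≠ 0 → δ (z j / z i) = ((b' j : ℤ) : K) * (z j / z i) := by
    intro j hj
    obtain ⟨u, hu0, hu, hzj⟩ := hz j hj
    rw [hzj, δ.leibniz, hu, smul_zero, add_zero, smul_eq_mul, Derivation.leibniz_zpow]
    rw [hσ]
    simp only [smul_eq_mul, zsmul_eq_mul]
    have h2 : σ ^ (b' j - 1) * σ = σ ^ b' j := by
      rw [← zpow_add_one₀ hσ0, sub_add_cancel]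
    linear_combination (u * (b' j : K)) * h2
  refine ⟨δ, b', hδ, fun j hj => ?_, fun Q hQ => ?_⟩
  · have h1 := hb' j hj
    constructor
    · intro h2
      rw [h2, mul_zero] at h1
      exact sub_eq_zero.1 h1
    · intro h2
      rw [h2, sub_self] at h1
      exact (mul_eq_zero.1 h1.symm).resolve_left hg.ne'
  · refine derLog_of_smul hg.ne' (hQ ((g : K) • δ) ?_)
    intro j l hl
    by_cases hj : z j = 0
    · rw [hj, zero_div, map_zero, mul_zero]
    rw [Derivation.smul_apply, smul_eq_mul]
    have h2 : z j / z l = (z j / z i) / (z l / z i) := by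
      field_simp
    have h3 : z l / z i ≠ 0 := div_ne_zero hl hi
    have h4 : δ (z j / z l) = ((b' j - b' l : ℤ) : K) * (z j / z l) := by
      rw [h2, Derivation.leibniz_div, hδ j hj, hδ l hl]
      simp only [smul_eq_mul]
      push_cast
      field_simp
    rw [h4, ← mul_assoc]
    congr 1
    have h5 := hb' j hj
    have h6 := hb' l hl
    have h7 : b j - b l = g * (b' j - b' l) := by
      linear_combination h5 - h6
    rw [h7]
    push_cast
    ring

/-- **Torus actions.** -/
theorem torus_pair {U : Set (Fin (m + 1))} (hy : NormalModel y) (hn : Algebra.trdeg ℂ K = w)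
    {Δ : Place ℂ K → ℚ} (hΔ : Effective y Δ) (hLC : LogCanonical y w Δ)
    (hgen : coords ℂ z = ⊤) {b : Fin p → Fin (m + 1) → ℤ} {i0 : Fin (m + 1)}
    (hi0 : z i0 ≠ 0) {jj : Fin p → Fin (m + 1)} (hjj : ∀ l, z (jj l) ≠ 0)
    (hb1 : ∀ l, b l (jj l) ≠ b l i0) (hb2 : ∀ l j, j ≠ l → b l (jj j) = b l i0)
    (hH : ∀ l, ∀ G : MvPolynomial (Fin (m + 1)) ℂ, IsForm G → val z G = 0 →
      ∀ v, val z (wc (b l) v G) = 0)
    (hone : ∀ P, IsPrimeDivisor y P → OffU U z P → 1 ≤ Δ P)
    (hcan : ∀ Q, Divisorial w Q → LogDisc y w Δ Q 1 ∨ OverCoord z Q ∨ ∀ l, Tangent z (b l) Q)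
    {h : ℕ} (hh : h + p = w) (hk : KodGe ℂ K w (OffU U z) h) :
    kodairaDim y w Δ = (h : WithBot ℕ) ∧
      ∀ A, Effective y A → Integral y A → numericalDim y w Δ A = (h : EReal) := by
  classical
  choose δ b' hδ hb' hlog using fun l : Fin p =>
    exists_delta' (z := z) hgen (b := b l) hi0 (hjj l) (hb1 l).symm (hH l)
  let r : Fin (m + 1) → K := fun j => if z j ≠ 0 then z j / z i0 else 1
  have hr : ∀ j, z j ≠ 0 → r j = z j / z i0 := fun j hj => if_pos hj
  have hr0 : ∀ j, r j ≠ 0 := by
    intro j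
    simp only [r]
    split_ifs with h1
    · exact div_ne_zero h1 hi0
    · exact one_ne_zero
  let β : Fin p → Fin (m + 1) → ℤ := fun q j => if z j ≠ 0 then b' q j else 0
  have hrδ : ∀ q i, δ q (r i) = (β q i : K) * r i := by
    intro q i
    by_cases hi : z i = 0
    · simp only [r, β, if_neg (not_not.2 hi)]
      rw [Int.cast_zero, zero_mul, Derivation.map_one_eq_zero]
    · simp only [r, β, if_pos (show z i ≠ 0 from hi)]
      exact hδ q i hi
  have htop : IntermediateField.adjoin ℂ (Set.range r) = ⊤ := by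
    rw [← top_le_iff, ← hgen]
    unfold coords
    rw [IntermediateField.adjoin_le_iff]
    rintro _ ⟨i, j, hj, rfl⟩
    have h2 : ∀ l, r l ∈ IntermediateField.adjoin ℂ (Set.range r) := fun l =>
      IntermediateField.subset_adjoin ℂ _ ⟨l, rfl⟩
    by_cases hi : z i = 0
    · rw [hi, zero_div]
      exact zero_mem _
    · have h3 := div_mem (h2 i) (h2 j)
      have h4 : r i / r j = z i / z j := by
        rw [hr i hi, hr j hj]
        field_simp
      rwa [h4] at h3
  obtain ⟨D, hD, hup⟩ := torus_upper hy hn hΔ hLC hr0 hrδ htop (jj := jj)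
    (fun q => by
      simp only [β, if_pos (hjj q)]
      exact fun h1 => hb1 q ((hb' q _ (hjj q)).1 h1))
    (fun q l hl => by
      simp only [β, if_pos (hjj l)]
      exact (hb' q _ (hjj l)).2 (hb2 q l hl))
    (fun Q hQ => by
      rcases hcan Q hQ with h1 | ⟨j, l, hj, hl, hne⟩ | h1
      · exact Or.inl h1
      · right; left
        by_contra hcon
        push Not at hcon
        apply hne
        have h2 := hcon j
        have h3 := hcon l
        rw [hr j hj, Q.ord_div hj hi0] at h2
        rw [hr l hl, Q.ord_div hl hi0] at h3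
        omega
      · exact Or.inr (Or.inr fun q => hlog q Q (h1 q))) hh
  obtain ⟨M, hM, ω, hω, E, hE, h4⟩ := hk
  refine Pool.Agent.Y172.dims hΔ hD hup hM (ω := ω) (fun j => ⟨(hω j).1, fun P hP F hF => ?_⟩)
    hE h4
  by_cases h0 : ω j F = 0
  · exact Or.inl h0
  right
  rw [Pi.smul_apply, nsmul_eq_mul]
  have hPd := hP.divisorial hy hn
  by_cases hoff : OffU U z P
  · have h4 := pole_of_log (hω j).1 ((hω j).2.1 P hPd) hF h0
    have h5 : (-(M : ℚ)) ≤ (P.ord (ω j F) : ℚ) := by exact_mod_cast h4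
    have h6 : (M : ℚ) * 1 ≤ M * Δ P :=
      mul_le_mul_of_nonneg_left (hone P hP hoff) (Nat.cast_nonneg _)
    linarith
  · have h4 := (hω j).2.2 P hPd hoff F hF
    rw [P.reg_iff h0] at h4
    have h5 : (0 : ℚ) ≤ (P.ord (ω j F) : ℚ) := by exact_mod_cast h4
    have h6 : (0 : ℚ) ≤ M * Δ P := mul_nonneg (Nat.cast_nonneg _) (hΔ.1 P hP)
    linarith

end

section sparse

variable {n : ℕ} {ι : Type} {K : Type} [Field K] [Algebra ℂ K] {N w : ℕ} {y : Fin (N + 1) → K}
  {z : Fin (n + 1) → K}

/-- **Log canonical pairs on sparse varieties.** -/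
theorem sparse_pair_lc {U : Set (Fin (n + 1))} {F : ι → MvPolynomial (Fin (n + 1)) ℂ} {s M : ℕ}
    (hF : ∀ e, IsPowSparse U s M (F e)) (hN : n * ((s + 1) * ((s - 1) * (s - 2) / 2)) ≤ M)
    (hz : SubVarU U F K w z) (hcomp : IsComponentU U F z)
    (hy : NormalModel y) {Δ : Place ℂ K → ℚ} (hΔ : Effective y Δ) (hLC : LogCanonical y w Δ)
    (hone : ∀ P, IsPrimeDivisor y P → OffU U z P → 1 ≤ Δ P)
    (hklt : ∀ Q, Divisorial w Q → ¬ OffU U z Q → ∃ α > 0, LogDisc y w Δ Q α)
    (hcan : ∀ Q, Divisorial w Q → LogDisc y w Δ Q 1 ∨ OverCoord z Q ∨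
      ∀ b, Acts U ℂ z b → Tangent z b Q) :
    ((∃ b, Contracts U ℂ z b) ∧ kodairaDim y w Δ = ⊥ ∧
        ∀ A, Effective y A → numericalDim y w Δ A = ⊥) ∨
      ((¬ ∃ b, Contracts U ℂ z b) ∧
        ∃ (h p : ℕ) (b : Fin p → Fin (n + 1) → ℤ), h + p = w ∧ (∀ l, Acts U ℂ z (b l)) ∧
        (∀ c : Fin p → ℤ, (∀ j j', z j ≠ 0 → z j' ≠ 0 →
          ∑ l, c l * b l j = ∑ l, c l * b l j') → c = 0) ∧
        kodairaDim y w Δ = (h : WithBot ℕ) ∧
        ∀ A, Effective y A → Integral y A → numericalDim y w Δ A = (h : EReal)) := by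
  have htn : tn (s - 1) = (s - 1) * (s - 2) / 2 := by
    unfold tn
    rw [Fin.sum_univ_eq_sum_range (fun i => i), Finset.sum_range_id, Nat.sub_sub]
  by_cases hex : ∃ b, Contracts U ℂ z b
  · refine Or.inl ⟨hex, ?_⟩
    obtain ⟨b, hb⟩ := hex
    obtain ⟨i, hi, hbi⟩ := hb.fixed
    obtain ⟨i', hi', hbi'⟩ := hb.moved
    have hH : ∀ G : MvPolynomial (Fin (n + 1)) ℂ, IsForm G → val z G = 0 →
      ∀ v, val z (wc (fun j => (b j : ℤ)) v G) = 0 :=
      fun G hG h3 v => hom_of_contracts hz.unit hb G hG h3 v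
    have key : ∀ A, Effective y A → kodairaDim y w Δ = ⊥ ∧ numericalDim y w Δ A = ⊥ :=
      fun A hA => pair_acts (U := U) (b := fun j => (b j : ℤ)) hy hz.dim hLC hz.unit
        hz.gen hi hi' (by
          simp only [hbi]
          intro h3
          exact hbi' (by exact_mod_cast h3.symm)) (fun j hj l _ => by
          simp only [hb.zero j hj]
          positivity) hH
        (fun Q hQ => (hcan Q hQ).imp_right fun h => h.imp_right fun h =>
          h _ (acts_of_hom hH)) hklt hA
    exact ⟨(key 0 effective_zero).1, fun A hA => (key A hA).2⟩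
  · right
    refine ⟨hex, ?_⟩
    rcases kod_main2 hF (by rw [htn]; exact hN) hz hcomp with h0 | ⟨h, p, b, e1, e2, e3, e4, e5,
      i0, jj, hi0, hjj, hb1, hb2⟩
    · exact absurd h0 hex
    · obtain ⟨h6, h7⟩ := torus_pair hy hz.dim hΔ hLC hz.gen hi0 hjj hb1 hb2 e5 hone
        (fun Q hQ => (hcan Q hQ).imp_right fun h => h.imp_right fun h l => h _ (e2 l)) e1 e4
      exact ⟨h, p, b, e1, e2, e3, h6, h7⟩

end sparse

end Pool.Agent.N133.PC
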