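import Pool.Agent.N133.PC13

/-!
Projective log canonical pairs on wide systems (helper133).
-/

set_option autoImplicit false
set_option linter.overlappingInstances false
set_option linter.unusedSectionVars false

open FF IntermediateField Pool.Agent.W603.LV Pool.Agent.W602.GT
open Pool.Agent.Y172 (NormalModel IsPrimeDivisor Through OrdGe OrdEq Effective Integral
  LogCanonical IsSection kodairaDim numericalDim IsFrame Centred chart)
open Pool.Agent.Y191 (LogDisc)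

namespace Pool.Agent.N133.PC

section wide

open Pool.Agent.R869.Wd

variable {n : ℕ} {ι : Type} {K : Type} [Field K] [Algebra ℂ K] {N w : ℕ} {y : Fin (N + 1) → K}
  {z : Fin (n + 1) → K}

/-- **Log canonical pairs on wide systems.** -/
theorem wide_pair_lc' {U : Set (Fin (n + 1))} {F : ι → MvPolynomial (Fin (n + 1)) ℂ} {s M : ℕ}
    (hC : Sys U F s M) (hw : 1 ≤ w) (hz : SubVarU U F K w z) (hcomp : IsComponentU U F z)
    (hy : NormalModel y) {Δ : Place ℂ K → ℚ} (hΔ : Effective y Δ) (hLC : LogCanonical y w Δ)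
    (hone : ∀ P, IsPrimeDivisor y P → OffU U z P → 1 ≤ Δ P)
    (hklt : ∀ Q, Divisorial w Q → ¬ OffU U z Q → ∃ α > 0, LogDisc y w Δ Q α)
    (hcan : ∀ Q, Divisorial w Q → LogDisc y w Δ Q 1 ∨ OverCoord z Q ∨
      ∀ b, Acts U ℂ z b → Tangent z b Q) :
    ((∀ b, Acts U ℂ z b → ∀ i i', z i ≠ 0 → z i' ≠ 0 → b i = b i') ∧
      kodairaDim y w Δ = (w : WithBot ℕ) ∧
      ∀ A, Effective y A → Integral y A → numericalDim y w Δ A = (w : EReal)) ∨
    ((∃ b, Acts U ℂ z b ∧ (∃ i i', z i ≠ 0 ∧ z i' ≠ 0 ∧ b i ≠ b i') ∧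
        ∀ j ∈ U, ∀ l, z l ≠ 0 → b j ≤ b l) ∧
      kodairaDim y w Δ = ⊥ ∧ ∀ A, Effective y A → numericalDim y w Δ A = ⊥) ∨
    ((∃ b, Acts U ℂ z b ∧ ∃ i i', z i ≠ 0 ∧ z i' ≠ 0 ∧ b i ≠ b i') ∧
        ∀ b, Acts U ℂ z b → (∃ i i', z i ≠ 0 ∧ z i' ≠ 0 ∧ b i ≠ b i') →
          ∃ j ∈ U, ∃ l, z l ≠ 0 ∧ b l < b j) := by
  by_cases hlg : LogGeneralType ℂ K w (OffU U z)
  · exact Or.inl ⟨(lgt_iff_acts hC hw hz hcomp).1 hlg, pair_big_log hy hz.dim hΔ hlg hone⟩
  right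
  by_cases hcon : ∃ b, Acts U ℂ z b ∧ (∃ i i', z i ≠ 0 ∧ z i' ≠ 0 ∧ b i ≠ b i') ∧
      ∀ j ∈ U, ∀ l, z l ≠ 0 → b j ≤ b l
  · left
    refine ⟨hcon, ?_⟩
    obtain ⟨b, hb, ⟨i, i', hi, hi', hne⟩, hmin⟩ := hcon
    have key : ∀ A, Effective y A → kodairaDim y w Δ = ⊥ ∧ numericalDim y w Δ A = ⊥ :=
      fun A hA => pair_acts hy hz.dim hLC hz.unit hz.gen hi hi' hne hmin
        (fun G hG h v => hom_of_acts hz.unit hi hb G hG h v)
        (fun Q hQ => (hcan Q hQ).imp_right fun h => h.imp_right fun h => h b hb) hklt hA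
    exact ⟨(key 0 effective_zero).1, fun A hA => (key A hA).2⟩
  · right
    refine ⟨?_, fun b hb hne => ?_⟩
    · by_contra h3
      push Not at h3
      exact hlg ((lgt_iff_acts hC hw hz hcomp).2 fun b hb i i' hi hi' => h3 b hb i i' hi hi')
    · by_contra h3
      push Not at h3
      exact hcon ⟨b, hb, hne, h3⟩

end wide

end Pool.Agent.N133.PC
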