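import Pool.Agent.N133.PC9
import Pool.Agent.N133.PC15
import Pool.Agent.Y658.KA.Lim

/-!
One-parameter groups of diagonal matrices acting on covers of arbitrary projective varieties
(helper133). The proof of `zact_of_data` is that of `Pool.Agent.Y658.KA.zlim`.
-/

set_option autoImplicit false

namespace Pool.Agent.N133.PC

open MvPolynomial FF Pool.Agent.Y192.OG Pool.Agent.Y192.KC Pool.Agent.Y658.KZ Pool.Agent.Y658.KA

variable {n r : ℕ}

/-- The one-parameter group `s ↦ diag (s ^ l 0, …, s ^ l n)` preserves `Z`, the divisor of `G` on `Z`,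
and the divisors of the `F j` on `Z` up to multiples of `e j`: on `Z`, the form `G` is homogeneous for
the weights `l`, and the `F j` are products of `e j`-th powers of quotients of forms and quotients of
forms which are homogeneous for `l`. -/
def ZAct {n r : ℕ} (X : ZCov n r) (l : Fin (n + 1) → ℤ) : Prop :=
  (∀ f ∈ X.I, ∀ k, wp l k f ∈ X.I) ∧ (∃ k, X.G - wp l k X.G ∈ X.I) ∧
    ∀ j, ∃ D H B S : MvPolynomial (Fin (n + 1)) ℂ, D ∉ X.I ∧ H ∉ X.I ∧ B ∉ X.I ∧ S ∉ X.I ∧
      Hom l D ∧ Hom l H ∧ (∃ a, D.IsHomogeneous a) ∧ (∃ a, H.IsHomogeneous a) ∧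
      (∃ a, B.IsHomogeneous a) ∧ (∃ a, S.IsHomogeneous a) ∧
      D * B ^ X.e j * X.F j - H * S ^ X.e j ∈ X.I

theorem zact_of_zlimBy {X : ZCov n r} {l : Fin (n + 1) → ℤ} (h : ZLimBy X l) : ZAct X l := by
  obtain ⟨-, h1, ⟨a, -, -, h2⟩, h3⟩ := h
  exact ⟨h1, ⟨_, h2⟩, h3⟩

/-- one-parameter groups from Laurent polynomials -/
theorem zact_of_data (X : ZCov n r) {K : Type} [Field K] [Algebra ℂ K] (x : Fin n → Kˣ)
    (hv : ∀ (f : MvPolynomial (Fin (n + 1)) ℂ) (k : ℕ), f.IsHomogeneous k →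
      (ep x (laur f) = 0 ↔ f ∈ X.I))
    {ρ : ℕ} (γ : Fin ρ → Fin n → ℤ) (Γ : Submodule ℤ (Fin n → ℤ)) (F' : Fin (r + 1) → Lau ρ)
    (B S : Fin (r + 1) → Lau n) (a : Fin (r + 1) → Fin n → ℤ)
    (hΓ : ∀ m, m ∈ Γ ↔ ∃ a : Fin ρ → ℤ, m = ∑ i, a i • γ i)
    (hgr : ∀ g ∈ RingHom.ker (ep x), ∀ q, comp Γ q g ∈ RingHom.ker (ep x))
    (hrel : ∀ j, ep x (B j) ≠ 0 ∧ ep x (S j) ≠ 0 ∧ ep x (lm γ (F' j)) ≠ 0 ∧
        ep x (B j ^ X.eL j * X.FL j) =
          ep x (lm γ (F' j) * AddMonoidAlgebra.single (a j) 1 * S j ^ X.eL j))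
    (l : Fin (n + 1) → ℤ)
    (hl : ∀ m ∈ Γ, wt (tw l) m = 0) : ZAct X l := by
  classical
  have hker : ∀ g ∈ RingHom.ker (ep x), ∀ k, wpart (tw l) k g ∈ RingHom.ker (ep x) :=
    wpart_mem hgr hl
  have hγ : ∀ i, wt (tw l) (γ i) = 0 := by
    intro i
    apply hl
    refine (hΓ _).2 ⟨Pi.single i 1, ?_⟩
    rw [Finset.sum_eq_single i]
    · rw [Pi.single_eq_same, one_smul]
    · intro j _ hj
      rw [Pi.single_eq_of_ne hj, zero_smul]
    · intro h
      exact absurd (Finset.mem_univ i) h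
  have hxm : ∀ c : Fin (n + 1) →₀ ℕ, ep x (laur (monomial c (1 : ℂ))) ≠ 0 := by
    intro c
    rw [laur_monomial, ep_single, one_smul]
    exact Units.ne_zero _
  have hhom : ∀ (f : MvPolynomial (Fin (n + 1)) ℂ) (d : ℕ), f.IsHomogeneous d → f ∈ X.I →
      ∀ k, wp (lc (tw l)) k f ∈ X.I := by
    intro f d hf hfI k
    rw [← hv _ d (wp_hom _ _ hf), laur_wp]
    exact hker _ ((hv f d hf).mpr hfI) k
  refine ⟨?_, ⟨wt (tw l) (a 0) + l 0 * X.q, ?_⟩, ?_⟩
  · intro f hf k
    rw [← sum_homogeneousComponent f, wp_sum]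
    refine X.I.sum_mem fun d _ => ?_
    rw [wp_conv l k (homogeneousComponent_isHomogeneous d f)]
    exact hhom _ d (homogeneousComponent_isHomogeneous d f) (X.hom f hf d) _
  · obtain ⟨h3, h4, h5, h6⟩ := hrel 0
    have hFL : X.FL 0 = laur X.G := rfl
    have heL : X.eL 0 = 0 := rfl
    rw [hFL, heL, pow_zero, pow_zero, one_mul, mul_one] at h6
    rw [wp_conv l _ X.hG]
    have hkk : wt (tw l) (a 0) + l 0 * X.q - l 0 * X.q = wt (tw l) (a 0) := by
      ring
    rw [hkk]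
    rw [← hv _ X.q (X.hG.sub (wp_hom _ _ X.hG)), laur_sub, laur_wp]
    refine sub_wpart_mem (RingHom.ker (ep x)) (tw l) _ _ fun k hk => ?_
    have h7 : laur X.G - lm γ (F' 0) * AddMonoidAlgebra.single (a 0) 1 ∈ RingHom.ker (ep x) := by
      rw [RingHom.mem_ker, map_sub, h6, sub_self]
    have h8 := hker _ h7 k
    rw [wpart_sub, wpart_mul (tw l) k 0 (lm γ (F' 0)) _ (lm_wt γ (tw l) hγ _), wpart_single,
      sub_zero, if_neg (fun h => hk h.symm), mul_zero, sub_zero] at h8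
    exact h8
  · intro j
    obtain ⟨h3, h4, h5, h6⟩ := hrel j.succ
    have hFL : X.FL j.succ = laur (X.F j) := rfl
    have heL : X.eL j.succ = X.e j := rfl
    rw [hFL, heL] at h6
    set e := X.e j with he
    obtain ⟨m1, d1, U1, hU1, e1⟩ := Pool.Agent.Y768.KC.exists_hom (B j.succ)
    obtain ⟨m2, d2, U2, hU2, e2⟩ := Pool.Agent.Y768.KC.exists_hom
      (lm γ (F' j.succ) * AddMonoidAlgebra.single (a j.succ) 1)
    obtain ⟨m3, d3, U3, hU3, e3⟩ := Pool.Agent.Y768.KC.exists_hom (S j.succ)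
    have e1' : laur U1 = B j.succ * laur (monomial m1 1) := e1.symm
    have e2' : laur U2 = lm γ (F' j.succ) * AddMonoidAlgebra.single (a j.succ) 1 *
        laur (monomial m2 1) := e2.symm
    have e3' : laur U3 = S j.succ * laur (monomial m3 1) := e3.symm
    have hX0 : ∀ k : ℕ, laur ((MvPolynomial.X 0 : MvPolynomial (Fin (n + 1)) ℂ) ^ k) = 1 := by
      intro k
      rw [laur_eq, Pool.Agent.Y768.KC.laurL_pow, Pool.Agent.Y768.KC.laurL_X0, one_pow]
    set p1 : ℕ := m1.degree * e + d2 + d3 * e with hp1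
    set p2 : ℕ := m2.degree + m3.degree * e + d1 * e + X.d j with hp2
    set D' : MvPolynomial (Fin (n + 1)) ℂ :=
      monomial m2 1 * monomial m3 1 ^ e * MvPolynomial.X 0 ^ p1 with hD'
    set H' : MvPolynomial (Fin (n + 1)) ℂ := monomial m1 1 ^ e * U2 * MvPolynomial.X 0 ^ p2 with hH'
    have hmon : ∀ c : Fin (n + 1) →₀ ℕ,
        (monomial c (1 : ℂ) : MvPolynomial (Fin (n + 1)) ℂ).IsHomogeneous c.degree := fun c =>
      isHomogeneous_monomial _ rfl
    have hD'h : D'.IsHomogeneous (m2.degree + m3.degree * e + p1) :=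
      ((hmon m2).mul ((hmon m3).pow e)).mul (isHomogeneous_X_pow _ _)
    have hH'h : H'.IsHomogeneous (m1.degree * e + d2 + p2) :=
      (((hmon m1).pow e).mul hU2).mul (isHomogeneous_X_pow _ _)
    have hlD : laur D' = laur (monomial m2 1) * laur (monomial m3 1) ^ e := by
      rw [hD', laur_mul, laur_mul, laur_pow, hX0, mul_one]
    have hlH : laur H' = laur (monomial m1 1) ^ e * (lm γ (F' j.succ) *
        AddMonoidAlgebra.single (a j.succ) 1 * laur (monomial m2 1)) := by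
      rw [hH', laur_mul, laur_mul, hX0, mul_one, laur_pow, e2']
    have hDI : D' ∉ X.I := by
      intro h
      have h7 := (hv _ _ hD'h).mpr h
      rw [hlD, map_mul, map_pow] at h7
      exact mul_ne_zero (hxm m2) (pow_ne_zero _ (hxm m3)) h7
    have hsing : ep x (AddMonoidAlgebra.single (a j.succ) 1) ≠ 0 := by
      rw [ep_single, one_smul]
      exact Units.ne_zero _
    have hHI : H' ∉ X.I := by
      intro h
      have h7 := (hv _ _ hH'h).mpr h
      rw [hlH, map_mul, map_mul, map_mul, map_pow] at h7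
      exact mul_ne_zero (pow_ne_zero _ (hxm m1)) (mul_ne_zero (mul_ne_zero h5 hsing) (hxm m2)) h7
    have hBI : U1 ∉ X.I := by
      intro h
      have h7 := (hv _ _ hU1).mpr h
      rw [e1', map_mul] at h7
      exact mul_ne_zero h3 (hxm m1) h7
    have hSI : U3 ∉ X.I := by
      intro h
      have h7 := (hv _ _ hU3).mpr h
      rw [e3', map_mul] at h7
      exact mul_ne_zero h4 (hxm m3) h7
    refine ⟨D', H', U1, U3, hDI, hHI, hBI, hSI, ?_, ?_, ⟨_, hD'h⟩, ⟨_, hH'h⟩, ⟨_, hU1⟩,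
      ⟨_, hU3⟩, ?_⟩
    · have hmon3 : Hom l ((monomial m3 (1 : ℂ)) ^ e) := by
        rw [monomial_pow]
        exact hom_monomial _ _ _
      rw [hD', X0_pow]
      exact hom_mul (hom_mul (hom_monomial _ _ _) hmon3) (hom_monomial _ _ _)
    · have hU : Hom l U2 := by
        apply hom_conv l hU2
        refine hom_of_laur hU2
          ((0 + wt (tw l) (a j.succ)) + wt (tw l) (Pool.Agent.Y768.KC.sh m2)) ?_
        rw [e2', laur_monomial]
        exact supp_mul_single (supp_mul_single (lm_wt γ (tw l) hγ _) _ _) _ _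
      have hmon1 : Hom l ((monomial m1 (1 : ℂ)) ^ e) := by
        rw [monomial_pow]
        exact hom_monomial _ _ _
      rw [hH', X0_pow]
      exact hom_mul (hom_mul hmon1 hU) (hom_monomial _ _ _)
    · have hdeg1 : (D' * U1 ^ e * X.F j).IsHomogeneous
          (m2.degree + m3.degree * e + p1 + d1 * e + X.d j) :=
        (hD'h.mul (hU1.pow e)).mul (X.hF j)
      have hdeg2 : (H' * U3 ^ e).IsHomogeneous
          (m2.degree + m3.degree * e + p1 + d1 * e + X.d j) := by
        have := hH'h.mul (hU3.pow e)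
        have hh : m1.degree * e + d2 + p2 + d3 * e =
            m2.degree + m3.degree * e + p1 + d1 * e + X.d j := by
          rw [hp1, hp2]
          ring
        rwa [hh] at this
      rw [← hv _ _ (hdeg1.sub hdeg2), laur_sub, laur_mul _ (X.F j), laur_mul D' (U1 ^ e),
        laur_mul H' (U3 ^ e), laur_pow U3 e, laur_pow U1 e, hlD, hlH, e3', e1']
      simp only [map_sub, map_mul, map_pow] at h6 ⊢
      rw [mul_pow, mul_pow]
      linear_combination (ep x (laur (monomial m1 1)) ^ e * ep x (laur (monomial m2 1)) *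
        ep x (laur (monomial m3 1)) ^ e) * h6

end Pool.Agent.N133.PC
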