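import Pool.Agent.N133.PC16

/-!
The vector fields of the torus acting on a cover of a projective variety (helper133).
-/

set_option autoImplicit false
set_option linter.overlappingInstances false
set_option linter.unusedSectionVars false

namespace Pool.Agent.N133.PC

open MvPolynomial FF Pool.Agent.W602.GT Pool.Agent.W603.LV Pool.Agent.Y192.OG Pool.Agent.Y192.KC
  Pool.Agent.Y658.KA
open Pool.Agent.Y153.KZ (yy yy_ne aeval_scale exists_form ep_unit)
open Pool.Agent.Y379.KG (ep_lm)
open Pool.Agent.Y172 (mono mono_ne logd_mono)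

section

variable {n b m : ℕ} {L K' : Type} [Field L] [Algebra ℂ L] [Field K'] [Algebra ℂ K'] [Algebra K' L]
  [IsScalarTower ℂ K' L]

theorem xm_eq_mono (u : Fin n → Lˣ) (e : Fin n → ℤ) :
    (xm u e : L) = mono (fun i => (u i : L)) e := by
  unfold xm mono
  rw [Units.coe_prod]
  exact Finset.prod_congr rfl fun i _ => Units.val_zpow_eq_zpow_val _ _

theorem der_pow_log (D : Derivation ℂ L L) {s : L} (hs : s ≠ 0) (hm : 0 < m) {k : ℤ}
    (h : D (s ^ m) = ((m * k : ℤ) : L) * s ^ m) : D s = (k : L) * s := by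
  have hL : CharZero L := charZero_of_injective_algebraMap (algebraMap ℂ L).injective
  rw [D.leibniz_pow] at h
  have hm' : (m : L) ≠ 0 := by exact_mod_cast hm.ne'
  have h1 : s ^ (m - 1) ≠ 0 := pow_ne_zero _ hs
  have h2 : s ^ m = s ^ (m - 1) * s := by rw [← pow_succ, Nat.sub_add_cancel hm]
  simp only [smul_eq_mul, nsmul_eq_mul] at h
  rw [h2] at h
  apply mul_left_cancel₀ (mul_ne_zero hm' h1)
  push_cast at h
  linear_combination h

theorem der_pow_log' (D : Derivation ℂ L L) {s : L} {k : ℤ} (hm : 0 < m)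
    (h : D s = (k : L) * s) : D (s ^ m) = ((m * k : ℤ) : L) * s ^ m := by
  rw [D.leibniz_pow, h]
  have h2 : s ^ m = s ^ (m - 1) * s := by rw [← pow_succ, Nat.sub_add_cancel hm]
  simp only [smul_eq_mul, nsmul_eq_mul]
  rw [h2]
  push_cast
  ring

/-- the vector fields on the monomials -/
theorem eig0 (hm0 : 0 < m) (u z : Fin n → Lˣ) (hzu : ∀ i, z i = u i ^ m)
    {Γ : Submodule ℤ (Fin n → ℤ)} {bt : Fin b → Fin n → ℤ} {co : (Fin n → ℤ) →+ (Fin b → ℤ)}
    (hSp : Splt Γ bt co)
    (hcomp : ∀ g : Lau n, ep z g = 0 → ∀ q, ep z (comp Γ q g) = 0)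
    (htb : IsTranscendenceBasis K' (fun c => (xm u (bt c) : L)))
    (hF0 : ∀ c : L, c ∈ F0 z Γ → ∃ y : K', algebraMap K' L y = c) :
    ∃ δ : Fin b → Derivation ℂ L L, (∀ c (y : K'), δ c (algebraMap K' L y) = 0) ∧
      ∀ c e, δ c (xm u e : L) = ((co e c : ℤ) : L) * (xm u e : L) := by
  classical
  have hK : CharZero K' := charZero_of_injective_algebraMap (algebraMap ℂ K').injective
  choose δ0 hδ0 using fun c : Fin b => exists_der (fun c => (xm u (bt c) : L)) htb
    (fun c' => if c' = c then (xm u (bt c') : L) else 0)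
  let δ : Fin b → Derivation ℂ L L := fun c => (δ0 c).restrictScalars ℂ
  have hδ : ∀ c x, δ c x = δ0 c x := fun c x => rfl
  have hkill : ∀ c (y : K'), δ c (algebraMap K' L y) = 0 := fun c y => by
    rw [hδ, Derivation.map_algebraMap]
  obtain ⟨-, hmon⟩ := Pool.Agent.Y809.OG.t_split n L z Γ b bt co hSp
    (fun g hg q => hcomp g hg q)
  have hs : ∀ c c', δ c (xm u (bt c') : L) = ((if c' = c then 1 else 0 : ℤ) : L) *
      (xm u (bt c') : L) := by
    intro c c'
    rw [hδ, hδ0]
    split_ifs with h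
    · rw [Int.cast_one, one_mul]
    · rw [Int.cast_zero, zero_mul]
  have hsz : ∀ c c', δ c (xm z (bt c') : L) = ((m * (if c' = c then 1 else 0) : ℤ) : L) *
      (xm z (bt c') : L) := by
    intro c c'
    rw [xm_upow z u m hzu]
    exact der_pow_log' (δ c) hm0 (hs c c')
  have hz : ∀ c e, δ c (xm z e : L) = ((m * co e c : ℤ) : L) * (xm z e : L) := by
    intro c e
    obtain ⟨f, hf0, hf⟩ := hmon e
    obtain ⟨y, hy⟩ := hF0 (f : L) f.2
    have h1 : (xm z e : L) = (f : L) * mono (fun j => (xm z (bt j) : L)) (co e) := hf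
    have h2 : δ c (mono (fun j => (xm z (bt j) : L)) (co e)) = ((m * co e c : ℤ) : L) *
        mono (fun j => (xm z (bt j) : L)) (co e) := by
      rw [logd_mono (δ c) (fun j => Units.ne_zero _)]
      congr 1
      rw [Finset.sum_eq_single c]
      · rw [hsz, if_pos rfl, mul_div_cancel_right₀ _ (Units.ne_zero _)]
        push_cast
        ring
      · intro j _ hj
        rw [hsz, if_neg hj, mul_zero, Int.cast_zero, zero_mul, zero_div, mul_zero]
      · intro h
        exact absurd (Finset.mem_univ c) h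
    rw [h1, (δ c).leibniz, h2, ← hy, hkill, smul_zero, add_zero, smul_eq_mul]
    ring
  refine ⟨δ, hkill, fun c e => ?_⟩
  have h1 := hz c e
  rw [xm_upow z u m hzu] at h1
  exact der_pow_log (δ c) (Units.ne_zero _) hm0 h1

end

end Pool.Agent.N133.PC
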