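import Pool.Agent.N133.PC17

/-!
The logarithmic Kodaira dimension of covers of arbitrary projective varieties, and the vector fields of
the torus (helper133).
-/

set_option autoImplicit false
set_option linter.overlappingInstances false
set_option linter.unusedSectionVars false

namespace Pool.Agent.N133.PC

open MvPolynomial FF Pool.Agent.W602.GT Pool.Agent.W603.LV Pool.Agent.Y192.OG Pool.Agent.Y192.KC
  Pool.Agent.W619.PL Pool.Agent.Y547.KS Pool.Agent.Y658.KA
open Pool.Agent.Y153.KZ (yy yy_ne aeval_scale exists_form ep_unit)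
open Pool.Agent.Y379.KG (ep_lm)

/-- the weights on projective space of the coordinates of the lattice -/
def lw {n b : ℕ} (co : (Fin n → ℤ) →+ (Fin b → ℤ)) (c : Fin b) : Fin (n + 1) → ℤ :=
  Fin.cons (α := fun _ => ℤ) 0 fun i => co (Pi.single i 1) c

/-- The data of a torus acting on the variety with the generic point `t`: vector fields `δ c`, and
generators `ξ` of the function field which are eigenvectors. -/
structure Eig {n b : ℕ} {L : Type} [Field L] [Algebra ℂ L] (t : Fin (n + 1) → L)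
    (Bd : Place ℂ L → Prop) (co : (Fin n → ℤ) →+ (Fin b → ℤ)) {R : ℕ}
    (δ : Fin b → Derivation ℂ L L) (ξ : Fin R → L) (β : Fin b → Fin R → ℤ) (jj : Fin b → Fin R) :
    Prop where
  coord : ∀ c i, δ c (t i / t 0) = ((lw co c i : ℤ) : L) * (t i / t 0)
  ne : ∀ i, ξ i ≠ 0
  eig : ∀ c i, δ c (ξ i) = ((β c i : ℤ) : L) * ξ i
  gen : IntermediateField.adjoin ℂ (Set.range ξ) = ⊤
  diag : ∀ c, β c (jj c) ≠ 0
  off : ∀ c c', c' ≠ c → β c (jj c') = 0
  ov : ∀ Q : Place ℂ L, OverCoord t Q ∨ Bd Q → ∃ i, Q.ord (ξ i) ≠ 0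

/-- the vector fields -/
theorem a1x_eig {n r ρ b m : ℕ} (X : ZCov n r) (hm0 : 0 < m) (hem : ∀ j, X.e j ∣ m)
    {L K' : Type} [Field L] [Algebra ℂ L] [Field K'] [Algebra ℂ K'] [Algebra K' L]
    [IsScalarTower ℂ K' L] {t : Fin (n + 1) → L} {w : Fin r → L} (hZ : ZField X m L t w)
    (ht : ∀ i, t i ≠ 0) (u z : Fin n → Lˣ) (hzu : ∀ i, z i = u i ^ m)
    (hut : ∀ i, (u i : L) = t i.succ / t 0)
    {Γ : Submodule ℤ (Fin n → ℤ)} {bt : Fin b → Fin n → ℤ} {co : (Fin n → ℤ) →+ (Fin b → ℤ)}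
    (hSp : Splt Γ bt co) (co2 : ∀ j, co (bt j) = Pi.single j 1)
    (hcomp : ∀ g : Lau n, ep z g = 0 → ∀ q, ep z (comp Γ q g) = 0)
    (htb : IsTranscendenceBasis K' (fun c => (xm u (bt c) : L)))
    (hK1 : ∀ e ∈ Γ, ∃ y : K', algebraMap K' L y = (xm z e : L))
    (γ : Fin ρ → Fin n → ℤ) (F' : Fin (r + 1) → Lau ρ) (B S : Fin (r + 1) → Lau n)
    (a : Fin (r + 1) → Fin n → ℤ)
    (hFK : ∀ j, ∃ y : K', algebraMap K' L y = ep z (lm γ (F' j)))
    (hrelz : ∀ j, ep z (B j) ≠ 0 ∧ ep z (S j) ≠ 0 ∧ ep z (lm γ (F' j)) ≠ 0 ∧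
      ep z (B j ^ X.eL j * X.FL j -
        lm γ (F' j) * AddMonoidAlgebra.single (a j) 1 * S j ^ X.eL j) = 0)
    (hval : ∀ (f : MvPolynomial (Fin (n + 1)) ℂ) (k : ℕ), f.IsHomogeneous k →
      aeval (fun i => t i ^ m) f = (t 0 ^ m) ^ k * ep z (laur f))
    (hzF : ∀ j, (w j / t 0 ^ X.wt m j) ^ X.e j = ep z (laur (X.F j))) :
    ∃ (R : ℕ) (δ : Fin b → Derivation ℂ L L) (ξ : Fin R → L) (β : Fin b → Fin R → ℤ)
      (jj : Fin b → Fin R), Eig t (OffG X.toCov m t) co δ ξ β jj := by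
  classical
  have hLc : CharZero L := charZero_of_injective_algebraMap (algebraMap ℂ L).injective
  have ht0 := ht 0
  have hF0 : ∀ c : L, c ∈ F0 z Γ → ∃ y : K', algebraMap K' L y = c := by
    intro c hc
    have h1 : F0 z Γ ≤ (IsScalarTower.toAlgHom ℂ K' L).fieldRange := by
      unfold F0
      rw [IntermediateField.adjoin_le_iff]
      rintro _ ⟨e, he, rfl⟩
      obtain ⟨y, hy⟩ := hK1 e he
      exact ⟨y, hy⟩
    obtain ⟨y, hy⟩ := h1 hc
    exact ⟨y, hy⟩
  obtain ⟨δ, hkill, hxm⟩ := eig0 hm0 u z hzu hSp hcomp htb hF0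
  have hxz : ∀ c e, δ c (xm z e : L) = ((m * co e c : ℤ) : L) * (xm z e : L) := by
    intro c e
    rw [xm_upow z u m hzu]
    exact der_pow_log' (δ c) hm0 (hxm c e)
  have hkF : ∀ c j, δ c (ep z (lm γ (F' j))) = 0 := by
    intro c j
    obtain ⟨y, hy⟩ := hFK j
    rw [← hy, hkill]
  -- the coordinates
  have hui : ∀ i, (xm u (Pi.single i 1) : L) = t i.succ / t 0 := fun i => by
    rw [Pool.Agent.Y153.KZ.xm_single, hut]
  have hcoord : ∀ c i, δ c (t i / t 0) = ((lw co c i : ℤ) : L) * (t i / t 0) := by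
    intro c i
    refine Fin.cases ?_ (fun i => ?_) i
    · rw [div_self ht0, Derivation.map_one_eq_zero]
      change (0 : L) = ((0 : ℤ) : L) * 1
      rw [Int.cast_zero, zero_mul]
    · rw [← hui, hxm]
      rfl
  -- the value of `G`
  obtain ⟨gG, hgG⟩ : ∃ gG : L, gG = ep z (laur X.G) := ⟨_, rfl⟩
  have hG1 : gG = ep z (lm γ (F' 0)) * (xm z (a 0) : L) := by
    obtain ⟨-, -, -, h1⟩ := hrelz 0
    have he0 : X.eL 0 = 0 := rfl
    have hFL0 : X.FL 0 = laur X.G := rfl
    rw [he0, pow_zero, pow_zero, one_mul, mul_one, hFL0, map_sub, map_mul, ep_single, one_smul,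
      sub_eq_zero] at h1
    rw [hgG, h1]
  have hG0 : gG ≠ 0 := by
    rw [hG1]
    exact mul_ne_zero (hrelz 0).2.2.1 (Units.ne_zero _)
  have hGδ : ∀ c, δ c gG = ((m * co (a 0) c : ℤ) : L) * gG := by
    intro c
    rw [hG1, (δ c).leibniz, hkF, hxz, smul_zero, add_zero, smul_eq_mul]
    ring
  -- the algebraic functions
  have hz : ∀ e : Fin n → ℤ, ∀ k : ℕ, k ∣ m → (xm z e : L) = ((xm u e : L) ^ (m / k)) ^ k := by
    intro e k hk
    rw [xm_upow z u m hzu, ← pow_mul, Nat.div_mul_cancel hk]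
  obtain ⟨v, hv⟩ : ∃ v : Fin r → L, ∀ j, v j = (w j / t 0 ^ X.wt m j) * ep z (B j.succ) /
      (ep z (S j.succ) * (xm u (a j.succ) : L) ^ (m / X.e j)) := ⟨_, fun j => rfl⟩
  have hxu : ∀ e : Fin n → ℤ, (xm u e : L) ≠ 0 := fun e => Units.ne_zero _
  have hvp : ∀ j, v j ^ X.e j = ep z (lm γ (F' j.succ)) := by
    intro j
    obtain ⟨h1, h2, h3, h4⟩ := hrelz j.succ
    have heL : X.eL j.succ = X.e j := rfl
    have hFL : X.FL j.succ = laur (X.F j) := rfl
    rw [map_sub, map_mul, map_mul, map_mul, map_pow, map_pow, ep_single, one_smul,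
      sub_eq_zero, heL, hFL, ← hzF, hz _ _ (hem j)] at h4
    rw [hv, div_pow, mul_pow, mul_pow, div_eq_iff (mul_ne_zero (pow_ne_zero _ h2)
      (pow_ne_zero _ (pow_ne_zero _ (hxu _))))]
    linear_combination h4
  have hv0 : ∀ j, v j ≠ 0 := by
    intro j h0
    have h1 := hvp j
    rw [h0, zero_pow (X.he j).ne'] at h1
    exact (hrelz j.succ).2.2.1 h1.symm
  have hvδ : ∀ c j, δ c (v j) = 0 := by
    intro c j
    have h1 : δ c (v j ^ X.e j) = ((X.e j * (0 : ℤ) : ℤ) : L) * v j ^ X.e j := by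
      rw [hvp, hkF, mul_zero, Int.cast_zero, zero_mul]
    have h2 := der_pow_log (δ c) (hv0 j) (X.he j) h1
    rw [h2, Int.cast_zero, zero_mul]
  -- the generators
  let ι : Type := Fin b ⊕ (Fin (n + 1) ⊕ (Fin r ⊕ Unit))
  let ξ' : ι → L := Sum.elim (fun c => (xm u (bt c) : L)) (Sum.elim (fun i => t i / t 0)
    (Sum.elim v (fun _ => gG)))
  let β' : Fin b → ι → ℤ := fun c => Sum.elim (fun c' => if c' = c then 1 else 0)
    (Sum.elim (fun i => lw co c i) (Sum.elim (fun _ => 0) (fun _ => m * co (a 0) c)))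
  let e : ι ≃ Fin (Fintype.card ι) := Fintype.equivFin ι
  have hr : Set.range (ξ' ∘ e.symm) = Set.range ξ' := e.symm.surjective.range_comp _
  refine ⟨Fintype.card ι, δ, ξ' ∘ e.symm, fun c i => β' c (e.symm i), fun c => e (Sum.inl c),
    hcoord, fun i => ?_, fun c i => ?_, ?_, fun c => ?_, fun c c' hc => ?_, fun Q hQ => ?_⟩
  · change ξ' (e.symm i) ≠ 0
    rcases e.symm i with c | i | j | _
    · exact hxu _
    · exact div_ne_zero (ht i) ht0
    · exact hv0 j
    · exact hG0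
  · change δ c (ξ' (e.symm i)) = ((β' c (e.symm i) : ℤ) : L) * ξ' (e.symm i)
    rcases e.symm i with c' | i | j | _
    · change δ c (xm u (bt c') : L) = (((if c' = c then 1 else 0 : ℤ)) : L) * (xm u (bt c') : L)
      rw [hxm, co2]
      congr 2
      rw [Pi.single_apply]
      simp only [eq_comm]
    · exact hcoord c i
    · change δ c (v j) = ((0 : ℤ) : L) * v j
      rw [hvδ, Int.cast_zero, zero_mul]
    · exact hGδ c
  · rw [hr]
    set E := IntermediateField.adjoin ℂ (Set.range ξ') with hE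
    have hsub : ∀ i : ι, ξ' i ∈ E := fun i => IntermediateField.subset_adjoin ℂ _ ⟨i, rfl⟩
    have h1 : ∀ i, t i / t 0 ∈ E := fun i => hsub (Sum.inr (Sum.inl i))
    have h2 : ∀ i, (u i : L) ∈ E := fun i => by
      rw [hut]
      exact h1 _
    have h3 : ∀ i, (z i : L) ∈ E := fun i => by
      rw [hzu, Units.val_pow_eq_pow_val]
      exact pow_mem (h2 i) m
    rw [← top_le_iff, ← hZ.gen, IntermediateField.adjoin_le_iff]
    rintro y (⟨i, rfl⟩ | ⟨j, rfl⟩)
    · exact h1 i
    · obtain ⟨h4, h5, h6, -⟩ := hrelz j.succ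
      have h7 : w j / t 0 ^ X.wt m j = v j * (ep z (S j.succ) *
          (xm u (a j.succ) : L) ^ (m / X.e j)) / ep z (B j.succ) := by
        rw [hv]
        have := hxu (a j.succ)
        field_simp
      change w j / t 0 ^ X.wt m j ∈ E
      rw [h7]
      exact div_mem (mul_mem (hsub (Sum.inr (Sum.inr (Sum.inl j)))) (mul_mem (ep_mem' z E h3 _)
        (pow_mem (xm_mem u E h2 _) _))) (ep_mem' z E h3 _)
  · change β' c (e.symm (e (Sum.inl c))) ≠ 0
    rw [e.symm_apply_apply]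
    change (if c = c then (1 : ℤ) else 0) ≠ 0
    rw [if_pos rfl]
    exact one_ne_zero
  · change β' c (e.symm (e (Sum.inl c'))) = 0
    rw [e.symm_apply_apply]
    change (if c' = c then (1 : ℤ) else 0) = 0
    rw [if_neg hc]
  · by_contra hcon
    push Not at hcon
    have hall : ∀ i : ι, Q.ord (ξ' i) = 0 := fun i => by
      have h1 := hcon (e i)
      change Q.ord (ξ' (e.symm (e i))) = 0 at h1
      rwa [e.symm_apply_apply] at h1
    have hti : ∀ i, Q.ord (t i) = Q.ord (t 0) := by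
      intro i
      have h1 := hall (Sum.inr (Sum.inl i))
      change Q.ord (t i / t 0) = 0 at h1
      rw [Q.ord_div (ht i) ht0] at h1
      omega
    rcases hQ with ⟨i, j, -, -, hne⟩ | hoff
    · exact hne ((hti i).trans (hti j).symm)
    · have h1 := hoff (Q.ord (t 0)) (fun i => (hti i).ge) ⟨0, rfl⟩
      have h2 := hall (Sum.inr (Sum.inr (Sum.inr ())))
      change Q.ord gG = 0 at h2
      have h3 := hval X.G X.q X.hG
      change m * X.q * Q.ord (t 0) < Q.ord (aeval (fun i => t i ^ m) X.G) at h1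
      rw [h3, ← hgG, Q.ord_mul (pow_ne_zero _ (pow_ne_zero _ ht0)) hG0, h2, Q.ord_pow, Q.ord_pow]
        at h1
      have h4 : (X.q : ℤ) * (m * Q.ord (t 0)) + 0 = m * X.q * Q.ord (t 0) := by ring
      rw [h4] at h1
      exact lt_irrefl _ h1

/-- The covers have logarithmic pluricanonical forms, and vector fields. The proof follows that of
`Pool.Agent.Y658.KA.t_a1x`. -/
theorem a1x_core (n r : ℕ) (X : ZCov n r) (K : Type) [Field K] [Algebra ℂ K] (x : Fin n → Kˣ)
    (hI : ∀ (f : MvPolynomial (Fin (n + 1)) ℂ) (k : ℕ), f.IsHomogeneous k →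
      (ep x (laur f) = 0 ↔ f ∈ X.I))
    (ρ p : ℕ) (γ : Fin ρ → Fin n → ℤ) (Γ : Submodule ℤ (Fin n → ℤ)) (F' : Fin (r + 1) → Lau ρ)
    (B S : Fin (r + 1) → Lau n) (a : Fin (r + 1) → Fin n → ℤ)
    (hΓ : ∀ m, m ∈ Γ ↔ ∃ a : Fin ρ → ℤ, m = ∑ i, a i • γ i)
    (hgr : ∀ g ∈ RingHom.ker (ep x), ∀ q, comp Γ q g ∈ RingHom.ker (ep x))
    (hrel : ∀ j, ep x (B j) ≠ 0 ∧ ep x (S j) ≠ 0 ∧ ep x (lm γ (F' j)) ≠ 0 ∧
        ep x (B j ^ X.eL j * X.FL j) =
          ep x (lm γ (F' j) * AddMonoidAlgebra.single (a j) 1 * S j ^ X.eL j))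
    (K' : Type) [Field K'] [Algebra ℂ K'] (x' : Fin ρ → K'ˣ)
    (hx' : ∀ g : Lau ρ, ep x' g = 0 ↔ ep x (lm γ g) = 0)
    (hgen : IntermediateField.adjoin ℂ (Set.range fun i => (x' i : K')) = ⊤)
    (hLG : LogGeneralType ℂ K' p (fun P => (∃ i, P.ord (x' i : K') ≠ 0) ∨
        ∃ j, ¬ ((X.eL j : ℤ) ∣ P.ord (ep x' (F' j))))) (hnl : ¬ ZLim X)
    (b : ℕ) (bt : Fin b → Fin n → ℤ) (co : (Fin n → ℤ) →+ (Fin b → ℤ))
    (co1 : ∀ m, co m = 0 ↔ m ∈ Γ) (co2 : ∀ j, co (bt j) = Pi.single j 1) :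
      ∃ m0 : ℕ, ∀ m, m0 ≤ m → 0 < m → (∀ j, X.e j ∣ m) →
        ∀ (L : Type) [Field L] [Algebra ℂ L] (t : Fin (n + 1) → L) (w : Fin r → L),
        ZField X m L t w → ∀ d : ℕ, Algebra.trdeg ℂ L = d →
          p + b = d ∧ KodGe ℂ L d (OffG X.toCov m t) p ∧
          ∃ (R : ℕ) (δ : Fin b → Derivation ℂ L L) (ξ : Fin R → L) (β : Fin b → Fin R → ℤ)
            (jj : Fin b → Fin R), Eig t (OffG X.toCov m t) co δ ξ β jj := by
  have hEK : Algebra.EssFiniteType ℂ K' := by
    have h1 : (⊤ : IntermediateField ℂ K').FG := by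
      rw [← hgen]
      exact IntermediateField.fg_adjoin_of_finite (Set.finite_range _)
    exact IntermediateField.fg_top_iff.mp h1
  have hSp : Splt Γ bt co := ⟨co1, co2⟩
  have hy0 : yy x' 0 = 1 := rfl
  have hys : ∀ i : Fin ρ, yy x' i.succ = (x' i : K') := fun i => rfl
  have hgy : IntermediateField.adjoin ℂ (Set.range fun i => yy x' i / yy x' 0) = ⊤ := by
    rw [eq_top_iff, ← hgen, IntermediateField.adjoin_le_iff]
    rintro _ ⟨i, rfl⟩
    apply IntermediateField.subset_adjoin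
    refine ⟨i.succ, ?_⟩
    show yy x' i.succ / yy x' 0 = _
    rw [hy0, div_one, hys]
  obtain ⟨μ, hμ⟩ := a1g_kod ρ p b (yy x')
    (fun P => ∃ j, ¬ ((X.eL j : ℤ) ∣ P.ord (ep x' (F' j)))) (yy_ne x')
    (by
      intro z
      have hz : z ∈ IntermediateField.adjoin ℂ (Set.range fun i => yy x' i / yy x' 0) := by
        rw [hgy]
        exact IntermediateField.mem_top
      exact isAlgebraic_algebraMap
        (⟨z, hz⟩ : IntermediateField.adjoin ℂ (Set.range fun i => yy x' i / yy x' 0)))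
    (by
      have e : (fun P : Place ℂ K' => (∃ i, P.ord (yy x' i) ≠ P.ord (yy x' 0)) ∨
          ∃ j, ¬ ((X.eL j : ℤ) ∣ P.ord (ep x' (F' j)))) =
          (fun P => (∃ i, P.ord (x' i : K') ≠ 0) ∨
            ∃ j, ¬ ((X.eL j : ℤ) ∣ P.ord (ep x' (F' j)))) := by
        funext P
        apply propext
        apply or_congr_left
        rw [hy0, P.ord_one]
        constructor
        · rintro ⟨i, hi⟩
          revert hi
          refine Fin.cases ?_ (fun i => ?_) i
          · intro hi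
            rw [hy0, P.ord_one] at hi
            exact absurd rfl hi
          · intro hi
            exact ⟨i, hi⟩
        · rintro ⟨i, hi⟩
          exact ⟨i.succ, hi⟩
      rw [e]
      exact hLG)
  refine ⟨μ, fun m hm hm0 hem L _ _ t w hZ d hd => ?_⟩
  -- the coordinates do not vanish
  have ht : ∀ i, t i ≠ 0 := by
    intro i h0
    have h1 := (hZ.van (MvPolynomial.X i) 1 (isHomogeneous_X ℂ i)).1 (by
      rw [aeval_X, h0, zero_pow hm0.ne'])
    exact X.hX i h1
  have ht0 := ht 0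
  let u : Fin n → Lˣ := fun i => Units.mk0 (t i.succ / t 0) (div_ne_zero (ht _) ht0)
  let z : Fin n → Lˣ := fun i => Units.mk0 ((t i.succ / t 0) ^ m)
    (pow_ne_zero _ (div_ne_zero (ht _) ht0))
  have hzu : ∀ i, z i = u i ^ m := fun i => Units.ext (by
    rw [Units.val_pow_eq_pow_val]
    rfl)
  have hz : yy z = fun i => (t i / t 0) ^ m := by
    funext i
    refine Fin.cases ?_ (fun i => ?_) i
    · show (1 : L) = _
      rw [div_self ht0, one_pow]
    · rfl
  -- values of forms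
  have hval : ∀ (f : MvPolynomial (Fin (n + 1)) ℂ) (k : ℕ), f.IsHomogeneous k →
      aeval (fun i => t i ^ m) f = (t 0 ^ m) ^ k * ep z (laur f) := by
    intro f k hf
    rw [Pool.Agent.Y153.KZ.ep_laur, hz, ← Pool.Agent.Y153.KZ.aeval_scale hf]
    congr 2
    funext i
    rw [div_pow, mul_div_cancel₀ _ (pow_ne_zero m ht0)]
  have hker : ∀ g : Lau n, ep x g = 0 ↔ ep z g = 0 := by
    intro g
    obtain ⟨v, D, U, hu, hU, e⟩ := exists_form g
    have h1 : ep x g = 0 ↔ ep x (laur U) = 0 := by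
      rw [← e, map_mul, mul_eq_zero]
      exact ⟨Or.inl, fun h => h.resolve_right (ep_unit x hu)⟩
    have h2 : ep z g = 0 ↔ ep z (laur U) = 0 := by
      rw [← e, map_mul, mul_eq_zero]
      exact ⟨Or.inl, fun h => h.resolve_right (ep_unit z hu)⟩
    rw [h1, h2, hI U D hU, ← hZ.van U D hU, hval U D hU, mul_eq_zero]
    exact ⟨fun h => h.resolve_left (pow_ne_zero _ (pow_ne_zero _ ht0)), Or.inr⟩
  let z' : Fin ρ → Lˣ := fun i => xm z (γ i)
  have hz' : ∀ g : Lau ρ, ep z' g = ep z (lm γ g) := fun g => ep_lm z γ g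
  obtain ⟨σ, hσ⟩ := Pool.Agent.Y153.KZ.exists_emb x' z' hgen (fun g => by rw [hx', hz', hker])
  have hσy : ∀ i : Fin ρ, σ (x' i : K') = (z' i : L) := by
    intro i
    have h1 : ∀ {F : Type} [Field F] [Algebra ℂ F] (u : Fin ρ → Fˣ),
        ep u (AddMonoidAlgebra.single (Pi.single i 1) 1) = (u i : F) := by
      intro F _ _ u
      rw [ep_single, Pool.Agent.Y153.KZ.xm_single, one_smul]
    rw [← h1 x', hσ, h1 z']
  have hwt : ∀ j, X.wt m j * X.e j = m * X.d j := fun j =>
    Nat.div_mul_cancel ((hem j).mul_right _)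
  have hzF : ∀ j, (w j / t 0 ^ X.wt m j) ^ X.e j = ep z (laur (X.F j)) := by
    intro j
    rw [div_pow, hZ.eqn j, hval _ _ (X.hF j), ← pow_mul, ← pow_mul, hwt, mul_comm,
      mul_div_assoc, div_self (pow_ne_zero _ ht0), mul_one]
  -- the relations
  have hrelz : ∀ j, ep z (B j) ≠ 0 ∧ ep z (S j) ≠ 0 ∧ ep z (lm γ (F' j)) ≠ 0 ∧
      ep z (B j ^ X.eL j * X.FL j -
        lm γ (F' j) * AddMonoidAlgebra.single (a j) 1 * S j ^ X.eL j) = 0 := by
    intro j
    obtain ⟨h1, h2, h3, h4⟩ := hrel j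
    refine ⟨fun h => h1 ((hker _).2 h), fun h => h2 ((hker _).2 h),
      fun h => h3 ((hker _).2 h), (hker _).1 ?_⟩
    rw [map_sub, h4, sub_self]
  have hcomp : ∀ g : Lau n, ep z g = 0 → ∀ q, ep z (comp Γ q g) = 0 := by
    intro g hg q
    rw [← hker] at hg ⊢
    exact hgr g hg q
  let _ : Algebra K' L := σ.toRingHom.toAlgebra
  have hST : IsScalarTower ℂ K' L := IsScalarTower.of_algebraMap_eq' (σ.comp_algebraMap).symm
  have hmap : ∀ y : K', algebraMap K' L y = σ y := fun y => rfl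
  have hEL : Algebra.EssFiniteType ℂ L := by
    have h1 : (⊤ : IntermediateField ℂ L).FG := by
      rw [← hZ.gen]
      exact IntermediateField.fg_adjoin_of_finite ((Set.finite_range _).union (Set.finite_range _))
    exact IntermediateField.fg_top_iff.mp h1
  -- the transcendence basis
  have hK1 : ∀ e ∈ Γ, ∃ y : K', algebraMap K' L y = (xm z e : L) := by
    intro e he
    obtain ⟨c, rfl⟩ := (hΓ e).1 he
    refine ⟨(xm x' c : K'), ?_⟩
    rw [hmap]
    have h1 := hσ (AddMonoidAlgebra.single c 1)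
    rw [ep_single, ep_single, one_smul, one_smul] at h1
    rw [h1, Pool.Agent.Y379.KG.xm_sum]
    unfold xm
    rw [Units.coe_prod, Units.coe_prod]
    refine Finset.prod_congr rfl fun i _ => ?_
    have h2 := Pool.Agent.Y379.KG.xm_smul z (c i) (γ i)
    rw [show (∏ i_1, z i_1 ^ (c i • γ i) i_1 : Lˣ) = xm z (c i • γ i) from rfl, h2]
  have hK2 : ∀ y : K', algebraMap K' L y ∈ F0 z Γ := by
    intro y
    have h1 : y ∈ IntermediateField.adjoin ℂ (Set.range fun i => (x' i : K')) := by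
      rw [hgen]
      exact IntermediateField.mem_top
    have h2 : IntermediateField.adjoin ℂ (Set.range fun i => (x' i : K')) ≤
        (F0 z Γ).comap σ := by
      rw [IntermediateField.adjoin_le_iff]
      rintro _ ⟨i, rfl⟩
      show σ (x' i : K') ∈ F0 z Γ
      rw [hσy]
      refine IntermediateField.subset_adjoin _ _ ⟨γ i, (hΓ _).2 ⟨Pi.single i 1, ?_⟩, rfl⟩
      rw [Finset.sum_eq_single i]
      · rw [Pi.single_eq_same, one_smul]
      · intro j _ hj
        rw [Pi.single_eq_of_ne hj, zero_smul]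
      · intro h
        exact absurd (Finset.mem_univ i) h
    exact h2 h1
  have htb : IsTranscendenceBasis K' (fun c => (xm u (bt c) : L)) := by
    refine tb z u m hzu hSp hcomp hK1 hK2 ?_
    · intro E hE
      have h1 : ∀ i, IsAlgebraic E (t i / t 0) := by
        intro i
        refine Fin.cases ?_ (fun i => ?_) i
        · rw [div_self ht0]
          exact isAlgebraic_one
        · have h2 : IsAlgebraic E ((t i.succ / t 0) ^ m) := by
            have h3 : (t i.succ / t 0) ^ m = algebraMap E L ⟨(z i : L), hE i⟩ := rfl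
            rw [h3]
            exact isAlgebraic_algebraMap _
          exact h2.of_pow hm0
      have h3 : ∀ j, IsAlgebraic E (w j / t 0 ^ X.wt m j) := by
        intro j
        have h4 : IsAlgebraic E ((w j / t 0 ^ X.wt m j) ^ X.e j) := by
          rw [hzF]
          have h5 : ep z (laur (X.F j)) ∈ E.restrictScalars ℂ := ep_mem' z _ hE _
          exact isAlgebraic_algebraMap (⟨_, h5⟩ : E)
        exact h4.of_pow (X.he j)
      have hCE : IsScalarTower ℂ E L := IsScalarTower.of_algebraMap_eq fun _ => rfl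
      have hsub : (⊤ : IntermediateField ℂ L) ≤ (algebraicClosure E L).restrictScalars ℂ := by
        rw [← hZ.gen]
        apply IntermediateField.adjoin_le_iff.mpr
        rintro y (⟨i, rfl⟩ | ⟨j, rfl⟩)
        · exact mem_algebraicClosure_iff.mpr (h1 i)
        · exact mem_algebraicClosure_iff.mpr (h3 j)
      intro y
      exact mem_algebraicClosure_iff.mp (hsub (IntermediateField.mem_top (x := y)))
  have hdpb : d = p + b := by
    have h1 := trdeg_add_eq ℂ K' (A := L)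
    rw [← htb.cardinalMk_eq_trdeg, hLG.1, hd, Cardinal.mk_fin] at h1
    exact_mod_cast h1.symm
  refine ⟨hdpb.symm, ?_, ?_⟩
  swap
  · exact a1x_eig X hm0 hem hZ ht u z hzu (fun i => rfl) hSp co2 hcomp htb hK1 γ F' B S a
      (fun j => ⟨ep x' (F' j), by rw [hmap, hσ, hz']⟩) hrelz hval hzF
  subst hdpb
  refine hμ L (fun c => (xm u (bt c) : L)) (OffG X.toCov m t) hd (fun c => Units.ne_zero _) htb.1
    fun P hP => ?_
  unfold OffG at hP
  push Not at hP
  obtain ⟨c, hc1, hc2, hc3⟩ := hP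
  set lam : Fin n → ℤ := fun i => P.ord (z i : L) with hlamdef
  have hlam : ∀ i, lam i = m * (P.ord (t i.succ) - P.ord (t 0)) := by
    intro i
    have h1 : P.ord (z i : L) = P.ord ((t i.succ / t 0) ^ m) := rfl
    rw [hlamdef]
    change P.ord (z i : L) = _
    rw [h1, P.ord_pow, P.ord_div (ht _) ht0]
  have hxmo : ∀ e : Fin n → ℤ, P.ord ((xm z e : Lˣ) : L) = ∑ i, lam i * e i := ord_xm P z
  have hmul' : ∀ e : Fin n → ℤ, ∑ i, lam i * e i =
      m * Pool.Agent.Y658.KZ.wt (Pool.Agent.Y658.KA.tw fun i => P.ord (t i)) e := by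
    intro e
    unfold Pool.Agent.Y658.KZ.wt Pool.Agent.Y658.KA.tw
    rw [Finset.mul_sum]
    refine Finset.sum_congr rfl fun i _ => ?_
    rw [hlam]
    ring
  have hmul : ∀ e : Fin n → ℤ, ∃ b : ℤ, ∑ i, lam i * e i = m * b := fun e => ⟨_, hmul' e⟩
  have hordy : ∀ i : Fin ρ, P.ord (algebraMap K' L (yy x' i.succ)) = ∑ k, lam k * γ i k := by
    intro i
    rw [hmap, hys, hσy]
    exact hxmo (γ i)
  have hordy0 : P.ord (algebraMap K' L (yy x' 0)) = 0 := by rw [hy0, map_one, P.ord_one]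
  by_cases hall : ∀ i : Fin ρ, ∑ k, lam k * γ i k = 0
  · left
    have hlamΓ : ∀ e ∈ Γ, ∑ i, lam i * e i = 0 := by
      intro e he
      obtain ⟨b, rfl⟩ := (hΓ e).1 he
      have h1 : ∀ i, lam i * (∑ l, b l • γ l) i = ∑ l, b l * (lam i * γ l i) := by
        intro i
        rw [Finset.sum_apply, Finset.mul_sum]
        refine Finset.sum_congr rfl fun l _ => ?_
        rw [Pi.smul_apply, smul_eq_mul]
        ring
      rw [Finset.sum_congr rfl fun i _ => h1 i, Finset.sum_comm]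
      refine Finset.sum_eq_zero fun l _ => ?_
      rw [← Finset.mul_sum, hall l, mul_zero]
    set κ : ℤ := m * (c - P.ord (t 0)) with hκ
    have hm' : (0 : ℤ) ≤ m := Int.natCast_nonneg m
    have hκ0 : κ ≤ 0 := mul_nonpos_of_nonneg_of_nonpos hm' (by linarith [hc1 0])
    have hκi : ∀ i, κ ≤ lam i := by
      intro i
      rw [hlam]
      exact mul_le_mul_of_nonneg_left (by linarith [hc1 i.succ]) hm'
    have hmain : P.ord (ep z (lm γ (F' 0))) = 0 ∧ ∑ i, lam i * a 0 i = X.q * κ := by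
      obtain ⟨hB0, hS0, hF0, hr0⟩ := hrelz 0
      have he0 : X.eL 0 = 0 := rfl
      have hFL0 : X.FL 0 = laur X.G := rfl
      rw [he0, pow_zero, pow_zero, one_mul, mul_one, hFL0] at hr0
      obtain ⟨hH0, hΛκ⟩ := keyG X P z Γ hcomp γ (F' 0) (a 0) hr0 hF0 κ hκ0 hκi hlamΓ hall
      have hr1 := hr0
      rw [map_sub, map_mul, ep_single, one_smul, sub_eq_zero] at hr1
      have hup : P.ord (ep z (lm γ (F' 0))) + ∑ i, lam i * a 0 i ≤ X.q * κ := by
        have hv := hval _ _ X.hG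
        rw [hr1] at hv
        rw [hv, P.ord_mul (pow_ne_zero _ (pow_ne_zero _ ht0))
          (mul_ne_zero hF0 (Units.ne_zero _)), P.ord_mul hF0 (Units.ne_zero _), hxmo, P.ord_pow,
          P.ord_pow] at hc3
        rw [hκ]
        have h1 : (X.q : ℤ) * (m * (c - P.ord (t 0))) = m * X.q * c - X.q * (m * P.ord (t 0)) := by
          ring
        rw [h1]
        linarith
      constructor
      · linarith
      · linarith
    have hmz : (m : ℤ) ≠ 0 := by exact_mod_cast hm0.ne'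
    have heq : ∀ i, P.ord (t i) = P.ord (t 0) := by
      by_contra hne
      push Not at hne
      obtain ⟨i1, hi1⟩ := hne
      refine hnl (zlim X x hI γ Γ F' B S a hΓ hgr hrel (fun i => P.ord (t i)) ⟨i1, 0, hi1⟩ ?_ c hc1
        hc2 ?_)
      · intro e he
        have h1 := hmul' e
        rw [hlamΓ e he] at h1
        exact (mul_eq_zero.1 h1.symm).resolve_left hmz
      · have h1 := hmul' (a 0)
        rw [hmain.2, hκ] at h1
        apply mul_left_cancel₀ hmz
        rw [← h1]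
        ring
    refine ⟨fun i => ?_, ?_, ?_⟩
    · refine Fin.cases rfl (fun i => ?_) i
      rw [hordy, hordy0, hall]
    · intro P0 s hs hB hs1
      obtain ⟨j, hj⟩ := hB
      apply hj
      have hPj : P0.ord (ep x' (F' j)) = P.ord (ep z (lm γ (F' j))) := by
        have h1 := hs (ep x' (F' j))
        rw [hs1, Nat.cast_one, one_mul, hmap, hσ, hz'] at h1
        exact h1.symm
      rw [hPj]
      obtain ⟨hB0, hS0, hF0, hr0⟩ := hrelz j
      have hr1 := hr0
      rw [map_sub, map_mul, map_mul, map_mul, map_pow, map_pow, ep_single, one_smul,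
        sub_eq_zero] at hr1
      revert hj hPj hB0 hS0 hF0 hr0 hr1
      refine Fin.cases ?_ (fun j => ?_) j
      · intro _ _ hB0 hS0 hF0 hr0 hr1
        show ((0 : ℕ) : ℤ) ∣ P.ord (ep z (lm γ (F' 0)))
        rw [hmain.1]
        exact dvd_zero _
      · intro _ _ hB0 hS0 hF0 hr0 hr1
        show ((X.e j : ℕ) : ℤ) ∣ P.ord (ep z (lm γ (F' j.succ)))
        have heL : X.eL j.succ = X.e j := rfl
        have hFL : X.FL j.succ = laur (X.F j) := rfl
        rw [heL, hFL, ← hzF] at hr1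
        have hw0 : (w j / t 0 ^ X.wt m j) ^ X.e j ≠ 0 := by
          intro h0
          rw [h0, mul_zero] at hr1
          exact mul_ne_zero (mul_ne_zero hF0 (Units.ne_zero _)) (pow_ne_zero _ hS0) hr1.symm
        have h1 := congrArg P.ord hr1
        rw [P.ord_mul (pow_ne_zero _ hB0) hw0, P.ord_mul (mul_ne_zero hF0 (Units.ne_zero _))
          (pow_ne_zero _ hS0), P.ord_mul hF0 (Units.ne_zero _), P.ord_pow, P.ord_pow, P.ord_pow,
          hxmo] at h1
        obtain ⟨b, hb⟩ := hmul (a j.succ)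
        rw [hb] at h1
        obtain ⟨b', hb'⟩ : ((X.e j : ℕ) : ℤ) ∣ (m : ℤ) := by exact_mod_cast hem j
        refine ⟨P.ord (ep z (B j.succ)) + P.ord (w j / t 0 ^ X.wt m j) - b' * b -
          P.ord (ep z (S j.succ)), ?_⟩
        rw [hb'] at h1
        linear_combination -h1
    · intro c'
      show P.ord ((xm u (bt c') : Lˣ) : L) = 0
      rw [ord_xm]
      refine Finset.sum_eq_zero fun i _ => ?_
      have h1 : P.ord (u i : L) = P.ord (t i.succ / t 0) := rfl
      rw [h1, P.ord_div (ht _) ht0, heq, sub_self, zero_mul]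
  · right
    push Not at hall
    obtain ⟨i, hi⟩ := hall
    obtain ⟨b, hb⟩ := hmul (γ i)
    have hb0 : b ≠ 0 := by
      rintro rfl
      rw [mul_zero] at hb
      exact hi hb
    have h3 : (μ : ℤ) ≤ m := by exact_mod_cast hm
    have h4 : (0 : ℤ) ≤ m := Int.natCast_nonneg m
    rcases lt_or_gt_of_ne hb0 with h5 | h5
    · refine ⟨i.succ, 0, ?_⟩
      rw [hordy, hordy0, hb]
      have h6 : (m : ℤ) * b ≤ m * (-1) := mul_le_mul_of_nonneg_left (by omega) h4
      linarith
    · refine ⟨0, i.succ, ?_⟩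
      rw [hordy, hordy0, hb]
      have h6 : (m : ℤ) * 1 ≤ m * b := mul_le_mul_of_nonneg_left (by omega) h4
      linarith

end Pool.Agent.N133.PC
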