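import Pool.Agent.N133.PC18

/-!
The Kodaira dimension and the numerical dimension of log canonical pairs on covers of arbitrary
projective varieties (helper133). The first part of the proof of `kum_struct` is that of
`Pool.Agent.Y192.KC.mainA`.
-/

set_option autoImplicit false
set_option linter.overlappingInstances false
set_option linter.unusedSectionVars false

namespace Pool.Agent.N133.PC

open MvPolynomial FF Pool.Agent.W602.GT Pool.Agent.W603.LV Pool.Agent.Y192.OG Pool.Agent.Y192.KC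
  Pool.Agent.W619.PL Pool.Agent.Y658.KA
open Pool.Agent.Y172 (NormalModel IsPrimeDivisor Through OrdGe OrdEq Effective Integral
  LogCanonical IsSection kodairaDim numericalDim IsFrame Centred chart)
open Pool.Agent.Y191 (LogDisc)

/-- **Covers without a one-parameter group with limits.** -/
theorem kum_struct {n r : ℕ} (X : ZCov n r) (hT : ¬ ZLim X) :
    ∃ (q : ℕ) (co : (Fin n → ℤ) →+ (Fin q → ℤ)), (∀ c, ZAct X (lw co c)) ∧
      (∀ a : Fin q → ℤ, (∀ i j, ∑ c, a c * lw co c i = ∑ c, a c * lw co c j) → a = 0) ∧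
      ∃ m0 : ℕ, ∀ m, m0 ≤ m → 0 < m → (∀ j, X.e j ∣ m) →
        ∀ (L : Type) [Field L] [Algebra ℂ L] (t : Fin (n + 1) → L) (w : Fin r → L),
        ZField X m L t w → ∀ d : ℕ, Algebra.trdeg ℂ L = d →
          ∃ p, p + q = d ∧ KodGe ℂ L d (OffG X.toCov m t) p ∧
          ∃ (R : ℕ) (δ : Fin q → Derivation ℂ L L) (ξ : Fin R → L) (β : Fin q → Fin R → ℤ)
            (jj : Fin q → Fin R), Eig t (OffG X.toCov m t) co δ ξ β jj := by
  classical
  obtain ⟨K, i1, i2, x, hx, hgen⟩ := exists_K X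
  have hFne : ∀ j, ep x (X.FL j) ≠ 0 := by
    intro j
    refine Fin.cases ?_ (fun j => ?_) j
    · intro h
      exact X.hGI ((hx X.G X.q X.hG).mp h)
    · intro h
      exact X.hFI j ((hx (X.F j) (X.d j) (X.hF j)).mp h)
  -- logarithmic forms
  obtain ⟨ρ, γ, Γ', F', B, S', a', q1, q2, q3, q4, q5, q6, q7⟩ :=
    Pool.Agent.Y438.KS.t_min n (r + 1) K x X.FL X.eL hFne
  let K' : IntermediateField ℂ K := IntermediateField.adjoin ℂ (Set.range fun i => (xm x (γ i) : K))
  have hmem : ∀ i, (xm x (γ i) : K) ∈ K' := fun i => IntermediateField.subset_adjoin _ _ ⟨i, rfl⟩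
  let x0 : Fin ρ → K' := fun i => ⟨(xm x (γ i) : K), hmem i⟩
  have hx0 : ∀ i, x0 i ≠ 0 := fun i h => (xm x (γ i)).ne_zero (congrArg Subtype.val h)
  let x' : Fin ρ → K'ˣ := fun i => Units.mk0 (x0 i) (hx0 i)
  have hep : ∀ g : Lau ρ, K'.val (ep x' g) = ep (fun i => xm x (γ i)) g := by
    intro g
    induction g using AddMonoidAlgebra.induction_linear with
    | zero => rw [map_zero, map_zero, map_zero]
    | add f g hf hg => rw [map_add, map_add, map_add, hf, hg]
    | single m c =>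
      rw [ep_single, ep_single, map_smul]
      congr 1
      unfold xm
      rw [Units.coe_prod, Units.coe_prod, map_prod]
      refine Finset.prod_congr rfl fun i _ => ?_
      rw [Units.val_zpow_eq_zpow_val, Units.val_zpow_eq_zpow_val, map_zpow₀]
      rfl
  have hker : ∀ g : Lau ρ, ep x' g = 0 ↔ ep x (lm γ g) = 0 := by
    intro g
    rw [← q5 g, ← hep g]
    exact (map_eq_zero_iff K'.val K'.val.injective).symm
  have hker2 : ∀ g : Lau ρ, g ∈ RingHom.ker (ep x') ↔
      g ∈ RingHom.ker (ep fun i => xm x (γ i)) := by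
    intro g
    rw [RingHom.mem_ker, RingHom.mem_ker, hker, q5]
  have hgen' : IntermediateField.adjoin ℂ (Set.range fun i => (x' i : K')) = ⊤ := by
    have h3 : (Set.range fun i => (x' i : K')) = Set.range x0 := rfl
    rw [h3]
    apply IntermediateField.lift_injective
    rw [IntermediateField.lift_top, IntermediateField.lift_adjoin]
    congr 1
    rw [← Set.range_comp]
    rfl
  have hred' : ¬ RedL x' F' X.eL := by
    rintro ⟨l, hl0, hl, A1, D1, S1, a1, h1⟩
    refine q7 ⟨l, hl0, fun g hg k => (hker2 _).mp (hl g ((hker2 _).mpr hg) k), A1, D1, S1, a1,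
      fun j => ?_⟩
    obtain ⟨h2, h3, h4, h5, h6, h7⟩ := h1 j
    have hne : ∀ g : Lau ρ, ep x' g ≠ 0 → ep (fun i => xm x (γ i)) g ≠ 0 := by
      intro g hg h
      exact hg ((hker2 g).mpr h)
    refine ⟨h2, h3, hne _ h4, hne _ h5, hne _ h6, ?_⟩
    rw [← hep, ← hep, h7]
  obtain ⟨p, hp⟩ := finite_trdeg (fun i => (x' i : K')) hgen'
  have hF' : ∀ j, ep x' (F' j) ≠ 0 := fun j h => (q6 j).2.2.1 ((hker _).mp h)
  have hlg : LogGeneralType ℂ K' p (fun P => (∃ i, P.ord (x' i : K') ≠ 0) ∨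
      ∃ j, ¬ ((X.eL j : ℤ) ∣ P.ord (ep x' (F' j)))) := by
    rcases Nat.eq_zero_or_pos p with hp0 | hp1
    · subst hp0
      exact lgt_zero hp _
    · exact zlg_all ρ (r + 1) K' x' F' X.eL p hF' hgen' hp hp1 hred'
  obtain ⟨b, bt, co, co1, co2⟩ := Pool.Agent.Y833.OG.basis_exists Γ' q3
  obtain ⟨m2, hm2⟩ := a1x_core n r X K x hx ρ p γ Γ' F' B S' a' q2 q4 q6 K' x' hker hgen'
    hlg hT b bt co co1 co2
  have hsum : ∀ (c : Fin b) (e : Fin n → ℤ),
      ∑ i, co (Pi.single i 1) c * e i = co e c := by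
    intro c e
    have h1 : e = ∑ i, e i • (Pi.single i 1 : Fin n → ℤ) := by
      funext i
      rw [Finset.sum_apply, Finset.sum_eq_single i]
      · rw [Pi.smul_apply, Pi.single_eq_same, smul_eq_mul, mul_one]
      · intro j _ hj
        rw [Pi.smul_apply, Pi.single_eq_of_ne hj.symm, smul_zero]
      · intro h
        exact absurd (Finset.mem_univ i) h
    conv_rhs => rw [h1]
    rw [map_sum, Finset.sum_apply]
    refine Finset.sum_congr rfl fun i _ => ?_
    rw [map_zsmul, Pi.smul_apply, smul_eq_mul, mul_comm]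
  refine ⟨b, co, fun c => ?_, fun a ha => ?_, m2, fun m hm hm0 hem L _ _ t w hZ d hd => ?_⟩
  · refine zact_of_data X x hx γ Γ' F' B S' a' q2 q4 q6 (lw co c) fun m hm => ?_
    have h1 : co m c = 0 := by
      rw [(co1 m).2 hm]
      rfl
    rw [← h1, ← hsum c m]
    unfold Pool.Agent.Y658.KZ.wt
    refine Finset.sum_congr rfl fun i _ => ?_
    congr 1
    change co (Pi.single i 1) c - 0 = _
    rw [sub_zero]
  · have h1 : ∀ i : Fin n, ∑ c, a c * co (Pi.single i 1) c = 0 := by
      intro i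
      have h2 := ha i.succ 0
      have h3 : ∑ c, a c * lw co c 0 = 0 := Finset.sum_eq_zero fun c _ => by
        change a c * 0 = 0
        rw [mul_zero]
      rw [h3] at h2
      exact h2
    funext c
    have h2 : ∑ c', a c' * co (bt c) c' = 0 := by
      have h3 : ∀ c', a c' * co (bt c) c' = ∑ i, bt c i * (a c' * co (Pi.single i 1) c') := by
        intro c'
        rw [← hsum c' (bt c), Finset.mul_sum]
        exact Finset.sum_congr rfl fun i _ => by ring
      rw [Finset.sum_congr rfl fun c' _ => h3 c', Finset.sum_comm]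
      refine Finset.sum_eq_zero fun i _ => ?_
      rw [← Finset.mul_sum, h1, mul_zero]
    rw [co2, Finset.sum_eq_single c] at h2
    · rw [Pi.single_eq_same, mul_one] at h2
      exact h2
    · intro c' _ hc'
      rw [Pi.single_eq_of_ne hc', mul_zero]
    · intro h
      exact absurd (Finset.mem_univ c) h
  · obtain ⟨h1, h2, h3⟩ := hm2 m hm hm0 hem L t w hZ d hd
    exact ⟨p, h1, h2, h3⟩

/-- **Log canonical pairs on covers: the Kodaira dimension and the numerical dimension.** -/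
theorem kum_pair_full {n r : ℕ} (X : ZCov n r) :
    ∃ m0 : ℕ, ∀ m, m0 ≤ m → (∀ j, X.e j ∣ m) →
      ∀ (L : Type) [Field L] [Algebra ℂ L] (t : Fin (n + 1) → L) (w : Fin r → L),
      ZField X m L t w → ∀ d : ℕ, Algebra.trdeg ℂ L = d →
      ∀ (N : ℕ) (y : Fin (N + 1) → L), NormalModel y → ∀ Δ : Place ℂ L → ℚ, Effective y Δ →
      LogCanonical y d Δ → (∀ P, IsPrimeDivisor y P → OffG X.toCov m t P → 1 ≤ Δ P) →
      (∀ Q, Divisorial d Q → ¬ OffG X.toCov m t Q → ∃ α > 0, LogDisc y d Δ Q α) →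
      (∀ Q, Divisorial d Q → LogDisc y d Δ Q 1 ∨ OverCoord t Q ∨ OffG X.toCov m t Q ∨
        ∀ l, ZAct X l → Tangent t l Q) →
      (ZLim X ∧ kodairaDim y d Δ = ⊥ ∧ ∀ A, Effective y A → numericalDim y d Δ A = ⊥) ∨
      (¬ ZLim X ∧ ∃ (p q : ℕ) (l : Fin q → Fin (n + 1) → ℤ), p + q = d ∧ (∀ c, ZAct X (l c)) ∧
        (∀ a : Fin q → ℤ, (∀ i j, ∑ c, a c * l c i = ∑ c, a c * l c j) → a = 0) ∧
        kodairaDim y d Δ = (p : WithBot ℕ) ∧
        ∀ A, Effective y A → Integral y A → numericalDim y d Δ A = (p : EReal)) := by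
  by_cases hR : ZLim X
  · refine ⟨1, fun m hm he L _ _ t w hF d htr M y hy Δ hΔ hLC hone hklt hcan => Or.inl ⟨hR, ?_⟩⟩
    obtain ⟨l, hl⟩ := (zlim_iff X).1 hR
    have key : ∀ A, Effective y A → kodairaDim y d Δ = ⊥ ∧ numericalDim y d Δ A = ⊥ := by
      intro A hA
      refine kum_pair_neg (by omega) he hF htr hl hy hLC (fun Q hQ => ?_) hklt hA
      rcases hcan Q hQ with h1 | h1 | h1 | h1
      · exact Or.inl h1
      · exact Or.inr (Or.inl h1)
      · exact Or.inr (Or.inr (Or.inl h1))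
      · exact Or.inr (Or.inr (Or.inr (h1 l (zact_of_zlimBy hl))))
    exact ⟨(key 0 effective_zero).1, fun A hA => (key A hA).2⟩
  · obtain ⟨q, co, hact, hind, m0, hm0⟩ := kum_struct X hR
    refine ⟨max m0 1, fun m hm he L _ _ t w hF d htr M y hy Δ hΔ hLC hone hklt hcan =>
      Or.inr ⟨hR, ?_⟩⟩
    obtain ⟨p, hpq, hkod, R, δ, ξ, β, jj, hE⟩ := hm0 m ((le_max_left _ _).trans hm)
      (lt_of_lt_of_le one_pos ((le_max_right _ _).trans hm)) he L t w hF d htr
    refine ⟨p, q, fun c => lw co c, hpq, hact, hind, ?_⟩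
    have h0 : t 0 ≠ 0 := hF.ne
    obtain ⟨D, hD, hup⟩ := torus_upper hy htr hΔ hLC hE.ne hE.eig hE.gen hE.diag hE.off
      (fun Q hQ => by
        rcases hcan Q hQ with h1 | h1 | h1 | h1
        · exact Or.inl h1
        · exact Or.inr (Or.inl (hE.ov Q (Or.inl h1)))
        · exact Or.inr (Or.inl (hE.ov Q (Or.inr h1)))
        · refine Or.inr (Or.inr fun c => h1 _ (hact c) (δ c) fun j k hk => ?_)
          have e : t j / t k = (t j / t 0) / (t k / t 0) := by
            field_simp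
          have h8 : t k / t 0 ≠ 0 := div_ne_zero hk h0
          rw [e, Derivation.leibniz_div, hE.coord, hE.coord]
          simp only [smul_eq_mul]
          push_cast
          field_simp) hpq
    obtain ⟨N0, hN0, ω, hω, E, hE1, hE2⟩ := hkod
    refine Pool.Agent.Y172.dims hΔ hD hup hN0 (ω := ω) (fun j => ⟨(hω j).1, fun P hP F hF => ?_⟩)
      hE1 hE2
    by_cases h3 : ω j F = 0
    · exact Or.inl h3
    right
    rw [Pi.smul_apply, nsmul_eq_mul]
    have hPd := hP.divisorial hy htr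
    by_cases hoff : OffG X.toCov m t P
    · have h4 := pole_of_log (hω j).1 ((hω j).2.1 P hPd) hF h3
      have h5 : (-(N0 : ℚ)) ≤ (P.ord (ω j F) : ℚ) := by exact_mod_cast h4
      have h6 : (N0 : ℚ) * 1 ≤ N0 * Δ P :=
        mul_le_mul_of_nonneg_left (hone P hP hoff) (Nat.cast_nonneg _)
      linarith
    · have h4 := (hω j).2.2 P hPd hoff F hF
      rw [P.reg_iff h3] at h4
      have h5 : (0 : ℚ) ≤ (P.ord (ω j F) : ℚ) := by exact_mod_cast h4
      have h6 : (0 : ℚ) ≤ N0 * Δ P := mul_nonneg (Nat.cast_nonneg _) (hΔ.1 P hP)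
      linarith

end Pool.Agent.N133.PC
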