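import Pool.Agent.N133.PC
import Pool.Agent.R869.WCpt
import Pool.Agent.R869.WProj

/-!
Log canonical pairs with fractional boundary on varieties with diagonal one-parameter groups
(helper133).
-/

set_option autoImplicit false

open FF IntermediateField Pool.Agent.W603.LV Pool.Agent.W602.GT

namespace Pool.Agent.N133.PC

section general

variable {k : Type} [Field k] {n : ℕ}

/-- actions give homogeneous ideals -/
theorem hom_of_acts [IsAlgClosed k] {U : Set (Fin (n + 1))} {K : Type} [Field K] [Algebra k K]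
    {y : Fin (n + 1) → K} (hyU : ∀ j ∈ U, y j ≠ 0) {i : Fin (n + 1)} (hi : y i ≠ 0)
    {b : Fin (n + 1) → ℤ} (hb : Acts U k y b) (G : MvPolynomial (Fin (n + 1)) k) (hG : IsForm G)
    (h0 : val y G = 0) (v : ℤ) : val y (wc b v G) = 0 := by
  classical
  have hinf : Infinite k := inferInstance
  have hkey : ∀ x : Fin (n + 1) → k, x ∈ PtsU U k y → val x (wc b v G) = 0 := by
    intro x hx
    exact wc_of_orbit (fun t ht => (hb t ht x hx).1.2 G hG h0) v
  by_contra hcon
  let R : MvPolynomial (Fin (n + 1)) k := wc b v G * MvPolynomial.X i *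
    ∏ j ∈ (Set.toFinite U).toFinset, MvPolynomial.X j
  have hR : MvPolynomial.aeval y R ≠ 0 := by
    simp only [R, map_mul, map_prod, MvPolynomial.aeval_X]
    refine mul_ne_zero (mul_ne_zero hcon hi) ?_
    exact Finset.prod_ne_zero_iff.2 fun j hj => hyU j ((Set.Finite.mem_toFinset _).1 hj)
  obtain ⟨x, hx, hx0⟩ := specialise y R hR
  simp only [R, map_mul, map_prod, MvPolynomial.aeval_X] at hx
  have h1 := left_ne_zero_of_mul hx
  refine left_ne_zero_of_mul h1 (hkey x ⟨⟨fun h0' => ?_, fun G' _ h' => hx0 _ h'⟩, fun j hj => ?_⟩)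
  · exact right_ne_zero_of_mul h1 (congrFun h0' i)
  · exact Finset.prod_ne_zero_iff.1 (right_ne_zero_of_mul hx) j
      ((Set.Finite.mem_toFinset _).2 hj)

/-- **Contracting one-parameter groups and fractional boundaries.** -/
theorem not_psefC_of_weights [CharZero k] [IsAlgClosed k] {U : Set (Fin (n + 1))} {K : Type}
    [Field K] [Algebra k K] {w : ℕ} {y : Fin (n + 1) → K} (hyU : ∀ j ∈ U, y j ≠ 0)
    (hgen : coords k y = ⊤) (htr : Algebra.trdeg k K = w) {b : Fin (n + 1) → ℤ}
    {i i' : Fin (n + 1)} (hi : y i ≠ 0) (hi' : y i' ≠ 0) (hb : b i ≠ b i')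
    (hmin : ∀ j ∈ U, ∀ l, y l ≠ 0 → b j ≤ b l)
    (hH : ∀ G : MvPolynomial (Fin (n + 1)) k, IsForm G → val y G = 0 →
      ∀ v, val y (wc b v G) = 0) {c : Place k K → ℚ} {c0 : ℚ} (hc0 : c0 < 1)
    (h0 : ∀ P : Place k K, (∀ j l, y j ≠ 0 → y l ≠ 0 → P.ord (y j) = P.ord (y l)) → c P = 0)
    (h1 : ∀ P, ¬ OffU U y P → c P ≤ c0) : ¬ PsefC k K w c := by
  obtain ⟨δ, σ, g, b', hσ0, hσ, htop, hg, hb', hz⟩ := exists_delta hgen b hi hi' hb hH
  refine not_psefC htr δ hσ0 hσ htop hc0 (fun P hP hPσ => h0 P fun j l hj hl => ?_)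
    fun P hP hPσ => h1 P ?_
  · rw [ord_ratio hσ0 hi hz hP hj, ord_ratio hσ0 hi hz hP hl, hPσ, mul_zero, mul_zero]
  · rintro ⟨j, hj, l, hl, hlt⟩
    rw [ord_ratio hσ0 hi hz hP hl, ord_ratio hσ0 hi hz hP (hyU j hj)] at hlt
    have h2 := hmin j hj l hl
    have h3 := hb' l hl
    have h4 := hb' j (hyU j hj)
    have h5 : 0 ≤ g * (b' l - b' j) := by
      rw [mul_sub, ← h3, ← h4]
      linarith
    have h6 : 0 ≤ b' l - b' j := by
      by_contra hcon
      push Not at hcon
      have := mul_neg_of_pos_of_neg hg hcon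
      linarith
    have h7 := mul_nonneg h6 hPσ.le
    nlinarith

end general

section pole

variable {k K : Type} [Field k] [Field K] [Algebra k K]

/-- A form with a logarithmic pole has a pole of order at most its weight. -/
theorem pole_of_log {P : Place k K} {w N : ℕ} {ω : (Fin w → Derivation k K K) → K}
    (hω : IsPluri N ω) (hlog : LogAt P ω) {D : Fin w → Derivation k K K}
    (hD : ∀ i, DerReg P (D i)) (h0 : ω D ≠ 0) : -(N : ℤ) ≤ P.ord (ω D) := by
  classical
  obtain ⟨t, ht0, ht⟩ := P.surj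
  have htr : P.Reg t := (Place.reg_iff _ ht0).2 (by omega)
  have hNn : (0 : ℤ) ≤ N := Int.natCast_nonneg _
  by_cases hall : ∀ i, P.Reg (D i t / t)
  · have h1 := hlog D fun i => pl_log (hD i) ht (hall i)
    rw [Place.reg_iff _ h0] at h1
    omega
  · push Not at hall
    obtain ⟨i0, hi0⟩ := hall
    have hDt0 : D i0 t ≠ 0 := by
      intro h
      apply hi0
      rw [h, zero_div]
      exact P.reg_zero
    have hDt : P.ord (D i0 t) = 0 := by
      have h1 := hD i0 t htr
      rw [Place.reg_iff _ hDt0] at h1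
      have h2 : ¬ (0 ≤ P.ord (D i0 t / t)) := fun h => hi0 ((Place.reg_iff _
        (div_ne_zero hDt0 ht0)).2 h)
      rw [P.ord_div hDt0 ht0, ht] at h2
      omega
    -- the new frame
    let v : Fin w → K := fun i => if i = i0 then t else -(D i t / D i0 t)
    let A : Matrix (Fin w) (Fin w) K := (1 : Matrix (Fin w) (Fin w) K).updateCol i0 v
    have hdet : A.det = t := by
      have h1 : A.det = Matrix.cramer (1 : Matrix (Fin w) (Fin w) K) v i0 := by
        rw [Matrix.cramer_apply]
      rw [h1, Matrix.cramer_one]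
      simp [v]
    have hsum : ∀ i, (∑ j, A i j • D j) = if i = i0 then t • D i0 else D i + v i • D i0 := by
      intro i
      have hA : ∀ j, A i j = if j = i0 then v i else if i = j then 1 else 0 := by
        intro j
        simp only [A, Matrix.updateCol_apply, Matrix.one_apply]
      split_ifs with hi
      · subst hi
        rw [Finset.sum_eq_single i]
        · rw [hA]
          simp [v]
        · intro j _ hj
          rw [hA, if_neg hj, if_neg (Ne.symm hj), zero_smul]
        · intro h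
          exact absurd (Finset.mem_univ _) h
      · have h1 : ∀ j, A i j • D j = (if i = j then D j else 0) + if j = i0 then v i • D i0 else 0 := by
          intro j
          rw [hA]
          by_cases hj : j = i0
          · subst hj
            rw [if_pos rfl, if_neg hi, if_pos rfl, zero_add]
          · rw [if_neg hj, if_neg hj, add_zero]
            split_ifs
            · rw [one_smul]
            · rw [zero_smul]
        rw [Finset.sum_congr rfl fun j _ => h1 j, Finset.sum_add_distrib, Finset.sum_ite_eq,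
          Finset.sum_ite_eq']
        simp
    have hregv : ∀ i, i ≠ i0 → P.Reg (v i) := by
      intro i hi
      simp only [v, if_neg hi]
      apply P.reg_neg
      by_cases h : D i t = 0
      · rw [h, zero_div]
        exact P.reg_zero
      · have h1 := hD i t htr
        rw [Place.reg_iff _ h] at h1
        rw [Place.reg_iff _ (div_ne_zero h hDt0), P.ord_div h hDt0, hDt]
        omega
    have hlogD : ∀ i, DerLog P (∑ j, A i j • D j) := by
      intro i
      rw [hsum i]
      split_ifs with hi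
      · refine pl_log (τ := t) (fun f hf => ?_) ht ?_
        · rw [Derivation.smul_apply, smul_eq_mul]
          exact P.reg_mul htr (hD i0 f hf)
        · rw [Derivation.smul_apply, smul_eq_mul, mul_div_assoc, mul_div_cancel₀ _ ht0]
          exact hD i0 t htr
      · refine pl_log (τ := t) (fun f hf => ?_) ht ?_
        · rw [Derivation.add_apply, Derivation.smul_apply, smul_eq_mul]
          exact P.reg_add (hD i f hf) (P.reg_mul (hregv i hi) (hD i0 f hf))
        · rw [Derivation.add_apply, Derivation.smul_apply, smul_eq_mul]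
          have h1 : D i t + v i * D i0 t = 0 := by
            simp only [v, if_neg hi]
            field_simp
            ring
          rw [h1, zero_div]
          exact P.reg_zero
    have h1 := hlog _ hlogD
    rw [hω A D, hdet] at h1
    rw [Place.reg_iff _ (mul_ne_zero (pow_ne_zero _ ht0) h0), P.ord_mul (pow_ne_zero _ ht0) h0,
      P.ord_pow, ht] at h1
    linarith

/-- Log general type implies that `K_X + Δ` is big if `Δ` contains the boundary. -/
theorem kodC_of_log {w : ℕ} {Bd : Place k K → Prop} (h : LogGeneralType k K w Bd)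
    {c : Place k K → ℚ} (hc : ∀ P, 0 ≤ c P) (hc1 : ∀ P, Bd P → 1 ≤ c P) :
    KodGeC k K w c w := by
  obtain ⟨-, N, hN, ω, h1, h2, h3, h4⟩ := h
  refine ⟨N, hN, ω, fun i => ⟨h1 i, fun P hP D hD => ?_, fun P hP D hD => ?_⟩, h4⟩
  · rw [twReg_one]
    exact h2 P hP i D hD
  · by_cases h0 : ω i D = 0
    · exact Or.inl h0
    refine Or.inr ⟨1, by simp, one_ne_zero, ?_⟩
    simp only [Nat.cast_zero, zero_mul, zero_sub]
    by_cases hBd : Bd P
    · have h5 := pole_of_log (h1 i) (h2 P hP i) hD h0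
      have h6 : (-(N : ℚ)) ≤ (P.ord (ω i D) : ℚ) := by exact_mod_cast h5
      have h7 : (N : ℚ) * 1 ≤ N * c P := mul_le_mul_of_nonneg_left (hc1 P hBd) (by positivity)
      linarith
    · have h5 := h3 P hP hBd i D hD
      rw [Place.reg_iff _ h0] at h5
      have h6 : (0 : ℚ) ≤ (P.ord (ω i D) : ℚ) := by exact_mod_cast h5
      have h7 : (0 : ℚ) ≤ N * c P := mul_nonneg (by positivity) (hc P)
      linarith

end pole

section wide

open Pool.Agent.R869.Wd

variable {k : Type} [Field k] {n : ℕ} {ι : Type}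

/-- **Log canonical pairs on wide systems.** -/
theorem wide_lc [IsAlgClosed k] [CharZero k] {U : Set (Fin (n + 1))}
    {F : ι → MvPolynomial (Fin (n + 1)) k} {s N : ℕ} (hC : Sys U F s N) {K : Type} [Field K]
    [Algebra k K] {w : ℕ} (hw : 1 ≤ w) {y : Fin (n + 1) → K} (hy : SubVarU U F K w y)
    (hcomp : IsComponentU U F y) {c : Place k K → ℚ} {c0 : ℚ} (hc0 : c0 < 1)
    (hc : ∀ P, 0 ≤ c P) (h1 : ∀ P, OffU U y P → 1 ≤ c P) (h2 : ∀ P, ¬ OffU U y P → c P ≤ c0)
    (h0 : ∀ P : Place k K, (∀ j l, y j ≠ 0 → y l ≠ 0 → P.ord (y j) = P.ord (y l)) → c P = 0) :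
    KodGeC k K w c w ∨ ¬ PsefC k K w c ∨
      ((∃ b, Acts U k y b ∧ ∃ i i', y i ≠ 0 ∧ y i' ≠ 0 ∧ b i ≠ b i') ∧
        ∀ b, Acts U k y b → (∃ i i', y i ≠ 0 ∧ y i' ≠ 0 ∧ b i ≠ b i') →
          ∃ j ∈ U, ∃ l, y l ≠ 0 ∧ b l < b j) := by
  by_cases hlg : LogGeneralType k K w (OffU U y)
  · exact Or.inl (kodC_of_log hlg hc h1)
  right
  by_cases hcon : ∃ b, Acts U k y b ∧ (∃ i i', y i ≠ 0 ∧ y i' ≠ 0 ∧ b i ≠ b i') ∧
      ∀ j ∈ U, ∀ l, y l ≠ 0 → b j ≤ b l
  · left
    obtain ⟨b, hb, ⟨i, i', hi, hi', hne⟩, hmin⟩ := hcon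
    exact not_psefC_of_weights hy.unit hy.gen hy.dim hi hi' hne hmin
      (fun G hG h v => hom_of_acts hy.unit hi hb G hG h v) hc0 h0 h2
  · right
    refine ⟨?_, fun b hb hne => ?_⟩
    · by_contra h3
      push Not at h3
      exact hlg ((lgt_iff_acts hC hw hy hcomp).2 fun b hb i i' hi hi' => h3 b hb i i' hi hi')
    · by_contra h3
      push Not at h3
      exact hcon ⟨b, hb, hne, h3⟩

/-- **Kawamata log terminal pairs on wide systems.** -/
theorem wide_klt [IsAlgClosed k] [CharZero k] {F : ι → MvPolynomial (Fin (n + 1)) k} {s N : ℕ}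
    (hC : Sys ∅ F s N) {K : Type} [Field K] [Algebra k K] {w : ℕ} (hw : 1 ≤ w)
    {y : Fin (n + 1) → K} (hy : SubVar F K w y) (hcomp : IsComponent F y) {c : Place k K → ℚ}
    {c0 : ℚ} (hc0 : c0 < 1) (hc : ∀ P, 0 ≤ c P) (h2 : ∀ P, c P ≤ c0)
    (h0 : ∀ P : Place k K, (∀ j l, y j ≠ 0 → y l ≠ 0 → P.ord (y j) = P.ord (y l)) → c P = 0) :
    [PsefC k K w c, KodGeC k K w c 0, KodGeC k K w c w, GeneralType k K w,
      ∀ b : Fin (n + 1) → ℤ, Acts ∅ k y b → ∀ i i', y i ≠ 0 → y i' ≠ 0 → b i = b i'].TFAE := by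
  have hyU : SubVarU ∅ F K w y := subVar_iff.2 hy
  have hU := componentU_of hcomp
  have h45 : GeneralType k K w ↔
      ∀ b : Fin (n + 1) → ℤ, Acts ∅ k y b → ∀ i i', y i ≠ 0 → y i' ≠ 0 → b i = b i' := by
    rw [← general_iff y]
    exact lgt_iff_acts hC hw hyU hU
  tfae_have 4 → 3 := fun h => kodC_of_general h hc
  tfae_have 3 → 2 := kodC_mono (Nat.zero_le _)
  tfae_have 2 → 1 := psefC_of_kodC
  tfae_have 1 → 5 := by
    intro h b hb i i' hi hi'
    by_contra hne
    exact not_psefC_of_weights (U := ∅) (fun j hj => absurd hj (Set.notMem_empty j)) hy.gen hy.dim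
      hi hi' hne (fun j hj => absurd hj (Set.notMem_empty j))
      (fun G hG h v => hom_of_acts (fun j hj => absurd hj (Set.notMem_empty j)) hi hb G hG h v)
      hc0 h0 (fun P _ => h2 P) h
  tfae_have 5 ↔ 4 := h45.symm
  tfae_finish

end wide

end Pool.Agent.N133.PC
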