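import Pool.Agent.N133.PC
import Pool.Agent.Y192.KC.Dich

/-!
Kawamata log terminal pairs on covers of arbitrary projective varieties (helper133).
-/

set_option autoImplicit false

open FF IntermediateField Pool.Agent.W603.LV Pool.Agent.W602.GT Pool.Agent.Y192.KC

namespace Pool.Agent.N133.PC

/-- a cover with a one-parameter group: no klt boundary on the coordinate hyperplanes -/
theorem kum_not_psefC {n r : ℕ} {X : ZCov n r} {m : ℕ} (hm : 0 < m) (hem : ∀ j, X.e j ∣ m)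
    (hRed : ZRed X) {L : Type} [Field L] [Algebra ℂ L] {t : Fin (n + 1) → L} {w : Fin r → L}
    (hF : ZField X m L t w) {d : ℕ} (htr : Algebra.trdeg ℂ L = d) {c : Place ℂ L → ℚ} {c0 : ℚ}
    (hc0 : c0 < 1) (h2 : ∀ P, c P ≤ c0)
    (h0 : ∀ P : Place ℂ L, (∀ i, P.ord (t i) = P.ord (t 0)) → c P = 0) : ¬ PsefC ℂ L d c := by
  obtain ⟨l, hl, hI, ⟨kG, hkG⟩, hH⟩ := hRed
  choose D H S hDI hHI hSI hDhom hHhom haD haH haS hFS using hH
  choose kD hkD using hDhom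
  choose kH hkH using hHhom
  choose aD haD using haD
  choose aH haH using haH
  choose aS haS using haS
  obtain ⟨δ, σ, hσ0, hσ, htop, hP⟩ := Pool.Agent.Y721.KZ.zcore hm hem hF l hl hI kG hkG D H S hDI
    hHI hSI aD aH aS haD haH haS hFS kD kH hkD hkH
  exact not_psefC htr δ hσ0 hσ htop hc0 (fun P h3 h4 => h0 P (hP P h3 h4).1) fun P _ _ => h2 P

/-- **Kawamata log terminal pairs on covers.** -/
theorem kum_klt {n r : ℕ} (X : ZCov n r) (hG : X.G = 1) :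
    ∃ m0 : ℕ, ∀ m, m0 ≤ m → (∀ j, X.e j ∣ m) →
      ∀ (L : Type) [Field L] [Algebra ℂ L] (t : Fin (n + 1) → L) (w : Fin r → L),
      ZField X m L t w → ∀ d : ℕ, 1 ≤ d → Algebra.trdeg ℂ L = d →
      ∀ (c : Place ℂ L → ℚ) (c0 : ℚ), c0 < 1 → (∀ P, 0 ≤ c P ∧ c P ≤ c0) →
      (∀ P : Place ℂ L, (∀ i, P.ord (t i) = P.ord (t 0)) → c P = 0) →
      [PsefC ℂ L d c, KodGeC ℂ L d c 0, KodGeC ℂ L d c d, GeneralType ℂ L d, ¬ ZRed X].TFAE := by
  obtain ⟨m0, hm0⟩ := dich_all X hG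
  refine ⟨max m0 1, fun m hm he L _ _ t w hF d hd htr c c0 hc0 hc h0 => ?_⟩
  have h := hm0 m ((le_max_left _ _).trans hm) he L t w hF d hd htr
  have hmp : 0 < m := lt_of_lt_of_le one_pos ((le_max_right _ _).trans hm)
  have e4 : ¬ GeneralType ℂ L d ↔ ZRed X := h.out 3 7
  tfae_have 4 → 3 := fun h => kodC_of_general h fun P => (hc P).1
  tfae_have 3 → 2 := kodC_mono (Nat.zero_le _)
  tfae_have 2 → 1 := psefC_of_kodC
  tfae_have 1 → 5 := fun h5 h6 => kum_not_psefC hmp he h6 hF htr hc0 (fun P => (hc P).2) h0 h5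
  tfae_have 5 ↔ 4 := not_iff_comm.1 e4
  tfae_finish

end Pool.Agent.N133.PC
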