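import Pool.Agent.N133.PC

/-!
Log canonical divisors with fractional boundaries on ruled function fields: vanishing for a fixed
twist, and the places of the rational function field which are trivial on the constants (helper133).
-/

set_option autoImplicit false

open FF IntermediateField Pool.Agent.W603.LV Pool.Agent.W602.GT

namespace Pool.Agent.N133.PC

variable {k K : Type} [Field k] [Field K] [Algebra k K]

/-- **Ruled fields.** The version for a fixed twist: sections of large multiples vanish. -/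
theorem vanishC [CharZero k] {w : ℕ} (htr : Algebra.trdeg k K = w) {cf : Place k K → ℚ}
    (δ : Derivation k K K) {σ : K}
    (hσ0 : σ ≠ 0) (hσ : δ σ = σ) (htop : (consts δ)⟮σ⟯ = ⊤) {c0 : ℚ} (hc0' : c0 < 1)
    (hcf0 : ∀ P : Place k K, (∀ c : K, δ c = 0 → c ≠ 0 → P.ord c = 0) → P.ord σ = 0 → cf P = 0)
    (hcf1 : ∀ P : Place k K, (∀ c : K, δ c = 0 → c ≠ 0 → P.ord c = 0) → 0 < P.ord σ →
      cf P ≤ c0) (S : Finset K) :
    ∃ N0 : ℕ, ∀ j : ℕ, 0 < j → ∀ W : ℕ, j * N0 ≤ W → ∀ ω : (Fin w → Derivation k K K) → K,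
      SecC k K w W cf S j ω → ∀ D, ω D = 0 := by
  classical
  obtain ⟨r, hr⟩ : ∃ r : ℕ, 1 ≤ (r : ℚ) * (1 - c0) := by
    have h1 : 0 < 1 - c0 := by linarith
    obtain ⟨r, hr⟩ := exists_nat_gt (1 / (1 - c0))
    refine ⟨r, ?_⟩
    rw [div_lt_iff₀ h1] at hr
    exact hr.le
  set C := consts δ with hC
  -- `σ` is transcendental over the constants
  have hσt : Transcendental C σ := by
    intro halg
    have h1 : Algebra.IsAlgebraic C K := by
      have h2 : Algebra.IsAlgebraic C C⟮σ⟯ :=
        IntermediateField.isAlgebraic_adjoin_simple halg.isIntegral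
      constructor
      intro z
      have h3 := h2.isAlgebraic (⟨z, by rw [htop]; exact IntermediateField.mem_top⟩ : C⟮σ⟯)
      exact h3.algebraMap (A := K)
    have h2 : Algebra.IsAlgebraic (IntermediateField.adjoin k (C : Set K)) K := by
      rw [IntermediateField.adjoin_self]
      exact h1
    have h3 := der_eq_zero δ _ h2 (fun s hs => hs)
    rw [h3] at hσ
    exact hσ0 hσ.symm
  -- a transcendence basis
  obtain ⟨B, hB⟩ := exists_isTranscendenceBasis k C
  have hσb : IsTranscendenceBasis C (fun _ : Unit => σ) := by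
    have h1 : AlgebraicIndependent C (fun _ : Unit => σ) :=
      (algebraicIndependent_unique_type_iff).2 hσt
    rw [h1.isTranscendenceBasis_iff_isAlgebraic]
    apply alg_adjoin
    have h2 : Set.range (fun _ : Unit => σ) = {σ} := by simp
    rw [h2, htop]
    infer_instance
  have hBσ := hB.sumElim_comp hσb
  have hcard := hBσ.cardinalMk_eq_trdeg
  rw [htr] at hcard
  have hfin : Finite (Unit ⊕ B) := by
    rw [← Cardinal.lt_aleph0_iff_finite, hcard]
    exact Cardinal.natCast_lt_aleph0
  have hfinB : Finite B := Finite.of_injective (Sum.inr : B → Unit ⊕ B) Sum.inr_injective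
  obtain ⟨m, ⟨φ⟩⟩ := Finite.exists_equiv_fin B
  obtain rfl : w = m + 1 := by
    have h1 : Cardinal.mk (Unit ⊕ B) = ((m + 1 : ℕ) : Cardinal) := by
      rw [Cardinal.mk_sum, Cardinal.mk_congr φ]
      simp [add_comm]
    rw [h1] at hcard
    exact_mod_cast hcard.symm
  let s : Fin m → C := fun l => (φ.symm l : C)
  have hs : IsTranscendenceBasis k s := hB.comp_equiv φ.symm
  let x : Fin (m + 1) → K := Fin.cons σ (fun l => (s l : K))
  have hx : IsTranscendenceBasis k x := by
    let E : Fin (m + 1) ≃ Unit ⊕ B := (finSuccEquiv m).trans ((Equiv.optionEquivSumPUnit _).trans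
      ((Equiv.sumComm _ _).trans (Equiv.sumCongr (Equiv.refl _) φ.symm)))
    have h1 := hBσ.comp_equiv E
    convert h1 using 1
    funext i
    refine Fin.cases ?_ (fun l => ?_) i
    · simp [x, E]
    · simp [x, E, s]
  have hx0 : ∀ l : Fin m, x l.succ = (s l : K) := fun l => rfl
  -- the dual derivations
  have hDer : ∀ l : Fin m, ∃ D : Derivation k K K, D σ = 0 ∧
      ∀ j, D (s j : K) = if j = l then 1 else 0 := by
    intro l
    obtain ⟨D, hD⟩ := exists_der x hx (Fin.cons 0 fun j => if j = l then 1 else 0)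
    exact ⟨D, hD 0, fun j => hD j.succ⟩
  choose Δ hΔσ hΔs using hDer
  let D : Fin (m + 1) → Derivation k K K := Fin.cons δ Δ
  have hδs : ∀ j, δ (s j : K) = 0 := fun j => (s j).2
  have hcomm : ∀ l c, δ c = 0 → δ (Δ l c) = 0 := by
    intro l c hc
    have h1 : ⁅Δ l, δ⁆ = 0 := by
      apply der_ext x hx
      intro i
      rw [Derivation.commutator_apply, Derivation.zero_apply]
      refine Fin.cases ?_ (fun j => ?_) i
      · change Δ l (δ σ) - δ (Δ l σ) = 0
        rw [hσ, hΔσ, map_zero, sub_zero]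
      · change Δ l (δ (s j : K)) - δ (Δ l (s j : K)) = 0
        rw [hδs, hΔs, map_zero, zero_sub, neg_eq_zero]
        split_ifs
        · exact δ.map_one_eq_zero
        · exact map_zero _
    have h2 := congrArg (fun d : Derivation k K K => d c) h1
    simp only [Derivation.commutator_apply, Derivation.zero_apply, hc, map_zero, zero_sub,
      neg_eq_zero] at h2
    exact h2
  have hDC : ∀ i c, c ∈ C → D i c ∈ C := by
    intro i
    refine Fin.cases ?_ (fun l => ?_) i
    · intro c hc
      change δ c ∈ C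
      have h1 : δ c = 0 := hc
      rw [h1]
      exact zero_mem C
    · intro c hc
      exact hcomm l c hc
  have hDσ : ∀ i, D i σ = 0 ∨ D i σ = σ := by
    intro i
    refine Fin.cases ?_ (fun l => ?_) i
    · exact Or.inr hσ
    · exact Or.inl (hΔσ l)
  -- the places of the two affine lines
  have hpl : ∀ τ : K, (τ = σ ∨ τ = σ⁻¹) → ∃ S : Set (Place k K),
      (∀ P ∈ S, (∀ c : K, δ c = 0 → c ≠ 0 → P.ord c = 0) ∧ (∀ f ∈ Algebra.adjoin C {τ}, P.Reg f) ∧
        (∀ f, P.Reg f → ∃ a ∈ Algebra.adjoin C {τ}, ∃ b ∈ Algebra.adjoin C {τ},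
          b ≠ 0 ∧ P.ord b = 0 ∧ f * b = a) ∧ (P.ord τ = 0 ∨ (P.ord τ = 1 ∧ ∀ i, DerLog P (D i))) ∧
        (∀ i, DerReg P (D i)) ∧ Divisorial (m + 1) P) ∧
      ∀ f, (∀ P ∈ S, P.Reg f) → f ∈ Algebra.adjoin C {τ} := by
    intro τ hτ
    have hτt : Transcendental C τ := by
      rcases hτ with rfl | rfl
      · exact hσt
      · intro h
        apply hσt
        have := h.inv
        rwa [inv_inv] at this
    have hττ : C⟮τ⟯ = ⊤ := by
      rcases hτ with rfl | rfl
      · exact htop
      · rw [eq_top_iff, ← htop, IntermediateField.adjoin_simple_le_iff]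
        have h1 := inv_mem (IntermediateField.mem_adjoin_simple_self C σ⁻¹)
        rwa [inv_inv] at h1
    have hDτ : ∀ i, D i τ / τ = 0 ∨ D i τ / τ = 1 ∨ D i τ / τ = -1 := by
      intro i
      rcases hτ with rfl | rfl
      · rcases hDσ i with h | h
        · left; rw [h, zero_div]
        · right; left; rw [h, div_self hσ0]
      · rw [(D i).leibniz_inv]
        rcases hDσ i with h | h
        · left; rw [h, smul_zero, zero_div]
        · right; right
          rw [h, smul_eq_mul]
          field_simp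
    have hτ0 : τ ≠ 0 := by
      rcases hτ with rfl | rfl
      · exact hσ0
      · exact inv_ne_zero hσ0
    obtain ⟨S, hS1, hS2⟩ := places C hτt hττ
    refine ⟨S, fun P hP => ?_, hS2⟩
    obtain ⟨hP1, hP2, hP3, hP4⟩ := hS1 P hP
    have hAD : ∀ i, ∀ f ∈ Algebra.adjoin C {τ}, D i f ∈ Algebra.adjoin C {τ} := by
      intro i f hf
      induction hf using Algebra.adjoin_induction with
      | mem z hz =>
        rw [Set.mem_singleton_iff] at hz
        subst hz
        have hz := Algebra.self_mem_adjoin_singleton (R := C) z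
        have h1 : D i z = (D i z / z) * z := by field_simp
        rw [h1]
        rcases hDτ i with h | h | h <;> rw [h]
        · rw [zero_mul]; exact Subalgebra.zero_mem _
        · rw [one_mul]; exact hz
        · rw [neg_one_mul]; exact Subalgebra.neg_mem _ hz
      | algebraMap r => exact (Algebra.adjoin C {τ}).algebraMap_mem (⟨_, hDC i _ r.2⟩ : C)
      | add f g hf' hg' hf hg => rw [map_add]; exact Subalgebra.add_mem _ hf hg
      | mul f g hf' hg' hf hg =>
        rw [(D i).leibniz]
        exact Subalgebra.add_mem _ (Subalgebra.mul_mem _ hf' hg) (Subalgebra.mul_mem _ hg' hf)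
    have hDreg : ∀ i, DerReg P (D i) := fun i => pl_reg (A := (Algebra.adjoin C {τ} : Set K))
      hP2 hP3 (hAD i)
    have hdiv : Divisorial (m + 1) P := by
      refine ⟨fun l => (s l : K), fun F hF => ?_⟩
      have h1 : MvPolynomial.aeval (fun l : Fin m => (s l : K)) F =
          ((MvPolynomial.aeval s F : C) : K) := by
        have := MvPolynomial.comp_aeval_apply (IntermediateField.val C) (p := F) (f := s)
        exact this.symm
      have h2 : MvPolynomial.aeval s F ≠ 0 := by
        intro h0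
        exact hF ((injective_iff_map_eq_zero _).1 hs.1 F h0)
      have h3 : ((MvPolynomial.aeval s F : C) : K) ≠ 0 := by
        intro h0
        exact h2 (Subtype.ext h0)
      constructor
      · change MvPolynomial.aeval (fun l : Fin m => (s l : K)) F ≠ 0
        rw [h1]; exact h3
      · change P.ord (MvPolynomial.aeval (fun l : Fin m => (s l : K)) F) = 0
        rw [h1]
        exact hP1 _ (MvPolynomial.aeval s F).2 h3
    refine ⟨hP1, hP2, hP3, ?_, hDreg, hdiv⟩
    rcases hP4 with h | h
    · exact Or.inl h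
    · refine Or.inr ⟨h, fun i => pl_log (hDreg i) h ?_⟩
      rcases hDτ i with h | h | h <;> rw [h]
      · exact P.reg_zero
      · exact P.reg_one
      · exact P.reg_neg P.reg_one
  have hττ : C⟮σ⁻¹⟯ = ⊤ := by
    rw [eq_top_iff, ← htop, IntermediateField.adjoin_simple_le_iff]
    have h1 := inv_mem (IntermediateField.mem_adjoin_simple_self C σ⁻¹)
    rwa [inv_inv] at h1
  obtain ⟨q, hq, hq0, hqs⟩ := exists_denom C htop S
  obtain ⟨q', hq', hq'0, hqs'⟩ := exists_denom C hττ S
  obtain ⟨d, hd⟩ := adjoin_flip C (mul_inv_cancel₀ hσ0) hq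
  obtain ⟨d', hd'⟩ := adjoin_flip C (inv_mul_cancel₀ hσ0) hq'
  refine ⟨r * (d + d' + 1), fun j hj W hW ω hω D' => ?_⟩
  by_contra hD'
  set N := d + d' + 1 with hN
  -- the frame
  let M : Matrix (Fin (m + 1)) (Fin (m + 1)) K :=
    Matrix.of fun i => Fin.cons (D' i σ / σ) fun l => D' i (s l : K)
  have hM : (fun i => ∑ l, M i l • D l) = D' := by
    funext i
    apply der_ext x hx
    intro q
    have h0 : ∀ (t : Finset (Fin (m + 1))) (c : Fin (m + 1) → K) (z : K),
        (∑ l ∈ t, c l • D l) z = ∑ l ∈ t, c l * D l z := by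
      intro t c z
      induction t using Finset.induction_on with
      | empty => simp
      | insert l t hl ih =>
        rw [Finset.sum_insert hl, Finset.sum_insert hl, Derivation.add_apply, ih]
        rfl
    rw [h0, Fin.sum_univ_succ]
    refine Fin.cases ?_ (fun j => ?_) q
    · change (D' i σ / σ) * δ σ + ∑ l : Fin m, D' i (s l : K) * Δ l σ = D' i σ
      rw [hσ, Finset.sum_eq_zero fun l _ => by rw [hΔσ, mul_zero]]
      field_simp
      ring
    · change (D' i σ / σ) * δ (s j : K) + ∑ l : Fin m, D' i (s l : K) * Δ l (s j : K) = D' i (s j : K)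
      rw [hδs, mul_zero, zero_add]
      simp only [hΔs, mul_ite, mul_one, mul_zero]
      rw [Finset.sum_ite_eq Finset.univ j]
      simp
  have hf0 : ω D ≠ 0 := by
    intro h0
    have h1 := hω.1 M D
    rw [hM, h0, mul_zero] at h1
    exact hD' h1
  -- the affine line with coordinate `σ⁻¹`
  have hF2 : ω D * q' ^ j ∈ Algebra.adjoin C {σ⁻¹} := by
    obtain ⟨T, hT1, hT2⟩ := hpl σ⁻¹ (Or.inr rfl)
    apply hT2
    intro P hP
    obtain ⟨hP1, hP2, -, hP4, hDreg, hdiv⟩ := hT1 P hP
    refine twReg_mul (S := S) ?_ (fun s hs => hP2 _ (hqs' s hs)) hq'0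
    rcases hP4 with h | h
    · have h3 := hω.2.2 P hdiv D hDreg
      rw [P.ord_inv] at h
      rw [hcf0 P hP1 (by omega), mul_zero] at h3
      rcases h3 with h3 | ⟨s, hs, hs0, h3⟩
      · exact Or.inl h3
      · refine Or.inr ⟨s, hs, hs0, ?_⟩
        rw [sub_zero] at h3
        exact_mod_cast h3
    · exact hω.2.1 P hdiv D h.2
  -- the affine line with coordinate `σ`
  have hF1 : (σ⁻¹ ^ (j * N) * ω D) * q ^ j ∈ Algebra.adjoin C {σ} := by
    obtain ⟨T, hT1, hT2⟩ := hpl σ (Or.inl rfl)
    apply hT2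
    intro P hP
    obtain ⟨hP1, hP2, hP3, hP4, hDreg, hdiv⟩ := hT1 P hP
    refine twReg_mul (S := S) ?_ (fun s hs => hP2 _ (hqs s hs)) hq0
    have hreg0 : DerReg P (σ⁻¹ • δ) := by
      refine pl_reg (A := (Algebra.adjoin C {σ} : Set K)) hP2 hP3 ?_
      intro f hf
      change σ⁻¹ * δ f ∈ Algebra.adjoin C {σ}
      have hf' : f ∈ Algebra.adjoin C {σ} := hf
      clear hf
      induction hf' using Algebra.adjoin_induction with
      | mem z hz =>
        rw [Set.mem_singleton_iff] at hz
        subst hz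
        rw [hσ, inv_mul_cancel₀ hσ0]
        exact Subalgebra.one_mem _
      | algebraMap r =>
        have h1 : δ (algebraMap C K r) = 0 := r.2
        rw [h1, mul_zero]
        exact Subalgebra.zero_mem _
      | add f g hf' hg' hf hg => rw [map_add, mul_add]; exact Subalgebra.add_mem _ hf hg
      | mul f g hf' hg' hf hg =>
        have h1 : σ⁻¹ * δ (f * g) = f * (σ⁻¹ * δ g) + g * (σ⁻¹ * δ f) := by
          rw [δ.leibniz]
          simp only [smul_eq_mul]
          ring
        rw [h1]
        exact Subalgebra.add_mem _ (Subalgebra.mul_mem _ hf' hg) (Subalgebra.mul_mem _ hg' hf)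
    let A : Matrix (Fin (m + 1)) (Fin (m + 1)) K := Matrix.diagonal (Fin.cons σ⁻¹ fun _ => 1)
    have hA : A.det = σ⁻¹ := by
      rw [Matrix.det_diagonal, Fin.prod_univ_succ]
      simp
    have h1 := hω.1 A D
    rw [hA] at h1
    have hfin : TwRegC P S j ((W : ℕ) * cf P) (σ⁻¹ ^ W * ω D) → 
        TwReg P S j (σ⁻¹ ^ (j * N) * ω D) := by
      rintro (h2 | ⟨s, hs, hs0, h2⟩)
      · exact absurd h2 (mul_ne_zero (pow_ne_zero _ (inv_ne_zero hσ0)) hf0)
      · refine Or.inr ⟨s, hs, hs0, ?_⟩
        rw [P.ord_mul (pow_ne_zero _ (inv_ne_zero hσ0)) hf0, P.ord_pow, P.ord_inv] at h2 ⊢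
        rcases hP4 with h | h
        · rw [hcf0 P hP1 h, h, mul_zero] at h2
          rw [h]
          have h4 : (j : ℚ) * (P.ord s : ℚ) ≤ (P.ord (ω D) : ℚ) := by
            push_cast at h2
            linarith
          have h5 : (j : ℤ) * P.ord s ≤ P.ord (ω D) := by exact_mod_cast h4
          linarith
        · have h3 := hcf1 P hP1 (by omega)
          rw [h.1] at h2 ⊢
          have h4 : (j : ℚ) * (P.ord s : ℚ) ≤ (P.ord (ω D) : ℚ) - j * N := by
            push_cast at h2
            have h5 : (0 : ℚ) ≤ j * N := by positivity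
            have h6 : (0 : ℚ) ≤ W := by positivity
            have h7 : (W : ℚ) * cf P ≤ W * c0 :=
              mul_le_mul_of_nonneg_left h3 h6
            have h8 : (j : ℚ) * N * 1 ≤ j * N * (r * (1 - c0)) :=
              mul_le_mul_of_nonneg_left hr h5
            have h9 : (j : ℚ) * (r * N) ≤ W := by exact_mod_cast hW
            have h10 : (j : ℚ) * (r * N) * (1 - c0) ≤ W * (1 - c0) :=
              mul_le_mul_of_nonneg_right h9 (by linarith)
            nlinarith
          have h5 : (j : ℤ) * P.ord s ≤ P.ord (ω D) - j * N := by exact_mod_cast h4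
          push_cast
          linarith
    apply hfin
    rw [← h1]
    apply hω.2.2 P hdiv
    intro i
    have h3 : (∑ j, A i j • D j) = (Fin.cons σ⁻¹ fun _ => 1 : Fin (m + 1) → K) i • D i := by
      rw [Finset.sum_eq_single i]
      · simp [A]
      · intro j _ hj
        simp [A, Matrix.diagonal_apply_ne _ hj.symm]
      · intro h
        exact absurd (Finset.mem_univ _) h
    rw [h3]
    refine Fin.cases ?_ (fun l => ?_) i
    · exact hreg0
    · simp only [Fin.cons_succ, one_smul]
      exact hDreg _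
  -- comparison
  have hσm := Algebra.self_mem_adjoin_singleton C σ
  have hτm := Algebra.self_mem_adjoin_singleton C σ⁻¹
  set c : K := ω D * q ^ j * q' ^ j * σ⁻¹ ^ (d * j) with hc
  have hc0 : c ≠ 0 := mul_ne_zero (mul_ne_zero (mul_ne_zero hf0 (pow_ne_zero _ hq0))
    (pow_ne_zero _ hq'0)) (pow_ne_zero _ (inv_ne_zero hσ0))
  have hc2 : c ∈ Algebra.adjoin C {σ⁻¹} := by
    have h1 : c = (ω D * q' ^ j) * (q * σ⁻¹ ^ d) ^ j := by
      rw [hc, mul_pow, ← pow_mul]
      ring
    rw [h1]
    exact Subalgebra.mul_mem _ hF2 (Subalgebra.pow_mem _ hd _)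
  have hc1 : c * σ⁻¹ ^ j ∈ Algebra.adjoin C {σ} := by
    have h1 : c * σ⁻¹ ^ j = ((σ⁻¹ ^ (j * N) * ω D) * q ^ j) * (q' * σ ^ d') ^ j := by
      rw [hc, hN, mul_pow, ← pow_mul]
      have h2 : σ⁻¹ ^ (j * (d + d' + 1)) = σ⁻¹ ^ (d * j) * σ⁻¹ ^ (d' * j) * σ⁻¹ ^ j := by
        rw [← pow_add, ← pow_add]
        congr 1
        ring
      have h3 : σ⁻¹ ^ (d' * j) * σ ^ (d' * j) = 1 := by
        rw [← mul_pow, inv_mul_cancel₀ hσ0, one_pow]
      rw [h2]
      linear_combination (-(ω D * q ^ j * q' ^ j * σ⁻¹ ^ (d * j) * σ⁻¹ ^ j)) * h3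
    rw [h1]
    exact Subalgebra.mul_mem _ hF1 (Subalgebra.pow_mem _ hd' _)
  have hc3 : c * σ⁻¹ ^ j ∈ C :=
    adjoin_inter C hσt hc1 (Subalgebra.mul_mem _ hc2 (Subalgebra.pow_mem _ hτm _))
  have hc4 : c ∈ C := by
    refine adjoin_inter C hσt ?_ hc2
    have h1 : c = c * σ⁻¹ ^ j * σ ^ j := by
      rw [mul_assoc, ← mul_pow, inv_mul_cancel₀ hσ0, one_pow, mul_one]
    rw [h1]
    exact Subalgebra.mul_mem _ hc1 (Subalgebra.pow_mem _ hσm _)
  have hc5 : σ⁻¹ ^ j ∈ C := by
    have h1 : σ⁻¹ ^ j = c⁻¹ * (c * σ⁻¹ ^ j) := by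
      rw [← mul_assoc, inv_mul_cancel₀ hc0, one_mul]
    rw [h1]
    exact mul_mem (inv_mem hc4) hc3
  have hc6 : σ ^ j ∈ C := by
    have := inv_mem hc5
    rwa [inv_pow, inv_inv] at this
  have hc7 : δ (σ ^ j) = 0 := hc6
  rw [δ.leibniz_pow, hσ] at hc7
  have hK : CharZero K := charZero_of_injective_algebraMap (algebraMap k K).injective
  have hc8 : (j : K) * (σ ^ (j - 1) * σ) = 0 := by
    rw [← hc7]
    simp [nsmul_eq_mul, smul_eq_mul]
  rcases mul_eq_zero.1 hc8 with h | h
  · have : j = 0 := by exact_mod_cast h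
    omega
  · exact mul_ne_zero (pow_ne_zero _ hσ0) hσ0 h


section places

variable {δ : Derivation k K K} {σ : K} {P P' : Place k K}

/-- The place is trivial on the constants of `δ`. -/
def Horiz (δ : Derivation k K K) (P : Place k K) : Prop := ∀ c : K, δ c = 0 → c ≠ 0 → P.ord c = 0

theorem aeval_divX (p : Polynomial (consts δ)) :
    Polynomial.aeval σ p = σ * Polynomial.aeval σ p.divX + ((p.coeff 0 : consts δ) : K) := by
  conv_lhs => rw [← Polynomial.divX_mul_X_add p]
  rw [map_add, map_mul, Polynomial.aeval_X, Polynomial.aeval_C, mul_comm]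
  rfl

theorem horiz_reg (hP : Horiz δ P) (c : consts δ) : P.Reg (c : K) := by
  by_cases h : (c : K) = 0
  · exact Or.inl h
  · exact Or.inr (hP _ c.2 h).ge

theorem poly_reg (hP : Horiz δ P) (hσ : P.Reg σ) (p : Polynomial (consts δ)) :
    P.Reg (Polynomial.aeval σ p) := by
  induction p using Polynomial.induction_on' with
  | add p q hp hq => rw [map_add]; exact P.reg_add hp hq
  | monomial n a =>
    rw [Polynomial.aeval_monomial]
    refine P.reg_mul (horiz_reg hP a) ?_
    induction n with
    | zero => rw [pow_zero]; exact P.reg_one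
    | succ n ih => rw [pow_succ]; exact P.reg_mul ih hσ

theorem poly_ord (hσ0 : σ ≠ 0) (hP : Horiz δ P) (hP' : Horiz δ P') (h1 : 0 < P.ord σ)
    (h2 : 0 < P'.ord σ) (n : ℕ) : ∀ p : Polynomial (consts δ), p.natDegree ≤ n → p ≠ 0 →
      Polynomial.aeval σ p ≠ 0 ∧
        P.ord (Polynomial.aeval σ p) * P'.ord σ = P'.ord (Polynomial.aeval σ p) * P.ord σ := by
  have hcst : ∀ c : consts δ, c ≠ 0 → (c : K) ≠ 0 ∧ P.ord (c : K) = 0 ∧ P'.ord (c : K) = 0 := by
    intro c hc
    have h0 : (c : K) ≠ 0 := fun h => hc (Subtype.ext h)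
    exact ⟨h0, hP _ c.2 h0, hP' _ c.2 h0⟩
  induction n with
  | zero =>
    intro p hp hp0
    have h3 := Polynomial.eq_C_of_natDegree_le_zero hp
    have h4 : p.coeff 0 ≠ 0 := fun h => hp0 (by rw [h3, h, map_zero])
    obtain ⟨h5, h6, h7⟩ := hcst _ h4
    rw [h3, Polynomial.aeval_C]
    change ((p.coeff 0 : consts δ) : K) ≠ 0 ∧ P.ord ((p.coeff 0 : consts δ) : K) * _ =
      P'.ord ((p.coeff 0 : consts δ) : K) * _
    rw [h6, h7]
    exact ⟨h5, by simp⟩
  | succ n ih =>
    intro p hp hp0
    rw [aeval_divX p]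
    by_cases hd : p.divX = 0
    · have h3 : p.coeff 0 ≠ 0 := fun h => hp0 (by
        rw [← Polynomial.divX_mul_X_add p, hd, h, map_zero, zero_mul, add_zero])
      obtain ⟨h5, h6, h7⟩ := hcst _ h3
      rw [hd, map_zero, mul_zero, zero_add, h6, h7]
      exact ⟨h5, by simp⟩
    obtain ⟨h3, h4⟩ := ih p.divX (by
      rw [Polynomial.natDegree_divX_eq_natDegree_tsub_one]
      omega) hd
    have h5 : ∀ Q : Place k K, Horiz δ Q → 0 < Q.ord σ →
        0 < Q.ord (σ * Polynomial.aeval σ p.divX) := by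
      intro Q hQ hQσ
      rw [Q.ord_mul hσ0 h3]
      have h6 := (Q.reg_iff h3).1 (poly_reg hQ (Or.inr hQσ.le) p.divX)
      omega
    by_cases hc : p.coeff 0 = 0
    · rw [hc]
      change σ * _ + (0 : K) ≠ 0 ∧ P.ord (σ * _ + (0 : K)) * _ = P'.ord (σ * _ + (0 : K)) * _
      rw [add_zero, P.ord_mul hσ0 h3, P'.ord_mul hσ0 h3]
      refine ⟨mul_ne_zero hσ0 h3, ?_⟩
      linear_combination h4
    · obtain ⟨h6, h7, h8⟩ := hcst _ hc
      have h9 := P.ord_add_eq h6 (mul_ne_zero hσ0 h3) (by
        rw [h7]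
        exact h5 P hP h1)
      have h10 := P'.ord_add_eq h6 (mul_ne_zero hσ0 h3) (by
        rw [h8]
        exact h5 P' hP' h2)
      rw [add_comm, h9.2, h10.2, h7, h8]
      exact ⟨h9.1, by simp⟩

/-- There is only one place over the zero of `σ`. -/
theorem horiz_unique (hσ0 : σ ≠ 0) (htop : (consts δ)⟮σ⟯ = ⊤) (hP : Horiz δ P)
    (hP' : Horiz δ P') (h1 : 0 < P.ord σ) (h2 : 0 < P'.ord σ) : P = P' := by
  have key : ∀ f : K, P.ord f * P'.ord σ = P'.ord f * P.ord σ := by
    intro f
    by_cases hf : f = 0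
    · rw [hf, P.ord_zero, P'.ord_zero, zero_mul, zero_mul]
    have h3 : f ∈ (consts δ)⟮σ⟯ := by
      rw [htop]
      exact IntermediateField.mem_top
    obtain ⟨a, b, rfl⟩ := IntermediateField.mem_adjoin_simple_iff _ _ |>.1 h3
    have ha : a ≠ 0 := by
      rintro rfl
      simp at hf
    have hb : b ≠ 0 := by
      rintro rfl
      simp at hf
    obtain ⟨h4, h5⟩ := poly_ord hσ0 hP hP' h1 h2 a.natDegree a le_rfl ha
    obtain ⟨h6, h7⟩ := poly_ord hσ0 hP hP' h1 h2 b.natDegree b le_rfl hb
    rw [P.ord_div h4 h6, P'.ord_div h4 h6, sub_mul, sub_mul, h5, h7]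
  obtain ⟨t, ht0, ht⟩ := P.surj
  obtain ⟨t', ht'0, ht'⟩ := P'.surj
  have h3 := key t
  have h4 := key t'
  rw [ht, one_mul] at h3
  rw [ht', one_mul] at h4
  have h5 : P.ord σ = P'.ord σ := by
    have h6 : P.ord σ ∣ P'.ord σ := ⟨P'.ord t, by rw [h3]; ring⟩
    have h7 : P'.ord σ ∣ P.ord σ := ⟨P.ord t', by rw [← h4]; ring⟩
    exact Int.dvd_antisymm h1.le h2.le h6 h7
  apply Place.ext
  funext f
  have h6 := key f
  rw [h5] at h6
  exact mul_right_cancel₀ h2.ne' h6

/-- A multisection which does not meet the zero and the pole of `σ` is not tangent to `δ`. -/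
theorem not_derLog [CharZero k] (hσ0 : σ ≠ 0) (hσ : δ σ = σ) (htop : (consts δ)⟮σ⟯ = ⊤)
    (hP : Horiz δ P) (h0 : P.ord σ = 0) : ¬ DerLog P δ := by
  intro hlog
  have hK : CharZero K := charZero_of_injective_algebraMap (algebraMap k K).injective
  have hC : CharZero (consts δ) := charZero_of_injective_algebraMap
    (algebraMap k (consts δ)).injective
  -- no polynomial in `σ` vanishes at `P`
  have key : ∀ n : ℕ, ∀ p : Polynomial (consts δ), p.natDegree ≤ n → Polynomial.aeval σ p ≠ 0 →
      P.ord (Polynomial.aeval σ p) = 0 := by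
    intro n
    induction n with
    | zero =>
      intro p hp hp0
      have h3 := Polynomial.eq_C_of_natDegree_le_zero hp
      rw [h3, Polynomial.aeval_C] at hp0 ⊢
      exact hP _ (p.coeff 0).2 hp0
    | succ n ih =>
      intro p hp hp0
      have hδ : δ (Polynomial.aeval σ p) = σ * Polynomial.aeval σ (Polynomial.derivative p) := by
        have h1 : ∀ q : Polynomial (consts δ), δ (Polynomial.aeval σ q) =
            σ * Polynomial.aeval σ (Polynomial.derivative q) := by
          intro q
          induction q using Polynomial.induction_on' with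
          | add p q hp hq => simp only [map_add, hp, hq, mul_add]
          | monomial n a =>
            rw [Polynomial.aeval_monomial, Polynomial.derivative_monomial,
              Polynomial.aeval_monomial, δ.leibniz, δ.leibniz_pow, hσ]
            have h1 : δ (algebraMap (consts δ) K a) = 0 := a.2
            rw [h1, smul_zero, add_zero, map_mul, map_natCast]
            simp only [smul_eq_mul, nsmul_eq_mul]
            ring
        exact h1 p
      have hreg := poly_reg (p := p) hP (Or.inr h0.ge)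
      by_contra hne
      have hpos : 0 < P.ord (Polynomial.aeval σ p) := by
        have := (P.reg_iff hp0).1 hreg
        omega
      have h1 := hlog (Polynomial.aeval σ p)
      rw [hδ] at h1
      by_cases hd0 : Polynomial.aeval σ (Polynomial.derivative p) = 0
      · -- then `p` is constant on `C(σ)`
        have h2 : δ (Polynomial.aeval σ p) = 0 := by rw [hδ, hd0, mul_zero]
        exact hne (hP _ h2 hp0)
      · have h2 := ih (Polynomial.derivative p) (by
          have := Polynomial.natDegree_derivative_le p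
          omega) hd0
        rw [P.reg_iff (div_ne_zero (mul_ne_zero hσ0 hd0) hp0),
          P.ord_div (mul_ne_zero hσ0 hd0) hp0, P.ord_mul hσ0 hd0, h0, h2] at h1
        omega
  obtain ⟨t, ht0, ht⟩ := P.surj
  have h3 : t ∈ (consts δ)⟮σ⟯ := by
    rw [htop]
    exact IntermediateField.mem_top
  obtain ⟨a, b, hab⟩ := IntermediateField.mem_adjoin_simple_iff _ _ |>.1 h3
  have ha : Polynomial.aeval σ a ≠ 0 := by
    intro h
    rw [hab, h, zero_div] at ht0
    exact ht0 rfl
  have hb : Polynomial.aeval σ b ≠ 0 := by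
    intro h
    rw [hab, h, div_zero] at ht0
    exact ht0 rfl
  rw [hab, P.ord_div ha hb, key _ a le_rfl ha, key _ b le_rfl hb] at ht
  omega

end places

end Pool.Agent.N133.PC
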