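import Pool.Agent.N133.PC6
import Pool.Agent.N133.PC2
import Pool.Agent.Y172.Dim3
import Pool.Agent.Y191.Disc
import Pool.Agent.R887.Frm

/-!
Projective log canonical pairs on function fields with a dichotomy: the Kodaira dimension and the
numerical dimension (helper133).
-/

set_option autoImplicit false
set_option linter.overlappingInstances false
set_option linter.unusedSectionVars false

open FF IntermediateField Pool.Agent.W603.LV Pool.Agent.W602.GT
open Pool.Agent.Y172 (NormalModel IsPrimeDivisor Through OrdGe OrdEq Effective Integral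
  LogCanonical IsSection kodairaDim numericalDim IsFrame Centred chart)
open Pool.Agent.Y191 (LogDisc)

namespace Pool.Agent.N133.PC

section

variable {K : Type} [Field K] [Algebra ℂ K] {N n : ℕ} {y : Fin (N + 1) → K}

theorem exists_frame (hn : Algebra.trdeg ℂ K = n) :
    ∃ D : Fin n → Derivation ℂ K K, IsFrame D := by
  obtain ⟨x, E, hx, hE⟩ := Pool.Agent.Y172.exists_crd (k := ℂ) (K := K) hn
  refine ⟨E, fun F => ⟨fun j => F (x j), ?_⟩⟩
  refine Pool.Agent.W602.GT.der_ext x hx fun a => ?_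
  rw [Pool.Agent.Y172.sum_smul_apply, Finset.sum_eq_single a]
  · rw [hE, if_pos rfl, mul_one]
  · intro b _ hb
    rw [hE, if_neg hb, mul_zero]
  · intro h
    exact absurd (Finset.mem_univ a) h

/-- Log discrepancies of a log canonical pair are nonnegative. -/
theorem lc_disc {Δ : Place ℂ K → ℚ} (hLC : LogCanonical y n Δ) {Q : Place ℂ K}
    (hQ : Divisorial n Q) : LogDisc y n Δ Q 0 := by
  obtain ⟨r, hr, η, hη, h1, h2⟩ := hLC Q hQ
  refine Or.inr ⟨r, hr, η, hη, h1, ?_⟩
  have e : (r : ℚ) * (0 - 1) = -r := by ring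
  rw [e]
  exact h2

theorem pluri_smul' {w m : ℕ} {ω : (Fin w → Derivation ℂ K K) → K} (hω : IsPluri m ω) (a : K) :
    IsPluri m (fun D => a * ω D) := by
  intro A D
  have h1 := hω A D
  change a * ω _ = _ * (a * ω D)
  rw [h1]
  ring

/-- **Sections at all places.** The sections of `m (K_X + Δ) + A`, in terms of the log
discrepancies. -/
theorem secC_of_section (hy : NormalModel y) (hn : Algebra.trdeg ℂ K = n) {Δ A : Place ℂ K → ℚ}
    (hA : Effective y A) (hLC : LogCanonical y n Δ) :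
    ∃ S : Finset K, ∀ c : Place ℂ K → ℚ, (∀ Q, Divisorial n Q → LogDisc y n Δ Q (1 - c Q)) →
      ∀ m : ℕ, 1 ≤ m → ∀ ω, IsSection y n m (m • Δ + A) ω → SecC ℂ K n m c S 1 ω := by
  classical
  have hess := hy.ess
  obtain ⟨D, hD⟩ := exists_frame (K := K) hn
  choose s hs hs0 hsQ using fun j : Fin (N + 1) =>
    Pool.Agent.Y191.disc_bound (Δ := Δ) hy hA hD j
  refine ⟨Finset.univ.image fun j => (s j)⁻¹, fun c hc m hm ω hω => ⟨hω.1, ?_, ?_⟩⟩
  · intro Q hQ E hE
    obtain ⟨j, hj⟩ := Pool.Agent.Y172.exists_centred hy Q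
    have h1 := hsQ j Q hj 0 (lc_disc hLC hQ) m hm ω hω
    have h2 := Pool.Agent.Y172.log_ge hn hQ (pluri_smul' hω.1 (s j)) (fun F hF => by
      rcases h1 F hF with h3 | h3
      · exact Or.inl (by rw [h3, mul_zero])
      by_cases h4 : ω F = 0
      · exact Or.inl (by rw [h4, mul_zero])
      right
      rw [Q.ord_mul (hs0 j) h4]
      push_cast at h3 ⊢
      linarith) hE
    by_cases h3 : ω E = 0
    · exact Or.inl h3
    refine Or.inr ⟨(s j)⁻¹, Finset.mem_image_of_mem _ (Finset.mem_univ j),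
      inv_ne_zero (hs0 j), ?_⟩
    have h4 := h2.resolve_left (mul_ne_zero (hs0 j) h3)
    rw [Q.ord_mul (hs0 j) h3] at h4
    rw [Q.ord_inv]
    push_cast
    linarith
  · intro Q hQ E hE
    obtain ⟨j, hj⟩ := Pool.Agent.Y172.exists_centred hy Q
    have h1 := hsQ j Q hj (1 - c Q) (hc Q hQ) m hm ω hω E hE
    rcases h1 with h3 | h3
    · exact Or.inl h3
    refine Or.inr ⟨(s j)⁻¹, Finset.mem_image_of_mem _ (Finset.mem_univ j),
      inv_ne_zero (hs0 j), ?_⟩
    rw [Q.ord_inv]
    push_cast at h3 ⊢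
    linarith

/-- **Pairs on ruled varieties.** Let `δ` be a derivation with `δ σ = σ` such that the function
field of `X` is generated by `σ` over the constants of `δ`: the field of a one-parameter group, and
suppose that the pair `(X, Δ)` is log canonical, and klt along the divisor of the fixed points `σ = 0`,
and canonical along the other divisors over the generic point of the quotient. Then `K_X + Δ` is not
pseudo-effective. -/
theorem pair_not_psef (hy : NormalModel y) (hn : Algebra.trdeg ℂ K = n) {Δ : Place ℂ K → ℚ}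
    (hLC : LogCanonical y n Δ) (δ : Derivation ℂ K K) {σ : K} (hσ0 : σ ≠ 0) (hσ : δ σ = σ)
    (htop : (consts δ)⟮σ⟯ = ⊤)
    (hcan : ∀ Q, Divisorial n Q → Horiz δ Q → Q.ord σ = 0 → LogDisc y n Δ Q 1)
    (hklt : ∀ Q, Divisorial n Q → Horiz δ Q → 0 < Q.ord σ → ∃ α > 0, LogDisc y n Δ Q α)
    {A : Place ℂ K → ℚ} (hA : Effective y A) :
    kodairaDim y n Δ = ⊥ ∧ numericalDim y n Δ A = ⊥ := by
  classical
  -- the coefficients
  obtain ⟨c, c0, hc0, hc, hc1, hc2⟩ : ∃ (c : Place ℂ K → ℚ) (c0 : ℚ), c0 < 1 ∧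
      (∀ Q, Divisorial n Q → LogDisc y n Δ Q (1 - c Q)) ∧
      (∀ P, Horiz δ P → P.ord σ = 0 → c P = 0) ∧ ∀ P, Horiz δ P → 0 < P.ord σ → c P ≤ c0 := by
    by_cases hex : ∃ Q, Divisorial n Q ∧ Horiz δ Q ∧ 0 < Q.ord σ
    · obtain ⟨Q0, h1, h2, h3⟩ := hex
      obtain ⟨α, hα, hd⟩ := hklt Q0 h1 h2 h3
      refine ⟨fun Q => if Horiz δ Q ∧ Q.ord σ = 0 then 0 else if Q = Q0 then 1 - α else 1,
        1 - α, by linarith, fun Q hQ => ?_, fun P hP h0 => if_pos ⟨hP, h0⟩, fun P hP h4 => ?_⟩
      · dsimp only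
        split_ifs with h4 h5
        · rw [sub_zero]
          exact hcan Q hQ h4.1 h4.2
        · rw [h5]
          have e : (1 : ℚ) - (1 - α) = α := by ring
          rw [e]
          exact hd
        · rw [sub_self]
          exact lc_disc hLC hQ
      · have h5 : P = Q0 := horiz_unique hσ0 htop hP h2 h4 h3
        dsimp only
        rw [if_neg (fun h => by omega), if_pos h5]
    · push Not at hex
      refine ⟨fun Q => if Horiz δ Q ∧ (Q.ord σ = 0 ∨ ¬ Divisorial n Q) then 0 else 1,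
        1 / 2, by norm_num, fun Q hQ => ?_, fun P hP h0 => if_pos ⟨hP, Or.inl h0⟩,
        fun P hP h4 => ?_⟩
      · dsimp only
        split_ifs with h4
        · rw [sub_zero]
          exact hcan Q hQ h4.1 (h4.2.resolve_right fun h => h hQ)
        · rw [sub_self]
          exact lc_disc hLC hQ
      · dsimp only
        rw [if_pos]
        · norm_num
        · refine ⟨hP, Or.inr fun h => ?_⟩
          have := hex P h hP
          omega
  obtain ⟨S, hS⟩ := secC_of_section hy hn hA hLC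
  obtain ⟨N0, hN0⟩ := vanishC hn δ hσ0 hσ htop hc0 hc1 hc2 S
  refine Pool.Agent.Y172.not_psef hA fun hcon => ?_
  obtain ⟨m, hm, ω, hω, hω0⟩ := hcon (N0 + 1)
  apply hω0
  funext D
  exact hN0 1 one_pos m (by omega) ω (hS c hc m (by omega) ω hω) D

/-- **Pairs on varieties of general type.** -/
theorem pair_big (hy : NormalModel y) (hn : Algebra.trdeg ℂ K = n) {Δ : Place ℂ K → ℚ}
    (hΔ : Effective y Δ) (hgt : GeneralType ℂ K n) :
    kodairaDim y n Δ = (n : WithBot ℕ) ∧
      ∀ A, Effective y A → Integral y A → numericalDim y n Δ A = (n : EReal) := by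
  obtain ⟨D, hD⟩ := exists_frame (K := K) hn
  obtain ⟨-, M, hM, ω, h1, h2, E, hE, h3⟩ := hgt
  refine Pool.Agent.Y172.dims hΔ hD (fun A hA =>
    Pool.Agent.R887.sec_growth hy hn hΔ hA D) hM (ω := ω) (fun j => ⟨h1 j, fun P hP F hF => ?_⟩)
    hE h3
  by_cases h0 : ω j F = 0
  · exact Or.inl h0
  right
  have h4 := h2 P (hP.divisorial hy hn) j F hF
  rw [P.reg_iff h0] at h4
  have h5 : (0 : ℚ) ≤ (P.ord (ω j F) : ℚ) := by exact_mod_cast h4
  have h6 := hΔ.1 P hP
  rw [Pi.smul_apply, nsmul_eq_mul]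
  have h7 : (0 : ℚ) ≤ M * Δ P := mul_nonneg (Nat.cast_nonneg _) h6
  linarith

end

end Pool.Agent.N133.PC
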