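import Pool.Agent.N133.PC7

/-!
Projective log canonical pairs on varieties with diagonal one-parameter groups (helper133).
-/

set_option autoImplicit false
set_option linter.overlappingInstances false
set_option linter.unusedSectionVars false

open FF IntermediateField Pool.Agent.W603.LV Pool.Agent.W602.GT
open Pool.Agent.Y172 (NormalModel IsPrimeDivisor Through OrdGe OrdEq Effective Integral
  LogCanonical IsSection kodairaDim numericalDim IsFrame Centred chart)
open Pool.Agent.Y191 (LogDisc)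

namespace Pool.Agent.N133.PC

section defs

variable {K : Type} [Field K] [Algebra ℂ K] {N n : ℕ}

/-- The pair `(X, Δ)` is klt, `n` being the dimension of `X`: for every prime divisor `Q` over `X`
there is an `r`-canonical form `η` which generates `r (K_X + Δ)` at the centre of `Q` on `X` (its
order is `- r Δ P` along all prime divisors `P` of `X` through this centre), with order greater than
`- r` along `Q`. -/
def Klt (y : Fin (N + 1) → K) (n : ℕ) (Δ : Place ℂ K → ℚ) : Prop :=
  ∀ Q : Place ℂ K, Divisorial n Q → ∃ r : ℕ, 0 < r ∧ ∃ η : (Fin n → Derivation ℂ K K) → K,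
    IsPluri r η ∧ (∀ P, IsPrimeDivisor y P → Through y P Q → OrdEq P η (-(r * Δ P))) ∧
      ∃ b : ℚ, -r < b ∧ OrdGe Q η b

/-- The centre of the place `Q` on the variety with the homogeneous coordinates `z` of the generic
point lies on one of the coordinate hyperplanes (those which do not contain the variety). -/
def OverCoord {m : ℕ} (z : Fin (m + 1) → K) (Q : Place ℂ K) : Prop :=
  ∃ j l, z j ≠ 0 ∧ z l ≠ 0 ∧ Q.ord (z j) ≠ Q.ord (z l)

/-- The prime divisor `Q` is invariant under the one-parameter group `t ↦ diag (t ^ b_j)`: the vector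
field which generates the action (the derivation which multiplies `z j / z l` by `b j - b l`) is
tangent to `Q`. -/
def Tangent {m : ℕ} (z : Fin (m + 1) → K) (b : Fin (m + 1) → ℤ) (Q : Place ℂ K) : Prop :=
  ∀ δ : Derivation ℂ K K,
    (∀ j l, z l ≠ 0 → δ (z j / z l) = ((b j - b l : ℤ) : K) * (z j / z l)) → DerLog Q δ

theorem Klt.lc {y : Fin (N + 1) → K} {Δ : Place ℂ K → ℚ} (h : Klt y n Δ) :
    LogCanonical y n Δ := by
  intro Q hQ
  obtain ⟨r, hr, η, hη, h1, b, hb, h2⟩ := h Q hQ
  exact ⟨r, hr, η, hη, h1, Pool.Agent.Y172.OrdGe.mono h2 hb.le⟩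

theorem Klt.disc {y : Fin (N + 1) → K} {Δ : Place ℂ K → ℚ} (h : Klt y n Δ) {Q : Place ℂ K}
    (hQ : Divisorial n Q) : ∃ α > 0, LogDisc y n Δ Q α := by
  obtain ⟨r, hr, η, hη, h1, b, hb, h2⟩ := h Q hQ
  have hr' : (0 : ℚ) < r := by exact_mod_cast hr
  refine ⟨b / r + 1, ?_, Or.inr ⟨r, hr, η, hη, h1, ?_⟩⟩
  · have h3 : -1 < b / r := by
      rw [lt_div_iff₀ hr']
      linarith
    linarith
  · have e : (r : ℚ) * (b / r + 1 - 1) = b := by
      rw [add_sub_cancel_right, mul_div_cancel₀ _ hr'.ne']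
    rw [e]
    exact h2

end defs

section acts

variable {K : Type} [Field K] [Algebra ℂ K] {N w m : ℕ} {y : Fin (N + 1) → K}
  {z : Fin (m + 1) → K}

theorem derLog_of_smul {Q : Place ℂ K} {δ : Derivation ℂ K K} {g : ℤ} (hg : g ≠ 0)
    (h : DerLog Q ((g : K) • δ)) : DerLog Q δ := by
  intro f
  have h1 := h f
  rw [Derivation.smul_apply, smul_eq_mul] at h1
  have hK : CharZero K := charZero_of_injective_algebraMap (algebraMap ℂ K).injective
  have hg' : ((g : ℂ)) ≠ 0 := by exact_mod_cast hg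
  have e : δ f / f = algebraMap ℂ K ((g : ℂ)⁻¹) * ((g : K) * δ f / f) := by
    have h2 : algebraMap ℂ K ((g : ℂ)⁻¹) * (g : K) = 1 := by
      have h3 : (g : K) = algebraMap ℂ K (g : ℂ) := by rw [map_intCast]
      rw [h3, ← map_mul, inv_mul_cancel₀ hg', map_one]
    rw [mul_div_assoc, ← mul_assoc, h2, one_mul]
  rw [e]
  exact Q.reg_mul (Q.reg_const _) h1

/-- **One-parameter groups.** -/
theorem pair_acts {U : Set (Fin (m + 1))} (hy : NormalModel y) (hn : Algebra.trdeg ℂ K = w)
    {Δ : Place ℂ K → ℚ} (hLC : LogCanonical y w Δ) (hzU : ∀ j ∈ U, z j ≠ 0)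
    (hgen : coords ℂ z = ⊤) {b : Fin (m + 1) → ℤ}
    {i i' : Fin (m + 1)} (hi : z i ≠ 0) (hi' : z i' ≠ 0) (hb : b i ≠ b i')
    (hmin : ∀ j ∈ U, ∀ l, z l ≠ 0 → b j ≤ b l)
    (hH : ∀ G : MvPolynomial (Fin (m + 1)) ℂ, IsForm G → val z G = 0 →
      ∀ v, val z (wc b v G) = 0)
    (hcan : ∀ Q, Divisorial w Q → LogDisc y w Δ Q 1 ∨ OverCoord z Q ∨ Tangent z b Q)
    (hklt : ∀ Q, Divisorial w Q → ¬ OffU U z Q → ∃ α > 0, LogDisc y w Δ Q α)
    {A : Place ℂ K → ℚ} (hA : Effective y A) :
    kodairaDim y w Δ = ⊥ ∧ numericalDim y w Δ A = ⊥ := by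
  obtain ⟨δ, σ, g, b', hσ0, hσ, htop, hg, hb', hz⟩ := exists_delta hgen b hi hi' hb hH
  refine pair_not_psef hy hn hLC δ hσ0 hσ htop (fun Q hQ hP h0 => ?_) (fun Q hQ hP hPσ => ?_) hA
  · rcases hcan Q hQ with h1 | ⟨j, l, hj, hl, hne⟩ | h1
    · exact h1
    · exact absurd (by
        rw [ord_ratio hσ0 hi hz hP hj, ord_ratio hσ0 hi hz hP hl, h0, mul_zero, mul_zero]) hne
    · exfalso
      refine not_derLog hσ0 hσ htop hP h0 (derLog_of_smul hg.ne' (h1 ((g : K) • δ) ?_))
      have hδ : ∀ j, δ (z j / z i) = ((b' j : ℤ) : K) * (z j / z i) := by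
        intro j
        by_cases hj : z j = 0
        · rw [hj, zero_div, map_zero, mul_zero]
        obtain ⟨u, hu0, hu, hzj⟩ := hz j hj
        rw [hzj, δ.leibniz, hu, smul_zero, add_zero, smul_eq_mul, Derivation.leibniz_zpow]
        rw [hσ]
        simp only [smul_eq_mul, zsmul_eq_mul]
        have h2 : σ ^ (b' j - 1) * σ = σ ^ b' j := by
          rw [← zpow_add_one₀ hσ0, sub_add_cancel]
        linear_combination (u * (b' j : K)) * h2
      intro j l hl
      by_cases hj : z j = 0
      · rw [hj, zero_div, map_zero, mul_zero]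
      rw [Derivation.smul_apply, smul_eq_mul]
      have h2 : z j / z l = (z j / z i) / (z l / z i) := by
        field_simp
      have h3 : z l / z i ≠ 0 := div_ne_zero hl hi
      have h4 : δ (z j / z l) = ((b' j - b' l : ℤ) : K) * (z j / z l) := by
        rw [h2, Derivation.leibniz_div, hδ, hδ]
        simp only [smul_eq_mul]
        push_cast
        field_simp
      rw [h4, ← mul_assoc]
      congr 1
      have h5 := hb' j hj
      have h6 := hb' l hl
      have h7 : b j - b l = g * (b' j - b' l) := by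
        linear_combination h5 - h6
      rw [h7]
      push_cast
      ring
  · refine hklt Q hQ ?_
    rintro ⟨j, hj, l, hl, hlt⟩
    rw [ord_ratio hσ0 hi hz hP hl, ord_ratio hσ0 hi hz hP (hzU j hj)] at hlt
    have h2 := hmin j hj l hl
    have h3 := hb' l hl
    have h4 := hb' j (hzU j hj)
    have h5 : 0 ≤ g * (b' l - b' j) := by
      rw [mul_sub, ← h3, ← h4]
      linarith
    have h6 : 0 ≤ b' l - b' j := by
      by_contra hcon
      push Not at hcon
      have := mul_neg_of_pos_of_neg hg hcon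
      linarith
    have h7 := mul_nonneg h6 hPσ.le
    nlinarith

end acts

end Pool.Agent.N133.PC
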