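import Pool.Agent.Y192.KC.LPsef
import Pool.Agent.N133.PC8
import Pool.Agent.N133.PC3
import Pool.Agent.Y191.DimGe

/-!
Log canonical pairs on covers of arbitrary projective varieties: the vector field of a one-parameter
group (after `Pool.Agent.Y960.KA.acore`), and the dichotomies (helper133).
-/

set_option autoImplicit false
set_option linter.unusedVariables false
set_option linter.unusedSectionVars false

open MvPolynomial FF Pool.Agent.W602.GT IntermediateField Pool.Agent.Y192.KC Pool.Agent.Y270.KC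
open Pool.Agent.Y108.KC Pool.Agent.Y721.KZ

namespace Pool.Agent.N133.PC

variable {n r : ℕ} {X : ZCov n r} {m : ℕ} {L : Type} [Field L] [Algebra ℂ L]
  {t : Fin (n + 1) → L} {w : Fin r → L}

theorem acore2 (hm : 0 < m) (hem : ∀ j, X.e j ∣ m) (hF : ZField X m L t w)
    (l : Fin (n + 1) → ℤ) (hl : ∃ i j, l i ≠ l j) (hI : ∀ f ∈ X.I, ∀ k, wp l k f ∈ X.I)
    (a0 : ℤ) (ha0 : ∀ i, a0 ≤ l i) (i0 : Fin (n + 1)) (hi0 : l i0 = a0)
    (hkG : X.G - wp l (X.q * a0) X.G ∈ X.I)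
    (Dn H B S : Fin r → MvPolynomial (Fin (n + 1)) ℂ)
    (hDI : ∀ j, Dn j ∉ X.I) (hHI : ∀ j, H j ∉ X.I) (hBI : ∀ j, B j ∉ X.I) (hSI : ∀ j, S j ∉ X.I)
    (aD aH aB aS : Fin r → ℕ) (haD : ∀ j, (Dn j).IsHomogeneous (aD j))
    (haH : ∀ j, (H j).IsHomogeneous (aH j)) (haB : ∀ j, (B j).IsHomogeneous (aB j))
    (haS : ∀ j, (S j).IsHomogeneous (aS j))
    (hFS : ∀ j, Dn j * B j ^ X.e j * X.F j - H j * S j ^ X.e j ∈ X.I) (kD kH : Fin r → ℤ)
    (hkD : ∀ j, ∀ c ∈ (Dn j).support, ∑ i, l i * c i = kD j)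
    (hkH : ∀ j, ∀ c ∈ (H j).support, ∑ i, l i * c i = kH j) :
    ∃ (δ : Derivation ℂ L L) (σ : L) (E : IntermediateField ℂ L), σ ≠ 0 ∧ δ σ = σ ∧ E.FG ∧
      E ≤ consts δ ∧ E⟮σ⟯ = ⊤ ∧
      (∃ g : ℤ, 0 < g ∧ ∀ i, (g : L) * δ (t i / t 0) = ((l i - l 0 : ℤ) : L) * (t i / t 0)) ∧
      ∀ P : Place ℂ L, (∀ c, δ c = 0 → c ≠ 0 → P.ord c = 0) →
        (P.ord σ = 0 → ∀ i, P.ord (t i) = P.ord (t 0)) ∧ (0 ≤ P.ord σ →
        (∀ i, P.ord (t i0) ≤ P.ord (t i)) ∧
        P.ord (aeval (fun i => t i ^ m) X.G) = m * X.q * P.ord (t i0)) := by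
  classical
  have hchar := charL (L := L)
  have ne := t_ne hm hF 0
  set z : Fin (n + 1) → L := fun i => t i / t 0 with hz
  have hzne : ∀ i, z i ≠ 0 := fun i => div_ne_zero (t_ne hm hF i) ne
  have htz : ∀ i, t i = t 0 * z i := fun i => by rw [hz]; field_simp
  set ρ' : Fin r → L := fun j => w j / t 0 ^ X.wt m j with hρ'
  have hwt : ∀ j, X.wt m j * X.e j = m * X.d j := fun j =>
    Nat.div_mul_cancel ((hem j).mul_right _)
  have hρe : ∀ j, ρ' j ^ X.e j = aeval (fun i => z i ^ m) (X.F j) := by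
    intro j
    rw [hρ']
    simp only
    rw [div_pow, ← pow_mul, hwt, hF.eqn, ev_div hm hF (X.hF j), ← pow_mul]
    have : t 0 ^ (m * X.d j) ≠ 0 := pow_ne_zero _ ne
    exact mul_div_cancel_left₀ _ this
  have hFz : ∀ j, aeval (fun i => z i ^ m) (X.F j) ≠ 0 := fun j =>
    ev_div_ne hm hF (X.hF j) (X.hFI j)
  have hGz : aeval (fun i => z i ^ m) X.G ≠ 0 := ev_div_ne hm hF X.hG X.hGI
  have hHz : ∀ j, aeval (fun i => z i ^ m) (H j) ≠ 0 := fun j => ev_div_ne hm hF (haH j) (hHI j)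
  have hDz0 : ∀ j, aeval (fun i => z i ^ m) (Dn j) ≠ 0 := fun j =>
    ev_div_ne hm hF (haD j) (hDI j)
  have hBz : ∀ j, aeval (fun i => z i ^ m) (B j) ≠ 0 := fun j => ev_div_ne hm hF (haB j) (hBI j)
  have hSz : ∀ j, aeval (fun i => z i ^ m) (S j) ≠ 0 := fun j => ev_div_ne hm hF (haS j) (hSI j)
  obtain ⟨D, hDz⟩ := field_der hm hF hI
  have hDzm : ∀ i, Eig D (m * (l i - l 0)) (z i ^ m) := fun i => (hDz i).pow m
  have hDA : ∀ (A : MvPolynomial (Fin (n + 1)) ℂ) (kA : ℤ) (dA : ℕ), A.IsHomogeneous dA →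
      (∀ c ∈ A.support, ∑ i, l i * c i = kA) →
      Eig D (m * (kA - l 0 * dA)) (aeval (fun i => z i ^ m) A) := by
    intro A kA dA hA hkA
    refine Eig.aeval hDzm fun c hc => ?_
    have h1 := hkA c hc
    have h2 := sum_of_hom hA hc
    have h3 : ∑ i, (c i : ℤ) = dA := by exact_mod_cast h2
    calc ∑ i, m * (l i - l 0) * (c i : ℤ)
        = m * (∑ i, l i * c i - l 0 * ∑ i, (c i : ℤ)) := by
          rw [Finset.mul_sum, ← Finset.sum_sub_distrib, Finset.mul_sum]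
          exact Finset.sum_congr rfl fun i _ => by ring
      _ = _ := by rw [h1, h3]
  -- the functions `w'`
  set w' : Fin r → L := fun j => ρ' j * aeval (fun i => z i ^ m) (B j) /
    aeval (fun i => z i ^ m) (S j) with hw'
  have hFHS : ∀ j, aeval (fun i => z i ^ m) (Dn j) * aeval (fun i => z i ^ m) (B j) ^ X.e j *
      aeval (fun i => z i ^ m) (X.F j) =
      aeval (fun i => z i ^ m) (H j) * aeval (fun i => z i ^ m) (S j) ^ X.e j := by
    intro j
    have h1 := ev_div_mem hm hF (hFS j)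
    rw [map_sub, map_mul, map_mul, map_mul, map_pow, map_pow, sub_eq_zero] at h1
    exact h1
  have hw'e : ∀ j, w' j ^ X.e j =
      aeval (fun i => z i ^ m) (H j) * (aeval (fun i => z i ^ m) (Dn j))⁻¹ := by
    intro j
    rw [hw']
    simp only
    rw [div_pow, mul_pow, hρe, ← div_eq_mul_inv, div_eq_div_iff (pow_ne_zero _ (hSz j)) (hDz0 j),
      ← hFHS j]
    ring
  have hw'0 : ∀ j, w' j ≠ 0 := fun j h => mul_ne_zero (hHz j) (inv_ne_zero (hDz0 j))
    (by rw [← hw'e, h, zero_pow (X.he j).ne'])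
  set cj : Fin r → ℤ := fun j => ((m / X.e j : ℕ) : ℤ) *
    ((kH j - l 0 * aH j) - (kD j - l 0 * aD j)) with hcj
  have hDw : ∀ j, Eig D (cj j) (w' j) := by
    intro j
    refine Eig.root (hw'0 j) (X.he j) ?_
    rw [hw'e]
    have h1 : (X.e j : ℤ) * cj j = m * (kH j - l 0 * aH j) + -(m * (kD j - l 0 * aD j)) := by
      have h2 : ((m / X.e j : ℕ) : ℤ) * X.e j = m := by
        exact_mod_cast Nat.div_mul_cancel (hem j)
      rw [hcj]
      simp only
      rw [← mul_assoc, mul_comm (X.e j : ℤ), h2]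
      ring
    rw [h1]
    exact (hDA _ _ _ (haH j) (hkH j)).mul (hDA _ _ _ (haD j) (hkD j)).inv
  -- all generators and their weights
  set ρ : Fin (n + 1) ⊕ Fin r → L := Sum.elim z w' with hρ
  set a : Fin (n + 1) ⊕ Fin r → ℤ := Sum.elim (fun i => l i - l 0) cj with ha
  have hρ0 : ∀ x, ρ x ≠ 0 := by
    rintro (i | j)
    · exact hzne i
    · exact hw'0 j
  have hDρ : ∀ x, Eig D (a x) (ρ x) := by
    rintro (i | j)
    · exact hDz i
    · exact hDw j
  obtain ⟨g1, hg1⟩ : ∃ g : ℤ, Ideal.span (Set.range a) = Ideal.span {g} :=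
    (IsPrincipalIdealRing.principal (Ideal.span (Set.range a))).principal
  obtain ⟨g, hgn, hg⟩ : ∃ g : ℤ, 0 ≤ g ∧ Ideal.span (Set.range a) = Ideal.span {g} := by
    refine ⟨|g1|, abs_nonneg _, ?_⟩
    rw [hg1]
    rcases abs_choice g1 with h | h
    · rw [h]
    · rw [h, Ideal.span_singleton_neg]
  have hdvd : ∀ x, g ∣ a x := by
    intro x
    rw [← Ideal.mem_span_singleton, ← hg]
    exact Ideal.subset_span ⟨x, rfl⟩
  have hg0 : g ≠ 0 := by
    rintro rfl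
    obtain ⟨i, j, hij⟩ := hl
    have h1 := hdvd (Sum.inl i)
    have h2 := hdvd (Sum.inl j)
    rw [zero_dvd_iff] at h1 h2
    change l i - l 0 = 0 at h1
    change l j - l 0 = 0 at h2
    omega
  have hgpos : 0 < g := lt_of_le_of_ne hgn (Ne.symm hg0)
  obtain ⟨b, hb⟩ : ∃ b : Fin (n + 1) ⊕ Fin r → ℤ, ∑ x, b x * a x = g := by
    have h1 : g ∈ Ideal.span (Set.range a) := by
      rw [hg]; exact Ideal.mem_span_singleton_self g
    obtain ⟨b, hb⟩ := (Submodule.mem_span_range_iff_exists_fun ℤ).1 h1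
    exact ⟨b, hb⟩
  choose β hβ using hdvd
  set σ : L := ∏ x, ρ x ^ b x with hσ
  have hσ0 : σ ≠ 0 := Finset.prod_ne_zero_iff.2 fun x _ => zpow_ne_zero _ (hρ0 x)
  have hDσ : Eig D g σ := by
    rw [← hb]
    exact Eig.prod _ _ _ fun x _ => (hDρ x).zpow (b x)
  have hgL : (g : L) ≠ 0 := by exact_mod_cast hg0
  set δ : Derivation ℂ L L := ((g : ℂ)⁻¹) • D with hδ
  have hδD : ∀ f, δ f = (g : L)⁻¹ * D f := by
    intro f
    rw [hδ, Derivation.smul_apply, Algebra.smul_def]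
    simp
  have hδσ : δ σ = σ := by
    rw [hδD, show D σ = (g : L) * σ from hDσ]
    field_simp
  have hδ0 : ∀ f, Eig D 0 f → δ f = 0 := by
    intro f hf
    rw [hδD, show D f = ((0 : ℤ) : L) * f from hf]
    simp
  -- eigenvectors of weight `β * g`
  have hquot : ∀ (f : L) (k : ℤ), Eig D (g * k) f → δ (f / σ ^ k) = 0 := by
    intro f k hf
    apply hδ0
    rw [div_eq_mul_inv]
    have h1 := hf.mul (hDσ.zpow k).inv
    have h2 : g * k + -(k * g) = 0 := by ring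
    rwa [h2] at h1
  set E : IntermediateField ℂ L := IntermediateField.adjoin ℂ (Set.range fun x => ρ x / σ ^ β x)
    with hEdef
  have hEle : E ≤ consts δ := by
    rw [hEdef, IntermediateField.adjoin_le_iff]
    rintro _ ⟨x, rfl⟩
    exact hquot _ (β x) (by rw [← hβ]; exact hDρ x)
  refine ⟨δ, σ, E, hσ0, hδσ, ?_, hEle, ?_, ⟨g, hgpos, fun i => ?_⟩, ?_⟩
  · -- finitely generated
    refine ⟨Finset.univ.image fun x => ρ x / σ ^ β x, ?_⟩
    rw [Finset.coe_image, Finset.coe_univ, Set.image_univ]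
  · -- generation
    have hρm : ∀ x, ρ x ∈ E⟮σ⟯ := by
      intro x
      have h1 : ρ x = (ρ x / σ ^ β x) * σ ^ β x := by
        have : σ ^ β x ≠ 0 := zpow_ne_zero _ hσ0
        field_simp
      rw [h1]
      refine mul_mem ?_ (zpow_mem (IntermediateField.mem_adjoin_simple_self _ _) _)
      exact E⟮σ⟯.algebraMap_mem (⟨ρ x / σ ^ β x, IntermediateField.subset_adjoin _ _ ⟨x, rfl⟩⟩ : E)
    have hAm : ∀ A : MvPolynomial (Fin (n + 1)) ℂ, aeval (fun i => z i ^ m) A ∈ E⟮σ⟯ := by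
      intro A
      rw [aeval_def, eval₂_eq']
      refine sum_mem fun c _ => mul_mem ?_ (prod_mem fun i _ =>
        pow_mem (pow_mem (hρm (Sum.inl i)) _) _)
      exact ((E⟮σ⟯).restrictScalars ℂ).algebraMap_mem _
    have hle : (⊤ : IntermediateField ℂ L) ≤ (E⟮σ⟯).restrictScalars ℂ := by
      rw [← hF.gen, IntermediateField.adjoin_le_iff]
      rintro _ (⟨i, rfl⟩ | ⟨j, rfl⟩)
      · exact hρm (Sum.inl i)
      · change ρ' j ∈ E⟮σ⟯
        have h1 : ρ' j = w' j * aeval (fun i => z i ^ m) (S j) /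
            aeval (fun i => z i ^ m) (B j) := by
          rw [hw']
          simp only
          rw [div_mul_cancel₀ _ (hSz j), mul_div_cancel_right₀ _ (hBz j)]
        rw [h1]
        exact div_mem (mul_mem (hρm (Sum.inr j)) (hAm _)) (hAm _)
    rw [eq_top_iff]
    intro x _
    exact hle (IntermediateField.mem_top (x := x))
  · rw [hδD, ← mul_assoc, mul_inv_cancel₀ hgL, one_mul]
    exact hDz i
  · -- places
    intro P hP
    have hord : ∀ (f : L) (k : ℤ), f ≠ 0 → Eig D (g * k) f → P.ord f = k * P.ord σ := by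
      intro f k hf0 hf
      have hs : σ ^ k ≠ 0 := zpow_ne_zero _ hσ0
      have h1 := hP _ (hquot f k hf) (div_ne_zero hf0 hs)
      rw [P.ord_div hf0 hs, P.ord_zpow] at h1
      omega
    have hzi : ∀ i, P.ord (z i) = β (Sum.inl i) * P.ord σ := by
      intro i
      exact hord (z i) (β (Sum.inl i)) (hzne i) (by rw [← hβ]; exact hDz i)
    have hti : ∀ i, P.ord (t i) = P.ord (t 0) + β (Sum.inl i) * P.ord σ := by
      intro i
      rw [htz i, P.ord_mul ne (hzne i), hzi]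
    have hβl : ∀ i, l i - l 0 = g * β (Sum.inl i) := fun i => hβ (Sum.inl i)
    have hβ0 : ∀ i, β (Sum.inl i0) ≤ β (Sum.inl i) := by
      intro i
      have h1 := hβl i
      have h2 := hβl i0
      have h3 := ha0 i
      rw [← hi0] at h3
      have h4 : g * β (Sum.inl i0) ≤ g * β (Sum.inl i) := by rw [← h1, ← h2]; omega
      exact le_of_mul_le_mul_left h4 hgpos
    refine ⟨fun h0 i => by rw [hti i, h0, mul_zero, add_zero], fun hPσ => ⟨fun i => ?_, ?_⟩⟩
    · rw [hti i, hti i0]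
      have := mul_le_mul_of_nonneg_right (hβ0 i) hPσ
      omega
    · have hGw : aeval (fun i => z i ^ m) X.G = aeval (fun i => z i ^ m) (wp l (X.q * a0) X.G) := by
        have h1 := ev_div_mem hm hF hkG
        rw [map_sub, sub_eq_zero] at h1
        exact h1
      have h1 := hDA (wp l (X.q * a0) X.G) (X.q * a0) X.q (wp_isHom X.hG) (wp_hom l _ X.G)
      rw [← hGw] at h1
      have h2 : (m : ℤ) * (X.q * a0 - l 0 * X.q) = g * (m * X.q * β (Sum.inl i0)) := by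
        have h3 := hβl i0
        rw [hi0] at h3
        linear_combination (m : ℤ) * X.q * h3
      rw [h2] at h1
      have h3 := hord _ _ hGz h1
      rw [ev_div hm hF X.hG, P.ord_mul (pow_ne_zero _ (pow_ne_zero _ ne)) hGz, h3, P.ord_pow,
        P.ord_pow, hti i0]
      ring


section pairs

open Pool.Agent.Y172 (NormalModel IsPrimeDivisor Through OrdGe OrdEq Effective Integral
  LogCanonical IsSection kodairaDim numericalDim IsFrame Centred chart)
open Pool.Agent.Y191 (LogDisc)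

/-- The one-parameter group with the weights `l` acts nontrivially on projective space and preserves
`Z` and the essential branch divisors (see `ZRed`): on `Z`, the form `G` is homogeneous for the
weights `l`, and the `F j` are products of `e j`-th powers and quotients of forms which are
homogeneous for `l`. -/
def ZRedBy {n r : ℕ} (X : ZCov n r) (l : Fin (n + 1) → ℤ) : Prop :=
  (∃ i j, l i ≠ l j) ∧ (∀ f ∈ X.I, ∀ k, wp l k f ∈ X.I) ∧
    (∃ k, X.G - wp l k X.G ∈ X.I) ∧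
    ∀ j, ∃ D H S : MvPolynomial (Fin (n + 1)) ℂ, D ∉ X.I ∧ H ∉ X.I ∧ S ∉ X.I ∧ Hom l D ∧ Hom l H ∧
      (∃ a, D.IsHomogeneous a) ∧ (∃ a, H.IsHomogeneous a) ∧ (∃ a, S.IsHomogeneous a) ∧
      D * X.F j - H * S ^ X.e j ∈ X.I

/-- The one-parameter group with the weights `l` acts nontrivially on projective space, preserves `Z`
and the essential branch divisors, and for the points `x` of `Z` with `G ≠ 0` the limit of
`s ^ l * x` for `s → 0` satisfies `G ≠ 0` as well (see `ZLim`). -/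
def ZLimBy {n r : ℕ} (X : ZCov n r) (l : Fin (n + 1) → ℤ) : Prop :=
  (∃ i j, l i ≠ l j) ∧ (∀ f ∈ X.I, ∀ k, wp l k f ∈ X.I) ∧
    (∃ a : ℤ, (∀ i, a ≤ l i) ∧ (∃ i, l i = a) ∧ X.G - wp l (X.q * a) X.G ∈ X.I) ∧
    ∀ j, ∃ D H B S : MvPolynomial (Fin (n + 1)) ℂ, D ∉ X.I ∧ H ∉ X.I ∧ B ∉ X.I ∧ S ∉ X.I ∧
      Hom l D ∧ Hom l H ∧ (∃ a, D.IsHomogeneous a) ∧ (∃ a, H.IsHomogeneous a) ∧
      (∃ a, B.IsHomogeneous a) ∧ (∃ a, S.IsHomogeneous a) ∧
      D * B ^ X.e j * X.F j - H * S ^ X.e j ∈ X.I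

theorem zred_iff {n r : ℕ} (X : ZCov n r) : ZRed X ↔ ∃ l, ZRedBy X l := Iff.rfl

theorem zlim_iff {n r : ℕ} (X : ZCov n r) : ZLim X ↔ ∃ l, ZLimBy X l := Iff.rfl

theorem wp_one {n : ℕ} (l : Fin (n + 1) → ℤ) : wp l 0 (1 : MvPolynomial (Fin (n + 1)) ℂ) = 1 := by
  classical
  have h1 : (1 : MvPolynomial (Fin (n + 1)) ℂ).support = {0} := by
    rw [← MvPolynomial.C_1, MvPolynomial.support_C, if_neg one_ne_zero]
  unfold wp
  rw [h1, Finset.filter_true_of_mem, Finset.sum_singleton]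
  · simp
  · intro c hc
    rw [Finset.mem_singleton] at hc
    rw [hc]
    simp

theorem q_zero {n r : ℕ} (X : ZCov n r) (hG : X.G = 1) : X.q = 0 := by
  have h1 := X.hG
  rw [hG] at h1
  exact (MvPolynomial.isHomogeneous_one _ _).inj_right h1 one_ne_zero |>.symm

theorem zlimBy_of_zredBy {n r : ℕ} {X : ZCov n r} (hG : X.G = 1) {l : Fin (n + 1) → ℤ}
    (h : ZRedBy X l) : ZLimBy X l := by
  obtain ⟨h1, h2, -, h3⟩ := h
  refine ⟨h1, h2, ?_, fun j => ?_⟩
  · obtain ⟨i0, -, hi0⟩ := Finset.exists_min_image Finset.univ l Finset.univ_nonempty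
    refine ⟨l i0, fun i => hi0 i (Finset.mem_univ i), ⟨i0, rfl⟩, ?_⟩
    rw [hG, q_zero X hG, Nat.cast_zero, zero_mul, wp_one, sub_self]
    exact X.I.zero_mem
  · obtain ⟨D, H, S, hD, hH, hS, h4, h5, h6, h7, h8, h9⟩ := h3 j
    refine ⟨D, H, 1, S, hD, hH, fun h => X.prime.ne_top ((Ideal.eq_top_iff_one _).2 h), hS, h4, h5,
      h6, h7, ⟨0, MvPolynomial.isHomogeneous_one _ _⟩, h8, ?_⟩
    rw [one_pow, mul_one]
    exact h9

/-- **The pair is not pseudo-effective.** -/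
theorem kum_pair_neg {n r : ℕ} {X : ZCov n r} {m : ℕ} (hm : 0 < m) (hem : ∀ j, X.e j ∣ m)
    {L : Type} [Field L] [Algebra ℂ L] {t : Fin (n + 1) → L} {w : Fin r → L}
    (hF : ZField X m L t w) {d : ℕ} (hd : Algebra.trdeg ℂ L = d) {l : Fin (n + 1) → ℤ}
    (hlim : ZLimBy X l) {M : ℕ} {y : Fin (M + 1) → L} (hy : NormalModel y)
    {Δ : Place ℂ L → ℚ} (hLC : LogCanonical y d Δ)
    (hcan : ∀ Q, Divisorial d Q → LogDisc y d Δ Q 1 ∨ OverCoord t Q ∨ OffG X.toCov m t Q ∨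
      Tangent t l Q)
    (hklt : ∀ Q, Divisorial d Q → ¬ OffG X.toCov m t Q → ∃ α > 0, LogDisc y d Δ Q α)
    {A : Place ℂ L → ℚ} (hA : Effective y A) :
    kodairaDim y d Δ = ⊥ ∧ numericalDim y d Δ A = ⊥ := by
  obtain ⟨hl, hI, ⟨a0, ha0, ⟨i0, hi0⟩, hkG⟩, hH⟩ := hlim
  choose D H B S hDI hHI hBI hSI hDhom hHhom haD haH haB haS hFS using hH
  choose kD hkD using hDhom
  choose kH hkH using hHhom
  choose aD haD using haD
  choose aH haH using haH
  choose aB haB using haB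
  choose aS haS using haS
  obtain ⟨δ, σ, E, h1, h2, h3, h4, h5, ⟨g, hg, hgt⟩, h6⟩ := acore2 hm hem hF l hl hI a0 ha0 i0
    hi0 hkG D H B S hDI hHI hBI hSI aD aH aB aS haD haH haB haS hFS kD kH hkD hkH
  have htop : (consts δ)⟮σ⟯ = ⊤ := by
    have hle : (E⟮σ⟯).toSubfield ≤ ((consts δ)⟮σ⟯).toSubfield := by
      change Subfield.closure _ ≤ _
      rw [Subfield.closure_le]
      rintro y (⟨c, rfl⟩ | hy)
      · exact ((consts δ)⟮σ⟯).algebraMap_mem (⟨c, h4 c.2⟩ : consts δ)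
      · rw [Set.mem_singleton_iff.mp hy]
        exact IntermediateField.mem_adjoin_simple_self _ _
    rw [eq_top_iff]
    intro y _
    have hy : y ∈ E⟮σ⟯ := by
      rw [h5]
      exact IntermediateField.mem_top
    exact hle hy
  have hnoff : ∀ Q : Place ℂ L, Horiz δ Q → 0 ≤ Q.ord σ → ¬ OffG X.toCov m t Q := by
    intro Q hP hPσ hoff
    obtain ⟨h7, h8⟩ := (h6 Q hP).2 hPσ
    have := hoff (Q.ord (t i0)) h7 ⟨i0, rfl⟩
    rw [h8] at this
    exact lt_irrefl _ this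
  have h0 : t 0 ≠ 0 := hF.ne
  refine pair_not_psef hy hd hLC δ h1 h2 htop (fun Q hQ hP hσ => ?_)
    (fun Q hQ hP hσ => hklt Q hQ (hnoff Q hP hσ.le)) hA
  rcases hcan Q hQ with h7 | ⟨j, k, hj, hk, hne⟩ | h7 | h7
  · exact h7
  · exact absurd (by rw [(h6 Q hP).1 hσ j, (h6 Q hP).1 hσ k]) hne
  · exact absurd h7 (hnoff Q hP hσ.ge)
  · exfalso
    refine not_derLog h1 h2 htop hP hσ (derLog_of_smul hg.ne' (h7 ((g : L) • δ) ?_))
    intro j k hk
    have hz : ∀ i, ((g : L) • δ) (t i / t 0) = ((l i - l 0 : ℤ) : L) * (t i / t 0) := by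
      intro i
      rw [Derivation.smul_apply, smul_eq_mul]
      exact hgt i
    have e : t j / t k = (t j / t 0) / (t k / t 0) := by
      field_simp
    have h8 : t k / t 0 ≠ 0 := div_ne_zero hk h0
    rw [e, Derivation.leibniz_div, hz, hz]
    simp only [smul_eq_mul]
    push_cast
    field_simp
    ring

/-- **Kawamata log terminal pairs on covers.** -/
theorem kum_pair_klt {n r : ℕ} (X : ZCov n r) (hG : X.G = 1) :
    ∃ m0 : ℕ, ∀ m, m0 ≤ m → (∀ j, X.e j ∣ m) →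
      ∀ (L : Type) [Field L] [Algebra ℂ L] (t : Fin (n + 1) → L) (w : Fin r → L),
      ZField X m L t w → ∀ d : ℕ, 1 ≤ d → Algebra.trdeg ℂ L = d →
      ∀ (M : ℕ) (y : Fin (M + 1) → L), NormalModel y → ∀ Δ : Place ℂ L → ℚ, Effective y Δ →
      Klt y d Δ →
      (∀ Q, Divisorial d Q → LogDisc y d Δ Q 1 ∨ OverCoord t Q ∨ ∀ l, ZRedBy X l → Tangent t l Q) →
      (¬ ZRed X ∧ kodairaDim y d Δ = (d : WithBot ℕ) ∧
        ∀ A, Effective y A → Integral y A → numericalDim y d Δ A = (d : EReal)) ∨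
      (ZRed X ∧ kodairaDim y d Δ = ⊥ ∧ ∀ A, Effective y A → numericalDim y d Δ A = ⊥) := by
  obtain ⟨m0, hm0⟩ := dich_all X hG
  refine ⟨max m0 1, fun m hm he L _ _ t w hF d hd htr M y hy Δ hΔ hk hcan => ?_⟩
  have h := hm0 m ((le_max_left _ _).trans hm) he L t w hF d hd htr
  have hmp : 0 < m := lt_of_lt_of_le one_pos ((le_max_right _ _).trans hm)
  have e4 : ¬ GeneralType ℂ L d ↔ ZRed X := h.out 3 7
  by_cases hR : ZRed X
  · right
    obtain ⟨l, hl⟩ := (zred_iff X).1 hR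
    have key : ∀ A, Effective y A → kodairaDim y d Δ = ⊥ ∧ numericalDim y d Δ A = ⊥ := by
      intro A hA
      refine kum_pair_neg hmp he hF htr (zlimBy_of_zredBy hG hl) hy hk.lc (fun Q hQ => ?_)
        (fun Q hQ _ => hk.disc hQ) hA
      rcases hcan Q hQ with h1 | h1 | h1
      · exact Or.inl h1
      · exact Or.inr (Or.inl h1)
      · exact Or.inr (Or.inr (Or.inr (h1 l hl)))
    have h0 : Effective y (0 : Place ℂ L → ℚ) :=
      ⟨fun _ _ => le_rfl, Set.finite_empty.subset (by rintro P ⟨-, h⟩; exact h rfl)⟩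
    exact ⟨hR, (key 0 h0).1, fun A hA => (key A hA).2⟩
  · left
    have hgt : GeneralType ℂ L d := by
      by_contra hcon
      exact hR (e4.1 hcon)
    exact ⟨hR, pair_big hy htr hΔ hgt⟩

theorem kod_nonneg {K : Type} [Field K] [Algebra ℂ K] {N n : ℕ} {y : Fin (N + 1) → K}
    (hy : NormalModel y) (hn : Algebra.trdeg ℂ K = n) {Δ : Place ℂ K → ℚ} (hΔ : Effective y Δ)
    {M : ℕ} (hM : 0 < M) {ω : (Fin n → Derivation ℂ K K) → K}
    (hω : IsSection y n M (M • Δ) ω) {E : Fin n → Derivation ℂ K K} (hE : ω E ≠ 0) :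
    (0 : WithBot ℕ) ≤ kodairaDim y n Δ := by
  obtain ⟨D, hD⟩ := exists_frame (K := K) hn
  have h1 := Pool.Agent.Y191.dims_ge (k := 0) (a := n) hΔ hD (fun A hA =>
    Pool.Agent.R887.sec_growth hy hn hΔ hA D) hM (ω := fun _ => ω) (fun _ => hω) hE (by
      rw [algebraicIndependent_empty_type_iff]
      exact (algebraMap ℂ K).injective)
  exact h1

/-- **Log canonical pairs on covers.** -/
theorem kum_pair_lc {n r : ℕ} (X : ZCov n r) :
    ∃ m0 : ℕ, ∀ m, m0 ≤ m → (∀ j, X.e j ∣ m) →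
      ∀ (L : Type) [Field L] [Algebra ℂ L] (t : Fin (n + 1) → L) (w : Fin r → L),
      ZField X m L t w → ∀ d : ℕ, Algebra.trdeg ℂ L = d →
      ∀ (M : ℕ) (y : Fin (M + 1) → L), NormalModel y → ∀ Δ : Place ℂ L → ℚ, Effective y Δ →
      LogCanonical y d Δ → (∀ P, IsPrimeDivisor y P → OffG X.toCov m t P → 1 ≤ Δ P) →
      (∀ Q, Divisorial d Q → ¬ OffG X.toCov m t Q → ∃ α > 0, LogDisc y d Δ Q α) →
      (∀ Q, Divisorial d Q → LogDisc y d Δ Q 1 ∨ OverCoord t Q ∨ OffG X.toCov m t Q ∨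
        ∀ l, ZLimBy X l → Tangent t l Q) →
      (¬ ZLim X ∧ 0 ≤ kodairaDim y d Δ) ∨
      (ZLim X ∧ kodairaDim y d Δ = ⊥ ∧ ∀ A, Effective y A → numericalDim y d Δ A = ⊥) := by
  obtain ⟨m0, hm0⟩ := lpsef_all X
  refine ⟨max m0 1, fun m hm he L _ _ t w hF d htr M y hy Δ hΔ hLC hone hklt hcan => ?_⟩
  have h := hm0 m ((le_max_left _ _).trans hm) he L t w hF d htr
  have hmp : 0 < m := lt_of_lt_of_le one_pos ((le_max_right _ _).trans hm)
  by_cases hR : ZLim X
  · right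
    obtain ⟨l, hl⟩ := (zlim_iff X).1 hR
    have key : ∀ A, Effective y A → kodairaDim y d Δ = ⊥ ∧ numericalDim y d Δ A = ⊥ := by
      intro A hA
      refine kum_pair_neg hmp he hF htr hl hy hLC (fun Q hQ => ?_) hklt hA
      rcases hcan Q hQ with h1 | h1 | h1 | h1
      · exact Or.inl h1
      · exact Or.inr (Or.inl h1)
      · exact Or.inr (Or.inr (Or.inl h1))
      · exact Or.inr (Or.inr (Or.inr (h1 l hl)))
    have h0 : Effective y (0 : Place ℂ L → ℚ) :=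
      ⟨fun _ _ => le_rfl, Set.finite_empty.subset (by rintro P ⟨-, h⟩; exact h rfl)⟩
    exact ⟨hR, (key 0 h0).1, fun A hA => (key A hA).2⟩
  · left
    refine ⟨hR, ?_⟩
    have h2 : KodGe ℂ L d (OffG X.toCov m t) 0 := (h.out 1 3).2 hR
    obtain ⟨N0, hN0, ω, hω, D, hD, -⟩ := h2
    refine kod_nonneg hy htr hΔ hN0 (ω := ω 0) ⟨(hω 0).1, fun P hP E hE => ?_⟩ hD
    by_cases h3 : ω 0 E = 0
    · exact Or.inl h3
    right
    rw [Pi.smul_apply, nsmul_eq_mul]
    have hPd := hP.divisorial hy htr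
    by_cases hoff : OffG X.toCov m t P
    · have h4 := pole_of_log (hω 0).1 ((hω 0).2.1 P hPd) hE h3
      have h5 : (-(N0 : ℚ)) ≤ (P.ord (ω 0 E) : ℚ) := by exact_mod_cast h4
      have h6 : (N0 : ℚ) * 1 ≤ N0 * Δ P :=
        mul_le_mul_of_nonneg_left (hone P hP hoff) (Nat.cast_nonneg _)
      linarith
    · have h4 := (hω 0).2.2 P hPd hoff E hE
      rw [P.reg_iff h3] at h4
      have h5 : (0 : ℚ) ≤ (P.ord (ω 0 E) : ℚ) := by exact_mod_cast h4
      have h6 : (0 : ℚ) ≤ N0 * Δ P := mul_nonneg (Nat.cast_nonneg _) (hΔ.1 P hP)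
      linarith

end pairs

end Pool.Agent.N133.PC
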