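import Pool.Agent.N133.BT
import Pool.Agent.N133.Kum
import Pool.Agent.R869.WProj

/-!
Wide systems: hyperbolicity, special sets and general type for all projective varieties which are
birational to the components.
-/

set_option autoImplicit false
set_option linter.overlappingInstances false

open FF Pool.Agent.W602.GT Pool.Agent.R869.Wd
open Pool.Agent.W619.PQ (IsUniruled)
open Pool.Agent.R882.HY (NoRationalCurve BrodyHyperbolic SpRat SpH spRat_sub_spH spH_sub)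
open Pool.Agent.Y221.BD (PseudoBrody EntireCurve)

namespace Pool.Agent.N133.WB

theorem pseudo_of_brodyV {n : ℕ} {K : Type} [Field K] [Algebra ℂ K] {y : Fin (n + 1) → K}
    (h : BrodyV ∅ y) : PseudoBrody y := by
  obtain ⟨G, hG, hGy, hc⟩ := h
  refine ⟨G, hG, hGy, fun f hf t => ?_⟩
  refine hc (fun z i => f i z) (differentiable_pi.2 hf.hol) (fun z => ⟨⟨?_, fun P hP hPy => ?_⟩,
    fun j hj => absurd hj (Set.notMem_empty j)⟩) ?_ t
  · obtain ⟨i, hi⟩ := hf.ne z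
    exact Function.ne_iff.2 ⟨i, hi⟩
  · have h2 := hf.mem P hP hPy z
    unfold val
    rw [MvPolynomial.aeval_eq_eval]
    exact h2
  · obtain ⟨i, j, a, b, hab⟩ := hf.nonconst
    refine ⟨a, b, fun c hcc => hab ?_⟩
    have h1 := congrFun hcc i
    have h2 := congrFun hcc j
    simp only [Pi.smul_apply, smul_eq_mul] at h1 h2
    rw [h1, h2]
    ring

theorem wide_all {n : ℕ} {ι : Type} [Finite ι] {F : ι → MvPolynomial (Fin (n + 1)) ℂ} {s N : ℕ}
    (hC : Sys ∅ F s N) {K : Type} [Field K] [Algebra ℂ K] {w : ℕ} {y : Fin (n + 1) → K}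
    (hw : 1 ≤ w) (hy : SubVar F K w y) (hcomp : IsComponent F y)
    {M : ℕ} {x : Fin (M + 1) → K} (hx : x ≠ 0) (hgen : coords ℂ x = ⊤) :
    [GeneralType ℂ K w, KodGe ℂ K w (fun _ => False) 0, Psef ℂ K w (fun _ => False),
      ¬ Ruled ℂ K, ¬ IsUniruled ℂ K w, SpH x ≠ VarPts ℂ x, SpRat x ≠ VarPts ℂ x,
      ∀ b : Fin (n + 1) → ℤ, Acts ∅ ℂ y b → ∀ i i', y i ≠ 0 → y i' ≠ 0 → b i = b i'].TFAE ∧
    (NoRationalCurve x → GeneralType ℂ K w) ∧ (BrodyHyperbolic x → GeneralType ℂ K w) := by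
  have h1 := general_or_ruled hC hw hy hcomp
  have hyU : SubVarU ∅ F K w y := subVar_iff.2 hy
  have hU := componentU_of hcomp
  have h2 := four_comp hC hw hyU hU
  have hess : Algebra.EssFiniteType ℂ K := Pool.Agent.TH466.QG.SubVar.ess hy
  have e1 : GeneralType ℂ K w ↔ ¬ Ruled ℂ K := h1.out 0 1
  have e2 : GeneralType ℂ K w ↔ Psef ℂ K w (fun _ => False) := h1.out 0 2
  have e3 : LogGeneralType ℂ K w (OffU ∅ y) ↔ BrodyV ∅ y := h2.out 0 2
  have hd : GeneralType ℂ K w ∨ IsUniruled ℂ K w := by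
    by_cases hR : Ruled ℂ K
    · exact Or.inr (Pool.Agent.TH466.QG.neg_below (K := K) (L := K) hy.dim hR).1
    · exact Or.inl (e1.2 hR)
  obtain ⟨c1, c2, c3, c4⟩ := Pool.Agent.R882.HY.of_dichotomy hy.dim hd hx hgen
  refine ⟨?_, c3, c4⟩
  tfae_have 1 → 2 := fun h => kod_of_general h
  tfae_have 2 → 3 := fun h => psef_of_kodGe h
  tfae_have 3 → 1 := e2.2
  tfae_have 1 ↔ 4 := e1
  tfae_have 1 ↔ 5 := c1
  tfae_have 1 → 6 := fun h => Pool.Agent.N133.Kum.spH_ne hx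
    (Pool.Agent.N133.KB.brody_bir hy.ne hy.gen
      (pseudo_of_brodyV (e3.1 ((general_iff y).2 h))) hx hgen)
  tfae_have 6 → 7 := Pool.Agent.N133.Kum.spRat_ne
  tfae_have 7 → 1 := c2
  tfae_have 1 ↔ 8 := h1.out 0 3
  tfae_finish

end Pool.Agent.N133.WB
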