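import Pool.Agent.H159R3.NV.Factor

/-!
Removing the common zeros of entire functions in the whole plane.
-/

set_option autoImplicit false

namespace Pool.Agent.N133.WZ

open Filter Metric Set Topology Pool.Agent.H159R3.NV

/-- a nonvanishing holomorphic function on a disc has a logarithm -/
theorem exists_log {P : ℂ → ℂ} (hP : Differentiable ℂ P) {r : ℝ} (hr : 0 < r)
    (h0 : ∀ z ∈ ball (0 : ℂ) r, P z ≠ 0) :
    ∃ h : ℂ → ℂ, DifferentiableOn ℂ h (ball 0 r) ∧ ∀ z ∈ ball (0 : ℂ) r, Complex.exp (h z) = P z := by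
  have hmem0 : (0 : ℂ) ∈ ball (0 : ℂ) r := mem_ball_self hr
  have hdP : Differentiable ℂ (deriv P) := by
    rw [← differentiableOn_univ]
    exact hP.differentiableOn.deriv isOpen_univ
  have h1 : DifferentiableOn ℂ (fun z => deriv P z / P z) (ball 0 r) := by
    intro z hz
    exact ((hdP z).div (hP z) (h0 z hz)).differentiableWithinAt
  obtain ⟨g, hg0, hg⟩ := (h1.isExactOn_ball).with_val_at 0 (Complex.log (P 0))
  refine ⟨g, fun z hz => (hg z hz).differentiableAt.differentiableWithinAt, ?_⟩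
  have h2 : ∀ z ∈ ball (0 : ℂ) r, HasDerivAt (fun z => P z * Complex.exp (-g z)) 0 z := by
    intro z hz
    have h3 := ((hP z).hasDerivAt).mul ((hg z hz).neg.cexp)
    have h4 : deriv P z * Complex.exp (-g z) +
        P z * (Complex.exp (-g z) * -(deriv P z / P z)) = 0 := by
      have h5 : P z * (deriv P z / P z) = deriv P z := mul_div_cancel₀ _ (h0 z hz)
      linear_combination (-Complex.exp (-g z)) * h5
    have h6 : HasDerivAt (fun z => P z * Complex.exp (-g z)) (deriv P z * Complex.exp (-g z) +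
        P z * (Complex.exp (-g z) * -(deriv P z / P z))) z := h3
    rw [h4] at h6
    exact h6
  have h3 : ∀ z ∈ ball (0 : ℂ) r, P z * Complex.exp (-g z) = P 0 * Complex.exp (-g 0) := by
    intro z hz
    have hd : DifferentiableOn ℂ (fun z => P z * Complex.exp (-g z)) (ball 0 r) := fun z hz =>
      (h2 z hz).differentiableAt.differentiableWithinAt
    refine isOpen_ball.is_const_of_deriv_eq_zero ?_ hd ?_ hz hmem0
    · exact (convex_ball (0 : ℂ) r).isPreconnected
    · intro z hz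
      exact (h2 z hz).deriv
  intro z hz
  have h4 := h3 z hz
  rw [hg0, Complex.exp_neg, Complex.exp_neg, Complex.exp_log (h0 0 hmem0),
    mul_inv_cancel₀ (h0 0 hmem0)] at h4
  have h5 := Complex.exp_ne_zero (g z)
  field_simp at h4
  exact h4.symm

/-- Taylor polynomials -/
theorem exists_taylor {h : ℂ → ℂ} {r s : ℝ} (hs : 0 < s) (hsr : s < r)
    (hh : DifferentiableOn ℂ h (ball 0 r)) {ε : ℝ} (hε : 0 < ε) :
    ∃ T : ℂ → ℂ, Differentiable ℂ T ∧ ∀ z ∈ ball (0 : ℂ) s, ‖h z - T z‖ ≤ ε := by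
  obtain ⟨ρ, hρ1, hρ2⟩ := exists_between hsr
  have hρ0 : 0 < ρ := hs.trans hρ1
  obtain ⟨ρ', hρ'⟩ : ∃ ρ' : NNReal, (ρ' : ℝ) = ρ := ⟨⟨ρ, hρ0.le⟩, rfl⟩
  obtain ⟨s', hs'⟩ : ∃ s' : NNReal, (s' : ℝ) = s := ⟨⟨s, hs.le⟩, rfl⟩
  subst hρ' hs'
  have h1 : DifferentiableOn ℂ h (closedBall 0 (ρ' : ℝ)) :=
    hh.mono (closedBall_subset_ball hρ2)
  have h2 := h1.hasFPowerSeriesOnBall (by exact_mod_cast hρ0)
  have h3 : (s' : ENNReal) < (ρ' : ENNReal) := by
    exact_mod_cast hρ1
  have h4 := h2.tendstoUniformlyOn' h3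
  rw [Metric.tendstoUniformlyOn_iff] at h4
  obtain ⟨n, hn⟩ := (h4 ε hε).exists
  refine ⟨fun z => (cauchyPowerSeries h 0 ρ').partialSum n (z - 0), ?_, ?_⟩
  · unfold FormalMultilinearSeries.partialSum
    apply Differentiable.fun_sum
    intro k _
    simp only [FormalMultilinearSeries.apply_eq_pow_smul_coeff, sub_zero]
    exact (differentiable_id.pow k).smul_const _
  · intro z hz
    have h5 := hn z hz
    rw [dist_eq_norm] at h5
    exact h5.le

variable {ι : Type}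

/-- entire functions whose common zeros have absolute value at least `m + 1` -/
structure St (ι : Type) (j0 : ι) (m : ℕ) where
  v : ι → ℂ → ℂ
  diff : ∀ j, Differentiable ℂ (v j)
  base : v j0 0 ≠ 0
  ncz : ∀ z, ‖z‖ ≤ m + 1 → ∃ j, v j z ≠ 0

theorem step {j0 : ι} (m : ℕ) (s : St ι j0 m) :
    ∃ (s' : St ι j0 (m + 1)) (E σ : ℂ → ℂ), Differentiable ℂ E ∧ (∀ j z, s.v j z = E z * s'.v j z) ∧
      DifferentiableOn ℂ σ (ball 0 (m + 1)) ∧
      (∀ z ∈ ball (0 : ℂ) (m + 1), E z = Complex.exp (σ z)) ∧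
      ∀ z ∈ ball (0 : ℂ) m, ‖σ z‖ ≤ (1 / 2) ^ m := by
  obtain ⟨Z, w, hw, hfac, hZ, hne⟩ := factor_tuple s.v s.diff j0 s.base
    (ρ := (m : ℝ) + 2) (by positivity)
  have hZ2 : ∀ a ∈ Z, (m : ℝ) + 1 < ‖a‖ := by
    intro a ha
    by_contra hcon
    push Not at hcon
    obtain ⟨j, hj⟩ := s.ncz a hcon
    apply hj
    rw [hfac]
    have : P Z a = 0 := by
      unfold P
      rw [List.prod_eq_zero_iff]
      exact List.mem_map.mpr ⟨a, ha, sub_self a⟩
    rw [this, zero_mul]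
  have hP : ∀ z ∈ ball (0 : ℂ) (m + 1), P Z z ≠ 0 := by
    intro z hz
    refine P_ne Z z fun a ha hza => ?_
    have h1 := hZ2 a ha
    rw [mem_ball_zero_iff] at hz
    rw [hza] at hz
    linarith
  obtain ⟨h, hh, hexp⟩ := exists_log (P_diff Z) (r := (m : ℝ) + 1) (by positivity) hP
  obtain ⟨T, hT, hT2⟩ : ∃ T : ℂ → ℂ, Differentiable ℂ T ∧
      ∀ z ∈ ball (0 : ℂ) m, ‖h z - T z‖ ≤ (1 / 2) ^ m := by
    rcases Nat.eq_zero_or_pos m with rfl | hm
    · exact ⟨fun _ => 0, differentiable_const _, fun z hz => by simp at hz⟩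
    · exact exists_taylor (by exact_mod_cast hm) (by linarith : (m : ℝ) < m + 1) hh
        (by positivity)
  have hw0 : w j0 0 ≠ 0 := fun h0 => s.base (by rw [hfac, h0, mul_zero])
  refine ⟨⟨fun j z => Complex.exp (T z) * w j z, fun j => hT.cexp.mul (hw j), ?_, ?_⟩,
    fun z => P Z z * Complex.exp (-T z), fun z => h z - T z, (P_diff Z).mul hT.neg.cexp, ?_, ?_,
    ?_, hT2⟩
  · exact mul_ne_zero (Complex.exp_ne_zero _) hw0
  · intro z hz
    obtain ⟨j, hj⟩ := hne z (by push_cast at hz; linarith)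
    exact ⟨j, mul_ne_zero (Complex.exp_ne_zero _) hj⟩
  · intro j z
    rw [hfac]
    have : Complex.exp (-T z) * Complex.exp (T z) = 1 := by rw [← Complex.exp_add]; simp
    linear_combination (-(P Z z * w j z)) * this
  · exact hh.sub (hT.differentiableOn)
  · intro z hz
    change P Z z * Complex.exp (-T z) = Complex.exp (h z - T z)
    rw [Complex.exp_sub, hexp z hz, Complex.exp_neg]
    rfl

/-- **Removing the common zeros of entire functions.** -/
theorem reduce0 (u : ι → ℂ → ℂ) (hu : ∀ j, Differentiable ℂ (u j)) (j0 : ι) (h0 : u j0 0 ≠ 0) :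
    ∃ (g : ℂ → ℂ) (v : ι → ℂ → ℂ), Differentiable ℂ g ∧ (∀ j, Differentiable ℂ (v j)) ∧
      (∀ j z, u j z = g z * v j z) ∧ ∀ z, ∃ j, v j z ≠ 0 := by
  classical
  obtain ⟨Z, w, hw, hfac, hZ, hne⟩ := factor_tuple u hu j0 h0 (ρ := 1) one_pos
  have hw0 : w j0 0 ≠ 0 := fun h => h0 (by rw [hfac, h, mul_zero])
  let s0 : St ι j0 0 := ⟨w, hw, hw0, fun z hz => hne z (by simpa using hz)⟩
  choose nx E σ hE hfac' hσ hEσ hσ2 using fun (m : ℕ) (s : St ι j0 m) => step m s
  let sq : ∀ m, St ι j0 m := fun m => Nat.rec s0 (fun m s => nx m s) m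
  have sq_succ : ∀ m, sq (m + 1) = nx m (sq m) := fun m => rfl
  let e : ℕ → ℂ → ℂ := fun m => E m (sq m)
  let t : ℕ → ℂ → ℂ := fun m => σ m (sq m)
  have he : ∀ m, Differentiable ℂ (e m) := fun m => hE m (sq m)
  have hsq : ∀ m j z, (sq m).v j z = e m z * (sq (m + 1)).v j z := fun m => hfac' m (sq m)
  have ht : ∀ m : ℕ, DifferentiableOn ℂ (t m) (ball 0 ((m : ℝ) + 1)) := fun m => hσ m (sq m)
  have het : ∀ m : ℕ, ∀ z ∈ ball (0 : ℂ) ((m : ℝ) + 1), e m z = Complex.exp (t m z) := fun m => hEσ m (sq m)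
  have ht2 : ∀ m : ℕ, ∀ z ∈ ball (0 : ℂ) (m : ℝ), ‖t m z‖ ≤ (1 / 2) ^ m := fun m => hσ2 m (sq m)
  -- the partial products
  let Q : ℕ → ℂ → ℂ := fun m z => P Z z * ∏ k ∈ Finset.range m, e k z
  have hQ : ∀ m, Differentiable ℂ (Q m) := fun m =>
    (P_diff Z).mul (Differentiable.fun_finsetProd fun k _ => he k)
  have hQs : ∀ m z, Q (m + 1) z = Q m z * e m z := by
    intro m z
    change P Z z * _ = P Z z * _ * _
    rw [Finset.prod_range_succ, mul_assoc]
  have hQu : ∀ m j z, u j z = Q m z * (sq m).v j z := by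
    intro m
    induction m with
    | zero =>
      intro j z
      rw [hfac]
      change _ = P Z z * (∏ k ∈ Finset.range 0, e k z) * w j z
      simp
    | succ m ih =>
      intro j z
      rw [ih j z, hQs, hsq m j z]
      ring
  -- the sums of the logarithms
  let S : ℕ → ℂ → ℂ := fun m z => ∑' k : ℕ, t (m + k) z
  have hsm : ∀ m : ℕ, Summable fun k : ℕ => ((1 : ℝ) / 2) ^ (m + k) := by
    intro m
    have : Summable fun k : ℕ => ((1 : ℝ) / 2) ^ k := summable_geometric_two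
    simpa [pow_add] using this.mul_left (((1 : ℝ) / 2) ^ m)
  have hsub : ∀ m k : ℕ, ball (0 : ℂ) (m : ℝ) ⊆ ball (0 : ℂ) ((m + k : ℕ) : ℝ) := fun m k =>
    ball_subset_ball (by push_cast; linarith [(Nat.cast_nonneg k : (0 : ℝ) ≤ (k : ℝ))])
  have hS : ∀ m : ℕ, DifferentiableOn ℂ (S m) (ball 0 m) := by
    intro m
    refine Complex.differentiableOn_tsum_of_summable_norm (hsm m) (fun k => ?_) isOpen_ball ?_
    · refine (ht (m + k)).mono ((hsub m k).trans (ball_subset_ball ?_))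
      linarith
    · intro k z hz
      exact ht2 (m + k) z (hsub m k hz)
  have hSs : ∀ m : ℕ, ∀ z ∈ ball (0 : ℂ) (m : ℝ), S m z = t m z + S (m + 1) z := by
    intro m z hz
    have hsum : Summable fun k : ℕ => t (m + k) z :=
      Summable.of_norm_bounded (hsm m) fun k => ht2 (m + k) z (hsub m k hz)
    change ∑' k : ℕ, t (m + k) z = _
    rw [hsum.tsum_eq_zero_add]
    congr 1
    refine tsum_congr fun k => ?_
    rw [Nat.add_right_comm, Nat.add_assoc m k 1]
  let G : ℕ → ℂ → ℂ := fun m z => Q m z * Complex.exp (S m z)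
  let V : ℕ → ι → ℂ → ℂ := fun m j z => (sq m).v j z * Complex.exp (-S m z)
  have hG : ∀ m : ℕ, DifferentiableOn ℂ (G m) (ball 0 m) := fun m =>
    (hQ m).differentiableOn.mul (hS m).cexp
  have hV : ∀ (m : ℕ) j, DifferentiableOn ℂ (V m j) (ball 0 m) := fun m j =>
    ((sq m).diff j).differentiableOn.mul (hS m).neg.cexp
  have hGs : ∀ m : ℕ, ∀ z ∈ ball (0 : ℂ) (m : ℝ), G (m + 1) z = G m z := by
    intro m z hz
    change Q (m + 1) z * Complex.exp (S (m + 1) z) = Q m z * Complex.exp (S m z)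
    rw [hQs, hSs m z hz, Complex.exp_add, het m z (ball_subset_ball (by linarith) hz)]
    ring
  have hVs : ∀ (m : ℕ) j, ∀ z ∈ ball (0 : ℂ) (m : ℝ), V (m + 1) j z = V m j z := by
    intro m j z hz
    change (sq (m + 1)).v j z * Complex.exp (-S (m + 1) z) = (sq m).v j z * Complex.exp (-S m z)
    have h1 : Complex.exp (t m z) * Complex.exp (-t m z) = 1 := by
      rw [← Complex.exp_add]; simp
    rw [hsq m j z, hSs m z hz, neg_add, Complex.exp_add,
      het m z (ball_subset_ball (by linarith) hz)]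
    linear_combination (-((sq (m + 1)).v j z * Complex.exp (-S (m + 1) z))) * h1
  -- gluing
  let N : ℂ → ℕ := fun z => ⌊‖z‖⌋₊ + 1
  have hN : ∀ z, z ∈ ball (0 : ℂ) (N z : ℝ) := by
    intro z
    rw [mem_ball_zero_iff]
    have h1 := Nat.lt_floor_add_one ‖z‖
    change ‖z‖ < ((⌊‖z‖⌋₊ + 1 : ℕ) : ℝ)
    push_cast
    exact h1
  have hN2 : ∀ (m : ℕ) z, z ∈ ball (0 : ℂ) (m : ℝ) → N z ≤ m := by
    intro m z hz
    rw [mem_ball_zero_iff] at hz
    exact (Nat.floor_lt (norm_nonneg z)).mpr hz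
  have hmono : ∀ (m k : ℕ) z, z ∈ ball (0 : ℂ) (m : ℝ) → z ∈ ball (0 : ℂ) ((m + k : ℕ) : ℝ) :=
    fun m k z hz => hsub m k hz
  have hG' : ∀ (m : ℕ) z, z ∈ ball (0 : ℂ) (m : ℝ) → G (N z) z = G m z := by
    intro m z hz
    obtain ⟨k, hk⟩ := Nat.exists_eq_add_of_le (hN2 m z hz)
    rw [hk]
    clear hk hz
    induction k with
    | zero => rfl
    | succ k ih => rw [ih, ← Nat.add_assoc, hGs _ z (hmono _ k z (hN z))]
  have hV' : ∀ (m : ℕ) j z, z ∈ ball (0 : ℂ) (m : ℝ) → V (N z) j z = V m j z := by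
    intro m j z hz
    obtain ⟨k, hk⟩ := Nat.exists_eq_add_of_le (hN2 m z hz)
    rw [hk]
    clear hk hz
    induction k with
    | zero => rfl
    | succ k ih => rw [ih, ← Nat.add_assoc, hVs _ j z (hmono _ k z (hN z))]
  refine ⟨fun z => G (N z) z, fun j z => V (N z) j z, ?_, ?_, ?_, ?_⟩
  · intro z
    have h1 : (fun z => G (N z) z) =ᶠ[𝓝 z] G (N z) := by
      filter_upwards [isOpen_ball.mem_nhds (hN z)] with y hy
      exact hG' _ y hy
    exact (((hG (N z)) z (hN z)).differentiableAt (isOpen_ball.mem_nhds (hN z))).congr_of_eventuallyEq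
      h1
  · intro j z
    have h1 : (fun z => V (N z) j z) =ᶠ[𝓝 z] V (N z) j := by
      filter_upwards [isOpen_ball.mem_nhds (hN z)] with y hy
      exact hV' _ j y hy
    exact (((hV (N z) j) z (hN z)).differentiableAt
      (isOpen_ball.mem_nhds (hN z))).congr_of_eventuallyEq h1
  · intro j z
    change u j z = Q (N z) z * Complex.exp (S (N z) z) * ((sq (N z)).v j z * Complex.exp (-S (N z) z))
    rw [hQu (N z) j z]
    have h1 : Complex.exp (S (N z) z) * Complex.exp (-S (N z) z) = 1 := by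
      rw [← Complex.exp_add]; simp
    linear_combination (-(Q (N z) z * (sq (N z)).v j z)) * h1
  · intro z
    have h1 := hN z
    rw [mem_ball_zero_iff] at h1
    obtain ⟨j, hj⟩ := (sq (N z)).ncz z (by linarith)
    exact ⟨j, mul_ne_zero hj (Complex.exp_ne_zero _)⟩

/-- **Removing the common zeros of entire functions.** -/
theorem reduce (u : ι → ℂ → ℂ) (hu : ∀ j, Differentiable ℂ (u j)) {j0 : ι} {z0 : ℂ}
    (h0 : u j0 z0 ≠ 0) :
    ∃ (g : ℂ → ℂ) (v : ι → ℂ → ℂ), Differentiable ℂ g ∧ (∀ j, Differentiable ℂ (v j)) ∧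
      (∀ j z, u j z = g z * v j z) ∧ ∀ z, ∃ j, v j z ≠ 0 := by
  obtain ⟨g, v, hg, hv, h1, h2⟩ := reduce0 (fun j z => u j (z + z0))
    (fun j => (hu j).comp (differentiable_id.add_const z0)) j0 (by simpa using h0)
  refine ⟨fun z => g (z - z0), fun j z => v j (z - z0), hg.comp (differentiable_id.sub_const z0),
    fun j => (hv j).comp (differentiable_id.sub_const z0), fun j z => ?_, fun z => h2 _⟩
  have := h1 j (z - z0)
  simpa using this

end Pool.Agent.N133.WZ
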